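import Pool.Agent.H1.ND.D
import Pool.Agent.H1.EW.Fb
import Pool.Agent.H1.EW.Ga

/-!
ROW ND/Nb. Limits of the coefficients `fc`. `w = pt t = e^(it)/2`; all the curves `c + r (w + μ/w)` are in the ball of radius `4/5`, the functions `F j` are holomorphic
and bounded by a constant in the ball of radius `9/10` (contained in `E₁ (19/20) j`), so they are uniformly Lipschitz in the ball of radius `4/5` (`nbLip`).
`fcL`: dominated convergence (`nbL`). `fcD`: with a primitive `Φ` of `F` the coefficient is `n` times the coefficient of `Φ` on the curve (`nbParts`),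
`(Φ (z₂) - Φ (z₁))/d` tends to `F₀ (w) (γ + a w + β/w)` (`nbTay`), dominated.
-/

set_option autoImplicit false

namespace ND1

open Complex Set Filter Topology MeasureTheory EW1 EX1
open scoped ComplexConjugate ContDiff Real

theorem nbLip {F : ℂ → ℂ} {C : ℝ} (hd : DifferentiableOn ℂ F (Metric.ball 0 (9 / 10)))
    (hC : ∀ z ∈ Metric.ball (0 : ℂ) (9 / 10), ‖F z‖ ≤ C) {x y : ℂ} (hx : x ∈ Metric.ball (0 : ℂ) (4 / 5))
    (hy : y ∈ Metric.ball (0 : ℂ) (4 / 5)) : ‖F y - F x‖ ≤ 20 * C * ‖y - x‖ := by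
  have hsub : ∀ z ∈ Metric.ball (0 : ℂ) (4 / 5), Metric.closedBall z (1 / 20) ⊆ Metric.ball (0 : ℂ) (9 / 10) := by
    intro z hz z' hz'
    rw [mem_ball_zero_iff] at hz ⊢
    rw [mem_closedBall_iff_norm] at hz'
    have : ‖z'‖ ≤ ‖z‖ + ‖z' - z‖ := by
      have := norm_add_le z (z' - z)
      rwa [add_sub_cancel] at this
    linarith
  have hderiv : ∀ z ∈ Metric.ball (0 : ℂ) (4 / 5), ‖deriv F z‖ ≤ 20 * C := by
    intro z hz
    have h := Complex.norm_deriv_le_of_forall_mem_sphere_norm_le (c := z) (R := 1 / 20) (C := C) (f := F) (by norm_num)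
      (hd.mono (Metric.closure_ball_subset_closedBall.trans (hsub z hz))).diffContOnCl
      (fun z' hz' => hC z' (hsub z hz (Metric.sphere_subset_closedBall hz')))
    calc _ ≤ _ := h
      _ = 20 * C := by ring
  have hm : ∀ z ∈ Metric.ball (0 : ℂ) (4 / 5), z ∈ Metric.ball (0 : ℂ) (9 / 10) :=
    fun z hz => Metric.ball_subset_ball (by norm_num) hz
  exact (convex_ball (0 : ℂ) (4 / 5)).norm_image_sub_le_of_norm_deriv_le
    (fun z hz => (hd z (hm z hz)).differentiableAt (Metric.isOpen_ball.mem_nhds (hm z hz))) hderiv hx hy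

theorem nbTay {F Φ : ℂ → ℂ} {C : ℝ} (hC0 : 0 ≤ C) (hd : DifferentiableOn ℂ F (Metric.ball 0 (9 / 10)))
    (hC : ∀ z ∈ Metric.ball (0 : ℂ) (9 / 10), ‖F z‖ ≤ C)
    (hΦ : ∀ z ∈ Metric.ball (0 : ℂ) (9 / 10), HasDerivAt Φ (F z) z) {x y : ℂ} (hx : x ∈ Metric.ball (0 : ℂ) (4 / 5))
    (hy : y ∈ Metric.ball (0 : ℂ) (4 / 5)) : ‖Φ y - Φ x - F x * (y - x)‖ ≤ 20 * C * ‖y - x‖ * ‖y - x‖ := by
  have hm : ∀ z ∈ Metric.ball (0 : ℂ) (4 / 5), z ∈ Metric.ball (0 : ℂ) (9 / 10) :=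
    fun z hz => Metric.ball_subset_ball (by norm_num) hz
  have hconv : Convex ℝ (Metric.closedBall x ‖y - x‖ ∩ Metric.ball (0 : ℂ) (4 / 5)) :=
    (convex_closedBall _ _).inter (convex_ball _ _)
  have h := hconv.norm_image_sub_le_of_norm_hasDerivWithin_le (f := fun z => Φ z - F x * z) (f' := fun z => F z - F x * 1)
    (C := 20 * C * ‖y - x‖) (x := x) (y := y)
    (fun z hz => ((hΦ z (hm z hz.2)).sub ((hasDerivAt_id z).const_mul (F x))).hasDerivWithinAt)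
    (fun z hz => by
      rw [mul_one]
      refine (nbLip hd hC hx hz.2).trans ?_
      have h1 : ‖z - x‖ ≤ ‖y - x‖ := mem_closedBall_iff_norm.1 hz.1
      gcongr)
    ⟨Metric.mem_closedBall_self (norm_nonneg _), hx⟩ ⟨mem_closedBall_iff_norm.2 le_rfl, hy⟩
  have e : Φ y - Φ x - F x * (y - x) = (Φ y - F x * y) - (Φ x - F x * x) := by ring
  rw [e]
  exact h

theorem nb_ptn (t : ℝ) : ‖pt t‖ = 1 / 2 := by
  unfold pt
  rw [norm_mul, Complex.norm_exp_ofReal_mul_I, mul_one]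
  norm_num

theorem nb_pt0 (t : ℝ) : pt t ≠ 0 := by
  intro h
  have := nb_ptn t
  rw [h, norm_zero] at this
  norm_num at this

theorem nb_ptin (t : ℝ) : ‖(pt t)⁻¹‖ = 2 := by
  rw [norm_inv, nb_ptn]
  norm_num

theorem nb_ptc : Continuous pt := by
  unfold pt
  fun_prop

theorem nb_ptic : Continuous fun t => (pt t)⁻¹ := nb_ptc.inv₀ nb_pt0

/-- the curve -/
noncomputable def nbz (c : ℂ) (r : ℝ) (μ : ℂ) (t : ℝ) : ℂ := c + r * (pt t + μ * (pt t)⁻¹)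

noncomputable def nbg (r : ℝ) (μ : ℂ) (t : ℝ) : ℂ := r * (pt t - μ * (pt t)⁻¹)

theorem nbz_cont (c : ℂ) (r : ℝ) (μ : ℂ) : Continuous (nbz c r μ) :=
  continuous_const.add (continuous_const.mul (nb_ptc.add (continuous_const.mul nb_ptic)))

theorem nbg_cont (r : ℝ) (μ : ℂ) : Continuous (nbg r μ) :=
  continuous_const.mul (nb_ptc.sub (continuous_const.mul nb_ptic))

theorem nb_fc (c : ℂ) (r : ℝ) (μ : ℂ) (F : ℂ → ℂ) (n : ℕ) :
    fc c r μ F (1 / 2) n = (∫ t in (0 : ℝ)..(2 * π), F (nbz c r μ t) * nbg r μ t * (pt t)⁻¹ ^ n) / (2 * π) := by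
  have h : ∀ t : ℝ, ((1 / 2 : ℝ) : ℂ) * exp (t * I) = pt t := by
    intro t
    unfold pt
    push_cast
    ring
  unfold fc
  simp only [h]
  rfl

/-- the bounds on the parameters -/
structure NbPB (c : ℂ) (r : ℝ) (μ : ℂ) : Prop where
  c : ‖c‖ ≤ 1 / 100
  r : |r - 1| ≤ 1 / 100
  μ : ‖μ‖ ≤ 1 / 100

theorem NbPB.rr {c : ℂ} {r : ℝ} {μ : ℂ} (h : NbPB c r μ) : ‖(r : ℂ)‖ ≤ 101 / 100 := by
  have h1 := abs_le.1 h.r
  rw [Complex.norm_real, Real.norm_eq_abs, abs_le]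
  constructor <;> linarith

theorem NbPB.z {c : ℂ} {r : ℝ} {μ : ℂ} (h : NbPB c r μ) (t : ℝ) : nbz c r μ t ∈ Metric.ball (0 : ℂ) (4 / 5) := by
  rw [mem_ball_zero_iff]
  have h1 : ‖pt t + μ * (pt t)⁻¹‖ ≤ 52 / 100 := by
    refine (norm_add_le _ _).trans ?_
    rw [norm_mul, nb_ptn, nb_ptin]
    have := h.μ
    linarith
  have h2 : ‖(r : ℂ) * (pt t + μ * (pt t)⁻¹)‖ ≤ 101 / 100 * (52 / 100) := by
    rw [norm_mul]
    have := h.rr
    gcongr
  have h3 := norm_add_le c ((r : ℂ) * (pt t + μ * (pt t)⁻¹))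
  have h4 := h.c
  show ‖c + (r : ℂ) * (pt t + μ * (pt t)⁻¹)‖ < 4 / 5
  linarith

theorem NbPB.g {c : ℂ} {r : ℝ} {μ : ℂ} (h : NbPB c r μ) (t : ℝ) : ‖nbg r μ t‖ ≤ 1 := by
  have h1 : ‖pt t - μ * (pt t)⁻¹‖ ≤ 52 / 100 := by
    refine (norm_sub_le _ _).trans ?_
    rw [norm_mul, nb_ptn, nb_ptin]
    have := h.μ
    linarith
  have h2 : ‖(r : ℂ) * (pt t - μ * (pt t)⁻¹)‖ ≤ 101 / 100 * (52 / 100) := by
    rw [norm_mul]
    have := h.rr
    gcongr
  show ‖(r : ℂ) * (pt t - μ * (pt t)⁻¹)‖ ≤ 1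
  linarith

/-- what is used about the sequence of functions -/
structure NbFB (C : ℝ) (F : ℕ → ℂ → ℂ) (F₀ : ℂ → ℂ) : Prop where
  pos : 0 ≤ C
  hol : ∀ j, DifferentiableOn ℂ (F j) (Metric.ball 0 (9 / 10))
  bd : ∀ j, ∀ z ∈ Metric.ball (0 : ℂ) (9 / 10), ‖F j z‖ ≤ C
  lim : ∀ z ∈ Metric.ball (0 : ℂ) 1, Tendsto (fun j => F j z) atTop (𝓝 (F₀ z))

theorem nbFB {S : Sq} {a : ℝ} {γ β : ℂ} (hS : Lim S a γ β) {F : ℕ → ℂ → ℂ} {F₀ : ℂ → ℂ} (hF : LB S F F₀) :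
    ∃ C : ℝ, NbFB C F F₀ := by
  obtain ⟨C, hC⟩ := hF.bd (19 / 20) (by norm_num) (by norm_num)
  have hsub : ∀ j, ∀ z ∈ Metric.ball (0 : ℂ) (9 / 10), ‖vv 0 1 (S.μ₁ j) z‖ < 19 / 20 := by
    intro j z hz
    rw [mem_ball_zero_iff] at hz
    have h1 := hS.m1 j
    have h0 := norm_nonneg (S.μ₁ j)
    have hz0 := norm_nonneg z
    have h2 : ‖S.μ₁ j‖ ^ 2 ≤ 1 / 10000 := by nlinarith
    unfold vv
    have hp : (0 : ℝ) < 1 * (1 - ‖S.μ₁ j‖ ^ 2) := by linarith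
    rw [norm_div, Complex.norm_real, Real.norm_eq_abs, abs_of_pos hp, div_lt_iff₀ hp, sub_zero]
    refine (norm_sub_le _ _).trans_lt ?_
    rw [norm_mul, RCLike.norm_conj]
    nlinarith
  refine ⟨C, ?_, ?_, ?_, hF.lim⟩
  · refine (norm_nonneg _).trans (hC 0 0 (Or.inl (hsub 0 0 (by simp))))
  · intro j
    obtain ⟨N, _, hN, _, hd⟩ := hF.hol j
    exact hd.mono fun z hz => hN (le_of_lt ((hsub j z hz).trans (by norm_num)))
  · intro j z hz
    exact hC j z (Or.inl (hsub j z hz))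

/-- limits of values at moving points -/
theorem nbVal {C : ℝ} {F : ℕ → ℂ → ℂ} {F₀ : ℂ → ℂ} (hF : NbFB C F F₀) {x : ℕ → ℂ} {y : ℂ} (hx : ∀ j, x j ∈ Metric.ball (0 : ℂ) (4 / 5))
    (hy : y ∈ Metric.ball (0 : ℂ) (4 / 5)) (h : Tendsto x atTop (𝓝 y)) : Tendsto (fun j => F j (x j)) atTop (𝓝 (F₀ y)) := by
  have h1 : Tendsto (fun j => F j (x j) - F j y) atTop (𝓝 0) := by
    have h2 : Tendsto (fun j => 20 * C * ‖x j - y‖) atTop (𝓝 (20 * C * ‖y - y‖)) :=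
      ((h.sub_const y).norm).const_mul _
    rw [sub_self, norm_zero, mul_zero] at h2
    exact squeeze_zero_norm (fun j => nbLip (hF.hol j) (hF.bd j) hy (hx j)) h2
  have h3 := h1.add (hF.lim y (Metric.ball_subset_ball (by norm_num) hy))
  rw [zero_add] at h3
  refine h3.congr fun j => ?_
  ring

/-- limit of the coefficients -/
theorem nbL {C : ℝ} {F : ℕ → ℂ → ℂ} {F₀ : ℂ → ℂ} (hF : NbFB C F F₀) {c : ℕ → ℂ} {r : ℕ → ℝ} {μ : ℕ → ℂ}
    (hP : ∀ j, NbPB (c j) (r j) (μ j)) (hc : Tendsto c atTop (𝓝 0)) (hr : Tendsto r atTop (𝓝 1)) (hμ : Tendsto μ atTop (𝓝 0)) (n : ℕ) :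
    Tendsto (fun j => fc (c j) (r j) (μ j) (F j) (1 / 2) (n + 1)) atTop (𝓝 (co F₀ n)) := by
  have hzl : ∀ t, Tendsto (fun j => nbz (c j) (r j) (μ j) t) atTop (𝓝 (pt t)) := by
    intro t
    have h1 : Tendsto (fun j => c j + (r j : ℂ) * (pt t + μ j * (pt t)⁻¹)) atTop (𝓝 (0 + ((1 : ℝ) : ℂ) * (pt t + 0 * (pt t)⁻¹))) :=
      hc.add (((Complex.continuous_ofReal.tendsto 1).comp hr).mul (tendsto_const_nhds.add (hμ.mul_const _)))
    have e : 0 + ((1 : ℝ) : ℂ) * (pt t + 0 * (pt t)⁻¹) = pt t := by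
      push_cast
      ring
    rw [e] at h1
    exact h1
  have hgl : ∀ t, Tendsto (fun j => nbg (r j) (μ j) t) atTop (𝓝 (pt t)) := by
    intro t
    have h1 : Tendsto (fun j => (r j : ℂ) * (pt t - μ j * (pt t)⁻¹)) atTop (𝓝 (((1 : ℝ) : ℂ) * (pt t - 0 * (pt t)⁻¹))) :=
      ((Complex.continuous_ofReal.tendsto 1).comp hr).mul (tendsto_const_nhds.sub (hμ.mul_const _))
    have e : ((1 : ℝ) : ℂ) * (pt t - 0 * (pt t)⁻¹) = pt t := by
      push_cast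
      ring
    rw [e] at h1
    exact h1
  have hpb : ∀ t, pt t ∈ Metric.ball (0 : ℂ) (4 / 5) := by
    intro t
    rw [mem_ball_zero_iff, nb_ptn]
    norm_num
  have hint : Tendsto (fun j => ∫ t in (0 : ℝ)..(2 * π), F j (nbz (c j) (r j) (μ j) t) * nbg (r j) (μ j) t * (pt t)⁻¹ ^ (n + 1)) atTop
      (𝓝 (∫ t in (0 : ℝ)..(2 * π), F₀ (pt t) * pt t ^ (-(n : ℤ)))) := by
    refine intervalIntegral.tendsto_integral_filter_of_dominated_convergence (fun _ => C * 1 * 2 ^ (n + 1)) ?_ ?_ ?_ ?_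
    · refine Eventually.of_forall fun j => ?_
      have h1 : Continuous fun t => F j (nbz (c j) (r j) (μ j) t) :=
        (hF.hol j).continuousOn.comp_continuous (nbz_cont _ _ _) fun t => Metric.ball_subset_ball (by norm_num) ((hP j).z t)
      exact ((h1.mul (nbg_cont _ _)).mul (nb_ptic.pow _)).aestronglyMeasurable
    · refine Eventually.of_forall fun j => Eventually.of_forall fun t _ => ?_
      rw [norm_mul, norm_mul, norm_pow, nb_ptin]
      have h1 := hF.bd j _ (Metric.ball_subset_ball (by norm_num) ((hP j).z t))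
      have h2 := (hP j).g t
      have h3 := hF.pos
      gcongr
    · exact intervalIntegrable_const
    · refine Eventually.of_forall fun t _ => ?_
      have h1 := ((nbVal hF (fun j => (hP j).z t) (hpb t) (hzl t)).mul (hgl t)).mul_const ((pt t)⁻¹ ^ (n + 1))
      have e : F₀ (pt t) * pt t * (pt t)⁻¹ ^ (n + 1) = F₀ (pt t) * pt t ^ (-(n : ℤ)) := by
        have hp := nb_pt0 t
        rw [zpow_neg, zpow_natCast, pow_succ, inv_pow]
        field_simp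
      rw [e] at h1
      exact h1
  have h2 := hint.div_const (2 * π : ℂ)
  refine h2.congr fun j => ?_
  rw [nb_fc]

/-- integration by parts -/
theorem nbParts {F Φ : ℂ → ℂ} (hd : DifferentiableOn ℂ F (Metric.ball 0 (9 / 10)))
    (hΦ : ∀ z ∈ Metric.ball (0 : ℂ) (9 / 10), HasDerivAt Φ (F z) z) {c : ℂ} {r : ℝ} {μ : ℂ} (hP : NbPB c r μ) (n : ℕ) :
    fc c r μ F (1 / 2) n = n * ((∫ t in (0 : ℝ)..(2 * π), Φ (nbz c r μ t) * (pt t)⁻¹ ^ n) / (2 * π)) := by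
  have hz : ∀ t, nbz c r μ t ∈ Metric.ball (0 : ℂ) (9 / 10) := fun t => Metric.ball_subset_ball (by norm_num) (hP.z t)
  have hpd : ∀ t : ℝ, HasDerivAt pt (I * pt t) t := by
    intro t
    have h1 : HasDerivAt (fun s : ℝ => ((s : ℂ) * I)) (1 * I) t := (hasDerivAt_id t).ofReal_comp.mul_const I
    have h2 := (h1.cexp).const_mul (1 / 2 : ℂ)
    have e : (1 / 2 : ℂ) * (exp ((t : ℂ) * I) * (1 * I)) = I * pt t := by
      unfold pt
      ring
    rw [e] at h2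
    exact h2
  have hpi : ∀ t : ℝ, HasDerivAt (fun t => (pt t)⁻¹) (-(I * (pt t)⁻¹)) t := by
    intro t
    have h1 := (hpd t).fun_inv (nb_pt0 t)
    have e : -(I * pt t) / pt t ^ 2 = -(I * (pt t)⁻¹) := by
      have := nb_pt0 t
      field_simp
    rw [e] at h1
    exact h1
  have hzd : ∀ t : ℝ, HasDerivAt (nbz c r μ) (I * nbg r μ t) t := by
    intro t
    have h1 := (((hpd t).add ((hpi t).const_mul μ)).const_mul (r : ℂ)).const_add c
    have e : (r : ℂ) * (I * pt t + μ * -(I * (pt t)⁻¹)) = I * nbg r μ t := by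
      unfold nbg
      ring
    rw [e] at h1
    exact h1
  have hFc : Continuous fun t => F (nbz c r μ t) := hd.continuousOn.comp_continuous (nbz_cont _ _ _) hz
  have hΦo : ContinuousOn Φ (Metric.ball 0 (9 / 10)) := fun z hz => (hΦ z hz).continuousAt.continuousWithinAt
  have hΦc : Continuous fun t => Φ (nbz c r μ t) := hΦo.comp_continuous (nbz_cont _ _ _) hz
  have hD : ∀ t : ℝ, HasDerivAt (fun t => Φ (nbz c r μ t) * (pt t)⁻¹ ^ n)
      (I * (F (nbz c r μ t) * nbg r μ t * (pt t)⁻¹ ^ n) - I * (n * (Φ (nbz c r μ t) * (pt t)⁻¹ ^ n))) t := by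
    intro t
    have h1 := HasDerivAt.comp_of_eq t (hΦ _ (hz t)) (hzd t) rfl
    have h2 := (hpi t).fun_pow n
    have h3 := HasDerivAt.mul h1 h2
    have e : F (nbz c r μ t) * (I * nbg r μ t) * (pt t)⁻¹ ^ n + Φ (nbz c r μ t) * (n * (pt t)⁻¹ ^ (n - 1) * -(I * (pt t)⁻¹)) =
        I * (F (nbz c r μ t) * nbg r μ t * (pt t)⁻¹ ^ n) - I * (n * (Φ (nbz c r μ t) * (pt t)⁻¹ ^ n)) := by
      rcases Nat.eq_zero_or_pos n with h0 | h0
      · subst h0
        simp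
        ring
      · obtain ⟨m, rfl⟩ := Nat.exists_eq_succ_of_ne_zero h0.ne'
        simp only [Nat.succ_eq_add_one, Nat.add_sub_cancel]
        rw [pow_succ]
        ring
    rw [← e]
    exact h3
  have hI1 : IntervalIntegrable (fun t => F (nbz c r μ t) * nbg r μ t * (pt t)⁻¹ ^ n) volume 0 (2 * π) :=
    ((hFc.mul (nbg_cont _ _)).mul (nb_ptic.pow _)).intervalIntegrable _ _
  have hI2 : IntervalIntegrable (fun t => Φ (nbz c r μ t) * (pt t)⁻¹ ^ n) volume 0 (2 * π) :=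
    (hΦc.mul (nb_ptic.pow _)).intervalIntegrable _ _
  have h4 := intervalIntegral.integral_eq_sub_of_hasDerivAt (fun t _ => hD t)
    ((hI1.const_mul I).sub ((hI2.const_mul (n : ℂ)).const_mul I))
  have hper : pt (2 * π) = pt 0 := by
    unfold pt
    push_cast
    rw [Complex.exp_two_pi_mul_I, zero_mul, Complex.exp_zero]
  have h5 : Φ (nbz c r μ (2 * π)) * (pt (2 * π))⁻¹ ^ n - Φ (nbz c r μ 0) * (pt 0)⁻¹ ^ n = 0 := by
    unfold nbz
    rw [hper, sub_self]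
  rw [h5, intervalIntegral.integral_sub (hI1.const_mul I) ((hI2.const_mul (n : ℂ)).const_mul I),
    intervalIntegral.integral_const_mul, intervalIntegral.integral_const_mul, intervalIntegral.integral_const_mul, ← mul_sub] at h4
  have h6 := (mul_eq_zero.1 h4).resolve_left I_ne_zero
  rw [sub_eq_zero] at h6
  rw [nb_fc, h6]
  ring

theorem nbPB1 {S : Sq} {a : ℝ} {γ β : ℂ} (hS : Lim S a γ β) (j : ℕ) : NbPB 0 1 (S.μ₁ j) :=
  ⟨by simp, by simp, hS.m1 j⟩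

theorem nb_dd (S : Sq) (j : ℕ) : ‖S.c₂ j‖ + |S.r₂ j - 1| + ‖S.μ₁ j - S.μ₂ j‖ = S.d j := by
  unfold Sq.d dd
  rw [zero_sub, norm_neg, abs_sub_comm]

theorem nbPB2 {S : Sq} {a : ℝ} {γ β : ℂ} (hS : Lim S a γ β) (j : ℕ) : NbPB (S.c₂ j) (S.r₂ j) (S.μ₂ j) := by
  have h := nb_dd S j
  have h1 := hS.small j
  have n1 := norm_nonneg (S.c₂ j)
  have n2 := abs_nonneg (S.r₂ j - 1)
  have n3 := norm_nonneg (S.μ₁ j - S.μ₂ j)
  exact ⟨by linarith, by linarith, hS.m2 j⟩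

theorem nbC {S : Sq} {a : ℝ} {γ β : ℂ} (hS : Lim S a γ β) : Tendsto S.c₂ atTop (𝓝 0) := by
  refine squeeze_zero_norm (fun j => ?_) hS.ld
  have h := nb_dd S j
  have n2 := abs_nonneg (S.r₂ j - 1)
  have n3 := norm_nonneg (S.μ₁ j - S.μ₂ j)
  linarith

theorem nbR {S : Sq} {a : ℝ} {γ β : ℂ} (hS : Lim S a γ β) : Tendsto S.r₂ atTop (𝓝 1) := by
  have h1 : Tendsto (fun j => S.r₂ j - 1) atTop (𝓝 0) := by
    refine squeeze_zero_norm (fun j => ?_) hS.ld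
    have h := nb_dd S j
    have n1 := norm_nonneg (S.c₂ j)
    have n3 := norm_nonneg (S.μ₁ j - S.μ₂ j)
    rw [Real.norm_eq_abs]
    linarith
  have h2 := h1.add_const 1
  rw [zero_add] at h2
  refine h2.congr fun j => ?_
  ring

theorem fcL {S : Sq} {a : ℝ} {γ β : ℂ} (hS : Lim S a γ β) {F : ℕ → ℂ → ℂ} {F₀ : ℂ → ℂ} (hF : LB S F F₀) (n : ℕ) :
    Tendsto (fun j => fc 0 1 (S.μ₁ j) (F j) (1 / 2) (n + 1)) atTop (𝓝 (co F₀ n)) ∧
    Tendsto (fun j => fc (S.c₂ j) (S.r₂ j) (S.μ₂ j) (F j) (1 / 2) (n + 1)) atTop (𝓝 (co F₀ n)) := by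
  obtain ⟨C, hC⟩ := nbFB hS hF
  exact ⟨nbL hC (nbPB1 hS) tendsto_const_nhds tendsto_const_nhds hS.lm1 n,
    nbL hC (nbPB2 hS) (nbC hS) (nbR hS) hS.lm2 n⟩

theorem fcD {S : Sq} {a : ℝ} {γ β : ℂ} (hS : Lim S a γ β) {F : ℕ → ℂ → ℂ} {F₀ : ℂ → ℂ} (hF : LB S F F₀) (n : ℕ) :
    Tendsto (fun j => (fc (S.c₂ j) (S.r₂ j) (S.μ₂ j) (F j) (1 / 2) (n + 1) - fc 0 1 (S.μ₁ j) (F j) (1 / 2) (n + 1)) / (S.d j : ℂ)) atTop
      (𝓝 (((n : ℂ) + 1) * (γ * co F₀ (n + 1) + a * co F₀ n + β * co F₀ (n + 2)))) := by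
  obtain ⟨C, hC⟩ := nbFB hS hF
  have hex : ∀ j, ∃ Φ : ℂ → ℂ, ∀ z ∈ Metric.ball (0 : ℂ) (9 / 10), HasDerivAt Φ (F j z) z := fun j => (hC.hol j).isExactOn_ball
  choose Φ hΦ using hex
  set z₁ : ℕ → ℝ → ℂ := fun j t => nbz 0 1 (S.μ₁ j) t with hz₁
  set z₂ : ℕ → ℝ → ℂ := fun j t => nbz (S.c₂ j) (S.r₂ j) (S.μ₂ j) t with hz₂
  have hb₁ : ∀ j t, z₁ j t ∈ Metric.ball (0 : ℂ) (4 / 5) := fun j t => (nbPB1 hS j).z t
  have hb₂ : ∀ j t, z₂ j t ∈ Metric.ball (0 : ℂ) (4 / 5) := fun j t => (nbPB2 hS j).z t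
  have hm : ∀ z ∈ Metric.ball (0 : ℂ) (4 / 5), z ∈ Metric.ball (0 : ℂ) (9 / 10) :=
    fun z hz => Metric.ball_subset_ball (by norm_num) hz
  have hpb : ∀ t, pt t ∈ Metric.ball (0 : ℂ) (4 / 5) := by
    intro t
    rw [mem_ball_zero_iff, nb_ptn]
    norm_num
  have hdC : ∀ j, (S.d j : ℂ) ≠ 0 := fun j => by exact_mod_cast (hS.pos j).ne'
  -- the difference of the points
  have hdiff : ∀ j t, z₂ j t - z₁ j t = S.c₂ j + ((S.r₂ j - 1 : ℝ) : ℂ) * (pt t + S.μ₂ j * (pt t)⁻¹) + (S.μ₂ j - S.μ₁ j) * (pt t)⁻¹ := by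
    intro j t
    simp only [hz₁, hz₂, nbz]
    push_cast
    ring
  have hdn : ∀ j t, ‖z₂ j t - z₁ j t‖ ≤ 2 * S.d j := by
    intro j t
    rw [hdiff]
    have h1 := nb_dd S j
    have n1 := norm_nonneg (S.c₂ j)
    have n2 := abs_nonneg (S.r₂ j - 1)
    have n3 := norm_nonneg (S.μ₁ j - S.μ₂ j)
    have e1 : ‖((S.r₂ j - 1 : ℝ) : ℂ) * (pt t + S.μ₂ j * (pt t)⁻¹)‖ ≤ |S.r₂ j - 1| * 1 := by
      rw [norm_mul, Complex.norm_real, Real.norm_eq_abs]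
      have : ‖pt t + S.μ₂ j * (pt t)⁻¹‖ ≤ 1 := by
        refine (norm_add_le _ _).trans ?_
        rw [norm_mul, nb_ptn, nb_ptin]
        have := hS.m2 j
        linarith
      gcongr
    have e2 : ‖(S.μ₂ j - S.μ₁ j) * (pt t)⁻¹‖ = ‖S.μ₁ j - S.μ₂ j‖ * 2 := by
      rw [norm_mul, nb_ptin, norm_sub_rev]
    have e3 := norm_add₃_le (a := S.c₂ j) (b := ((S.r₂ j - 1 : ℝ) : ℂ) * (pt t + S.μ₂ j * (pt t)⁻¹)) (c := (S.μ₂ j - S.μ₁ j) * (pt t)⁻¹)
    linarith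
  have hql : ∀ t, Tendsto (fun j => (z₂ j t - z₁ j t) / (S.d j : ℂ)) atTop (𝓝 (γ + a * pt t + β * (pt t)⁻¹)) := by
    intro t
    have h1 : Tendsto (fun j => S.c₂ j / (S.d j : ℂ) + (((S.r₂ j - 1) / S.d j : ℝ) : ℂ) * (pt t + S.μ₂ j * (pt t)⁻¹) +
        (S.μ₂ j - S.μ₁ j) / (S.d j : ℂ) * (pt t)⁻¹) atTop (𝓝 (γ + (a : ℂ) * (pt t + 0 * (pt t)⁻¹) + β * (pt t)⁻¹)) :=
      (hS.lc.add (((Complex.continuous_ofReal.tendsto a).comp hS.lr).mul (tendsto_const_nhds.add (hS.lm2.mul_const _)))).add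
        (hS.lb.mul_const _)
    have e : γ + (a : ℂ) * (pt t + 0 * (pt t)⁻¹) + β * (pt t)⁻¹ = γ + a * pt t + β * (pt t)⁻¹ := by ring
    rw [e] at h1
    refine h1.congr fun j => ?_
    rw [hdiff]
    push_cast
    ring
  have hz1l : ∀ t, Tendsto (fun j => z₁ j t) atTop (𝓝 (pt t)) := by
    intro t
    have h1 : Tendsto (fun j => 0 + ((1 : ℝ) : ℂ) * (pt t + S.μ₁ j * (pt t)⁻¹)) atTop (𝓝 (0 + ((1 : ℝ) : ℂ) * (pt t + 0 * (pt t)⁻¹))) :=
      (tendsto_const_nhds.add (hS.lm1.mul_const _)).const_mul _ |>.const_add _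
    have e : 0 + ((1 : ℝ) : ℂ) * (pt t + 0 * (pt t)⁻¹) = pt t := by
      push_cast
      ring
    rw [e] at h1
    exact h1
  -- the integrand
  have hlimP : ∀ t, Tendsto (fun j => (Φ j (z₂ j t) - Φ j (z₁ j t)) / (S.d j : ℂ)) atTop
      (𝓝 (F₀ (pt t) * (γ + a * pt t + β * (pt t)⁻¹))) := by
    intro t
    have h1 := (nbVal hC (fun j => hb₁ j t) (hpb t) (hz1l t)).mul (hql t)
    have h2 : Tendsto (fun j => (Φ j (z₂ j t) - Φ j (z₁ j t) - F j (z₁ j t) * (z₂ j t - z₁ j t)) / (S.d j : ℂ)) atTop (𝓝 0) := by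
      have h3 : Tendsto (fun j => 20 * C * 4 * S.d j) atTop (𝓝 (20 * C * 4 * 0)) := hS.ld.const_mul _
      rw [mul_zero] at h3
      refine squeeze_zero_norm (fun j => ?_) h3
      have hp := hS.pos j
      rw [norm_div, Complex.norm_real, Real.norm_eq_abs, abs_of_pos hp, div_le_iff₀ hp]
      refine (nbTay hC.pos (hC.hol j) (hC.bd j) (hΦ j) (hb₁ j t) (hb₂ j t)).trans ?_
      have h4 := hdn j t
      have h5 := hC.pos
      have h6 := norm_nonneg (z₂ j t - z₁ j t)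
      calc 20 * C * ‖z₂ j t - z₁ j t‖ * ‖z₂ j t - z₁ j t‖ ≤ 20 * C * (2 * S.d j) * (2 * S.d j) := by gcongr
        _ = 20 * C * 4 * S.d j * S.d j := by ring
    have h4 := h2.add h1
    rw [zero_add] at h4
    refine h4.congr fun j => ?_
    have := hdC j
    field_simp
    ring
  have hΦc : ∀ j, ContinuousOn (Φ j) (Metric.ball 0 (9 / 10)) := fun j z hz => (hΦ j z hz).continuousAt.continuousWithinAt
  have hc₁ : ∀ j, Continuous fun t => Φ j (z₁ j t) := fun j => (hΦc j).comp_continuous (nbz_cont _ _ _) fun t => hm _ (hb₁ j t)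
  have hc₂ : ∀ j, Continuous fun t => Φ j (z₂ j t) := fun j => (hΦc j).comp_continuous (nbz_cont _ _ _) fun t => hm _ (hb₂ j t)
  have hint : Tendsto (fun j => ∫ t in (0 : ℝ)..(2 * π), (Φ j (z₂ j t) - Φ j (z₁ j t)) / (S.d j : ℂ) * (pt t)⁻¹ ^ (n + 1)) atTop
      (𝓝 (∫ t in (0 : ℝ)..(2 * π), F₀ (pt t) * (γ + a * pt t + β * (pt t)⁻¹) * (pt t)⁻¹ ^ (n + 1))) := by
    refine intervalIntegral.tendsto_integral_filter_of_dominated_convergence (fun _ => C * 2 * 2 ^ (n + 1)) ?_ ?_ ?_ ?_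
    · refine Eventually.of_forall fun j => ?_
      exact ((((hc₂ j).sub (hc₁ j)).div_const _).mul (nb_ptic.pow _)).aestronglyMeasurable
    · refine Eventually.of_forall fun j => Eventually.of_forall fun t _ => ?_
      have hp := hS.pos j
      have h1 : ‖Φ j (z₂ j t) - Φ j (z₁ j t)‖ ≤ C * ‖z₂ j t - z₁ j t‖ :=
        (convex_ball (0 : ℂ) (9 / 10)).norm_image_sub_le_of_norm_hasDerivWithin_le
          (fun z hz => (hΦ j z hz).hasDerivWithinAt) (hC.bd j) (hm _ (hb₁ j t)) (hm _ (hb₂ j t))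
      rw [norm_mul, norm_div, norm_pow, nb_ptin, Complex.norm_real, Real.norm_eq_abs, abs_of_pos hp]
      have h2 : ‖Φ j (z₂ j t) - Φ j (z₁ j t)‖ / S.d j ≤ C * 2 := by
        rw [div_le_iff₀ hp]
        have h3 := hdn j t
        have h5 := hC.pos
        calc _ ≤ _ := h1
          _ ≤ C * (2 * S.d j) := by gcongr
          _ = _ := by ring
      gcongr
    · exact intervalIntegrable_const
    · exact Eventually.of_forall fun t _ => (hlimP t).mul_const _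
  -- the limit integral
  have hF0c : Continuous fun t => F₀ (pt t) :=
    hF.hol0.continuousOn.comp_continuous nb_ptc fun t => Metric.ball_subset_ball (by norm_num) (hpb t)
  have hzp : ∀ (m : ℤ), Continuous fun t => pt t ^ m := fun m => nb_ptc.zpow₀ m fun t => Or.inl (nb_pt0 t)
  have hIm : ∀ m : ℤ, IntervalIntegrable (fun t => F₀ (pt t) * pt t ^ m) volume 0 (2 * π) :=
    fun m => (hF0c.mul (hzp m)).intervalIntegrable _ _
  have hlast : (∫ t in (0 : ℝ)..(2 * π), F₀ (pt t) * (γ + a * pt t + β * (pt t)⁻¹) * (pt t)⁻¹ ^ (n + 1)) / (2 * π) =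
      γ * co F₀ (n + 1) + a * co F₀ n + β * co F₀ (n + 2) := by
    have e : ∀ t, F₀ (pt t) * (γ + a * pt t + β * (pt t)⁻¹) * (pt t)⁻¹ ^ (n + 1) =
        γ * (F₀ (pt t) * pt t ^ (-((n : ℤ) + 1))) + a * (F₀ (pt t) * pt t ^ (-(n : ℤ))) + β * (F₀ (pt t) * pt t ^ (-((n : ℤ) + 2))) := by
      intro t
      have hp := nb_pt0 t
      have e1 : pt t ^ (-((n : ℤ) + 1)) = (pt t)⁻¹ ^ (n + 1) := by
        rw [zpow_neg, inv_pow]
        norm_cast
      have e2 : pt t ^ (-((n : ℤ) + 2)) = (pt t)⁻¹ * (pt t)⁻¹ ^ (n + 1) := by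
        rw [← pow_succ', inv_pow, zpow_neg]
        norm_cast
      have e3 : pt t ^ (-(n : ℤ)) = pt t * (pt t)⁻¹ ^ (n + 1) := by
        rw [pow_succ', ← mul_assoc, mul_inv_cancel₀ hp, one_mul, inv_pow, zpow_neg]
        norm_cast
      rw [e1, e2, e3]
      ring
    simp only [e]
    rw [intervalIntegral.integral_add (((hIm _).const_mul _).add ((hIm _).const_mul _)) ((hIm _).const_mul _),
      intervalIntegral.integral_add ((hIm _).const_mul _) ((hIm _).const_mul _),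
      intervalIntegral.integral_const_mul, intervalIntegral.integral_const_mul, intervalIntegral.integral_const_mul]
    unfold co
    ring
  have h7 := (hint.div_const (2 * π : ℂ)).const_mul ((n : ℂ) + 1)
  rw [hlast] at h7
  refine h7.congr fun j => ?_
  rw [nbParts (hC.hol j) (hΦ j) (nbPB1 hS j), nbParts (hC.hol j) (hΦ j) (nbPB2 hS j)]
  have hI1 : IntervalIntegrable (fun t => Φ j (z₁ j t) * (pt t)⁻¹ ^ (n + 1)) volume 0 (2 * π) :=
    ((hc₁ j).mul (nb_ptic.pow _)).intervalIntegrable _ _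
  have hI2 : IntervalIntegrable (fun t => Φ j (z₂ j t) * (pt t)⁻¹ ^ (n + 1)) volume 0 (2 * π) :=
    ((hc₂ j).mul (nb_ptic.pow _)).intervalIntegrable _ _
  have h8 : (∫ t in (0 : ℝ)..(2 * π), (Φ j (z₂ j t) - Φ j (z₁ j t)) / (S.d j : ℂ) * (pt t)⁻¹ ^ (n + 1)) =
      ((∫ t in (0 : ℝ)..(2 * π), Φ j (z₂ j t) * (pt t)⁻¹ ^ (n + 1)) - ∫ t in (0 : ℝ)..(2 * π), Φ j (z₁ j t) * (pt t)⁻¹ ^ (n + 1)) / (S.d j : ℂ) := by
    rw [← intervalIntegral.integral_sub hI2 hI1, ← intervalIntegral.integral_div]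
    refine intervalIntegral.integral_congr fun t _ => ?_
    show (Φ j (z₂ j t) - Φ j (z₁ j t)) / (S.d j : ℂ) * (pt t)⁻¹ ^ (n + 1) =
      (Φ j (z₂ j t) * (pt t)⁻¹ ^ (n + 1) - Φ j (z₁ j t) * (pt t)⁻¹ ^ (n + 1)) / (S.d j : ℂ)
    ring
  rw [h8]
  simp only [hz₁, hz₂]
  push_cast
  ring

end ND1
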