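import Pool.Agent.H1.EX.D
import Pool.Agent.H1.EX.Xd
import Pool.Agent.H1.EW.Ga
import Pool.Agent.H1.EW.Fa
import Pool.Agent.H1.EW.Ph
import Pool.Agent.H1.ED.Mo
import Pool.Agent.H1.ED.Dd
import Pool.Agent.H1.ED.Fo

/-!
ROW ND/Na. Moments of a holomorphic function over an ellipse in terms of the coefficients `fc` (helper97). For `μ ≠ 0`: `expA`, `moment`, `fc_Fc`; for `μ = 0` polar coordinates.
-/

set_option autoImplicit false

namespace ND1

open Complex Set Filter Topology MeasureTheory EW1 EX1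
open scoped ComplexConjugate ContDiff Real

private theorem Na_zpow {R : ℂ} (hR : R ≠ 0) (m : ℤ) :
    ∫ t in (0 : ℝ)..(2 * π), (R * exp (t * I)) ^ m = if m = 0 then (2 * π : ℂ) else 0 := by
  have h1 : ∀ t : ℝ, (R * exp (t * I)) ^ m = R ^ m * exp ((m * I) * t) := by
    intro t
    rw [mul_zpow, ← Complex.exp_int_mul]
    congr 2
    ring
  simp only [h1]
  rw [intervalIntegral.integral_const_mul]
  split_ifs with h
  · subst h
    simp
  · have hm : (m : ℂ) * I ≠ 0 := mul_ne_zero (by exact_mod_cast h) I_ne_zero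
    rw [integral_exp_mul_complex hm]
    have h2 : (m : ℂ) * I * ((2 * π : ℝ) : ℂ) = m * (2 * π * I) := by push_cast; ring
    rw [h2, Complex.exp_int_mul_two_pi_mul_I]
    simp

private theorem Na_ne {ρ : ℝ} (hρ : 0 < ρ) : (ρ : ℂ) ≠ 0 := by exact_mod_cast hρ.ne'

private theorem Na_cont (R : ℂ) : Continuous fun t : ℝ => R * exp (t * I) := by fun_prop

/-- high coefficients of a polynomial vanish -/
private theorem Na_high {c : ℂ} {r : ℝ} {μ : ℂ} {ρ : ℝ} (hρ : 0 < ρ) {b n : ℕ} (hn : b + 2 ≤ n) :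
    fc c r μ (fun z => z ^ b) ρ n = 0 := by
  obtain ⟨j, rfl⟩ : ∃ j, n = b + 1 + (j + 1) := ⟨n - (b + 2), by omega⟩
  set P : Polynomial ℂ := (Polynomial.C c * Polynomial.X + Polynomial.C (r : ℂ) * (1 + Polynomial.C μ * Polynomial.X ^ 2)) ^ b *
    (Polynomial.C (r : ℂ) * (1 - Polynomial.C μ * Polynomial.X ^ 2)) with hP
  have hw0 : ∀ t : ℝ, (ρ : ℂ) * exp (t * I) ≠ 0 := fun t => mul_ne_zero (Na_ne hρ) (Complex.exp_ne_zero _)
  have h1 : ∀ t : ℝ, (c + r * (ρ * exp (t * I) + μ * (ρ * exp (t * I))⁻¹)) ^ b *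
      (r * (ρ * exp (t * I) - μ * (ρ * exp (t * I))⁻¹)) * (ρ * exp (t * I))⁻¹ ^ (b + 1 + (j + 1)) =
      ∑ i ∈ Finset.range (P.natDegree + 1), P.coeff i * ((ρ : ℂ) * exp (t * I)) ^ (-((j + 1 + i : ℕ) : ℤ)) := by
    intro t
    have hw := hw0 t
    set w := (ρ : ℂ) * exp (t * I) with hwd
    have e1 : ∑ i ∈ Finset.range (P.natDegree + 1), P.coeff i * w ^ (-((j + 1 + i : ℕ) : ℤ)) =
        w⁻¹ ^ (j + 1) * P.eval w⁻¹ := by
      rw [Polynomial.eval_eq_sum_range, Finset.mul_sum]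
      refine Finset.sum_congr rfl fun i _ => ?_
      rw [zpow_neg, zpow_natCast, ← inv_pow, pow_add]
      ring
    rw [e1, hP]
    simp only [Polynomial.eval_mul, Polynomial.eval_pow, Polynomial.eval_add, Polynomial.eval_sub, Polynomial.eval_C,
      Polynomial.eval_X, Polynomial.eval_one]
    have e2 : c + r * (w + μ * w⁻¹) = w * (c * w⁻¹ + r * (1 + μ * w⁻¹ ^ 2)) := by
      field_simp
    have e3 : r * (w - μ * w⁻¹) = w * (r * (1 - μ * w⁻¹ ^ 2)) := by
      field_simp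
    rw [e2, e3, mul_pow]
    have e4 : w ^ b * w * w⁻¹ ^ (b + 1) = 1 := by
      rw [← pow_succ, inv_pow, mul_inv_cancel₀ (pow_ne_zero _ hw)]
    rw [pow_add w⁻¹ (b + 1) (j + 1)]
    linear_combination (((c * w⁻¹ + r * (1 + μ * w⁻¹ ^ 2)) ^ b) * (r * (1 - μ * w⁻¹ ^ 2)) * w⁻¹ ^ (j + 1)) * e4
  unfold fc
  simp only [h1]
  rw [intervalIntegral.integral_finsetSum]
  · rw [Finset.sum_eq_zero, zero_div]
    intro i _
    rw [intervalIntegral.integral_const_mul, Na_zpow (Na_ne hρ), if_neg (by omega), mul_zero]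
  · intro i _
    refine Continuous.intervalIntegrable ?_ _ _
    exact continuous_const.mul ((Na_cont _).zpow₀ _ fun t => Or.inl (hw0 t))

/-- the ellipse, `μ ≠ 0` -/
private theorem Na_ell {c : ℂ} {r : ℝ} (hr : 0 < r) {μ : ℂ} (hμ0 : μ ≠ 0) {ρ : ℝ} (hρ0 : 0 < ρ) (hρ : ‖μ‖ < ρ ^ 2)
    (hρ1 : ρ < 1) {N : Set ℂ} (hN : IsOpen N)
    (hK : Kp c r μ ⊆ N) {F : ℂ → ℂ} (hF : DifferentiableOn ℂ F N) (b : ℕ) :
    ∫ z in Dp c r μ 1, F z * conj z ^ b = π * ∑ n ∈ Finset.range (b + 1), ((1 - ‖μ‖ ^ (2 * (n + 1)) : ℝ) : ℂ) / (n + 1) *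
      fc c r μ F ρ (n + 1) * conj (fc c r μ (fun z => z ^ b) ρ (n + 1)) := by
  have hμ : ‖μ‖ < 1 := hρ.trans (by nlinarith)
  obtain ⟨d, hb2⟩ := IsAlgClosed.exists_pow_nat_eq ((r : ℂ) ^ 2 * μ) (n := 2) two_pos
  have hμn : 0 < ‖μ‖ := norm_pos_iff.2 hμ0
  have hrc : (r : ℂ) ≠ 0 := by exact_mod_cast hr.ne'
  have hb : d ≠ 0 := by
    intro h0
    rw [h0] at hb2
    have : (r : ℂ) ^ 2 * μ ≠ 0 := mul_ne_zero (pow_ne_zero 2 hrc) hμ0
    exact this (by rw [← hb2]; ring)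
  have hbn : ‖d‖ ^ 2 = r ^ 2 * ‖μ‖ := by
    rw [← norm_pow, hb2, norm_mul, norm_pow, Complex.norm_real, Real.norm_of_nonneg hr.le]
  obtain ⟨x, hxd⟩ : ∃ x : ℝ, x = -Real.log ‖μ‖ / 2 := ⟨_, rfl⟩
  have hx : 0 < x := by
    have := Real.log_neg hμn hμ
    rw [hxd]
    linarith
  have hex : Real.exp x ^ 2 = ‖μ‖⁻¹ := by
    rw [← Real.exp_nat_mul, hxd, ← Real.exp_log (inv_pos.2 hμn), Real.log_inv]
    congr 1
    push_cast
    ring
  have hpr : ‖d‖ * Real.exp x = r := by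
    have h1 : (‖d‖ * Real.exp x) ^ 2 = r ^ 2 := by
      rw [mul_pow, hbn, hex]
      field_simp
    exact (pow_left_inj₀ (by positivity) hr.le two_ne_zero).1 h1
  have hpm : d ^ 2 / ((r : ℝ) : ℂ) ^ 2 = μ := by
    rw [hb2]
    field_simp
  have hDe : ED1.De c d x = Dp c r μ 1 := by
    rw [De_Dp c hb hx, hpr, hpm]
  have hcDe : {z | ED1.lv c d z ≤ ED1.lx d x} = Kp c r μ := by
    rw [cDe_cDp c hb hx, hpr, hpm]
    rfl
  have hxρ : Real.exp (-x) < ρ := by
    have h1 : Real.exp (-x) ^ 2 = ‖μ‖ := by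
      rw [Real.exp_neg, inv_pow, hex, inv_inv]
    refine lt_of_pow_lt_pow_left₀ 2 hρ0.le ?_
    rw [h1]
    exact hρ
  rw [← hcDe] at hK
  obtain ⟨y, hy, hyN⟩ := ED1.Dd hb hx.le hN hK
  have hFy : DifferentiableOn ℂ F (ED1.De c d y) := hF.mono hyN
  have hsub : ED1.De c d x ⊆ ED1.De c d y := fun z hz => lt_trans hz ((ED1.lx_lt hb hx.le (hx.trans hy).le).2 hy)
  have hFx := hFy.mono hsub
  have hmeas : MeasurableSet (ED1.De c d x) := (ED1.De_open c d x).measurableSet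
  have hmem : MemLp F 2 (volume.restrict (ED1.De c d x)) := by
    have hKc : IsCompact {z | ED1.lv c d z ≤ ED1.lx d x} := by
      rw [hcDe]
      exact cDp_compact hr hμ 1
    have hsK : {z | ED1.lv c d z ≤ ED1.lx d x} ⊆ ED1.De c d y := fun z hz =>
      lt_of_le_of_lt hz ((ED1.lx_lt hb hx.le (hx.trans hy).le).2 hy)
    obtain ⟨C, hC⟩ := hKc.exists_bound_of_continuousOn (hFy.continuousOn.mono hsK)
    have hfin : IsFiniteMeasure (volume.restrict (ED1.De c d x)) :=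
      ⟨by rw [Measure.restrict_apply_univ]; exact (ED1.De_bdd c d x).measure_lt_top⟩
    refine MemLp.of_bound (hFx.continuousOn.aestronglyMeasurable hmeas) C ?_
    exact (ae_restrict_iff' hmeas).2 (Eventually.of_forall fun z hz =>
      hC z (le_of_lt (show ED1.lv c d z < ED1.lx d x from hz)))
  obtain ⟨s, hs⟩ : ∃ s : ℝ, 0 < s ∧ s < x := ⟨x / 2, by linarith, by linarith⟩
  have hA : DifferentiableOn ℂ (fun z : ℂ => z ^ b) (ED1.De c d y) := by fun_prop
  have hAx : DifferentiableOn ℂ (fun z : ℂ => z ^ b) (ED1.De c d x) := by fun_prop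
  have hfc : ∀ (G : ℂ → ℂ), DifferentiableOn ℂ G (ED1.De c d x) → ∀ n : ℕ,
      ED1.Fc c d G s n = fc c r μ G ρ n * (2 * π) * (d / (r : ℂ)) ^ n := by
    intro G hG n
    have h1 := fc_Fc c hb hx hG n hs ⟨hxρ, hρ1⟩
    rw [hpr, hpm] at h1
    rw [h1]
    have hpi : (π : ℂ) ≠ 0 := by exact_mod_cast Real.pi_ne_zero
    have h2 : ((r : ℂ) / d) ^ n * (d / (r : ℂ)) ^ n = 1 := by
      rw [← mul_pow, div_mul_div_comm, mul_comm d, div_self (mul_ne_zero hrc hb), one_pow]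
    field_simp
    linear_combination (-ED1.Fc c d G s n) * h2
  have hsum := expA hb hx hy hFx hmem hA hs
  have hterm : ∀ n : ℕ, ED1.Fc c d (fun z => z ^ b) s (n + 1 : ℕ) / (2 * π * (n + 1)) *
      ∫ z in ED1.De c d x, conj (F z) * ED1.dC c d (n + 1) z =
      π * (((1 - ‖μ‖ ^ (2 * (n + 1)) : ℝ) : ℂ) / (n + 1) * conj (fc c r μ F ρ (n + 1)) *
        fc c r μ (fun z => z ^ b) ρ (n + 1)) := by
    intro n
    rw [ED1.moment hb hx hFx hmem (Nat.succ_le_succ (Nat.zero_le n)) hs, hfc _ hAx, hfc F hFx]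
    have hpi : (π : ℂ) ≠ 0 := by exact_mod_cast Real.pi_ne_zero
    have hn1 : ((n : ℂ) + 1) ≠ 0 := by exact_mod_cast Nat.succ_ne_zero n
    have key : (d / (r : ℂ)) ^ (n + 1) * conj ((d / (r : ℂ)) ^ (n + 1)) *
        ((Real.exp (2 * ((n + 1 : ℕ) : ℝ) * x) - Real.exp (-(2 * ((n + 1 : ℕ) : ℝ) * x)) : ℝ) : ℂ) =
        ((1 - ‖μ‖ ^ (2 * (n + 1)) : ℝ) : ℂ) := by
      rw [Complex.mul_conj, Complex.normSq_eq_norm_sq, ← Complex.ofReal_mul]
      congr 1
      rw [norm_pow, norm_div, Complex.norm_real, Real.norm_of_nonneg hr.le]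
      have k1 : (‖d‖ / r) ^ 2 = ‖μ‖ := by
        rw [div_pow, hbn]; field_simp
      have k2 : Real.exp (2 * ((n + 1 : ℕ) : ℝ) * x) = (‖μ‖ ^ (n + 1))⁻¹ := by
        rw [← inv_pow, ← hex, ← pow_mul, ← Real.exp_nat_mul]
        congr 1; push_cast; ring
      have k3 : Real.exp (-(2 * ((n + 1 : ℕ) : ℝ) * x)) = ‖μ‖ ^ (n + 1) := by
        rw [Real.exp_neg, k2, inv_inv]
      rw [k2, k3, ← pow_mul, mul_comm (n + 1) 2, pow_mul, k1, mul_sub, mul_inv_cancel₀ (pow_ne_zero _ hμn.ne'),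
        ← pow_add]
      congr 2; ring
    rw [map_mul, map_mul, ← key]
    have e2 : conj (2 * (π : ℂ)) = 2 * π := by
      rw [map_mul, Complex.conj_ofReal, map_ofNat]
    rw [e2]
    push_cast
    field_simp
  have hsum2 : HasSum (fun n : ℕ => π * (((1 - ‖μ‖ ^ (2 * (n + 1)) : ℝ) : ℂ) / (n + 1) * conj (fc c r μ F ρ (n + 1)) *
        fc c r μ (fun z => z ^ b) ρ (n + 1))) (∫ z in ED1.De c d x, conj (F z) * z ^ b) :=
    hsum.congr_fun fun n => (hterm n).symm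
  have hfin : ∀ n ∉ Finset.range (b + 1), (π : ℂ) * (((1 - ‖μ‖ ^ (2 * (n + 1)) : ℝ) : ℂ) / (n + 1) * conj (fc c r μ F ρ (n + 1)) *
        fc c r μ (fun z => z ^ b) ρ (n + 1)) = 0 := by
    intro n hn
    rw [Finset.mem_range, not_lt] at hn
    rw [Na_high hρ0 (by omega), mul_zero, mul_zero]
  have h3 := hsum2.unique (hasSum_sum_of_ne_finset_zero hfin)
  rw [hDe] at h3
  have h4 : ∫ z in Dp c r μ 1, F z * conj z ^ b = conj (∫ z in Dp c r μ 1, conj (F z) * z ^ b) := by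
    rw [← integral_conj]
    refine integral_congr_ae (Eventually.of_forall fun z => ?_)
    simp only [map_mul, map_pow, Complex.conj_conj]
  rw [h4, h3, map_sum, Finset.mul_sum]
  refine Finset.sum_congr rfl fun n _ => ?_
  simp only [map_mul, map_div₀, Complex.conj_ofReal, Complex.conj_conj, map_add, map_one, map_natCast]


/-- Fourier integral on a circle -/
private noncomputable def Ik (F : ℂ → ℂ) (c : ℂ) (k : ℕ) (s : ℝ) : ℂ :=
  ∫ t in (0 : ℝ)..(2 * π), F (c + s * exp (t * I)) * ((s * exp (t * I)) ^ k)⁻¹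

private theorem Na_fc0 (F : ℂ → ℂ) (c : ℂ) {r ρ : ℝ} (hr : 0 < r) (hρ : 0 < ρ) (k : ℕ) :
    fc c r 0 F ρ (k + 1) = (r : ℂ) ^ (k + 1) * Ik F c k (r * ρ) / (2 * π) := by
  unfold fc Ik
  rw [← intervalIntegral.integral_const_mul]
  congr 1
  refine intervalIntegral.integral_congr fun t _ => ?_
  have hw : (ρ : ℂ) * exp (t * I) ≠ 0 := mul_ne_zero (Na_ne hρ) (Complex.exp_ne_zero _)
  have hrc := Na_ne hr
  simp only [zero_mul, add_zero, sub_zero]
  have e1 : (((r * ρ : ℝ) : ℂ)) * exp (t * I) = r * (ρ * exp (t * I)) := by push_cast; ring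
  rw [e1]
  obtain ⟨w, hwd⟩ : ∃ w : ℂ, w = (ρ : ℂ) * exp (t * I) := ⟨_, rfl⟩
  rw [← hwd] at hw ⊢
  rw [inv_pow, mul_pow, pow_succ w k, pow_succ (r : ℂ) k]
  field_simp

private theorem Na_const {F : ℂ → ℂ} {c : ℂ} {R : ℝ} (hF : DifferentiableOn ℂ F (Metric.ball c R)) (k : ℕ) {s s' : ℝ}
    (hs : 0 < s ∧ s < R) (hs' : 0 < s' ∧ s' < R) : Ik F c k s = Ik F c k s' := by
  have hR : 0 < R := hs.1.trans hs.2
  have hf : DifferentiableOn ℂ (fun ζ : ℂ => F (c + exp ζ) * (exp ζ ^ k)⁻¹)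
      {ζ | min (Real.log s) (Real.log s') - 1 < ζ.re ∧ ζ.re < Real.log R} := by
    refine DifferentiableOn.mul ?_ ?_
    · refine hF.comp (by fun_prop) fun ζ hζ => ?_
      rw [Metric.mem_ball, dist_eq_norm, add_sub_cancel_left, Complex.norm_exp]
      exact (Real.lt_log_iff_exp_lt hR).1 hζ.2
    · exact DifferentiableOn.inv (by fun_prop) fun ζ _ => pow_ne_zero _ (Complex.exp_ne_zero _)
  have hp : ∀ ζ : ℂ, (fun ζ : ℂ => F (c + exp ζ) * (exp ζ ^ k)⁻¹) (ζ + 2 * π * I) =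
      (fun ζ : ℂ => F (c + exp ζ) * (exp ζ ^ k)⁻¹) ζ := by
    intro ζ
    simp only
    rw [Complex.exp_periodic ζ]
  have key := ED1.per_const hf hp (ρ := Real.log s) (ρ' := Real.log s')
    ⟨by have := min_le_left (Real.log s) (Real.log s'); linarith, Real.log_lt_log hs.1 hs.2⟩
    ⟨by have := min_le_right (Real.log s) (Real.log s'); linarith, Real.log_lt_log hs'.1 hs'.2⟩
  have e : ∀ {a : ℝ}, 0 < a → ∀ t : ℝ, exp ((Real.log a : ℂ) + t * I) = a * exp (t * I) := by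
    intro a ha t
    rw [Complex.exp_add, ← Complex.ofReal_exp, Real.exp_log ha]
  unfold Ik
  simp only [e hs.1, e hs'.1] at key
  exact key

private theorem Na_pow (c : ℂ) {s : ℝ} (hs : 0 < s) {b k : ℕ} (hk : k ≤ b) :
    Ik (fun z => z ^ b) c k s = 2 * π * (c ^ (b - k) * (b.choose k : ℂ)) := by
  unfold Ik
  have hw0 : ∀ t : ℝ, (s : ℂ) * exp (t * I) ≠ 0 := fun t => mul_ne_zero (Na_ne hs) (Complex.exp_ne_zero _)
  have h1 : ∀ t : ℝ, (c + s * exp (t * I)) ^ b * ((s * exp (t * I)) ^ k)⁻¹ =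
      ∑ j ∈ Finset.range (b + 1), (c ^ (b - j) * (b.choose j : ℂ)) * ((s : ℂ) * exp (t * I)) ^ ((j : ℤ) - k) := by
    intro t
    rw [add_comm c, add_pow, Finset.sum_mul]
    refine Finset.sum_congr rfl fun j _ => ?_
    rw [zpow_sub₀ (hw0 t), zpow_natCast, zpow_natCast]
    ring
  simp only [h1]
  rw [intervalIntegral.integral_finsetSum]
  · rw [Finset.sum_eq_single_of_mem k (Finset.mem_range.2 (by omega))]
    · rw [intervalIntegral.integral_const_mul, Na_zpow (Na_ne hs), if_pos (by omega)]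
      ring
    · intro j _ hj
      rw [intervalIntegral.integral_const_mul, Na_zpow (Na_ne hs), if_neg (by omega), mul_zero]
  · intro i _
    refine Continuous.intervalIntegrable ?_ _ _
    exact continuous_const.mul ((Na_cont _).zpow₀ _ fun t => Or.inl (hw0 t))

private theorem Na_inner {F : ℂ → ℂ} {c : ℂ} {R : ℝ} (hF : DifferentiableOn ℂ F (Metric.ball c R)) (b : ℕ) {s t : ℝ}
    (hs : 0 < s ∧ s < R) (ht : 0 < t ∧ t < R) :
    ∫ θ in (-π)..π, F (c + circleMap 0 t θ) * conj (c + circleMap 0 t θ) ^ b =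
      ∑ k ∈ Finset.range (b + 1), (conj c ^ (b - k) * (b.choose k : ℂ)) * ((t : ℂ) ^ (2 * k) * Ik F c k s) := by
  have hper : Function.Periodic (fun θ : ℝ => F (c + circleMap 0 t θ) * conj (c + circleMap 0 t θ) ^ b) (2 * π) := by
    intro θ
    have := periodic_circleMap 0 t θ
    simp only [this]
  have h0 := hper.intervalIntegral_add_eq (-π) 0
  rw [show -π + 2 * π = π by ring, zero_add] at h0
  rw [h0]
  have hw0 : ∀ θ : ℝ, (t : ℂ) * exp (θ * I) ≠ 0 := fun θ => mul_ne_zero (Na_ne ht.1) (Complex.exp_ne_zero _)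
  have hc : ∀ θ : ℝ, conj ((t : ℂ) * exp (θ * I)) = (t : ℂ) ^ 2 * ((t : ℂ) * exp (θ * I))⁻¹ := by
    intro θ
    rw [eq_mul_inv_iff_mul_eq₀ (hw0 θ), mul_comm, Complex.mul_conj, Complex.normSq_eq_norm_sq, norm_mul,
      Complex.norm_exp_ofReal_mul_I, Complex.norm_real, Real.norm_of_nonneg ht.1.le, mul_one]
    push_cast; ring
  have h1 : ∀ θ : ℝ, F (c + circleMap 0 t θ) * conj (c + circleMap 0 t θ) ^ b =
      ∑ k ∈ Finset.range (b + 1), (conj c ^ (b - k) * (b.choose k : ℂ) * (t : ℂ) ^ (2 * k)) *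
        (F (c + t * exp (θ * I)) * ((t * exp (θ * I)) ^ k)⁻¹) := by
    intro θ
    have e1 : circleMap 0 t θ = t * exp (θ * I) := by rw [circleMap, zero_add]
    rw [e1, map_add, hc, add_comm (conj c), add_pow, Finset.mul_sum]
    refine Finset.sum_congr rfl fun k _ => ?_
    rw [mul_pow, inv_pow, ← pow_mul]
    ring
  simp only [h1]
  have hcF : Continuous fun θ : ℝ => F (c + t * exp (θ * I)) := by
    refine hF.continuousOn.comp_continuous (by fun_prop) fun θ => ?_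
    rw [Metric.mem_ball, dist_eq_norm, add_sub_cancel_left, norm_mul, Complex.norm_exp_ofReal_mul_I,
      Complex.norm_real, Real.norm_of_nonneg ht.1.le, mul_one]
    exact ht.2
  rw [intervalIntegral.integral_finsetSum]
  · refine Finset.sum_congr rfl fun k _ => ?_
    rw [intervalIntegral.integral_const_mul, Na_const hF k hs ht]
    unfold Ik
    ring
  · intro k _
    refine Continuous.intervalIntegrable ?_ _ _
    refine continuous_const.mul (hcF.mul ?_)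
    exact Continuous.inv₀ (by fun_prop) fun θ => pow_ne_zero _ (hw0 θ)

private theorem Na_ball {F : ℂ → ℂ} {c : ℂ} {r R : ℝ} (hr : 0 < r) (hrR : r < R) (hF : DifferentiableOn ℂ F (Metric.ball c R))
    (b : ℕ) {s : ℝ} (hs : 0 < s ∧ s < R) :
    ∫ z in Metric.ball c r, F z * conj z ^ b =
      ∑ k ∈ Finset.range (b + 1), (conj c ^ (b - k) * (b.choose k : ℂ)) * ((r : ℂ) ^ (2 * k + 2) / (2 * k + 2) * Ik F c k s) := by
  have hmp : MeasurePreserving (fun w : ℂ => c + w) volume volume := measurePreserving_add_left volume c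
  have hme : MeasurableEmbedding (fun w : ℂ => c + w) := measurableEmbedding_addLeft c
  have hpre : (fun w : ℂ => c + w) ⁻¹' (Metric.ball c r) = Metric.ball 0 r := by
    ext w
    simp [Metric.mem_ball, dist_eq_norm]
  have h1 := hmp.setIntegral_preimage_emb hme (fun z => F z * conj z ^ b) (Metric.ball c r)
  rw [hpre] at h1
  rw [← h1, ← integral_indicator measurableSet_ball, ← Complex.integral_comp_polarCoord_symm]
  have hsym : ∀ p : ℝ × ℝ, Complex.polarCoord.symm p = circleMap 0 p.1 p.2 := by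
    intro p
    rw [Complex.polarCoord_symm_apply, circleMap, zero_add, Complex.exp_mul_I]
    push_cast; rfl
  have e1 : (∫ p in polarCoord.target, p.1 • (Metric.ball (0 : ℂ) r).indicator
        (fun w => F (c + w) * conj (c + w) ^ b) (Complex.polarCoord.symm p)) =
      ∫ p in polarCoord.target, (Iio r ×ˢ (univ : Set ℝ)).indicator
        (fun p => (p.1 : ℂ) * (F (c + circleMap 0 p.1 p.2) * conj (c + circleMap 0 p.1 p.2) ^ b)) p := by
    refine setIntegral_congr_fun polarCoord.open_target.measurableSet (fun p hp => ?_)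
    have hp1 : 0 < p.1 := hp.1
    have hn : ‖circleMap 0 p.1 p.2‖ = p.1 := by simp [abs_of_pos hp1]
    simp only [hsym]
    by_cases h : p.1 < r
    · rw [indicator_of_mem (by rw [mem_ball_zero_iff, hn]; exact h), indicator_of_mem (by simpa using h)]
      simp
    · rw [indicator_of_notMem (by rw [mem_ball_zero_iff, hn]; exact h), indicator_of_notMem (by simpa using h)]
      simp
  rw [e1, setIntegral_indicator (measurableSet_Iio.prod MeasurableSet.univ)]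
  have e2 : polarCoord.target ∩ (Iio r ×ˢ (univ : Set ℝ)) = Ioo 0 r ×ˢ Ioo (-π) π := by
    rw [polarCoord_target]
    ext p
    simp only [mem_inter_iff, mem_prod, mem_Ioi, mem_Ioo, mem_Iio, mem_univ, and_true]
    tauto
  rw [e2, Measure.volume_eq_prod]
  have hcK : ContinuousOn (fun p : ℝ × ℝ =>
      (p.1 : ℂ) * (F (c + circleMap 0 p.1 p.2) * conj (c + circleMap 0 p.1 p.2) ^ b))
      (Icc 0 r ×ˢ Icc (-π) π) := by
    have hcm : Continuous (fun p : ℝ × ℝ => c + circleMap 0 p.1 p.2) := by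
      unfold circleMap; fun_prop
    have hmem : ∀ p ∈ (Icc 0 r ×ˢ Icc (-π) π : Set (ℝ × ℝ)), c + circleMap 0 p.1 p.2 ∈ Metric.ball c R := by
      intro p hp
      rw [Metric.mem_ball, dist_eq_norm, add_sub_cancel_left]
      have hn : ‖circleMap 0 p.1 p.2‖ = p.1 := by simp [abs_of_nonneg hp.1.1]
      rw [hn]; exact lt_of_le_of_lt hp.1.2 hrR
    refine ContinuousOn.mul (by fun_prop) (ContinuousOn.mul ?_ ?_)
    · exact hF.continuousOn.comp hcm.continuousOn hmem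
    · exact ((Complex.continuous_conj.comp hcm).pow b).continuousOn
  have hint : IntegrableOn (fun p : ℝ × ℝ =>
      (p.1 : ℂ) * (F (c + circleMap 0 p.1 p.2) * conj (c + circleMap 0 p.1 p.2) ^ b))
      (Ioo 0 r ×ˢ Ioo (-π) π) (volume.prod volume) := by
    refine IntegrableOn.mono_set ?_ (prod_mono Ioo_subset_Icc_self Ioo_subset_Icc_self)
    exact hcK.integrableOn_compact (isCompact_Icc.prod isCompact_Icc)
  rw [setIntegral_prod _ hint]
  have e3 : ∀ t ∈ Ioo 0 r, (∫ θ in Ioo (-π) π,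
      ((t : ℂ) * (F (c + circleMap 0 t θ) * conj (c + circleMap 0 t θ) ^ b))) =
      ∑ k ∈ Finset.range (b + 1), (conj c ^ (b - k) * (b.choose k : ℂ) * Ik F c k s) * (t : ℂ) ^ (2 * k + 1) := by
    intro t ht
    have h2 := Na_inner hF b hs ⟨ht.1, ht.2.trans hrR⟩
    rw [← integral_Ioc_eq_integral_Ioo,
      ← intervalIntegral.integral_of_le (by linarith [Real.pi_pos]),
      intervalIntegral.integral_const_mul, h2, Finset.mul_sum]
    refine Finset.sum_congr rfl fun k _ => ?_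
    ring
  rw [setIntegral_congr_fun measurableSet_Ioo e3, ← integral_Ioc_eq_integral_Ioo,
    ← intervalIntegral.integral_of_le hr.le, intervalIntegral.integral_finsetSum]
  · refine Finset.sum_congr rfl fun k _ => ?_
    rw [intervalIntegral.integral_const_mul]
    have e4 : ∫ t in (0 : ℝ)..r, (t : ℂ) ^ (2 * k + 1) = (r : ℂ) ^ (2 * k + 2) / (2 * k + 2) := by
      have : ∫ t in (0 : ℝ)..r, (t : ℂ) ^ (2 * k + 1) = ((∫ t in (0 : ℝ)..r, t ^ (2 * k + 1) : ℝ) : ℂ) := by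
        rw [← intervalIntegral.integral_ofReal]
        simp
      rw [this, integral_pow]
      push_cast
      ring
    rw [e4]; ring
  · intro k _
    exact Continuous.intervalIntegrable (by fun_prop) _ _

private theorem Na_disk {c : ℂ} {r : ℝ} (hr : 0 < r) {ρ : ℝ} (hρ0 : 0 < ρ) (hρ1 : ρ < 1) {N : Set ℂ} (hN : IsOpen N)
    (hK : Kp c r 0 ⊆ N) {F : ℂ → ℂ} (hF : DifferentiableOn ℂ F N) (b : ℕ) :
    ∫ z in Dp c r 0 1, F z * conj z ^ b = π * ∑ n ∈ Finset.range (b + 1), ((1 - ‖(0 : ℂ)‖ ^ (2 * (n + 1)) : ℝ) : ℂ) / (n + 1) *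
      fc c r 0 F ρ (n + 1) * conj (fc c r 0 (fun z => z ^ b) ρ (n + 1)) := by
  rw [Kp_disk c hr] at hK
  obtain ⟨δ, hδ, hsub⟩ := (isCompact_closedBall c r).exists_cthickening_subset_open hN hK
  have hball : Metric.ball c (r + δ) ⊆ N := by
    refine Subset.trans ?_ hsub
    rw [cthickening_closedBall hδ.le hr.le]
    refine Subset.trans Metric.ball_subset_closedBall ?_
    rw [add_comm]
  have hs : 0 < r * ρ ∧ r * ρ < r + δ := ⟨by positivity, by nlinarith⟩
  rw [Dp_disk c hr, Na_ball hr (by linarith) (hF.mono hball) b hs, Finset.mul_sum]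
  refine Finset.sum_congr rfl fun k hk => ?_
  rw [Finset.mem_range] at hk
  rw [Na_fc0 F c hr hρ0, Na_fc0 _ c hr hρ0, Na_pow c hs.1 (show k ≤ b by omega)]
  have hpi : (π : ℂ) ≠ 0 := by exact_mod_cast Real.pi_ne_zero
  have hk1 : ((k : ℂ) + 1) ≠ 0 := by exact_mod_cast Nat.succ_ne_zero k
  have hk2 : (2 * (k : ℂ) + 2) ≠ 0 := by
    have : (2 * (k : ℂ) + 2) = 2 * ((k : ℂ) + 1) := by ring
    rw [this]; exact mul_ne_zero two_ne_zero hk1
  have e1 : conj ((r : ℂ) ^ (k + 1) * (2 * π * (c ^ (b - k) * (b.choose k : ℂ))) / (2 * π)) =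
      (r : ℂ) ^ (k + 1) * (conj c ^ (b - k) * (b.choose k : ℂ)) := by
    have e2 : (r : ℂ) ^ (k + 1) * (2 * π * (c ^ (b - k) * (b.choose k : ℂ))) / (2 * π) =
        (r : ℂ) ^ (k + 1) * (c ^ (b - k) * (b.choose k : ℂ)) := by
      field_simp
    rw [e2]
    simp only [map_mul, map_pow, Complex.conj_ofReal, map_natCast]
  rw [e1, norm_zero, zero_pow (by omega)]
  push_cast
  field_simp
  ring

theorem PM {c : ℂ} {r : ℝ} (hr : 0 < r) {μ : ℂ} {ρ : ℝ} (hρ0 : 0 < ρ) (hρ : ‖μ‖ < ρ ^ 2) (hρ1 : ρ < 1) {N : Set ℂ} (hN : IsOpen N)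
    (hK : Kp c r μ ⊆ N) {F : ℂ → ℂ} (hF : DifferentiableOn ℂ F N) (b : ℕ) :
    ∫ z in Dp c r μ 1, F z * conj z ^ b = π * ∑ n ∈ Finset.range (b + 1), ((1 - ‖μ‖ ^ (2 * (n + 1)) : ℝ) : ℂ) / (n + 1) *
      fc c r μ F ρ (n + 1) * conj (fc c r μ (fun z => z ^ b) ρ (n + 1)) := by
  by_cases hμ0 : μ = 0
  · subst hμ0
    exact Na_disk hr hρ0 hρ1 hN hK hF b
  · exact Na_ell hr hμ0 hρ0 hρ hρ1 hN hK hF b

end ND1
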