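import Pool.Agent.H1.ND.D
import Pool.Agent.H1.EW.Ga
import Pool.Agent.H1.EW.Gc
import Pool.Agent.H1.EW.Gd

/-!
ROW ND/Ne. Limits of the coefficients of `UU = QQ₂ - QQ₁ = -2 Re (conj (nu μ₂ - nu μ₁) z²) - 2 Re ((gg c₂ μ₂ - gg 0 μ₁) z) + (hh c₂ r₂ μ₂ - hh 0 1 μ₁)` (`aa_re`). `nu μ = μ/(1+‖μ‖²)`: `(nu μ₂ - nu μ₁)/d → β` (difference of `1/(1+‖μ‖²)` is `O(‖μ‖ d)`), `gg 0 μ₁ = 0`, `gg c₂ μ₂ = conj c₂ - 2 conj (nu μ₂) c₂`,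
`hh = ‖c‖² - 2 Re (conj (nu μ) c²) - kap r μ`, `kap r μ = r² (1-‖μ‖²)²/(1+‖μ‖²)`: `(kap r₂ μ₂ - kap 1 μ₁)/d → 2a`. `Ulim`: combine. `Ubd`: `coef_le`/`aa_le` (`EW/Gc.lean`, `EW/Gd.lean`) with `r₀ = 1/2`, `R = 2`, `μ₀ = 1/100`; Lipschitz: derivative of the quadratic polynomial.
-/

set_option autoImplicit false

namespace ND1

open Complex Set Filter Topology MeasureTheory EW1 EX1
open scoped ComplexConjugate ContDiff Real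

theorem Lim.bounds {S : Sq} {a : ℝ} {γ β : ℂ} (hS : Lim S a γ β) (j : ℕ) :
    ‖S.c₂ j‖ ≤ 1 / 100 ∧ |1 - S.r₂ j| ≤ 1 / 100 := by
  have h1 := hS.small j
  unfold Sq.d dd at h1
  rw [zero_sub, norm_neg] at h1
  have h2 := norm_nonneg (S.c₂ j)
  have h3 := abs_nonneg (1 - S.r₂ j)
  have h4 := norm_nonneg (S.μ₁ j - S.μ₂ j)
  constructor <;> linarith

theorem Lim.rpos {S : Sq} {a : ℝ} {γ β : ℂ} (hS : Lim S a γ β) (j : ℕ) : 0 < S.r₂ j := by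
  have h := (abs_le.1 (hS.bounds j).2).2
  linarith

theorem Lim.ps₁ {S : Sq} {a : ℝ} {γ β : ℂ} (hS : Lim S a γ β) (j : ℕ) :
    PS (1 / 2) 2 (1 / 100) 0 1 (S.μ₁ j) := by
  refine ⟨by simp, by norm_num, by norm_num, hS.m1 j⟩

theorem Lim.ps₂ {S : Sq} {a : ℝ} {γ β : ℂ} (hS : Lim S a γ β) (j : ℕ) :
    PS (1 / 2) 2 (1 / 100) (S.c₂ j) (S.r₂ j) (S.μ₂ j) := by
  obtain ⟨h1, h2⟩ := hS.bounds j
  rw [abs_le] at h2
  refine ⟨by linarith, by linarith [h2.2], by linarith [h2.1], hS.m2 j⟩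

theorem kap_diff (r s₁ s₂ : ℝ) (h1 : 0 ≤ s₁) (h2 : 0 ≤ s₂) :
    r ^ 2 * (1 - s₂) ^ 2 / (1 + s₂) - 1 ^ 2 * (1 - s₁) ^ 2 / (1 + s₁) =
      (r - 1) * (r + 1) * ((1 - s₂) ^ 2 / (1 + s₂)) +
        (s₂ - s₁) * ((-3 + s₁ + s₂ + s₁ * s₂) / ((1 + s₁) * (1 + s₂))) := by
  have h3 : 1 + s₁ ≠ 0 := by positivity
  have h4 : 1 + s₂ ≠ 0 := by positivity
  field_simp
  ring

theorem sq_diff (x y : ℂ) : ‖x‖ ^ 2 - ‖y‖ ^ 2 = ((x - y) * conj (x + y)).re := by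
  rw [← Complex.normSq_eq_norm_sq, ← Complex.normSq_eq_norm_sq, Complex.normSq_apply,
    Complex.normSq_apply]
  simp only [Complex.mul_re, Complex.sub_re, Complex.sub_im, Complex.conj_re, Complex.conj_im,
    Complex.add_re, Complex.add_im]
  ring

theorem colim {S : Sq} {a : ℝ} {γ β : ℂ} (hS : Lim S a γ β) :
    Tendsto (fun j => (nu (S.μ₂ j) - nu (S.μ₁ j)) / (S.d j : ℂ)) atTop (𝓝 β) ∧
    Tendsto (fun j => (gg (S.c₂ j) (S.μ₂ j) - gg 0 (S.μ₁ j)) / (S.d j : ℂ)) atTop (𝓝 (conj γ)) ∧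
    Tendsto (fun j => (hh (S.c₂ j) (S.r₂ j) (S.μ₂ j) - hh 0 1 (S.μ₁ j)) / S.d j) atTop (𝓝 (-2 * a)) := by
  have hd : ∀ j, S.d j ≠ 0 := fun j => (hS.pos j).ne'
  have hdc : ∀ j, (S.d j : ℂ) ≠ 0 := fun j => by exact_mod_cast hd j
  have hconj : ∀ {f : ℕ → ℂ} {l : ℂ}, Tendsto f atTop (𝓝 l) →
      Tendsto (fun j => conj (f j)) atTop (𝓝 (conj l)) := fun h =>
    (Complex.continuous_conj.tendsto _).comp h
  have hs1 : Tendsto (fun j => ‖S.μ₁ j‖ ^ 2) atTop (𝓝 0) := by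
    have := (hS.lm1.norm).pow 2
    simpa using this
  have hs2 : Tendsto (fun j => ‖S.μ₂ j‖ ^ 2) atTop (𝓝 0) := by
    have := (hS.lm2.norm).pow 2
    simpa using this
  have hn1 : Tendsto (fun j => (((1 + ‖S.μ₁ j‖ ^ 2 : ℝ)) : ℂ)) atTop (𝓝 1) := by
    have h := (tendsto_const_nhds (x := (1 : ℝ))).add hs1
    rw [add_zero] at h
    have h2 := (Complex.continuous_ofReal.tendsto 1).comp h
    rw [Complex.ofReal_one] at h2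
    exact h2
  have hn2 : Tendsto (fun j => (((1 + ‖S.μ₂ j‖ ^ 2 : ℝ)) : ℂ)) atTop (𝓝 1) := by
    have h := (tendsto_const_nhds (x := (1 : ℝ))).add hs2
    rw [add_zero] at h
    have h2 := (Complex.continuous_ofReal.tendsto 1).comp h
    rw [Complex.ofReal_one] at h2
    exact h2
  have hnz1 : ∀ j, (((1 + ‖S.μ₁ j‖ ^ 2 : ℝ)) : ℂ) ≠ 0 := fun j => by
    have : (0 : ℝ) < 1 + ‖S.μ₁ j‖ ^ 2 := by positivity
    exact_mod_cast this.ne'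
  have hnz2 : ∀ j, (((1 + ‖S.μ₂ j‖ ^ 2 : ℝ)) : ℂ) ≠ 0 := fun j => by
    have : (0 : ℝ) < 1 + ‖S.μ₂ j‖ ^ 2 := by positivity
    exact_mod_cast this.ne'
  have hnu2 : Tendsto (fun j => nu (S.μ₂ j)) atTop (𝓝 0) := by
    have h := hS.lm2.div hn2 one_ne_zero
    rw [zero_div] at h
    exact h
  refine ⟨?_, ?_, ?_⟩
  · have h := (hS.lb.sub ((hS.lm2.mul hS.lm1).mul (hconj hS.lb))).div (hn2.mul hn1)
      (by simp)
    rw [mul_zero, zero_mul, sub_zero, mul_one, div_one] at h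
    refine h.congr fun j => ?_
    have h2 := gc_id (S.μ₂ j) (S.μ₁ j)
    have h3 : conj ((S.μ₂ j - S.μ₁ j) / (S.d j : ℂ)) = conj (S.μ₂ j - S.μ₁ j) / (S.d j : ℂ) := by
      rw [map_div₀, Complex.conj_ofReal]
    show ((S.μ₂ j - S.μ₁ j) / (S.d j : ℂ) - S.μ₂ j * S.μ₁ j * conj ((S.μ₂ j - S.μ₁ j) / (S.d j : ℂ))) /
      ((((1 + ‖S.μ₂ j‖ ^ 2 : ℝ)) : ℂ) * (((1 + ‖S.μ₁ j‖ ^ 2 : ℝ)) : ℂ)) = _
    rw [h3, div_eq_div_iff (mul_ne_zero (hnz2 j) (hnz1 j)) (hdc j), mul_comm (nu _ - nu _), h2]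
    have h4 : (S.d j : ℂ) ≠ 0 := hdc j
    field_simp
  · have h := (hconj hS.lc).sub (((tendsto_const_nhds (x := (2 : ℂ))).mul (hconj hnu2)).mul hS.lc)
    rw [map_zero, mul_zero, zero_mul, sub_zero] at h
    refine h.congr fun j => ?_
    show conj (S.c₂ j / (S.d j : ℂ)) - 2 * conj (nu (S.μ₂ j)) * (S.c₂ j / (S.d j : ℂ)) = _
    unfold gg
    rw [map_div₀, Complex.conj_ofReal, map_zero, mul_zero, sub_zero, sub_zero]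
    field_simp
  · -- the real part
    have hc2 : Tendsto (fun j => ‖S.c₂ j / (S.d j : ℂ)‖ ^ 2 * S.d j) atTop (𝓝 0) := by
      have h := (hS.lc.norm.pow 2).mul hS.ld
      rw [mul_zero] at h
      exact h
    have hc3 : Tendsto (fun j => (conj (nu (S.μ₂ j)) * (S.c₂ j / (S.d j : ℂ)) ^ 2).re * S.d j) atTop
        (𝓝 0) := by
      have h := ((Complex.continuous_re.tendsto _).comp ((hconj hnu2).mul (hS.lc.pow 2))).mul hS.ld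
      rw [mul_zero] at h
      exact h
    have hr : Tendsto (fun j => S.r₂ j + 1) atTop (𝓝 2) := by
      have h := (hS.lr.mul hS.ld).add (tendsto_const_nhds (x := (2 : ℝ)))
      rw [mul_zero, zero_add] at h
      refine h.congr fun j => ?_
      rw [div_mul_cancel₀ _ (hd j)]
      ring
    have hg2 : Tendsto (fun j => (1 - ‖S.μ₂ j‖ ^ 2) ^ 2 / (1 + ‖S.μ₂ j‖ ^ 2)) atTop (𝓝 1) := by
      have h := (((tendsto_const_nhds (x := (1 : ℝ))).sub hs2).pow 2).div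
        ((tendsto_const_nhds (x := (1 : ℝ))).add hs2) (by norm_num)
      have e : ((1 : ℝ) - 0) ^ 2 / (1 + 0) = 1 := by norm_num
      rw [e] at h
      exact h
    have hq : Tendsto (fun j => (-3 + ‖S.μ₁ j‖ ^ 2 + ‖S.μ₂ j‖ ^ 2 + ‖S.μ₁ j‖ ^ 2 * ‖S.μ₂ j‖ ^ 2) /
        ((1 + ‖S.μ₁ j‖ ^ 2) * (1 + ‖S.μ₂ j‖ ^ 2))) atTop (𝓝 (-3)) := by
      have h := ((((tendsto_const_nhds (x := (-3 : ℝ))).add hs1).add hs2).add (hs1.mul hs2)).div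
        (((tendsto_const_nhds (x := (1 : ℝ))).add hs1).mul
          ((tendsto_const_nhds (x := (1 : ℝ))).add hs2)) (by norm_num)
      have e : ((-3 : ℝ) + 0 + 0 + 0 * 0) / ((1 + 0) * (1 + 0)) = -3 := by norm_num
      rw [e] at h
      exact h
    have hsd : Tendsto (fun j => (((S.μ₂ j - S.μ₁ j) / (S.d j : ℂ)) * conj (S.μ₂ j + S.μ₁ j)).re)
        atTop (𝓝 0) := by
      have h := (Complex.continuous_re.tendsto _).comp (hS.lb.mul (hconj (hS.lm2.add hS.lm1)))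
      have e : (β * conj ((0 : ℂ) + 0)).re = 0 := by simp
      rw [e] at h
      exact h
    have h := (hc2.sub ((tendsto_const_nhds (x := (2 : ℝ))).mul hc3)).sub
      (((hS.lr.mul hr).mul hg2).add (hsd.mul hq))
    have e : (0 : ℝ) - 2 * 0 - (a * 2 * 1 + 0 * -3) = -2 * a := by ring
    rw [e] at h
    refine h.congr fun j => ?_
    have hdj := hd j
    have h1 : ‖S.c₂ j / (S.d j : ℂ)‖ ^ 2 * S.d j = ‖S.c₂ j‖ ^ 2 / S.d j := by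
      rw [norm_div, Complex.norm_real, Real.norm_of_nonneg (hS.pos j).le]
      field_simp
    have h2 : (conj (nu (S.μ₂ j)) * (S.c₂ j / (S.d j : ℂ)) ^ 2).re * S.d j =
        (conj (nu (S.μ₂ j)) * S.c₂ j ^ 2).re / S.d j := by
      have h3 : conj (nu (S.μ₂ j)) * (S.c₂ j / (S.d j : ℂ)) ^ 2 =
          conj (nu (S.μ₂ j)) * S.c₂ j ^ 2 / ((S.d j ^ 2 : ℝ) : ℂ) := by
        push_cast
        rw [div_pow]
        ring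
      rw [h3, Complex.div_ofReal_re]
      field_simp
    have h3 : (((S.μ₂ j - S.μ₁ j) / (S.d j : ℂ)) * conj (S.μ₂ j + S.μ₁ j)).re =
        (‖S.μ₂ j‖ ^ 2 - ‖S.μ₁ j‖ ^ 2) / S.d j := by
      rw [sq_diff, div_mul_eq_mul_div, Complex.div_ofReal_re]
    have h4 := kap_diff (S.r₂ j) (‖S.μ₁ j‖ ^ 2) (‖S.μ₂ j‖ ^ 2) (sq_nonneg _) (sq_nonneg _)
    show ‖S.c₂ j / (S.d j : ℂ)‖ ^ 2 * S.d j -
      2 * ((conj (nu (S.μ₂ j)) * (S.c₂ j / (S.d j : ℂ)) ^ 2).re * S.d j) -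
      ((S.r₂ j - 1) / S.d j * (S.r₂ j + 1) * ((1 - ‖S.μ₂ j‖ ^ 2) ^ 2 / (1 + ‖S.μ₂ j‖ ^ 2)) +
        (((S.μ₂ j - S.μ₁ j) / (S.d j : ℂ)) * conj (S.μ₂ j + S.μ₁ j)).re *
        ((-3 + ‖S.μ₁ j‖ ^ 2 + ‖S.μ₂ j‖ ^ 2 + ‖S.μ₁ j‖ ^ 2 * ‖S.μ₂ j‖ ^ 2) /
        ((1 + ‖S.μ₁ j‖ ^ 2) * (1 + ‖S.μ₂ j‖ ^ 2)))) = _
    rw [h1, h2, h3]
    have h5 : hh (S.c₂ j) (S.r₂ j) (S.μ₂ j) - hh 0 1 (S.μ₁ j) =
        ‖S.c₂ j‖ ^ 2 - 2 * (conj (nu (S.μ₂ j)) * S.c₂ j ^ 2).re -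
          (S.r₂ j ^ 2 * (1 - ‖S.μ₂ j‖ ^ 2) ^ 2 / (1 + ‖S.μ₂ j‖ ^ 2) -
            1 ^ 2 * (1 - ‖S.μ₁ j‖ ^ 2) ^ 2 / (1 + ‖S.μ₁ j‖ ^ 2)) := by
      unfold hh kap
      simp
      ring
    rw [h5, h4]
    ring

theorem UU_eq {S : Sq} {a : ℝ} {γ β : ℂ} (hS : Lim S a γ β) (j : ℕ) (z : ℂ) :
    S.UU j z = (aa 0 1 (S.μ₁ j) (S.c₂ j) (S.r₂ j) (S.μ₂ j) z).re := by
  have h1 := hS.m1 j
  have h2 := hS.m2 j
  rw [aa_re one_pos (hS.rpos j) (by linarith) (by linarith)]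
  rfl

theorem Ulim {S : Sq} {a : ℝ} {γ β : ℂ} (hS : Lim S a γ β) (z : ℂ) :
    Tendsto (fun j => S.UU j z / S.d j) atTop (𝓝 (-2 * hf a γ β z)) := by
  obtain ⟨h1, h2, h3⟩ := colim hS
  have hconj : Tendsto (fun j => conj ((nu (S.μ₂ j) - nu (S.μ₁ j)) / (S.d j : ℂ))) atTop
      (𝓝 (conj β)) := (Complex.continuous_conj.tendsto _).comp h1
  have h4 := ((Complex.continuous_re.tendsto _).comp
    ((((tendsto_const_nhds (x := (2 : ℂ))).mul hconj).mul (tendsto_const_nhds (x := z ^ 2))).neg.sub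
      (((tendsto_const_nhds (x := (2 : ℂ))).mul h2).mul (tendsto_const_nhds (x := z))))).add h3
  have e : (-(2 * conj β * z ^ 2) - 2 * conj γ * z).re + -2 * a = -2 * hf a γ β z := by
    unfold hf
    have e1 : -(2 * conj β * z ^ 2) - 2 * conj γ * z =
        ((-2 : ℝ) : ℂ) * (conj β * z ^ 2) + ((-2 : ℝ) : ℂ) * (conj γ * z) := by
      push_cast
      ring
    rw [e1, Complex.add_re, Complex.re_ofReal_mul, Complex.re_ofReal_mul]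
    ring
  rw [e] at h4
  refine h4.congr fun j => ?_
  have hd : (S.d j) ≠ 0 := (hS.pos j).ne'
  rw [UU_eq hS]
  have h5 : aa 0 1 (S.μ₁ j) (S.c₂ j) (S.r₂ j) (S.μ₂ j) z =
      (-(2 * conj (nu (S.μ₂ j) - nu (S.μ₁ j)) * z ^ 2) -
        2 * (gg (S.c₂ j) (S.μ₂ j) - gg 0 (S.μ₁ j)) * z) +
        ((hh (S.c₂ j) (S.r₂ j) (S.μ₂ j) - hh 0 1 (S.μ₁ j) : ℝ) : ℂ) := rfl
  rw [h5, Complex.add_re, Complex.ofReal_re, add_div, ← Complex.div_ofReal_re]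
  show (-(2 * conj ((nu (S.μ₂ j) - nu (S.μ₁ j)) / (S.d j : ℂ)) * z ^ 2) -
    2 * ((gg (S.c₂ j) (S.μ₂ j) - gg 0 (S.μ₁ j)) / (S.d j : ℂ)) * z).re + _ = _
  congr 2
  rw [map_div₀, Complex.conj_ofReal]
  ring

theorem Ubd : ∃ C : ℝ, 0 < C ∧ ∀ {S : Sq} {a : ℝ} {γ β : ℂ}, Lim S a γ β → ∀ j (z w : ℂ), ‖z‖ ≤ 3 → ‖w‖ ≤ 3 →
    |S.UU j z| ≤ C * S.d j ∧ |S.UU j z - S.UU j w| ≤ C * S.d j * ‖z - w‖ := by
  obtain ⟨C₁, hC₁, h₁⟩ := coef_le (r₀ := 1 / 2) (R := 2) (μ₀ := 1 / 100) (by norm_num) (by norm_num)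
    (by norm_num) (by norm_num)
  obtain ⟨C₂, hC₂, h₂⟩ := aa_le (r₀ := 1 / 2) (R := 2) (μ₀ := 1 / 100) (by norm_num) (by norm_num)
    (by norm_num) (by norm_num)
  refine ⟨12 * C₁ + C₂, by positivity, ?_⟩
  intro S a γ β hS j z w hz hw
  have hd : 0 < S.d j := hS.pos j
  have e1 := h₁ 0 1 (S.μ₁ j) (S.c₂ j) (S.r₂ j) (S.μ₂ j) (hS.ps₁ j) (hS.ps₂ j)
  have e2 := h₂ 0 1 (S.μ₁ j) (S.c₂ j) (S.r₂ j) (S.μ₂ j) (hS.ps₁ j) (hS.ps₂ j) z (by linarith)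
  rw [UU_eq hS, UU_eq hS, ← Complex.sub_re]
  constructor
  · refine (Complex.abs_re_le_norm _).trans (e2.trans ?_)
    show C₂ * S.d j ≤ (12 * C₁ + C₂) * S.d j
    nlinarith [mul_pos hC₁ hd]
  · refine (Complex.abs_re_le_norm _).trans ?_
    have h3 : aa 0 1 (S.μ₁ j) (S.c₂ j) (S.r₂ j) (S.μ₂ j) z -
        aa 0 1 (S.μ₁ j) (S.c₂ j) (S.r₂ j) (S.μ₂ j) w =
        -(2 * conj (nu (S.μ₂ j) - nu (S.μ₁ j)) * (z + w) +
          2 * (gg (S.c₂ j) (S.μ₂ j) - gg 0 (S.μ₁ j))) * (z - w) := by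
      unfold aa
      ring
    rw [h3, norm_mul, norm_neg]
    refine mul_le_mul_of_nonneg_right ?_ (norm_nonneg _)
    have h4 : ‖2 * conj (nu (S.μ₂ j) - nu (S.μ₁ j)) * (z + w) +
        2 * (gg (S.c₂ j) (S.μ₂ j) - gg 0 (S.μ₁ j))‖ ≤
        12 * ‖nu (S.μ₂ j) - nu (S.μ₁ j)‖ + 2 * ‖gg (S.c₂ j) (S.μ₂ j) - gg 0 (S.μ₁ j)‖ := by
      refine (norm_add_le _ _).trans ?_
      rw [norm_mul, norm_mul, norm_mul, RCLike.norm_conj, Complex.norm_two]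
      have h5 : ‖z + w‖ ≤ 6 := (norm_add_le z w).trans (by linarith)
      have h6 := norm_nonneg (nu (S.μ₂ j) - nu (S.μ₁ j))
      nlinarith
    refine h4.trans ?_
    have h5 := norm_nonneg (nu (S.μ₂ j) - nu (S.μ₁ j))
    have h6 := norm_nonneg (gg (S.c₂ j) (S.μ₂ j) - gg 0 (S.μ₁ j))
    have h7 := abs_nonneg (hh (S.c₂ j) (S.r₂ j) (S.μ₂ j) - hh 0 1 (S.μ₁ j))
    have h8 : dd 0 1 (S.μ₁ j) (S.c₂ j) (S.r₂ j) (S.μ₂ j) = S.d j := rfl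
    rw [h8] at e1
    nlinarith [mul_pos hC₂ hd]

end ND1
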