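import Pool.Agent.H1.EW.Ga

/-!
ROW ND/Nf. Dirichlet problem with polynomial data on the ellipse `z = v + μ conj v`, `‖v‖ = 1` (`zz 0 1 μ v`). Polynomials `F_n`: `F_0 = 2`, `F_1 = ζ`, `F_(n+1) = ζ F_n - μ F_(n-1)`; `F_n (v + μ/v) = vⁿ + (μ/v)ⁿ` for `v ≠ 0`, so for `‖v‖ = 1`: `F_n (zz 0 1 μ v) = vⁿ + μⁿ conj vⁿ` (`n ≥ 1`).
`W = t_0 + ∑_{n=1}^K s_n F_n`, `s_n = (t_n - conj t_n conj μⁿ)/(1 - ‖μ‖^(2n))`: on the ellipse `Re (s_n F_n) = Re ((s_n + conj s_n conj μⁿ) vⁿ) = Re (t_n vⁿ)`. Bounds: `K` is fixed, `‖μ‖ ≤ 1/100`, `‖s_n‖ ≤ 2 B`, `‖s_n - t_n‖ ≤ C B ‖μ‖`, `F_n` bounded and Lipschitz on `‖z‖ ≤ 3`, `‖F_n z - zⁿ‖ ≤ C ‖μ‖` there (induction on `n`).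
-/

set_option autoImplicit false

namespace ND1

open Complex Set Filter Topology MeasureTheory EW1
open scoped ComplexConjugate ContDiff Real

/-- the polynomials `F_n` -/
noncomputable def ndFp (μ : ℂ) : ℕ → ℂ → ℂ
  | 0, _ => 2
  | 1, z => z
  | n + 2, z => z * ndFp μ (n + 1) z - μ * ndFp μ n z

theorem ndFp_zero (μ z : ℂ) : ndFp μ 0 z = 2 := by simp [ndFp]

theorem ndFp_one (μ z : ℂ) : ndFp μ 1 z = z := by simp [ndFp]

theorem ndFp_add_two (μ : ℂ) (n : ℕ) (z : ℂ) :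
    ndFp μ (n + 2) z = z * ndFp μ (n + 1) z - μ * ndFp μ n z := by simp [ndFp]

theorem ndFp_diff (μ : ℂ) (n : ℕ) : Differentiable ℂ (ndFp μ n) := by
  induction n using Nat.twoStepInduction with
  | zero =>
    have h : ndFp μ 0 = fun _ => 2 := funext fun z => ndFp_zero μ z
    rw [h]
    exact differentiable_const _
  | one =>
    have h : ndFp μ 1 = fun z => z := funext fun z => ndFp_one μ z
    rw [h]
    exact differentiable_id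
  | more n h0 h1 =>
    have h : ndFp μ (n + 2) = fun z => z * ndFp μ (n + 1) z - μ * ndFp μ n z :=
      funext fun z => ndFp_add_two μ n z
    rw [h]
    exact (differentiable_id.mul h1).sub (h0.const_mul μ)

theorem ndFp_zz (μ : ℂ) {v : ℂ} (hv : ‖v‖ = 1) (n : ℕ) :
    ndFp μ n (zz 0 1 μ v) = v ^ n + μ ^ n * conj v ^ n := by
  have h1 : v * conj v = 1 := by
    rw [Complex.mul_conj, Complex.normSq_eq_norm_sq, hv]
    norm_num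
  have hz : zz 0 1 μ v = v + μ * conj v := by
    unfold zz
    push_cast
    ring
  rw [hz]
  induction n using Nat.twoStepInduction with
  | zero =>
    rw [ndFp_zero]
    norm_num
  | one =>
    rw [ndFp_one]
    ring
  | more n h0 h1' =>
    rw [ndFp_add_two, h0, h1']
    have e : (v + μ * conj v) * (v ^ (n + 1) + μ ^ (n + 1) * conj v ^ (n + 1)) -
        μ * (v ^ n + μ ^ n * conj v ^ n) = v ^ (n + 2) + μ ^ (n + 2) * conj v ^ (n + 2) +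
        (v * conj v - 1) * (μ * v ^ n + μ ^ (n + 1) * conj v ^ n) := by ring
    rw [e, h1]
    ring

theorem ndFp_bd (n : ℕ) : ∃ C : ℝ, 0 ≤ C ∧ ∀ μ : ℂ, ‖μ‖ ≤ 1 / 100 →
    (∀ z : ℂ, ‖z‖ ≤ 3 → ‖ndFp μ n z‖ ≤ C) ∧
      (∀ z w : ℂ, ‖z‖ ≤ 3 → ‖w‖ ≤ 3 → ‖ndFp μ n z - ndFp μ n w‖ ≤ C * ‖z - w‖) ∧
      (1 ≤ n → ∀ z : ℂ, ‖z‖ ≤ 3 → ‖ndFp μ n z - z ^ n‖ ≤ C * ‖μ‖) := by
  induction n using Nat.twoStepInduction with
  | zero =>
    refine ⟨2, by norm_num, fun μ hμ => ⟨fun z hz => ?_, fun z w hz hw => ?_, fun h => ?_⟩⟩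
    · rw [ndFp_zero]
      norm_num
    · rw [ndFp_zero, ndFp_zero, sub_self, norm_zero]
      positivity
    · omega
  | one =>
    refine ⟨3, by norm_num, fun μ hμ => ⟨fun z hz => ?_, fun z w hz hw => ?_, fun h z hz => ?_⟩⟩
    · rw [ndFp_one]
      exact hz
    · rw [ndFp_one, ndFp_one]
      have := norm_nonneg (z - w)
      linarith
    · rw [ndFp_one, pow_one, sub_self, norm_zero]
      positivity
  | more n h0 h1 =>
    obtain ⟨C₀, hC₀, h0⟩ := h0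
    obtain ⟨C₁, hC₁, h1⟩ := h1
    refine ⟨4 * (C₁ + C₀) + 2, by positivity, fun μ hμ => ?_⟩
    obtain ⟨b0, l0, a0⟩ := h0 μ hμ
    obtain ⟨b1, l1, a1⟩ := h1 μ hμ
    have hμ0 := norm_nonneg μ
    refine ⟨fun z hz => ?_, fun z w hz hw => ?_, fun _ z hz => ?_⟩
    · rw [ndFp_add_two]
      refine (norm_sub_le _ _).trans ?_
      rw [norm_mul, norm_mul]
      have e1 : ‖z‖ * ‖ndFp μ (n + 1) z‖ ≤ 3 * C₁ := mul_le_mul hz (b1 z hz) (norm_nonneg _) (by norm_num)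
      have e2 : ‖μ‖ * ‖ndFp μ n z‖ ≤ 1 / 100 * C₀ := mul_le_mul hμ (b0 z hz) (norm_nonneg _) (by norm_num)
      linarith
    · rw [ndFp_add_two, ndFp_add_two]
      have e : z * ndFp μ (n + 1) z - μ * ndFp μ n z - (w * ndFp μ (n + 1) w - μ * ndFp μ n w) =
          (z - w) * ndFp μ (n + 1) z + w * (ndFp μ (n + 1) z - ndFp μ (n + 1) w) -
            μ * (ndFp μ n z - ndFp μ n w) := by ring
      rw [e]
      refine (norm_sub_le _ _).trans ?_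
      refine (add_le_add_left (norm_add_le _ _) _).trans ?_
      rw [norm_mul, norm_mul, norm_mul]
      have hd := norm_nonneg (z - w)
      have e1 : ‖z - w‖ * ‖ndFp μ (n + 1) z‖ ≤ ‖z - w‖ * C₁ := mul_le_mul_of_nonneg_left (b1 z hz) hd
      have e2 : ‖w‖ * ‖ndFp μ (n + 1) z - ndFp μ (n + 1) w‖ ≤ 3 * (C₁ * ‖z - w‖) :=
        mul_le_mul hw (l1 z w hz hw) (norm_nonneg _) (by norm_num)
      have e3 : ‖μ‖ * ‖ndFp μ n z - ndFp μ n w‖ ≤ 1 / 100 * (C₀ * ‖z - w‖) :=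
        mul_le_mul hμ (l0 z w hz hw) (norm_nonneg _) (by norm_num)
      have e4 : 0 ≤ C₀ * ‖z - w‖ := mul_nonneg hC₀ hd
      nlinarith
    · rw [ndFp_add_two]
      have e1 : ‖ndFp μ (n + 1) z - z ^ (n + 1)‖ ≤ C₁ * ‖μ‖ := a1 (by omega) z hz
      have e : z * ndFp μ (n + 1) z - μ * ndFp μ n z - z ^ (n + 2) =
          z * (ndFp μ (n + 1) z - z ^ (n + 1)) - μ * ndFp μ n z := by ring
      rw [e]
      refine (norm_sub_le _ _).trans ?_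
      rw [norm_mul, norm_mul]
      have e2 : ‖z‖ * ‖ndFp μ (n + 1) z - z ^ (n + 1)‖ ≤ 3 * (C₁ * ‖μ‖) :=
        mul_le_mul hz e1 (norm_nonneg _) (by norm_num)
      have e3 : ‖μ‖ * ‖ndFp μ n z‖ ≤ ‖μ‖ * C₀ := mul_le_mul_of_nonneg_left (b0 z hz) hμ0
      have e4 : 0 ≤ C₁ * ‖μ‖ := mul_nonneg hC₁ hμ0
      have e5 : 0 ≤ C₀ * ‖μ‖ := mul_nonneg hC₀ hμ0
      nlinarith

theorem nd_slem (t m : ℂ) (ε B : ℝ) (hm : ‖m‖ ≤ ε) (hε : ε ≤ 1 / 100) (ht : ‖t‖ ≤ B) :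
    ∃ s : ℂ, s + conj s * m = t ∧ ‖s‖ ≤ 2 * B ∧ ‖s - t‖ ≤ 4 * B * ε := by
  have hm0 := norm_nonneg m
  have hB : 0 ≤ B := (norm_nonneg t).trans ht
  have hq : (1 / 2 : ℝ) ≤ 1 - ‖m‖ ^ 2 := by nlinarith
  have hq0 : (0 : ℝ) < 1 - ‖m‖ ^ 2 := by linarith
  have hne : ((1 - ‖m‖ ^ 2 : ℝ) : ℂ) ≠ 0 := by
    exact_mod_cast hq0.ne'
  have hmm : m * conj m = ((‖m‖ ^ 2 : ℝ) : ℂ) := by
    rw [Complex.mul_conj, Complex.normSq_eq_norm_sq]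
  obtain ⟨s, hs⟩ : ∃ s : ℂ, s = (t - m * conj t) / ((1 - ‖m‖ ^ 2 : ℝ) : ℂ) := ⟨_, rfl⟩
  have hsm : s * ((1 - ‖m‖ ^ 2 : ℝ) : ℂ) = t - m * conj t := by
    rw [hs]
    field_simp
  have hcs : conj s * ((1 - ‖m‖ ^ 2 : ℝ) : ℂ) = conj t - conj m * t := by
    have h := congrArg (starRingEnd ℂ) hsm
    rw [map_mul, Complex.conj_ofReal, map_sub, map_mul, Complex.conj_conj] at h
    exact h
  have h1 : s + conj s * m = t := by
    apply mul_right_cancel₀ hne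
    have e : (s + conj s * m) * ((1 - ‖m‖ ^ 2 : ℝ) : ℂ) =
        s * ((1 - ‖m‖ ^ 2 : ℝ) : ℂ) + conj s * ((1 - ‖m‖ ^ 2 : ℝ) : ℂ) * m := by ring
    rw [e, hsm, hcs]
    have e2 : t - m * conj t + (conj t - conj m * t) * m = t - t * (m * conj m) := by ring
    rw [e2, hmm]
    push_cast
    ring
  have h2 : ‖s - t‖ ≤ 4 * B * ε := by
    have e : (s - t) * ((1 - ‖m‖ ^ 2 : ℝ) : ℂ) = t * ((‖m‖ ^ 2 : ℝ) : ℂ) - m * conj t := by
      have : (s - t) * ((1 - ‖m‖ ^ 2 : ℝ) : ℂ) =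
        s * ((1 - ‖m‖ ^ 2 : ℝ) : ℂ) - t * ((1 - ‖m‖ ^ 2 : ℝ) : ℂ) := by ring
      rw [this, hsm]
      push_cast
      ring
    have e1 : ‖s - t‖ * (1 - ‖m‖ ^ 2) ≤ 2 * B * ‖m‖ := by
      calc ‖s - t‖ * (1 - ‖m‖ ^ 2) = ‖(s - t) * ((1 - ‖m‖ ^ 2 : ℝ) : ℂ)‖ := by
            rw [norm_mul, Complex.norm_real, Real.norm_of_nonneg hq0.le]
        _ = ‖t * ((‖m‖ ^ 2 : ℝ) : ℂ) - m * conj t‖ := by rw [e]
        _ ≤ ‖t * ((‖m‖ ^ 2 : ℝ) : ℂ)‖ + ‖m * conj t‖ := norm_sub_le _ _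
        _ = ‖t‖ * ‖m‖ ^ 2 + ‖m‖ * ‖t‖ := by
            rw [norm_mul, norm_mul, Complex.norm_real, Real.norm_of_nonneg (by positivity),
              Complex.norm_conj]
        _ ≤ 2 * B * ‖m‖ := by
            have h3 : ‖t‖ * ‖m‖ ^ 2 ≤ B * ‖m‖ := by
              have h4 : ‖m‖ ^ 2 ≤ ‖m‖ := by nlinarith
              exact mul_le_mul ht h4 (by positivity) hB
            have h5 : ‖m‖ * ‖t‖ ≤ ‖m‖ * B := mul_le_mul_of_nonneg_left ht hm0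
            linarith
    have e2 : ‖s - t‖ * (1 / 2) ≤ ‖s - t‖ * (1 - ‖m‖ ^ 2) :=
      mul_le_mul_of_nonneg_left hq (norm_nonneg _)
    have e3 : B * ‖m‖ ≤ B * ε := mul_le_mul_of_nonneg_left hm hB
    linarith
  refine ⟨s, h1, ?_, h2⟩
  have e1 : ‖s‖ ≤ ‖s - t‖ + ‖t‖ := by
    have := norm_add_le (s - t) t
    rwa [sub_add_cancel] at this
  have e2 : 4 * B * ε ≤ B := by nlinarith
  linarith

theorem nd_Tlem (n : ℕ) : ∃ C : ℝ, 0 < C ∧ ∀ μ : ℂ, ‖μ‖ ≤ 1 / 100 → ∀ (t : ℂ) (B : ℝ), ‖t‖ ≤ B →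
    ∃ W : ℂ → ℂ, Differentiable ℂ W ∧
      (∀ v : ℂ, ‖v‖ = 1 → (W (zz 0 1 μ v)).re = (t * v ^ n).re) ∧
      (∀ z : ℂ, ‖z‖ ≤ 3 → ‖W z‖ ≤ C * B) ∧
      (∀ z w : ℂ, ‖z‖ ≤ 3 → ‖w‖ ≤ 3 → ‖W z - W w‖ ≤ C * B * ‖z - w‖) ∧
      ∀ z : ℂ, ‖z‖ ≤ 3 → ‖W z - t * z ^ n‖ ≤ C * B * ‖μ‖ := by
  rcases Nat.eq_zero_or_pos n with hn | hn
  · subst hn
    refine ⟨1, one_pos, fun μ hμ t B ht => ⟨fun _ => t, differentiable_const _, fun v hv => ?_,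
      fun z hz => ?_, fun z w hz hw => ?_, fun z hz => ?_⟩⟩
    · rw [pow_zero, mul_one]
    · rw [one_mul]
      exact ht
    · rw [sub_self, norm_zero, one_mul]
      exact mul_nonneg ((norm_nonneg t).trans ht) (norm_nonneg _)
    · rw [pow_zero, mul_one, sub_self, norm_zero, one_mul]
      exact mul_nonneg ((norm_nonneg t).trans ht) (norm_nonneg _)
  · obtain ⟨C, hC, hF⟩ := ndFp_bd n
    refine ⟨2 * C + 4 * 3 ^ n, by positivity, fun μ hμ t B ht => ?_⟩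
    have hB : 0 ≤ B := (norm_nonneg t).trans ht
    have hμ0 := norm_nonneg μ
    have hm : ‖conj μ ^ n‖ ≤ ‖μ‖ := by
      rw [norm_pow, Complex.norm_conj]
      calc ‖μ‖ ^ n ≤ ‖μ‖ ^ 1 := pow_le_pow_of_le_one hμ0 (by linarith) hn
        _ = ‖μ‖ := pow_one _
    obtain ⟨s, hs1, hs2, hs3⟩ := nd_slem t (conj μ ^ n) ‖μ‖ B hm hμ ht
    obtain ⟨hb, hl, ha⟩ := hF μ hμ
    have h3 : (0 : ℝ) < 3 ^ n := by positivity
    refine ⟨fun z => s * ndFp μ n z, (ndFp_diff μ n).const_mul s, fun v hv => ?_, fun z hz => ?_,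
      fun z w hz hw => ?_, fun z hz => ?_⟩
    · show (s * ndFp μ n (zz 0 1 μ v)).re = _
      rw [ndFp_zz μ hv n, ← hs1]
      have e1 : (s * (μ ^ n * conj v ^ n)).re = (conj s * conj μ ^ n * v ^ n).re := by
        rw [← Complex.conj_re (s * (μ ^ n * conj v ^ n))]
        rw [map_mul, map_mul, map_pow, map_pow, Complex.conj_conj]
        ring_nf
      rw [mul_add, Complex.add_re, e1, add_mul, Complex.add_re]
    · rw [norm_mul]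
      have e1 : ‖s‖ * ‖ndFp μ n z‖ ≤ 2 * B * C := mul_le_mul hs2 (hb z hz) (norm_nonneg _) (by positivity)
      have e2 : 0 ≤ 3 ^ n * B := mul_nonneg h3.le hB
      linarith
    · show ‖s * ndFp μ n z - s * ndFp μ n w‖ ≤ _
      rw [← mul_sub, norm_mul]
      have e1 : ‖s‖ * ‖ndFp μ n z - ndFp μ n w‖ ≤ 2 * B * (C * ‖z - w‖) :=
        mul_le_mul hs2 (hl z w hz hw) (norm_nonneg _) (by positivity)
      have e2 : 0 ≤ 3 ^ n * B * ‖z - w‖ := mul_nonneg (mul_nonneg h3.le hB) (norm_nonneg _)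
      linarith
    · show ‖s * ndFp μ n z - t * z ^ n‖ ≤ _
      have e : s * ndFp μ n z - t * z ^ n = s * (ndFp μ n z - z ^ n) + (s - t) * z ^ n := by ring
      rw [e]
      refine (norm_add_le _ _).trans ?_
      rw [norm_mul, norm_mul, norm_pow]
      have e1 : ‖s‖ * ‖ndFp μ n z - z ^ n‖ ≤ 2 * B * (C * ‖μ‖) :=
        mul_le_mul hs2 (ha hn z hz) (norm_nonneg _) (by positivity)
      have e2 : ‖s - t‖ * ‖z‖ ^ n ≤ 4 * B * ‖μ‖ * 3 ^ n :=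
        mul_le_mul hs3 (pow_le_pow_left₀ (norm_nonneg z) hz n) (by positivity) (by positivity)
      linarith

theorem Wlem (K : ℕ) : ∃ C : ℝ, 0 < C ∧ ∀ μ : ℂ, ‖μ‖ ≤ 1 / 100 → ∀ (t : ℕ → ℂ) (B : ℝ), (∀ n, n ≤ K → ‖t n‖ ≤ B) →
    ∃ W : ℂ → ℂ, Differentiable ℂ W ∧
      (∀ v : ℂ, ‖v‖ = 1 → (W (zz 0 1 μ v)).re = (∑ n ∈ Finset.range (K + 1), t n * v ^ n).re) ∧
      (∀ z : ℂ, ‖z‖ ≤ 3 → ‖W z‖ ≤ C * B) ∧
      (∀ z w : ℂ, ‖z‖ ≤ 3 → ‖w‖ ≤ 3 → ‖W z - W w‖ ≤ C * B * ‖z - w‖) ∧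
      ∀ z : ℂ, ‖z‖ ≤ 3 → ‖W z - ∑ n ∈ Finset.range (K + 1), t n * z ^ n‖ ≤ C * B * ‖μ‖ := by
  induction K with
  | zero =>
    obtain ⟨C, hC, h⟩ := nd_Tlem 0
    refine ⟨C, hC, fun μ hμ t B ht => ?_⟩
    obtain ⟨W, h1, h2, h3, h4, h5⟩ := h μ hμ (t 0) B (ht 0 le_rfl)
    refine ⟨W, h1, fun v hv => ?_, h3, h4, fun z hz => ?_⟩
    · rw [zero_add, Finset.sum_range_one]
      exact h2 v hv
    · rw [zero_add, Finset.sum_range_one]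
      exact h5 z hz
  | succ K ih =>
    obtain ⟨C, hC, h⟩ := ih
    obtain ⟨C', hC', h'⟩ := nd_Tlem (K + 1)
    refine ⟨C + C', by positivity, fun μ hμ t B ht => ?_⟩
    obtain ⟨W, h1, h2, h3, h4, h5⟩ := h μ hμ t B fun n hn => ht n (by omega)
    obtain ⟨V, g1, g2, g3, g4, g5⟩ := h' μ hμ (t (K + 1)) B (ht (K + 1) le_rfl)
    refine ⟨fun z => W z + V z, h1.add g1, fun v hv => ?_, fun z hz => ?_, fun z w hz hw => ?_,
      fun z hz => ?_⟩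
    · show (W (zz 0 1 μ v) + V (zz 0 1 μ v)).re = _
      rw [Finset.sum_range_succ, Complex.add_re, Complex.add_re, h2 v hv, g2 v hv]
    · have e := norm_add_le (W z) (V z)
      have e1 := h3 z hz
      have e2 := g3 z hz
      show ‖W z + V z‖ ≤ _
      linarith
    · have e := norm_add_le (W z - W w) (V z - V w)
      have e1 := h4 z w hz hw
      have e2 := g4 z w hz hw
      show ‖W z + V z - (W w + V w)‖ ≤ _
      rw [add_sub_add_comm]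
      linarith
    · have e := norm_add_le (W z - ∑ n ∈ Finset.range (K + 1), t n * z ^ n)
        (V z - t (K + 1) * z ^ (K + 1))
      have e1 := h5 z hz
      have e2 := g5 z hz
      show ‖W z + V z - _‖ ≤ _
      rw [Finset.sum_range_succ, add_sub_add_comm]
      linarith

end ND1
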