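import Pool.Agent.H1.ND.Ne
import Pool.Agent.H1.ND.Nf

/-!
ROW ND/Ng. The multipliers. `p_j z = ‖g (v)‖²`, `v = vv 0 1 (μ₁ j) z`. On `‖v‖ = 1` the function `T_j v = UU j (zz 0 1 μ₁ v) ‖g v‖²/d j` is a real trigonometric polynomial in `v` of degree at most `K = 2 + natDegree g` (`UU` is a quadratic polynomial in `z = v + μ₁ conj v`, `conj z`; `conj v = 1/v`; `conj (g v)` is a polynomial in `1/v`), so
`T_j v = Re (∑_{n ≤ K} t_n vⁿ)` with `t_0 = (1/2π) ∫ T_j (e^(is)) ds`, `t_n = (1/π) ∫ T_j (e^(is)) e^(-ins) ds` (`n ≥ 1`) (finite Fourier series). `|t_n| ≤ B` uniformly (`Ubd`), `t_n^j → t_n^∞` (`Ulim`, dominated convergence; `T_j → -2 hf ‖g‖²` on the circle). `Wlem` gives `W j`; `w₀ z = ∑ t_n^∞ zⁿ`, `w₀ 0 = t_0^∞ = -(1/π) hint (‖g‖²)`.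
Last claim: `f z = Re (W j z) - UU j z p_j z/d j` is zero for `‖v‖ = 1` and Lipschitz with a uniform constant on `‖z‖ ≤ 4` (extend the bounds a bit: use `Wlem` and `Ubd` on `‖z‖ ≤ 3` only if the segment from `z` to the point with `v/‖v‖` stays there; for `‖v‖ < 1/2` use the sup bound), so `|f z| ≤ C |‖v‖ - 1| ≤ C' |QQ 0 1 μ₁ z|` (`QQ = kap (‖v‖²-1)`, `kap ≥ 1/2`).
We only need `‖z‖ ≤ 2` in the last claim.
-/

set_option autoImplicit false

namespace ND1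

open Complex Set Filter Topology MeasureTheory EW1 EX1
open scoped ComplexConjugate ContDiff Real

/-- `φ` is on the unit circle the real part of the polynomial with the coefficients `t n`, `n ≤ K` -/
def TPx (K : ℕ) (t : ℕ → ℂ) (φ : ℂ → ℝ) : Prop :=
  (t 0).im = 0 ∧ ∀ v : ℂ, ‖v‖ = 1 → φ v = (∑ n ∈ Finset.range (K + 1), t n * v ^ n).re

theorem TPx_sum {K : ℕ} {ι : Type} (s : Finset ι) (T : ι → ℕ → ℂ) (Φ : ι → ℂ → ℝ)
    (h : ∀ i ∈ s, TPx K (T i) (Φ i)) :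
    TPx K (fun n => ∑ i ∈ s, T i n) (fun v => ∑ i ∈ s, Φ i v) := by
  refine ⟨?_, fun v hv => ?_⟩
  · rw [Complex.im_sum]
    exact Finset.sum_eq_zero fun i hi => (h i hi).1
  · dsimp only
    rw [Finset.sum_congr rfl fun i hi => (h i hi).2 v hv, ← Complex.re_sum, Finset.sum_comm]
    congr 1
    refine Finset.sum_congr rfl fun n _ => ?_
    rw [Finset.sum_mul]

theorem TPx_smul {K : ℕ} (c : ℝ) {t : ℕ → ℂ} {φ : ℂ → ℝ} (h : TPx K t φ) :
    TPx K (fun n => (c : ℂ) * t n) (fun v => c * φ v) := by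
  refine ⟨?_, fun v hv => ?_⟩
  · dsimp only
    rw [Complex.im_ofReal_mul, h.1, mul_zero]
  · dsimp only
    rw [h.2 v hv, ← Complex.re_ofReal_mul, Finset.mul_sum]
    congr 1
    refine Finset.sum_congr rfl fun n _ => ?_
    ring

theorem TPx_add {K : ℕ} {t s : ℕ → ℂ} {φ ψ : ℂ → ℝ} (h : TPx K t φ) (h' : TPx K s ψ) :
    TPx K (fun n => t n + s n) (fun v => φ v + ψ v) := by
  refine ⟨?_, fun v hv => ?_⟩
  · rw [Complex.add_im, h.1, h'.1, add_zero]
  · dsimp only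
    rw [h.2 v hv, h'.2 v hv, ← Complex.add_re, ← Finset.sum_add_distrib]
    congr 1
    refine Finset.sum_congr rfl fun n _ => ?_
    ring

theorem TPx_congr {K : ℕ} {t : ℕ → ℂ} {φ ψ : ℂ → ℝ} (h : TPx K t φ)
    (h' : ∀ v : ℂ, ‖v‖ = 1 → ψ v = φ v) : TPx K t ψ :=
  ⟨h.1, fun v hv => by rw [h' v hv, h.2 v hv]⟩

theorem TPx_mono {K : ℕ} (c : ℂ) (m n : ℕ) (hm : m ≤ K) (hn : n ≤ K) :
    ∃ t, TPx K t (fun v => (c * v ^ m * conj (v ^ n)).re) := by
  have hs : ∀ (b : ℂ) (a : ℕ), a ≤ K → ∀ v : ℂ,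
      ∑ k ∈ Finset.range (K + 1), (if k = a then b else 0) * v ^ k = b * v ^ a := by
    intro b a ha v
    rw [Finset.sum_eq_single a]
    · rw [if_pos rfl]
    · intro k _ hk
      rw [if_neg hk, zero_mul]
    · intro h
      exact absurd (Finset.mem_range.2 (by omega)) h
  have hvv : ∀ v : ℂ, ‖v‖ = 1 → ∀ k : ℕ, v ^ k * conj (v ^ k) = 1 := by
    intro v hv k
    rw [Complex.mul_conj, Complex.normSq_eq_norm_sq, norm_pow, hv]
    simp
  rcases lt_trichotomy m n with h | h | h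
  · refine ⟨fun k => if k = n - m then conj c else 0, ?_, fun v hv => ?_⟩
    · dsimp only
      rw [if_neg (by omega)]
      rfl
    · dsimp only
      rw [hs _ _ (by omega)]
      obtain ⟨a, rfl⟩ : ∃ a, n = m + a := ⟨n - m, by omega⟩
      have e1 : c * v ^ m * conj (v ^ (m + a)) = conj (conj c * v ^ a) := by
        have := hvv v hv m
        rw [pow_add, map_mul (starRingEnd ℂ) (v ^ m), map_mul (starRingEnd ℂ) (conj c),
          Complex.conj_conj]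
        linear_combination c * conj (v ^ a) * this
      rw [e1, Complex.conj_re, Nat.add_sub_cancel_left]
  · subst h
    refine ⟨fun k => if k = 0 then ((c.re : ℝ) : ℂ) else 0, ?_, fun v hv => ?_⟩
    · dsimp only
      rw [if_pos rfl, Complex.ofReal_im]
    · dsimp only
      rw [hs _ _ (Nat.zero_le _), mul_assoc, hvv v hv, pow_zero, mul_one, mul_one,
        Complex.ofReal_re]
  · refine ⟨fun k => if k = m - n then c else 0, ?_, fun v hv => ?_⟩
    · dsimp only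
      rw [if_neg (by omega)]
      rfl
    · dsimp only
      rw [hs _ _ (by omega)]
      obtain ⟨a, rfl⟩ : ∃ a, m = n + a := ⟨m - n, by omega⟩
      have e1 : c * v ^ (n + a) * conj (v ^ n) = c * v ^ a := by
        have := hvv v hv n
        rw [pow_add]
        linear_combination c * v ^ a * this
      rw [e1, Nat.add_sub_cancel_left]

theorem TPx_prod {K : ℕ} (p q : Polynomial ℂ) (hp : p.natDegree ≤ K) (hq : q.natDegree ≤ K) :
    ∃ t, TPx K t (fun v => (p.eval v * conj (q.eval v)).re) := by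
  have h1 : ∀ x : ℕ × ℕ, ∃ t, x ∈ Finset.range (K + 1) ×ˢ Finset.range (K + 1) →
      TPx K t (fun v => (p.coeff x.1 * conj (q.coeff x.2) * v ^ x.1 * conj (v ^ x.2)).re) := by
    intro x
    by_cases hx : x ∈ Finset.range (K + 1) ×ˢ Finset.range (K + 1)
    · rw [Finset.mem_product, Finset.mem_range, Finset.mem_range] at hx
      obtain ⟨t, ht⟩ := TPx_mono (K := K) (p.coeff x.1 * conj (q.coeff x.2)) x.1 x.2
        (by omega) (by omega)
      exact ⟨t, fun _ => ht⟩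
    · exact ⟨0, fun h => absurd h hx⟩
  choose T hT using h1
  refine ⟨_, TPx_congr (TPx_sum _ T _ hT) fun v hv => ?_⟩
  rw [Polynomial.eval_eq_sum_range' (Nat.lt_succ_of_le hp),
    Polynomial.eval_eq_sum_range' (Nat.lt_succ_of_le hq), map_sum, Finset.sum_mul_sum,
    ← Finset.sum_product', ← Complex.re_sum]
  congr 1
  refine Finset.sum_congr rfl fun x _ => ?_
  rw [map_mul]
  ring

private lemma ngInt_pow (n : ℕ) : ∫ s in (0 : ℝ)..(2 * π), (exp (s * I)) ^ n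
    = if n = 0 then (2 * π : ℂ) else 0 := by
  split_ifs with h
  · subst h
    simp
  · have h1 : ∀ s : ℝ, (exp (s * I)) ^ n = exp ((n * I) * s) := fun s => by
      rw [← Complex.exp_nat_mul]
      congr 1
      ring
    simp_rw [h1]
    have hn : (n : ℂ) * I ≠ 0 := mul_ne_zero (Nat.cast_ne_zero.2 h) I_ne_zero
    rw [integral_exp_mul_complex hn]
    have h2 : (n : ℂ) * I * ((2 * π : ℝ) : ℂ) = n * (2 * π * I) := by
      push_cast
      ring
    rw [h2, Complex.exp_nat_mul_two_pi_mul_I]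
    simp

theorem TPx_int {K : ℕ} {t : ℕ → ℂ} {φ : ℂ → ℝ} (h : TPx K t φ) :
    ∫ s in (0 : ℝ)..(2 * π), φ (exp (s * I)) = 2 * π * (t 0).re := by
  have h1 : ∀ s : ℝ, φ (exp (s * I))
      = (∑ n ∈ Finset.range (K + 1), t n * exp (s * I) ^ n).re := fun s =>
    h.2 _ (Complex.norm_exp_ofReal_mul_I s)
  simp_rw [h1]
  have hc : Continuous fun s : ℝ => ∑ n ∈ Finset.range (K + 1), t n * exp (s * I) ^ n := by
    fun_prop
  have h2 := Complex.reCLM.intervalIntegral_comp_comm (μ := volume) (a := 0) (b := 2 * π)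
    (hc.intervalIntegrable 0 (2 * π))
  have h3 : ∫ s in (0 : ℝ)..(2 * π), (∑ n ∈ Finset.range (K + 1), t n * exp (s * I) ^ n).re
      = (∫ s in (0 : ℝ)..(2 * π), ∑ n ∈ Finset.range (K + 1), t n * exp (s * I) ^ n).re := h2
  rw [h3, intervalIntegral.integral_finsetSum]
  · simp_rw [intervalIntegral.integral_const_mul, ngInt_pow]
    rw [Finset.sum_eq_single 0]
    · rw [if_pos rfl, Complex.mul_re]
      have e1 : ((2 : ℂ) * (π : ℂ)).re = 2 * π := by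
        rw [← Complex.ofReal_ofNat, ← Complex.ofReal_mul, Complex.ofReal_re]
      have e2 : ((2 : ℂ) * (π : ℂ)).im = 0 := by
        rw [← Complex.ofReal_ofNat, ← Complex.ofReal_mul, Complex.ofReal_im]
      rw [e1, e2]
      ring
    · intro n _ hn
      rw [if_neg hn, mul_zero]
    · intro h0
      exact absurd (Finset.mem_range.2 (by omega)) h0
  · intro n _
    exact Continuous.intervalIntegrable (by fun_prop) _ _

/-- `UU` on the first ellipse -/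
theorem UU_zz {S : Sq} {a : ℝ} {γ β : ℂ} (hS : Lim S a γ β) (j : ℕ) (v : ℂ) (hv : ‖v‖ = 1) :
    S.UU j (zz 0 1 (S.μ₁ j) v) = (-(2 * conj (nu (S.μ₂ j) - nu (S.μ₁ j))
        + 2 * (nu (S.μ₂ j) - nu (S.μ₁ j)) * conj (S.μ₁ j) ^ 2) * v ^ 2).re
      + (-(2 * (gg (S.c₂ j) (S.μ₂ j) - gg 0 (S.μ₁ j))
        + 2 * conj (gg (S.c₂ j) (S.μ₂ j) - gg 0 (S.μ₁ j)) * conj (S.μ₁ j)) * v).re
      + (hh (S.c₂ j) (S.r₂ j) (S.μ₂ j) - hh 0 1 (S.μ₁ j)
        - 4 * (conj (nu (S.μ₂ j) - nu (S.μ₁ j)) * S.μ₁ j).re) := by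
  have hd : S.d j ≤ 1 / 100 := hS.small j
  have hr : 0 < S.r₂ j := by
    have h1 : |1 - S.r₂ j| ≤ S.d j := by
      unfold Sq.d dd
      have := norm_nonneg ((0 : ℂ) - S.c₂ j)
      have := norm_nonneg (S.μ₁ j - S.μ₂ j)
      linarith
    have h2 := (abs_le.1 (h1.trans hd)).2
    linarith
  have h1 : ‖S.μ₁ j‖ < 1 := (hS.m1 j).trans_lt (by norm_num)
  have h2 : ‖S.μ₂ j‖ < 1 := (hS.m2 j).trans_lt (by norm_num)
  have e := aa_re (c₁ := 0) (c₂ := S.c₂ j) one_pos hr h1 h2 (zz 0 1 (S.μ₁ j) v)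
  unfold Sq.UU
  rw [← e]
  unfold aa
  generalize nu (S.μ₂ j) - nu (S.μ₁ j) = ν
  generalize gg (S.c₂ j) (S.μ₂ j) - gg 0 (S.μ₁ j) = G
  generalize hh (S.c₂ j) (S.r₂ j) (S.μ₂ j) - hh 0 1 (S.μ₁ j) = H
  generalize S.μ₁ j = μ
  have hvv : v * conj v = 1 := by
    rw [Complex.mul_conj, Complex.normSq_eq_norm_sq, hv]
    simp
  have hz : zz 0 1 μ v = v + μ * conj v := by
    unfold zz
    push_cast
    ring
  rw [hz]
  have h3 : -(2 * conj ν * (v + μ * conj v) ^ 2) - 2 * G * (v + μ * conj v) + (H : ℂ)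
      = -(2 * conj ν) * v ^ 2 + -(2 * conj ν * μ ^ 2) * conj v ^ 2 + -(2 * G) * v
        + -(2 * G * μ) * conj v + ((H : ℂ) - 4 * (conj ν * μ)) := by
    linear_combination (-(4 * conj ν * μ)) * hvv
  have h4 : (-(2 * conj ν * μ ^ 2) * conj v ^ 2).re = (-(2 * ν * conj μ ^ 2) * v ^ 2).re := by
    rw [← Complex.conj_re (-(2 * conj ν * μ ^ 2) * conj v ^ 2)]
    congr 1
    simp only [map_mul, map_neg, map_pow, Complex.conj_conj, map_ofNat]
  have h5 : (-(2 * G * μ) * conj v).re = (-(2 * conj G * conj μ) * v).re := by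
    rw [← Complex.conj_re (-(2 * G * μ) * conj v)]
    congr 1
    simp only [map_mul, map_neg, Complex.conj_conj, map_ofNat]
  have h6 : ((H : ℂ) - 4 * (conj ν * μ)).re = H - 4 * (conj ν * μ).re := by
    rw [Complex.sub_re, Complex.ofReal_re]
    congr 1
    have : (4 : ℂ) = ((4 : ℝ) : ℂ) := by norm_num
    rw [this, Complex.re_ofReal_mul]
  rw [h3, Complex.add_re, Complex.add_re, Complex.add_re, Complex.add_re, h4, h5, h6]
  have h7 : (-(2 * conj ν + 2 * ν * conj μ ^ 2) * v ^ 2).re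
      = (-(2 * conj ν) * v ^ 2).re + (-(2 * ν * conj μ ^ 2) * v ^ 2).re := by
    rw [← Complex.add_re]
    congr 1
    ring
  have h8 : (-(2 * G + 2 * conj G * conj μ) * v).re
      = (-(2 * G) * v).re + (-(2 * conj G * conj μ) * v).re := by
    rw [← Complex.add_re]
    congr 1
    ring
  rw [h7, h8]
  ring

/-- polynomials are bounded and Lipschitz on bounded sets -/
theorem ngPol (g : Polynomial ℂ) : ∃ G L : ℝ, 0 < G ∧ 0 < L ∧ (∀ v : ℂ, ‖v‖ ≤ 3 → ‖g.eval v‖ ≤ G) ∧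
    ∀ v w : ℂ, ‖v‖ ≤ 3 → ‖w‖ ≤ 3 → ‖g.eval v - g.eval w‖ ≤ L * ‖v - w‖ := by
  have hb : ∀ f : Polynomial ℂ, ∃ G : ℝ, 0 < G ∧ ∀ v : ℂ, ‖v‖ ≤ 3 → ‖f.eval v‖ ≤ G := by
    intro f
    obtain ⟨C, hC⟩ := (isCompact_closedBall (0 : ℂ) 3).exists_bound_of_continuousOn
      (f := fun v => f.eval v) f.continuous.continuousOn
    refine ⟨|C| + 1, by positivity, fun v hv => ?_⟩
    have := hC v (mem_closedBall_zero_iff.2 hv)
    have := le_abs_self C
    linarith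
  obtain ⟨G, hG, h1⟩ := hb g
  obtain ⟨L, hL, h2⟩ := hb (Polynomial.derivative g)
  refine ⟨G, L, hG, hL, h1, fun v w hv hw => ?_⟩
  have := (convex_closedBall (0 : ℂ) 3).norm_image_sub_le_of_norm_deriv_le
    (f := fun v => g.eval v) (C := L) (x := w) (y := v)
    (fun x _ => g.differentiable.differentiableAt)
    (fun x hx => by
      rw [Polynomial.deriv]
      exact h2 x (mem_closedBall_zero_iff.1 hx))
    (mem_closedBall_zero_iff.2 hw) (mem_closedBall_zero_iff.2 hv)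
  exact this

/-- the nearest point of the unit circle -/
theorem ngNear (v : ℂ) : ∃ v' : ℂ, ‖v'‖ = 1 ∧ ‖v - v'‖ ≤ |‖v‖ - 1| := by
  by_cases h : v = 0
  · refine ⟨1, by simp, ?_⟩
    rw [h]
    simp
  · have h0 : 0 < ‖v‖ := norm_pos_iff.2 h
    refine ⟨v / (‖v‖ : ℂ), ?_, ?_⟩
    · rw [norm_div, Complex.norm_real, norm_norm, div_self h0.ne']
    · have h1 : v - v / (‖v‖ : ℂ) = v / (‖v‖ : ℂ) * ((‖v‖ - 1 : ℝ) : ℂ) := by
        have h2 : (‖v‖ : ℂ) ≠ 0 := by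
          rw [Ne, Complex.ofReal_eq_zero]
          exact h0.ne'
        push_cast
        field_simp
      rw [h1, norm_mul, norm_div, Complex.norm_real, norm_norm, div_self h0.ne', one_mul,
        Complex.norm_real, Real.norm_eq_abs]

theorem Wseq {S : Sq} {a : ℝ} {γ β : ℂ} (hS : Lim S a γ β) (g : Polynomial ℂ) :
    ∃ (W : ℕ → ℂ → ℂ) (w₀ : ℂ → ℂ) (C : ℝ), 0 < C ∧ (∀ j, Differentiable ℂ (W j)) ∧ Differentiable ℂ w₀ ∧
      (∀ j z, ‖z‖ ≤ 2 → ‖W j z‖ ≤ C) ∧ (∀ z, ‖z‖ ≤ 2 → Tendsto (fun j => W j z) atTop (𝓝 (w₀ z))) ∧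
      w₀ 0 = ((-(hint a γ β (fun z => ‖g.eval z‖ ^ 2) / π) : ℝ) : ℂ) ∧
      ∀ j z, ‖z‖ ≤ 2 → |(W j z).re - S.UU j z * ‖g.eval (vv 0 1 (S.μ₁ j) z)‖ ^ 2 / S.d j| ≤ C * |QQ 0 1 (S.μ₁ j) z| := by
  classical
  obtain ⟨K, hK⟩ : ∃ K, K = g.natDegree + 2 := ⟨_, rfl⟩
  obtain ⟨CW, hCW, hW⟩ := Wlem K
  obtain ⟨CU, hCU, hU⟩ := Ubd
  obtain ⟨G, L, hG, hL, hg1, hg2⟩ := ngPol g
  have hAB : ∀ c : ℂ, ∀ k : Fin 3, ∃ t, TPx K t (fun v => (c * v ^ (k : ℕ)).re * ‖g.eval v‖ ^ 2) := by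
    intro c k
    obtain ⟨t, ht⟩ := TPx_prod (K := K) (Polynomial.C c * Polynomial.X ^ (k : ℕ) * g) g
      (by
        refine Polynomial.natDegree_mul_le.trans ?_
        have := Polynomial.natDegree_C_mul_X_pow_le c (k : ℕ)
        have := k.2
        omega) (by omega)
    refine ⟨t, TPx_congr ht fun v _ => ?_⟩
    simp only [Polynomial.eval_mul, Polynomial.eval_C, Polynomial.eval_pow, Polynomial.eval_X]
    rw [mul_assoc, Complex.mul_conj, Complex.normSq_eq_norm_sq, Complex.re_mul_ofReal]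
  choose A hA using hAB 1
  choose B hB using hAB I
  let tt : (Fin 3 → ℂ) → ℕ → ℂ := fun e n =>
    ∑ k : Fin 3, (((e k).re : ℂ) * A k n + ((e k).im : ℂ) * B k n)
  have htt : ∀ e : Fin 3 → ℂ,
      TPx K (tt e) (fun v => (∑ k : Fin 3, (e k * v ^ (k : ℕ)).re) * ‖g.eval v‖ ^ 2) := by
    intro e
    refine TPx_congr (TPx_sum Finset.univ _ _ fun k _ =>
      TPx_add (TPx_smul (e k).re (hA k)) (TPx_smul (e k).im (hB k))) fun v _ => ?_
    rw [Finset.sum_mul]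
    refine Finset.sum_congr rfl fun k _ => ?_
    rw [one_mul, Complex.mul_re, Complex.mul_re, Complex.I_re, Complex.I_im]
    ring
  let e : ℕ → Fin 3 → ℂ := fun j =>
    ![(((hh (S.c₂ j) (S.r₂ j) (S.μ₂ j) - hh 0 1 (S.μ₁ j)) / S.d j
        - 4 * (conj ((nu (S.μ₂ j) - nu (S.μ₁ j)) / (S.d j : ℂ)) * S.μ₁ j).re : ℝ) : ℂ),
      -(2 * ((gg (S.c₂ j) (S.μ₂ j) - gg 0 (S.μ₁ j)) / (S.d j : ℂ))
        + 2 * conj ((gg (S.c₂ j) (S.μ₂ j) - gg 0 (S.μ₁ j)) / (S.d j : ℂ)) * conj (S.μ₁ j)),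
      -(2 * conj ((nu (S.μ₂ j) - nu (S.μ₁ j)) / (S.d j : ℂ))
        + 2 * ((nu (S.μ₂ j) - nu (S.μ₁ j)) / (S.d j : ℂ)) * conj (S.μ₁ j) ^ 2)]
  let e₀ : Fin 3 → ℂ := ![((-2 * a : ℝ) : ℂ), -(2 * conj γ), -(2 * conj β)]
  obtain ⟨c1, c2, c3⟩ := colim hS
  have cc : ∀ {f : ℕ → ℂ} {x : ℂ}, Tendsto f atTop (𝓝 x) →
      Tendsto (fun j => conj (f j)) atTop (𝓝 (conj x)) := fun h =>
    (Complex.continuous_conj.tendsto _).comp h
  have he : ∀ k, Tendsto (fun j => e j k) atTop (𝓝 (e₀ k)) := by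
    intro k
    fin_cases k
    · show Tendsto (fun j => (((hh (S.c₂ j) (S.r₂ j) (S.μ₂ j) - hh 0 1 (S.μ₁ j)) / S.d j
        - 4 * (conj ((nu (S.μ₂ j) - nu (S.μ₁ j)) / (S.d j : ℂ)) * S.μ₁ j).re : ℝ) : ℂ)) atTop
        (𝓝 ((-2 * a : ℝ) : ℂ))
      have h1 : Tendsto (fun j => (conj ((nu (S.μ₂ j) - nu (S.μ₁ j)) / (S.d j : ℂ))
          * S.μ₁ j).re) atTop (𝓝 (conj β * 0).re) :=
        (Complex.continuous_re.tendsto _).comp ((cc c1).mul hS.lm1)
      have h2 := (Complex.continuous_ofReal.tendsto _).comp (c3.sub (h1.const_mul 4))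
      have e1 : -2 * a - 4 * (conj β * 0).re = -2 * a := by simp
      rw [e1] at h2
      exact h2
    · show Tendsto (fun j => -(2 * ((gg (S.c₂ j) (S.μ₂ j) - gg 0 (S.μ₁ j)) / (S.d j : ℂ))
        + 2 * conj ((gg (S.c₂ j) (S.μ₂ j) - gg 0 (S.μ₁ j)) / (S.d j : ℂ)) * conj (S.μ₁ j))) atTop
        (𝓝 (-(2 * conj γ)))
      have h1 := ((c2.const_mul 2).add (((cc c2).const_mul 2).mul (cc hS.lm1))).neg
      have e1 : -(2 * conj γ + 2 * conj (conj γ) * conj (0 : ℂ)) = -(2 * conj γ) := by simp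
      rw [e1] at h1
      exact h1
    · show Tendsto (fun j => -(2 * conj ((nu (S.μ₂ j) - nu (S.μ₁ j)) / (S.d j : ℂ))
        + 2 * ((nu (S.μ₂ j) - nu (S.μ₁ j)) / (S.d j : ℂ)) * conj (S.μ₁ j) ^ 2)) atTop
        (𝓝 (-(2 * conj β)))
      have h1 := (((cc c1).const_mul 2).add ((c1.const_mul 2).mul ((cc hS.lm1).pow 2))).neg
      have e1 : -(2 * conj β + 2 * β * conj (0 : ℂ) ^ 2) = -(2 * conj β) := by simp
      rw [e1] at h1
      exact h1
  have ht : ∀ n, Tendsto (fun j => tt (e j) n) atTop (𝓝 (tt e₀ n)) := by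
    intro n
    refine tendsto_finsetSum _ fun k _ => ?_
    have r1 : Tendsto (fun j => (((e j k).re : ℝ) : ℂ)) atTop (𝓝 (((e₀ k).re : ℝ) : ℂ)) :=
      (Complex.continuous_ofReal.tendsto _).comp ((Complex.continuous_re.tendsto _).comp (he k))
    have r2 : Tendsto (fun j => (((e j k).im : ℝ) : ℂ)) atTop (𝓝 (((e₀ k).im : ℝ) : ℂ)) :=
      (Complex.continuous_ofReal.tendsto _).comp ((Complex.continuous_im.tendsto _).comp (he k))
    exact (r1.mul_const _).add (r2.mul_const _)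
  obtain ⟨Bd, hBd0, hBd⟩ : ∃ Bd : ℝ, 0 < Bd ∧ ∀ j n, n ≤ K → ‖tt (e j) n‖ ≤ Bd := by
    have h1 : ∀ n, ∃ M : ℝ, ∀ j, ‖tt (e j) n‖ ≤ M := by
      intro n
      obtain ⟨M, hM⟩ := (ht n).norm.bddAbove_range
      exact ⟨M, fun j => hM ⟨j, rfl⟩⟩
    choose M hM using h1
    refine ⟨1 + ∑ n ∈ Finset.range (K + 1), |M n|, by positivity, fun j n hn => ?_⟩
    have h2 : |M n| ≤ ∑ n ∈ Finset.range (K + 1), |M n| :=
      Finset.single_le_sum (f := fun n => |M n|) (fun _ _ => abs_nonneg _)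
        (Finset.mem_range.2 (by omega))
    have h3 := hM n j
    have h4 := le_abs_self (M n)
    linarith
  have hT : ∀ j (v : ℂ), ‖v‖ = 1 → S.UU j (zz 0 1 (S.μ₁ j) v) * ‖g.eval v‖ ^ 2 / S.d j
      = (∑ n ∈ Finset.range (K + 1), tt (e j) n * v ^ n).re := by
    intro j v hv
    rw [← (htt (e j)).2 v hv, UU_zz hS j v hv, mul_div_right_comm]
    congr 1
    have hd := hS.pos j
    have hdc : (S.d j : ℂ) ≠ 0 := by
      rw [Ne, Complex.ofReal_eq_zero]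
      exact hd.ne'
    rw [Fin.sum_univ_three]
    have f0 : (e j 0 * v ^ ((0 : Fin 3) : ℕ)).re
        = (hh (S.c₂ j) (S.r₂ j) (S.μ₂ j) - hh 0 1 (S.μ₁ j)
          - 4 * (conj (nu (S.μ₂ j) - nu (S.μ₁ j)) * S.μ₁ j).re) / S.d j := by
      show ((((hh (S.c₂ j) (S.r₂ j) (S.μ₂ j) - hh 0 1 (S.μ₁ j)) / S.d j
        - 4 * (conj ((nu (S.μ₂ j) - nu (S.μ₁ j)) / (S.d j : ℂ)) * S.μ₁ j).re : ℝ) : ℂ)
          * v ^ 0).re = _
      rw [pow_zero, mul_one, Complex.ofReal_re, map_div₀, Complex.conj_ofReal,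
        div_mul_eq_mul_div, Complex.div_ofReal_re]
      ring
    have f1 : (e j 1 * v ^ ((1 : Fin 3) : ℕ)).re
        = (-(2 * (gg (S.c₂ j) (S.μ₂ j) - gg 0 (S.μ₁ j))
          + 2 * conj (gg (S.c₂ j) (S.μ₂ j) - gg 0 (S.μ₁ j)) * conj (S.μ₁ j)) * v).re / S.d j := by
      show (-(2 * ((gg (S.c₂ j) (S.μ₂ j) - gg 0 (S.μ₁ j)) / (S.d j : ℂ))
        + 2 * conj ((gg (S.c₂ j) (S.μ₂ j) - gg 0 (S.μ₁ j)) / (S.d j : ℂ)) * conj (S.μ₁ j))
          * v ^ 1).re = _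
      rw [← Complex.div_ofReal_re, map_div₀, Complex.conj_ofReal, pow_one]
      congr 1
      ring
    have f2 : (e j 2 * v ^ ((2 : Fin 3) : ℕ)).re
        = (-(2 * conj (nu (S.μ₂ j) - nu (S.μ₁ j))
          + 2 * (nu (S.μ₂ j) - nu (S.μ₁ j)) * conj (S.μ₁ j) ^ 2) * v ^ 2).re / S.d j := by
      show (-(2 * conj ((nu (S.μ₂ j) - nu (S.μ₁ j)) / (S.d j : ℂ))
        + 2 * ((nu (S.μ₂ j) - nu (S.μ₁ j)) / (S.d j : ℂ)) * conj (S.μ₁ j) ^ 2) * v ^ 2).re = _
      rw [← Complex.div_ofReal_re, map_div₀, Complex.conj_ofReal]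
      congr 1
      ring
    rw [f0, f1, f2]
    ring
  choose W hWd hW1 hW2 hW3 hW4 using fun j =>
    hW (S.μ₁ j) (hS.m1 j) (tt (e j)) Bd (fun n hn => hBd j n hn)
  refine ⟨W, fun z => ∑ n ∈ Finset.range (K + 1), tt e₀ n * z ^ n,
    CW * Bd + 2 * (2 * CW * Bd + 2 * CU * G ^ 2 + 2 * CU * G * L) + 1, by positivity, hWd, ?_, ?_,
    ?_, ?_, ?_⟩
  · fun_prop
  · intro j z hz
    have h1 := hW2 j z (by linarith)
    have h2 : 0 < 2 * (2 * CW * Bd + 2 * CU * G ^ 2 + 2 * CU * G * L) + 1 := by positivity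
    linarith
  · intro z hz
    have h1 : Tendsto (fun j => W j z - ∑ n ∈ Finset.range (K + 1), tt (e j) n * z ^ n) atTop
        (𝓝 0) := by
      refine squeeze_zero_norm (fun j => hW4 j z (by linarith)) ?_
      have := hS.lm1.norm.const_mul (CW * Bd)
      simpa using this
    have h2 : Tendsto (fun j => ∑ n ∈ Finset.range (K + 1), tt (e j) n * z ^ n) atTop
        (𝓝 (∑ n ∈ Finset.range (K + 1), tt e₀ n * z ^ n)) :=
      tendsto_finsetSum _ fun n _ => (ht n).mul_const _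
    have h3 := h1.add h2
    simp only [sub_add_cancel, zero_add] at h3
    exact h3
  · have h1 : (∑ n ∈ Finset.range (K + 1), tt e₀ n * (0 : ℂ) ^ n) = tt e₀ 0 := by
      rw [Finset.sum_eq_single 0]
      · rw [pow_zero, mul_one]
      · intro n _ hn
        rw [zero_pow hn, mul_zero]
      · intro h
        exact absurd (Finset.mem_range.2 (by omega)) h
    have h2 := TPx_int (htt e₀)
    have h3 : ∫ s in (0 : ℝ)..(2 * π), (∑ k : Fin 3, (e₀ k * exp (s * I) ^ (k : ℕ)).re)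
        * ‖g.eval (exp (s * I))‖ ^ 2 = -2 * hint a γ β (fun z => ‖g.eval z‖ ^ 2) := by
      unfold hint
      rw [← intervalIntegral.integral_const_mul]
      refine intervalIntegral.integral_congr fun s _ => ?_
      show _ = -2 * (hf a γ β (exp (s * I)) * ‖g.eval (exp (s * I))‖ ^ 2)
      rw [← mul_assoc]
      congr 1
      rw [Fin.sum_univ_three]
      show ((((-2 * a : ℝ) : ℂ)) * exp (s * I) ^ 0).re + (-(2 * conj γ) * exp (s * I) ^ 1).re
        + (-(2 * conj β) * exp (s * I) ^ 2).re = _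
      unfold hf
      have g1 : (-(2 * conj γ) * exp (s * I) ^ 1).re = -2 * (conj γ * exp (s * I)).re := by
        have : -(2 * conj γ) * exp (s * I) ^ 1 = ((-2 : ℝ) : ℂ) * (conj γ * exp (s * I)) := by
          push_cast
          ring
        rw [this, Complex.re_ofReal_mul]
      have g2 : (-(2 * conj β) * exp (s * I) ^ 2).re = -2 * (conj β * exp (s * I) ^ 2).re := by
        have : -(2 * conj β) * exp (s * I) ^ 2 = ((-2 : ℝ) : ℂ) * (conj β * exp (s * I) ^ 2) := by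
          push_cast
          ring
        rw [this, Complex.re_ofReal_mul]
      rw [g1, g2, pow_zero, mul_one, Complex.ofReal_re]
      ring
    rw [h3] at h2
    have h4 : (tt e₀ 0).re = -(hint a γ β (fun z => ‖g.eval z‖ ^ 2) / π) := by
      have hpi := Real.pi_pos
      field_simp
      linarith
    show (∑ n ∈ Finset.range (K + 1), tt e₀ n * (0 : ℂ) ^ n) = _
    rw [h1]
    apply Complex.ext
    · rw [Complex.ofReal_re, h4]
    · rw [Complex.ofReal_im]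
      exact (htt e₀).1
  · intro j z hz
    have hμ := hS.m1 j
    have hμ1 : ‖S.μ₁ j‖ < 1 := hμ.trans_lt (by norm_num)
    have hμ0 := norm_nonneg (S.μ₁ j)
    have hd := hS.pos j
    set v := vv 0 1 (S.μ₁ j) z with hv
    have hzv : zz 0 1 (S.μ₁ j) v = z := zz_vv one_pos hμ1 z
    have hv3 : ‖v‖ ≤ 3 := by
      rw [hv]
      unfold vv
      rw [norm_div, Complex.norm_real, Real.norm_eq_abs, sub_zero]
      have h1 : ‖z - S.μ₁ j * conj z‖ ≤ ‖z‖ + ‖S.μ₁ j‖ * ‖z‖ := by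
        refine (norm_sub_le _ _).trans ?_
        rw [norm_mul, Complex.norm_conj]
      have h2 : (0.9 : ℝ) ≤ 1 * (1 - ‖S.μ₁ j‖ ^ 2) := by nlinarith
      rw [abs_of_pos (by linarith), div_le_iff₀ (by linarith)]
      have h3 : ‖S.μ₁ j‖ * ‖z‖ ≤ 1 / 100 * 2 :=
        mul_le_mul hμ hz (norm_nonneg _) (by norm_num)
      linarith
    obtain ⟨v', hv'1, hv'2⟩ := ngNear v
    have hv'3 : ‖v'‖ ≤ 3 := by rw [hv'1]; norm_num
    set z' := zz 0 1 (S.μ₁ j) v' with hz'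
    have hz'v : vv 0 1 (S.μ₁ j) z' = v' := vv_zz one_pos hμ1 v'
    set δ := ‖v - v'‖ with hδ
    have hδ0 : 0 ≤ δ := norm_nonneg _
    have hzz : ‖z - z'‖ ≤ 2 * δ := by
      have h1 : z - z' = (v - v') + S.μ₁ j * conj (v - v') := by
        rw [← hzv, hz']
        unfold zz
        rw [map_sub]
        push_cast
        ring
      rw [h1]
      refine (norm_add_le _ _).trans ?_
      rw [norm_mul, Complex.norm_conj]
      nlinarith
    have hz'3 : ‖z'‖ ≤ 3 := by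
      have h1 : z' = v' + S.μ₁ j * conj v' := by
        rw [hz']
        unfold zz
        push_cast
        ring
      rw [h1]
      refine (norm_add_le _ _).trans ?_
      rw [norm_mul, Complex.norm_conj, hv'1]
      linarith
    have hz3 : ‖z‖ ≤ 3 := by linarith
    have F0 : (W j z').re - S.UU j z' * ‖g.eval v'‖ ^ 2 / S.d j = 0 := by
      rw [hz', hW1 j v' hv'1, hT j v' hv'1, sub_self]
    have k1 : |(W j z).re - (W j z').re| ≤ 2 * CW * Bd * δ := by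
      rw [← Complex.sub_re]
      refine (Complex.abs_re_le_norm _).trans ((hW3 j z z' hz3 hz'3).trans ?_)
      have : CW * Bd * ‖z - z'‖ ≤ CW * Bd * (2 * δ) :=
        mul_le_mul_of_nonneg_left hzz (by positivity)
      linarith
    obtain ⟨-, u2⟩ := hU hS j z z' hz3 hz'3
    obtain ⟨u1, -⟩ := hU hS j z' z hz'3 hz3
    have k2 : |S.UU j z - S.UU j z'| ≤ CU * S.d j * (2 * δ) :=
      u2.trans (mul_le_mul_of_nonneg_left hzz (by positivity))
    have k3 := hg1 v hv3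
    have k3' := hg1 v' hv'3
    have k4 : |‖g.eval v‖ ^ 2 - ‖g.eval v'‖ ^ 2| ≤ 2 * G * L * δ := by
      have h1 : ‖g.eval v‖ ^ 2 - ‖g.eval v'‖ ^ 2
          = (‖g.eval v‖ - ‖g.eval v'‖) * (‖g.eval v‖ + ‖g.eval v'‖) := by ring
      have h2 : |‖g.eval v‖ - ‖g.eval v'‖| ≤ L * δ :=
        (abs_norm_sub_norm_le _ _).trans (hg2 v v' hv3 hv'3)
      have h3 : |‖g.eval v‖ + ‖g.eval v'‖| ≤ 2 * G := by
        rw [abs_of_nonneg (by positivity)]
        linarith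
      rw [h1, abs_mul]
      calc |‖g.eval v‖ - ‖g.eval v'‖| * |‖g.eval v‖ + ‖g.eval v'‖| ≤ (L * δ) * (2 * G) :=
            mul_le_mul h2 h3 (abs_nonneg _) (by positivity)
        _ = 2 * G * L * δ := by ring
    have k5 : |S.UU j z * ‖g.eval v‖ ^ 2 / S.d j - S.UU j z' * ‖g.eval v'‖ ^ 2 / S.d j|
        ≤ (2 * CU * G ^ 2 + 2 * CU * G * L) * δ := by
      have h1 : S.UU j z * ‖g.eval v‖ ^ 2 / S.d j - S.UU j z' * ‖g.eval v'‖ ^ 2 / S.d j
          = ((S.UU j z - S.UU j z') * ‖g.eval v‖ ^ 2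
            + S.UU j z' * (‖g.eval v‖ ^ 2 - ‖g.eval v'‖ ^ 2)) / S.d j := by ring
      rw [h1, abs_div, abs_of_pos hd, div_le_iff₀ hd]
      refine (abs_add_le _ _).trans ?_
      rw [abs_mul, abs_mul]
      have h2 : |S.UU j z - S.UU j z'| * |‖g.eval v‖ ^ 2| ≤ CU * S.d j * (2 * δ) * G ^ 2 := by
        refine mul_le_mul k2 ?_ (abs_nonneg _) (by positivity)
        rw [abs_of_nonneg (by positivity)]
        exact pow_le_pow_left₀ (norm_nonneg _) k3 2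
      have h3 : |S.UU j z'| * |‖g.eval v‖ ^ 2 - ‖g.eval v'‖ ^ 2|
          ≤ CU * S.d j * (2 * G * L * δ) :=
        mul_le_mul u1 k4 (abs_nonneg _) (by positivity)
      linarith
    have k6 : |(W j z).re - S.UU j z * ‖g.eval v‖ ^ 2 / S.d j|
        ≤ (2 * CW * Bd + 2 * CU * G ^ 2 + 2 * CU * G * L) * δ := by
      have h1 : (W j z).re - S.UU j z * ‖g.eval v‖ ^ 2 / S.d j
          = ((W j z).re - (W j z').re)
            - (S.UU j z * ‖g.eval v‖ ^ 2 / S.d j - S.UU j z' * ‖g.eval v'‖ ^ 2 / S.d j)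
            + ((W j z').re - S.UU j z' * ‖g.eval v'‖ ^ 2 / S.d j) := by ring
      rw [h1, F0, add_zero]
      have h2 := abs_sub ((W j z).re - (W j z').re)
        (S.UU j z * ‖g.eval v‖ ^ 2 / S.d j - S.UU j z' * ‖g.eval v'‖ ^ 2 / S.d j)
      linarith
    have k7 : δ ≤ 2 * |QQ 0 1 (S.μ₁ j) z| := by
      have h1 : QQ 0 1 (S.μ₁ j) z = kap 1 (S.μ₁ j) * (‖v‖ ^ 2 - 1) := rfl
      have h2 : (1 / 2 : ℝ) ≤ kap 1 (S.μ₁ j) := by
        unfold kap
        rw [le_div_iff₀ (by positivity)]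
        nlinarith [sq_nonneg ‖S.μ₁ j‖]
      have h3 : |QQ 0 1 (S.μ₁ j) z| = kap 1 (S.μ₁ j) * (|‖v‖ - 1| * (‖v‖ + 1)) := by
        have e1 : ‖v‖ ^ 2 - 1 = (‖v‖ - 1) * (‖v‖ + 1) := by ring
        rw [h1, e1, abs_mul, abs_mul, abs_of_nonneg (show 0 ≤ ‖v‖ + 1 by positivity),
          abs_of_nonneg (show 0 ≤ kap 1 (S.μ₁ j) by linarith)]
      rw [h3]
      have h4 : |‖v‖ - 1| ≤ |‖v‖ - 1| * (‖v‖ + 1) := by
        have := norm_nonneg v
        nlinarith [abs_nonneg (‖v‖ - 1)]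
      have h5 : 0 ≤ |‖v‖ - 1| * (‖v‖ + 1) := by positivity
      nlinarith
    have k8 : 0 ≤ 2 * CW * Bd + 2 * CU * G ^ 2 + 2 * CU * G * L := by positivity
    calc |(W j z).re - S.UU j z * ‖g.eval v‖ ^ 2 / S.d j|
        ≤ (2 * CW * Bd + 2 * CU * G ^ 2 + 2 * CU * G * L) * δ := k6
      _ ≤ (2 * CW * Bd + 2 * CU * G ^ 2 + 2 * CU * G * L) * (2 * |QQ 0 1 (S.μ₁ j) z|) :=
          mul_le_mul_of_nonneg_left k7 k8
      _ ≤ (CW * Bd + 2 * (2 * CW * Bd + 2 * CU * G ^ 2 + 2 * CU * G * L) + 1)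
          * |QQ 0 1 (S.μ₁ j) z| := by
          have : 0 ≤ (CW * Bd + 1) * |QQ 0 1 (S.μ₁ j) z| := by positivity
          linarith

end ND1
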