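import Pool.Agent.H1.ND.Nb
import Pool.Agent.H1.EW.Fb

/-!
ROW ND/Nd. First variation of the error forms. `RR = π ∑_{n≥0} rt l μ (fc A (n+1)) (fc M (n+1)) (n+1)`, `rt l μ A M n = (1-‖μ‖^(2n)) A (l μⁿ M + l² ‖μ‖^(2n) conj M)/(n (1 - l² ‖μ‖^(2n)))`. `‖fc (n+1)‖ ≤ C 2^(n+1)` for both ellipses, `‖μ‖ ≤ 1/100`, `|l| ≤ 1`.
The term `n = 0` (order 1): `(rt₁ - rt₂)/d`: `(μ₁ - μ₂)/d → -β`, all other differences have a factor `‖μ‖` or `d`: limit `-l₀ β A₀(0) m₀(0)` (`co F₀ 0 = F₀ 0`). The terms of order `≥ 2`: `‖rt₁ - rt₂‖ ≤ C (max ‖μ_i‖)^(n-1) 4ⁿ n d` with `‖fc₁ - fc₂‖ ≤ C d 2ⁿ` (`fc_lip` in `EW/Fb.lean`,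
for `d` small; or `fcD`), so their sum over `d` tends to `0` (dominated convergence for series, each tends to `0` since `‖μ‖ → 0`; geometric domination with ratio `4/100`). Summability: same bounds. Compare `rt_lip` (`EW/Fd.lean`), `RR_lip` (`EW/Fe.lean`); they have `l² ≤ 1/4`, here `|l| ≤ 1`.
-/

set_option autoImplicit false

namespace ND1

open Complex Set Filter Topology MeasureTheory EW1 EX1
open scoped ComplexConjugate ContDiff Real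

private theorem pow_lip {F : Type} [NormedField F] (x y : F) (r : ℝ) (hx : ‖x‖ ≤ r) (hy : ‖y‖ ≤ r) (n : ℕ) :
    ‖x ^ n - y ^ n‖ ≤ n * r ^ (n - 1) * ‖x - y‖ := by
  have hr : 0 ≤ r := (norm_nonneg x).trans hx
  rw [← geom_sum₂_mul, norm_mul]
  refine mul_le_mul_of_nonneg_right ?_ (norm_nonneg _)
  refine (norm_sum_le _ _).trans ?_
  have h : ∀ i ∈ Finset.range n, ‖x ^ i * y ^ (n - 1 - i)‖ ≤ r ^ (n - 1) := by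
    intro i hi
    have hi' : i ≤ n - 1 := by have := Finset.mem_range.1 hi; omega
    rw [norm_mul, norm_pow, norm_pow]
    calc ‖x‖ ^ i * ‖y‖ ^ (n - 1 - i) ≤ r ^ i * r ^ (n - 1 - i) :=
          mul_le_mul (pow_le_pow_left₀ (norm_nonneg _) hx _) (pow_le_pow_left₀ (norm_nonneg _) hy _)
            (by positivity) (by positivity)
      _ = r ^ (n - 1) := by rw [← pow_add]; congr 1; omega
  refine (Finset.sum_le_sum h).trans ?_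
  simp

/-- the real factor -/
private noncomputable def al (l w : ℝ) : ℝ := (1 - w) / (1 - l ^ 2 * w)

private theorem al_bd {l w : ℝ} (hl : l ^ 2 ≤ 1) (h0 : 0 ≤ w) (h1 : w ≤ 1 / 100) : 0 ≤ al l w ∧ al l w ≤ 1 := by
  have hq : 0 < 1 - l ^ 2 * w := by nlinarith [sq_nonneg l]
  constructor
  · unfold al; exact div_nonneg (by linarith) hq.le
  · unfold al; rw [div_le_one hq]; nlinarith [sq_nonneg l]

private theorem al_lip {l w₁ w₂ : ℝ} (hl : l ^ 2 ≤ 1) (h0 : 0 ≤ w₁) (h1 : w₁ ≤ 1 / 100) (h0' : 0 ≤ w₂) (h1' : w₂ ≤ 1 / 100) :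
    |al l w₁ - al l w₂| ≤ 2 * |w₁ - w₂| := by
  have hq₁ : 99 / 100 ≤ 1 - l ^ 2 * w₁ := by nlinarith [sq_nonneg l]
  have hq₂ : 99 / 100 ≤ 1 - l ^ 2 * w₂ := by nlinarith [sq_nonneg l]
  have hne₁ : 1 - l ^ 2 * w₁ ≠ 0 := by linarith
  have hne₂ : 1 - l ^ 2 * w₂ ≠ 0 := by linarith
  have e : al l w₁ - al l w₂ = ((1 - l ^ 2) / ((1 - l ^ 2 * w₁) * (1 - l ^ 2 * w₂))) * (w₂ - w₁) := by
    unfold al
    rw [div_sub_div _ _ hne₁ hne₂, div_mul_eq_mul_div]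
    congr 1
    ring
  rw [e, abs_mul, abs_sub_comm w₂ w₁]
  refine mul_le_mul_of_nonneg_right ?_ (abs_nonneg _)
  have hp : 9 / 16 ≤ (1 - l ^ 2 * w₁) * (1 - l ^ 2 * w₂) := by nlinarith
  rw [abs_of_nonneg (div_nonneg (by nlinarith [sq_nonneg l]) (by linarith)), div_le_iff₀ (by linarith)]
  nlinarith [sq_nonneg l]

private noncomputable def BB (l w : ℝ) (u M : ℂ) : ℂ := l * u * M + l ^ 2 * w * conj M

private theorem w_le {μ : ℂ} (hμ : ‖μ‖ ≤ 1 / 100) {n : ℕ} (hn : 1 ≤ n) : ‖μ‖ ^ (2 * n) ≤ 1 / 100 := by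
  have h1 : ‖μ‖ ^ (2 * n) ≤ ‖μ‖ ^ 1 := pow_le_pow_of_le_one (norm_nonneg _) (by linarith) (by omega)
  rw [pow_one] at h1
  linarith

private theorem rt_eq (l : ℝ) (μ A M : ℂ) (n : ℕ) (hn : 1 ≤ n) (hl : l ^ 2 ≤ 1) (hμ : ‖μ‖ ≤ 1 / 100) :
    rt l μ A M n = ((al l (‖μ‖ ^ (2 * n)) : ℝ) : ℂ) * A * BB l (‖μ‖ ^ (2 * n)) (μ ^ n) M / n := by
  have hw : ‖μ‖ ^ (2 * n) ≤ 1 / 100 := w_le hμ hn
  have hw0 : 0 ≤ ‖μ‖ ^ (2 * n) := by positivity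
  have hq : (1 - l ^ 2 * ‖μ‖ ^ (2 * n) : ℝ) ≠ 0 := by nlinarith [sq_nonneg l]
  have hqc : ((1 - l ^ 2 * ‖μ‖ ^ (2 * n) : ℝ) : ℂ) ≠ 0 := by exact_mod_cast hq
  have hnc : (n : ℂ) ≠ 0 := by exact_mod_cast (by omega : n ≠ 0)
  unfold rt al BB
  rw [Complex.ofReal_div]
  have e : ((‖μ‖ ^ (2 * n) : ℝ) : ℂ) = (‖μ‖ : ℂ) ^ (2 * n) := by push_cast; rfl
  rw [e]
  field_simp

private theorem BB_le {l w r m : ℝ} {u M : ℂ} (hl : |l| ≤ 1) (hw0 : 0 ≤ w) (hw : w ≤ r) (hu : ‖u‖ ≤ r)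
    (hM : ‖M‖ ≤ m) : ‖BB l w u M‖ ≤ 2 * r * m := by
  have hr : 0 ≤ r := (norm_nonneg u).trans hu
  have hm : 0 ≤ m := (norm_nonneg M).trans hM
  have h1 : ‖(l : ℂ) * u * M‖ ≤ 1 * r * m := by
    rw [norm_mul, norm_mul, Complex.norm_real, Real.norm_eq_abs]
    gcongr
  have h2 : ‖(l : ℂ) ^ 2 * w * conj M‖ ≤ 1 ^ 2 * r * m := by
    rw [norm_mul, norm_mul, norm_pow, Complex.norm_real, Complex.norm_real, Real.norm_eq_abs, Real.norm_eq_abs,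
      Complex.norm_conj, abs_of_nonneg hw0]
    gcongr
  unfold BB
  refine (norm_add_le _ _).trans ?_
  linarith

private theorem lsq {l : ℝ} (hl : |l| ≤ 1) : l ^ 2 ≤ 1 := by
  rw [← sq_abs]
  nlinarith [abs_nonneg l]

private theorem rt_le {l : ℝ} (hl : |l| ≤ 1) {μ : ℂ} (hμ : ‖μ‖ ≤ 1 / 100) (A M : ℂ) {n : ℕ} (hn : 1 ≤ n) :
    ‖rt l μ A M n‖ ≤ 2 * ‖μ‖ ^ n * ‖A‖ * ‖M‖ := by
  have hl2 := lsq hl
  rw [rt_eq l μ A M n hn hl2 hμ]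
  have hw0 : 0 ≤ ‖μ‖ ^ (2 * n) := by positivity
  have hw1 : ‖μ‖ ^ (2 * n) ≤ 1 / 100 := w_le hμ hn
  have hwr : ‖μ‖ ^ (2 * n) ≤ ‖μ‖ ^ n := pow_le_pow_of_le_one (norm_nonneg _) (by linarith) (by omega)
  have hu : ‖μ ^ n‖ ≤ ‖μ‖ ^ n := by rw [norm_pow]
  have hB := BB_le (M := M) hl hw0 hwr hu le_rfl
  have ha := al_bd hl2 hw0 hw1
  have hn' : (1 : ℝ) ≤ n := by exact_mod_cast hn
  rw [norm_div, norm_mul, norm_mul, Complex.norm_real, Real.norm_eq_abs, abs_of_nonneg ha.1, Complex.norm_natCast]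
  rw [div_le_iff₀ (by linarith)]
  have h1 : al l (‖μ‖ ^ (2 * n)) * ‖A‖ * ‖BB l (‖μ‖ ^ (2 * n)) (μ ^ n) M‖ ≤ 1 * ‖A‖ * (2 * ‖μ‖ ^ n * ‖M‖) := by
    gcongr
    exact ha.2
  refine h1.trans ?_
  have h2 : 0 ≤ ‖μ‖ ^ n * ‖A‖ * ‖M‖ := by positivity
  nlinarith

private theorem rt_lip {l μ₀ : ℝ} (hl : |l| ≤ 1) (hμ0 : 0 ≤ μ₀) (hμ1 : μ₀ ≤ 1 / 100) {μ₁ μ₂ : ℂ} (h₁ : ‖μ₁‖ ≤ μ₀) (h₂ : ‖μ₂‖ ≤ μ₀)
    {a m d : ℝ} {A₁ A₂ M₁ M₂ : ℂ} (hd : ‖μ₁ - μ₂‖ ≤ d) (hA₁ : ‖A₁‖ ≤ a) (hA₂ : ‖A₂‖ ≤ a) (hM₁ : ‖M₁‖ ≤ m) (hM₂ : ‖M₂‖ ≤ m)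
    (hA : ‖A₁ - A₂‖ ≤ a * d) (hM : ‖M₁ - M₂‖ ≤ m * d) {n : ℕ} (hn : 1 ≤ n) :
    ‖rt l μ₁ A₁ M₁ n - rt l μ₂ A₂ M₂ n‖ ≤ 15 * μ₀ ^ (n - 1) * a * m * d := by
  have hl2 := lsq hl
  have hd0 : 0 ≤ d := (norm_nonneg _).trans hd
  have ha0 : 0 ≤ a := (norm_nonneg _).trans hA₁
  have hm0 : 0 ≤ m := (norm_nonneg _).trans hM₁
  have hn' : (1 : ℝ) ≤ n := by exact_mod_cast hn
  have hμ1' : μ₀ ≤ 1 := by linarith
  rw [rt_eq l μ₁ A₁ M₁ n hn hl2 (h₁.trans hμ1), rt_eq l μ₂ A₂ M₂ n hn hl2 (h₂.trans hμ1)]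
  have hw₁1 : ‖μ₁‖ ^ (2 * n) ≤ 1 / 100 := w_le (h₁.trans hμ1) hn
  have hw₂1 : ‖μ₂‖ ^ (2 * n) ≤ 1 / 100 := w_le (h₂.trans hμ1) hn
  set w₁ := ‖μ₁‖ ^ (2 * n) with hw₁
  set w₂ := ‖μ₂‖ ^ (2 * n) with hw₂
  set q := μ₀ ^ (n - 1) with hq
  have hq0 : 0 ≤ q := by positivity
  have hq1 : q ≤ 1 := pow_le_one₀ hμ0 hμ1'
  have hpq : μ₀ ^ n ≤ q := pow_le_pow_of_le_one hμ0 hμ1' (by omega)
  have hw₁0 : 0 ≤ w₁ := by positivity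
  have hw₂0 : 0 ≤ w₂ := by positivity
  have hw₁q : w₁ ≤ q := (pow_le_pow_left₀ (norm_nonneg _) h₁ _).trans (pow_le_pow_of_le_one hμ0 hμ1' (by omega))
  have hw₂q : w₂ ≤ q := (pow_le_pow_left₀ (norm_nonneg _) h₂ _).trans (pow_le_pow_of_le_one hμ0 hμ1' (by omega))
  have hu₁ : ‖μ₁ ^ n‖ ≤ q := by rw [norm_pow]; exact (pow_le_pow_left₀ (norm_nonneg _) h₁ _).trans hpq
  have hu₂ : ‖μ₂ ^ n‖ ≤ q := by rw [norm_pow]; exact (pow_le_pow_left₀ (norm_nonneg _) h₂ _).trans hpq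
  have hu : ‖μ₁ ^ n - μ₂ ^ n‖ ≤ n * q * d :=
    (pow_lip μ₁ μ₂ μ₀ h₁ h₂ n).trans (mul_le_mul_of_nonneg_left hd (by positivity))
  have hw : |w₁ - w₂| ≤ 2 * n * q * d := by
    have h := pow_lip (‖μ₁‖ : ℝ) ‖μ₂‖ μ₀ (by simpa using h₁) (by simpa using h₂) (2 * n)
    rw [Real.norm_eq_abs, Real.norm_eq_abs] at h
    have h3 : |‖μ₁‖ - ‖μ₂‖| ≤ d := (abs_norm_sub_norm_le _ _).trans hd
    have h4 : μ₀ ^ (2 * n - 1) ≤ q := pow_le_pow_of_le_one hμ0 hμ1' (by omega)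
    refine h.trans ?_
    push_cast
    gcongr
  have hal := al_lip hl2 hw₁0 hw₁1 hw₂0 hw₂1
  have ha₂ := al_bd hl2 hw₂0 hw₂1
  have hB₁ := BB_le hl hw₁0 hw₁q hu₁ hM₁
  have hBB : ‖BB l w₁ (μ₁ ^ n) M₁ - BB l w₂ (μ₂ ^ n) M₂‖ ≤ 5 * n * q * m * d := by
    have e : BB l w₁ (μ₁ ^ n) M₁ - BB l w₂ (μ₂ ^ n) M₂ = l * (μ₁ ^ n - μ₂ ^ n) * M₁ + l * μ₂ ^ n * (M₁ - M₂) +
        l ^ 2 * ((w₁ - w₂ : ℝ) : ℂ) * conj M₁ + l ^ 2 * w₂ * conj (M₁ - M₂) := by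
      unfold BB
      push_cast
      rw [map_sub]
      ring
    rw [e]
    have t1 : ‖(l : ℂ) * (μ₁ ^ n - μ₂ ^ n) * M₁‖ ≤ 1 * (n * q * d) * m := by
      rw [norm_mul, norm_mul, Complex.norm_real, Real.norm_eq_abs]
      gcongr
    have t2 : ‖(l : ℂ) * μ₂ ^ n * (M₁ - M₂)‖ ≤ 1 * q * (m * d) := by
      rw [norm_mul, norm_mul, Complex.norm_real, Real.norm_eq_abs]
      gcongr
    have t3 : ‖(l : ℂ) ^ 2 * ((w₁ - w₂ : ℝ) : ℂ) * conj M₁‖ ≤ 1 ^ 2 * (2 * n * q * d) * m := by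
      rw [norm_mul, norm_mul, norm_pow, Complex.norm_real, Complex.norm_real, Real.norm_eq_abs, Real.norm_eq_abs,
        Complex.norm_conj]
      gcongr
    have t4 : ‖(l : ℂ) ^ 2 * w₂ * conj (M₁ - M₂)‖ ≤ 1 ^ 2 * q * (m * d) := by
      rw [norm_mul, norm_mul, norm_pow, Complex.norm_real, Complex.norm_real, Real.norm_eq_abs, Real.norm_eq_abs,
        Complex.norm_conj, abs_of_nonneg hw₂0]
      gcongr
    refine (norm_add_le _ _).trans ((add_le_add ((norm_add_le _ _).trans (add_le_add ((norm_add_le _ _).trans (add_le_add t1 t2)) t3)) t4).trans ?_)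
    have h0 : 0 ≤ q * m * d := by positivity
    nlinarith [mul_le_mul_of_nonneg_right hn' h0]
  have hnc : (n : ℂ) ≠ 0 := by exact_mod_cast (by omega : n ≠ 0)
  rw [← sub_div, norm_div, Complex.norm_natCast, div_le_iff₀ (by linarith)]
  have e : ((al l w₁ : ℝ) : ℂ) * A₁ * BB l w₁ (μ₁ ^ n) M₁ - ((al l w₂ : ℝ) : ℂ) * A₂ * BB l w₂ (μ₂ ^ n) M₂ =
      ((al l w₁ - al l w₂ : ℝ) : ℂ) * A₁ * BB l w₁ (μ₁ ^ n) M₁ + ((al l w₂ : ℝ) : ℂ) * (A₁ - A₂) * BB l w₁ (μ₁ ^ n) M₁ +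
        ((al l w₂ : ℝ) : ℂ) * A₂ * (BB l w₁ (μ₁ ^ n) M₁ - BB l w₂ (μ₂ ^ n) M₂) := by
    push_cast
    ring
  rw [e]
  have s1 : ‖((al l w₁ - al l w₂ : ℝ) : ℂ) * A₁ * BB l w₁ (μ₁ ^ n) M₁‖ ≤ (2 * (2 * n * q * d)) * a * (2 * 1 * m) := by
    rw [norm_mul, norm_mul, Complex.norm_real, Real.norm_eq_abs]
    have h5 : ‖BB l w₁ (μ₁ ^ n) M₁‖ ≤ 2 * 1 * m := hB₁.trans (by gcongr)
    have h6 : |al l w₁ - al l w₂| ≤ 2 * (2 * n * q * d) := hal.trans (by gcongr)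
    gcongr
  have s2 : ‖((al l w₂ : ℝ) : ℂ) * (A₁ - A₂) * BB l w₁ (μ₁ ^ n) M₁‖ ≤ 1 * (a * d) * (2 * q * m) := by
    rw [norm_mul, norm_mul, Complex.norm_real, Real.norm_eq_abs, abs_of_nonneg ha₂.1]
    have := ha₂.2
    gcongr
  have s3 : ‖((al l w₂ : ℝ) : ℂ) * A₂ * (BB l w₁ (μ₁ ^ n) M₁ - BB l w₂ (μ₂ ^ n) M₂)‖ ≤ 1 * a * (5 * n * q * m * d) := by
    rw [norm_mul, norm_mul, Complex.norm_real, Real.norm_eq_abs, abs_of_nonneg ha₂.1]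
    have := ha₂.2
    gcongr
  refine (norm_add_le _ _).trans ((add_le_add ((norm_add_le _ _).trans (add_le_add s1 s2)) s3).trans ?_)
  have h0 : 0 ≤ q * a * m * d := by positivity
  nlinarith [mul_le_mul_of_nonneg_right hn' h0]

/-- summation of the bounds of order `≥ 1` -/
private theorem rt_geo {l : ℝ} (hl : |l| ≤ 1) {μ : ℂ} (hμ : ‖μ‖ ≤ 1 / 100) {a m : ℝ} (A M : ℕ → ℂ)
    (hA : ∀ n : ℕ, ‖A n‖ ≤ a * 2 ^ n) (hM : ∀ n : ℕ, ‖M n‖ ≤ m * 2 ^ n) (n : ℕ) :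
    ‖rt l μ (A (n + 1)) (M (n + 1)) (n + 1)‖ ≤ (8 * a * m * ‖μ‖) * (1 / 2) ^ n := by
  have e1 := rt_le hl hμ (A (n + 1)) (M (n + 1)) (n := n + 1) (by omega)
  have hA' := hA (n + 1)
  have hM' := hM (n + 1)
  have ha : 0 ≤ a := by
    have := (norm_nonneg _).trans (hA 0)
    simpa using this
  have hm : 0 ≤ m := by
    have := (norm_nonneg _).trans (hM 0)
    simpa using this
  calc ‖rt l μ (A (n + 1)) (M (n + 1)) (n + 1)‖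
      ≤ 2 * ‖μ‖ ^ (n + 1) * ‖A (n + 1)‖ * ‖M (n + 1)‖ := e1
    _ ≤ 2 * ‖μ‖ ^ (n + 1) * (a * 2 ^ (n + 1)) * (m * 2 ^ (n + 1)) := by
        gcongr
    _ = (8 * a * m * ‖μ‖) * (4 * ‖μ‖) ^ n := by
        rw [mul_pow, show (4 : ℝ) = 2 * 2 by norm_num, mul_pow]
        ring
    _ ≤ (8 * a * m * ‖μ‖) * (1 / 2) ^ n := by
        have h4 : 4 * ‖μ‖ ≤ 1 / 2 := by linarith
        have h5 : (4 * ‖μ‖) ^ n ≤ (1 / 2) ^ n := pow_le_pow_left₀ (by positivity) h4 n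
        exact mul_le_mul_of_nonneg_left h5 (by positivity)

private theorem rt_sum {l : ℝ} (hl : |l| ≤ 1) {μ : ℂ} (hμ : ‖μ‖ ≤ 1 / 100) {a m : ℝ} (A M : ℕ → ℂ)
    (hA : ∀ n : ℕ, ‖A n‖ ≤ a * 2 ^ n) (hM : ∀ n : ℕ, ‖M n‖ ≤ m * 2 ^ n) :
    Summable (fun n : ℕ => rt l μ (A (n + 1)) (M (n + 1)) (n + 1)) ∧
    ‖∑' n : ℕ, rt l μ (A (n + 1)) (M (n + 1)) (n + 1)‖ ≤ (8 * a * m * ‖μ‖) * 2 := by
  have hs : HasSum (fun n : ℕ => (8 * a * m * ‖μ‖) * (1 / 2) ^ n) ((8 * a * m * ‖μ‖) * 2) :=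
    hasSum_geometric_two.mul_left _
  have hb := rt_geo hl hμ A M hA hM
  exact ⟨Summable.of_norm_bounded hs.summable hb, tsum_of_norm_bounded hs hb⟩

/-- the mean value property -/
private theorem co_zero {F₀ : ℂ → ℂ} (h : DifferentiableOn ℂ F₀ (Metric.ball 0 1)) : co F₀ ((0 : ℕ) : ℤ) = F₀ 0 := by
  have h1 : DiffContOnCl ℂ F₀ (Metric.ball 0 (1 / 2)) := by
    apply DifferentiableOn.diffContOnCl
    refine h.mono ?_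
    refine Metric.closure_ball_subset_closedBall.trans ?_
    exact Metric.closedBall_subset_ball (by norm_num)
  have h2 := h1.circleIntegral_sub_inv_smul (w := 0) (Metric.mem_ball_self (by norm_num))
  have h3 : (∮ z in C(0, 1 / 2), (z - 0)⁻¹ • F₀ z) = I * ∫ t in (0 : ℝ)..(2 * π), F₀ (pt t) * pt t ^ (-(((0 : ℕ) : ℤ))) := by
    rw [circleIntegral, ← intervalIntegral.integral_const_mul]
    congr 1
    ext t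
    have e : circleMap 0 (1 / 2) t = pt t := by
      unfold pt circleMap
      push_cast
      ring
    have hne : pt t ≠ 0 := by
      unfold pt
      exact mul_ne_zero (by norm_num) (Complex.exp_ne_zero _)
    rw [deriv_circleMap, e]
    simp only [sub_zero, smul_eq_mul, Nat.cast_zero, neg_zero, zpow_zero, mul_one]
    field_simp
  rw [h3] at h2
  unfold co
  have hpi : (2 * π : ℂ) ≠ 0 := by
    have := Real.pi_ne_zero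
    exact mul_ne_zero two_ne_zero (by exact_mod_cast this)
  rw [div_eq_iff hpi]
  have hI : (I : ℂ) ≠ 0 := Complex.I_ne_zero
  apply mul_left_cancel₀ hI
  rw [h2]
  simp only [smul_eq_mul]
  ring


/-- bounds of the coefficients, for large `j` -/
private theorem fbd {S : Sq} {a : ℝ} {γ β : ℂ} (hS : Lim S a γ β) {F : ℕ → ℂ → ℂ} {F₀ : ℂ → ℂ} (hF : LB S F F₀) :
    ∃ B : ℝ, ∀ᶠ j in atTop, ∀ n : ℕ, ‖fc 0 1 (S.μ₁ j) (F j) (1 / 2) n‖ ≤ B * 2 ^ n ∧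
      ‖fc (S.c₂ j) (S.r₂ j) (S.μ₂ j) (F j) (1 / 2) n‖ ≤ B * 2 ^ n ∧
      ‖fc 0 1 (S.μ₁ j) (F j) (1 / 2) n - fc (S.c₂ j) (S.r₂ j) (S.μ₂ j) (F j) (1 / 2) n‖ ≤ B * 2 ^ n * S.d j := by
  obtain ⟨Cg, δ₁, hCg, hδ₁, hfc⟩ := fc_lip (r₀ := 1 / 2) (R := 2) (μ₀ := 1 / 100) (ρ := 1 / 2) (σ := 3 / 5) (by norm_num)
    (by norm_num) (by norm_num) (by norm_num) (by norm_num) (by norm_num) (by norm_num)
  obtain ⟨SF, hSF⟩ := hF.bd (3 / 5) (by norm_num) (by norm_num)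
  refine ⟨Cg * SF, ?_⟩
  filter_upwards [hS.ld.eventually (gt_mem_nhds hδ₁)] with j hj n
  have hd0 := (hS.pos j).le
  have hds := hS.small j
  have hdd : ‖(0 : ℂ) - S.c₂ j‖ + |1 - S.r₂ j| + ‖S.μ₁ j - S.μ₂ j‖ = S.d j := rfl
  have n1 : 0 ≤ ‖(0 : ℂ) - S.c₂ j‖ := norm_nonneg _
  have n2 : 0 ≤ |1 - S.r₂ j| := abs_nonneg _
  have n3 : 0 ≤ ‖S.μ₁ j - S.μ₂ j‖ := norm_nonneg _
  have hc : ‖S.c₂ j‖ ≤ 1 / 100 := by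
    have e : ‖S.c₂ j‖ = ‖(0 : ℂ) - S.c₂ j‖ := by rw [zero_sub, norm_neg]
    rw [e]
    linarith
  have hr : |1 - S.r₂ j| ≤ 1 / 100 := by linarith
  have hr' := abs_le.1 hr
  have hP₁ : PS (1 / 2) 2 (1 / 100) 0 1 (S.μ₁ j) := ⟨by simp, by norm_num, by norm_num, hS.m1 j⟩
  have hP₂ : PS (1 / 2) 2 (1 / 100) (S.c₂ j) (S.r₂ j) (S.μ₂ j) :=
    ⟨by linarith, by linarith [hr'.2], by linarith [hr'.1], hS.m2 j⟩
  obtain ⟨N, -, hN, -, hd⟩ := hF.hol j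
  have hsub : Dp 0 1 (S.μ₁ j) (3 / 5) ⊆ N := by
    intro z hz
    apply hN
    have hz' : ‖vv 0 1 (S.μ₁ j) z‖ < 3 / 5 := hz
    show ‖vv 0 1 (S.μ₁ j) z‖ ≤ 1
    linarith
  have h := hfc 0 1 (S.μ₁ j) (S.c₂ j) (S.r₂ j) (S.μ₂ j) hP₁ hP₂ hj.le (F j) SF (hd.mono hsub)
    (fun z hz => hSF j z (Or.inl hz)) n
  have e : ((1 / 2 : ℝ)⁻¹) = 2 := by norm_num
  rw [e] at h
  refine ⟨h.1, h.2.1, h.2.2.trans (le_of_eq ?_)⟩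
  show Cg * SF * S.d j * 2 ^ n = Cg * SF * 2 ^ n * S.d j
  ring

/-- the terms of order `≥ 2` -/
private theorem tail {S : Sq} {a : ℝ} {γ β : ℂ} (hS : Lim S a γ β) {A m : ℕ → ℂ → ℂ} {A₀ m₀ : ℂ → ℂ} (hA : LB S A A₀)
    (hm : LB S m m₀) {l : ℕ → ℝ} (hl : ∀ j, |l j| ≤ 1) :
    ∃ C : ℝ, ∀ᶠ j in atTop, ‖(S.R₁ l A m j - S.R₂ l A m j) - π * (rt (l j) (S.μ₁ j) (fc 0 1 (S.μ₁ j) (A j) (1 / 2) 1)
      (fc 0 1 (S.μ₁ j) (m j) (1 / 2) 1) 1 - rt (l j) (S.μ₂ j) (fc (S.c₂ j) (S.r₂ j) (S.μ₂ j) (A j) (1 / 2) 1)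
      (fc (S.c₂ j) (S.r₂ j) (S.μ₂ j) (m j) (1 / 2) 1) 1)‖ ≤ C * (‖S.μ₁ j‖ + ‖S.μ₂ j‖) * S.d j := by
  obtain ⟨B, hB⟩ := fbd hS hA
  obtain ⟨B', hB'⟩ := fbd hS hm
  refine ⟨π * (480 * B * B'), ?_⟩
  filter_upwards [hB, hB'] with j hb hb'
  have hd0 := (hS.pos j).le
  have hB0 : 0 ≤ B := by
    have := (norm_nonneg _).trans (hb 0).1
    simpa using this
  have hB0' : 0 ≤ B' := by
    have := (norm_nonneg _).trans (hb' 0).1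
    simpa using this
  obtain ⟨hs1, -⟩ := rt_sum (hl j) (hS.m1 j) (fc 0 1 (S.μ₁ j) (A j) (1 / 2)) (fc 0 1 (S.μ₁ j) (m j) (1 / 2))
    (fun n => (hb n).1) (fun n => (hb' n).1)
  obtain ⟨hs2, -⟩ := rt_sum (hl j) (hS.m2 j) (fc (S.c₂ j) (S.r₂ j) (S.μ₂ j) (A j) (1 / 2))
    (fc (S.c₂ j) (S.r₂ j) (S.μ₂ j) (m j) (1 / 2)) (fun n => (hb n).2.1) (fun n => (hb' n).2.1)
  set q : ℝ := max ‖S.μ₁ j‖ ‖S.μ₂ j‖ with hq
  have hq0 : 0 ≤ q := (norm_nonneg _).trans (le_max_left _ _)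
  have hq1 : q ≤ 1 / 100 := max_le (hS.m1 j) (hS.m2 j)
  have hqs : q ≤ ‖S.μ₁ j‖ + ‖S.μ₂ j‖ :=
    max_le (le_add_of_nonneg_right (norm_nonneg _)) (le_add_of_nonneg_left (norm_nonneg _))
  have hμd : ‖S.μ₁ j - S.μ₂ j‖ ≤ S.d j := by
    have hdd : ‖(0 : ℂ) - S.c₂ j‖ + |1 - S.r₂ j| + ‖S.μ₁ j - S.μ₂ j‖ = S.d j := rfl
    have n1 : 0 ≤ ‖(0 : ℂ) - S.c₂ j‖ := norm_nonneg _
    have n2 : 0 ≤ |1 - S.r₂ j| := abs_nonneg _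
    linarith
  have hsd := hs1.sub hs2
  have hbd : ∀ n : ℕ, ‖rt (l j) (S.μ₁ j) (fc 0 1 (S.μ₁ j) (A j) (1 / 2) (n + 1 + 1)) (fc 0 1 (S.μ₁ j) (m j) (1 / 2) (n + 1 + 1)) (n + 1 + 1) -
      rt (l j) (S.μ₂ j) (fc (S.c₂ j) (S.r₂ j) (S.μ₂ j) (A j) (1 / 2) (n + 1 + 1))
        (fc (S.c₂ j) (S.r₂ j) (S.μ₂ j) (m j) (1 / 2) (n + 1 + 1)) (n + 1 + 1)‖ ≤ (240 * B * B' * S.d j * q) * (1 / 2) ^ n := by
    intro n
    have h1 := hb (n + 1 + 1)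
    have h2 := hb' (n + 1 + 1)
    have key := rt_lip (hl j) hq0 hq1 (le_max_left _ _) (le_max_right _ _) hμd h1.1 h1.2.1 h2.1 h2.2.1 h1.2.2 h2.2.2
      (n := n + 1 + 1) (by omega)
    refine key.trans ?_
    rw [Nat.add_sub_cancel]
    calc 15 * q ^ (n + 1) * (B * 2 ^ (n + 1 + 1)) * (B' * 2 ^ (n + 1 + 1)) * S.d j
        = (240 * B * B' * S.d j * q) * (4 * q) ^ n := by
          rw [mul_pow, show (4 : ℝ) = 2 * 2 by norm_num, mul_pow]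
          ring
      _ ≤ (240 * B * B' * S.d j * q) * (1 / 2) ^ n := by
          have h4 : 4 * q ≤ 1 / 2 := by linarith
          have h5 : (4 * q) ^ n ≤ (1 / 2) ^ n := pow_le_pow_left₀ (by positivity) h4 n
          exact mul_le_mul_of_nonneg_left h5 (by positivity)
  have hgs : HasSum (fun n : ℕ => (240 * B * B' * S.d j * q) * (1 / 2) ^ n) ((240 * B * B' * S.d j * q) * 2) :=
    hasSum_geometric_two.mul_left _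
  have hT := tsum_of_norm_bounded hgs hbd
  have e : (S.R₁ l A m j - S.R₂ l A m j) - π * (rt (l j) (S.μ₁ j) (fc 0 1 (S.μ₁ j) (A j) (1 / 2) 1)
      (fc 0 1 (S.μ₁ j) (m j) (1 / 2) 1) 1 - rt (l j) (S.μ₂ j) (fc (S.c₂ j) (S.r₂ j) (S.μ₂ j) (A j) (1 / 2) 1)
      (fc (S.c₂ j) (S.r₂ j) (S.μ₂ j) (m j) (1 / 2) 1) 1) = π * ∑' n : ℕ,
      (rt (l j) (S.μ₁ j) (fc 0 1 (S.μ₁ j) (A j) (1 / 2) (n + 1 + 1)) (fc 0 1 (S.μ₁ j) (m j) (1 / 2) (n + 1 + 1)) (n + 1 + 1) -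
      rt (l j) (S.μ₂ j) (fc (S.c₂ j) (S.r₂ j) (S.μ₂ j) (A j) (1 / 2) (n + 1 + 1))
        (fc (S.c₂ j) (S.r₂ j) (S.μ₂ j) (m j) (1 / 2) (n + 1 + 1)) (n + 1 + 1)) := by
    have e1 : S.R₁ l A m j - S.R₂ l A m j = π * ∑' n : ℕ,
        (rt (l j) (S.μ₁ j) (fc 0 1 (S.μ₁ j) (A j) (1 / 2) (n + 1)) (fc 0 1 (S.μ₁ j) (m j) (1 / 2) (n + 1)) (n + 1) -
        rt (l j) (S.μ₂ j) (fc (S.c₂ j) (S.r₂ j) (S.μ₂ j) (A j) (1 / 2) (n + 1))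
          (fc (S.c₂ j) (S.r₂ j) (S.μ₂ j) (m j) (1 / 2) (n + 1)) (n + 1)) := by
      rw [hs1.tsum_sub hs2, mul_sub]
      rfl
    rw [e1, hsd.tsum_eq_zero_add]
    simp only [zero_add]
    ring
  rw [e, norm_mul, Complex.norm_real, Real.norm_of_nonneg Real.pi_pos.le]
  calc π * _ ≤ π * ((240 * B * B' * S.d j * q) * 2) := mul_le_mul_of_nonneg_left hT Real.pi_pos.le
    _ ≤ π * ((240 * B * B' * S.d j * (‖S.μ₁ j‖ + ‖S.μ₂ j‖)) * 2) := by gcongr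
    _ = π * (480 * B * B') * (‖S.μ₁ j‖ + ‖S.μ₂ j‖) * S.d j := by ring

private theorem alg (l w₁ w₂ d : ℝ) (hd : d ≠ 0) (h₁ : 1 - l ^ 2 * w₁ ≠ 0) (h₂ : 1 - l ^ 2 * w₂ ≠ 0)
    (μ₁ μ₂ x₁ x₂ y₁ y₂ : ℂ) :
    (((al l w₁ : ℝ) : ℂ) * x₁ * BB l w₁ μ₁ y₁ - ((al l w₂ : ℝ) : ℂ) * x₂ * BB l w₂ μ₂ y₂) / (d : ℂ) =
      (((1 - l ^ 2) / ((1 - l ^ 2 * w₁) * (1 - l ^ 2 * w₂)) : ℝ) : ℂ) * (-(((w₁ - w₂) / d : ℝ) : ℂ)) * x₁ * BB l w₁ μ₁ y₁ +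
      ((al l w₂ : ℝ) : ℂ) * (-((x₂ - x₁) / (d : ℂ))) * BB l w₁ μ₁ y₁ +
      ((al l w₂ : ℝ) : ℂ) * x₂ * (-((l : ℂ) * ((μ₂ - μ₁) / (d : ℂ)) * y₁) - (l : ℂ) * μ₂ * ((y₂ - y₁) / (d : ℂ)) +
        (l : ℂ) ^ 2 * (((w₁ - w₂) / d : ℝ) : ℂ) * conj y₁ - (l : ℂ) ^ 2 * (w₂ : ℂ) * conj ((y₂ - y₁) / (d : ℂ))) := by
  have hdC : (d : ℂ) ≠ 0 := by exact_mod_cast hd
  obtain ⟨X, hX⟩ : ∃ X : ℂ, X = (x₂ - x₁) / (d : ℂ) := ⟨_, rfl⟩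
  obtain ⟨Y, hY⟩ : ∃ Y : ℂ, Y = (y₂ - y₁) / (d : ℂ) := ⟨_, rfl⟩
  obtain ⟨T, hT⟩ : ∃ T : ℂ, T = (μ₂ - μ₁) / (d : ℂ) := ⟨_, rfl⟩
  obtain ⟨W, hW⟩ : ∃ W : ℝ, W = (w₁ - w₂) / d := ⟨_, rfl⟩
  obtain ⟨K, hK⟩ : ∃ K : ℝ, K = (1 - l ^ 2) / ((1 - l ^ 2 * w₁) * (1 - l ^ 2 * w₂)) := ⟨_, rfl⟩
  rw [← hX, ← hY, ← hT, ← hW, ← hK]
  have e1 : x₂ - x₁ = d * X := by rw [hX]; field_simp
  have e2 : y₂ - y₁ = d * Y := by rw [hY]; field_simp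
  have e3 : μ₂ - μ₁ = d * T := by rw [hT]; field_simp
  have e4r : w₁ - w₂ = d * W := by rw [hW]; field_simp
  have e4 : (w₁ : ℂ) - w₂ = d * W := by exact_mod_cast congrArg (fun x : ℝ => (x : ℂ)) e4r
  have e5r : al l w₁ - al l w₂ = K * (w₂ - w₁) := by
    rw [hK]
    unfold al
    rw [div_sub_div _ _ h₁ h₂, div_mul_eq_mul_div]
    congr 1
    ring
  have e5 : ((al l w₁ : ℝ) : ℂ) - ((al l w₂ : ℝ) : ℂ) = K * ((w₂ : ℂ) - w₁) := by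
    exact_mod_cast congrArg (fun x : ℝ => (x : ℂ)) e5r
  have e6 : conj y₂ - conj y₁ = d * conj Y := by
    rw [← map_sub, e2, map_mul, Complex.conj_ofReal]
  rw [div_eq_iff hdC]
  unfold BB
  linear_combination (x₁ * ((l : ℂ) * μ₁ * y₁ + (l : ℂ) ^ 2 * (w₁ : ℂ) * conj y₁)) * e5 -
    (x₁ * ((l : ℂ) * μ₁ * y₁ + (l : ℂ) ^ 2 * (w₁ : ℂ) * conj y₁) * (K : ℂ)) * e4 -
    (((al l w₂ : ℝ) : ℂ) * ((l : ℂ) * μ₁ * y₁ + (l : ℂ) ^ 2 * (w₁ : ℂ) * conj y₁)) * e1 +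
    ((al l w₂ : ℝ) : ℂ) * x₂ * (-((l : ℂ) * y₁) * e3 - (l : ℂ) * μ₂ * e2 + (l : ℂ) ^ 2 * conj y₁ * e4 -
      (l : ℂ) ^ 2 * (w₂ : ℂ) * e6)

/-- the term of order one -/
private theorem first {l d : ℕ → ℝ} {μ₁ μ₂ x₁ x₂ y₁ y₂ : ℕ → ℂ} {l₀ : ℝ} {β x y ξ η : ℂ}
    (hd : ∀ j, 0 < d j) (hl : ∀ j, |l j| ≤ 1) (hl₀ : Tendsto l atTop (𝓝 l₀))
    (h1 : ∀ j, ‖μ₁ j‖ ≤ 1 / 100) (h2 : ∀ j, ‖μ₂ j‖ ≤ 1 / 100)
    (hμ₁ : Tendsto μ₁ atTop (𝓝 0)) (hμ₂ : Tendsto μ₂ atTop (𝓝 0))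
    (hβ : Tendsto (fun j => (μ₂ j - μ₁ j) / (d j : ℂ)) atTop (𝓝 β))
    (hx₁ : Tendsto x₁ atTop (𝓝 x)) (hx₂ : Tendsto x₂ atTop (𝓝 x)) (hy₁ : Tendsto y₁ atTop (𝓝 y))
    (hξ : Tendsto (fun j => (x₂ j - x₁ j) / (d j : ℂ)) atTop (𝓝 ξ))
    (hη : Tendsto (fun j => (y₂ j - y₁ j) / (d j : ℂ)) atTop (𝓝 η)) :
    Tendsto (fun j => (rt (l j) (μ₁ j) (x₁ j) (y₁ j) 1 - rt (l j) (μ₂ j) (x₂ j) (y₂ j) 1) / (d j : ℂ)) atTop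
      (𝓝 (-(l₀ * β * x * y))) := by
  have hlC : Tendsto (fun j => (l j : ℂ)) atTop (𝓝 (l₀ : ℂ)) := (Complex.continuous_ofReal.tendsto _).comp hl₀
  have hw₁ : Tendsto (fun j => ‖μ₁ j‖ ^ 2) atTop (𝓝 0) := by
    have := hμ₁.norm.pow 2
    simpa using this
  have hw₂ : Tendsto (fun j => ‖μ₂ j‖ ^ 2) atTop (𝓝 0) := by
    have := hμ₂.norm.pow 2
    simpa using this
  have hw₁C : Tendsto (fun j => ((‖μ₁ j‖ ^ 2 : ℝ) : ℂ)) atTop (𝓝 0) := by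
    have := (Complex.continuous_ofReal.tendsto _).comp hw₁
    rw [Complex.ofReal_zero] at this
    exact this
  have hw₂C : Tendsto (fun j => ((‖μ₂ j‖ ^ 2 : ℝ) : ℂ)) atTop (𝓝 0) := by
    have := (Complex.continuous_ofReal.tendsto _).comp hw₂
    rw [Complex.ofReal_zero] at this
    exact this
  have hW : Tendsto (fun j => (‖μ₁ j‖ ^ 2 - ‖μ₂ j‖ ^ 2) / d j) atTop (𝓝 0) := by
    have hb : Tendsto (fun j => (‖μ₁ j‖ + ‖μ₂ j‖) * ‖(μ₂ j - μ₁ j) / (d j : ℂ)‖) atTop (𝓝 0) := by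
      have := (hμ₁.norm.add hμ₂.norm).mul hβ.norm
      simpa using this
    refine squeeze_zero_norm (fun j => ?_) hb
    have hdj := hd j
    have e : (‖μ₁ j‖ ^ 2 - ‖μ₂ j‖ ^ 2) / d j = (‖μ₁ j‖ + ‖μ₂ j‖) * ((‖μ₁ j‖ - ‖μ₂ j‖) / d j) := by ring
    rw [e, norm_mul, norm_div, norm_div, Real.norm_eq_abs, Real.norm_eq_abs, Real.norm_eq_abs, Complex.norm_real,
      Real.norm_eq_abs, abs_of_nonneg (add_nonneg (norm_nonneg (μ₁ j)) (norm_nonneg (μ₂ j)))]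
    have h3 : |‖μ₁ j‖ - ‖μ₂ j‖| ≤ ‖μ₂ j - μ₁ j‖ := by
      rw [norm_sub_rev]
      exact abs_norm_sub_norm_le _ _
    gcongr
  have hWC : Tendsto (fun j => (((‖μ₁ j‖ ^ 2 - ‖μ₂ j‖ ^ 2) / d j : ℝ) : ℂ)) atTop (𝓝 0) := by
    have := (Complex.continuous_ofReal.tendsto _).comp hW
    rw [Complex.ofReal_zero] at this
    exact this
  have hq₁ : Tendsto (fun j => 1 - l j ^ 2 * ‖μ₁ j‖ ^ 2) atTop (𝓝 1) := by
    have := (hl₀.pow 2).mul hw₁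
    have := (tendsto_const_nhds (x := (1 : ℝ)) (f := (atTop : Filter ℕ))).sub this
    simpa using this
  have hq₂ : Tendsto (fun j => 1 - l j ^ 2 * ‖μ₂ j‖ ^ 2) atTop (𝓝 1) := by
    have := (hl₀.pow 2).mul hw₂
    have := (tendsto_const_nhds (x := (1 : ℝ)) (f := (atTop : Filter ℕ))).sub this
    simpa using this
  have hal₂ : Tendsto (fun j => ((al (l j) (‖μ₂ j‖ ^ 2) : ℝ) : ℂ)) atTop (𝓝 1) := by
    have h3 : Tendsto (fun j => al (l j) (‖μ₂ j‖ ^ 2)) atTop (𝓝 1) := by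
      have h4 := (tendsto_const_nhds (x := (1 : ℝ)) (f := (atTop : Filter ℕ))).sub hw₂
      have h5 := h4.div hq₂ one_ne_zero
      rw [sub_zero, div_one] at h5
      exact h5
    have := (Complex.continuous_ofReal.tendsto _).comp h3
    rw [Complex.ofReal_one] at this
    exact this
  have hK : Tendsto (fun j => (((1 - l j ^ 2) / ((1 - l j ^ 2 * ‖μ₁ j‖ ^ 2) * (1 - l j ^ 2 * ‖μ₂ j‖ ^ 2)) : ℝ) : ℂ)) atTop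
      (𝓝 ((1 - l₀ ^ 2 : ℝ) : ℂ)) := by
    have h4 := (tendsto_const_nhds (x := (1 : ℝ)) (f := (atTop : Filter ℕ))).sub (hl₀.pow 2)
    have h5 := h4.div (hq₁.mul hq₂) (by norm_num)
    rw [one_mul, div_one] at h5
    exact (Complex.continuous_ofReal.tendsto _).comp h5
  have hy₁c : Tendsto (fun j => conj (y₁ j)) atTop (𝓝 (conj y)) := (Complex.continuous_conj.tendsto _).comp hy₁
  have hηc : Tendsto (fun j => conj ((y₂ j - y₁ j) / (d j : ℂ))) atTop (𝓝 (conj η)) :=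
    (Complex.continuous_conj.tendsto _).comp hη
  have hB₁ : Tendsto (fun j => BB (l j) (‖μ₁ j‖ ^ 2) (μ₁ j) (y₁ j)) atTop (𝓝 0) := by
    have := ((hlC.mul hμ₁).mul hy₁).add (((hlC.pow 2).mul hw₁C).mul hy₁c)
    rw [mul_zero, zero_mul, mul_zero, zero_mul, add_zero] at this
    exact this
  have hlim := (((hK.mul hWC.neg).mul hx₁).mul hB₁).add ((hal₂.mul hξ.neg).mul hB₁) |>.add
    ((hal₂.mul hx₂).mul ((((((hlC.mul hβ).mul hy₁).neg).sub ((hlC.mul hμ₂).mul hη)).add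
      (((hlC.pow 2).mul hWC).mul hy₁c)).sub (((hlC.pow 2).mul hw₂C).mul hηc)))
  refine Tendsto.congr' (f₁ := _) ?_ (Tendsto.mono_right hlim (le_of_eq ?_))
  · filter_upwards with j
    have hl2 := lsq (hl j)
    have hw₁1 : ‖μ₁ j‖ ^ 2 ≤ 1 / 100 := by
      have := w_le (h1 j) (n := 1) le_rfl
      simpa using this
    have hw₂1 : ‖μ₂ j‖ ^ 2 ≤ 1 / 100 := by
      have := w_le (h2 j) (n := 1) le_rfl
      simpa using this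
    have hw₁0 : 0 ≤ ‖μ₁ j‖ ^ 2 := by positivity
    have hw₂0 : 0 ≤ ‖μ₂ j‖ ^ 2 := by positivity
    have hn₁ : 1 - l j ^ 2 * ‖μ₁ j‖ ^ 2 ≠ 0 := by nlinarith [sq_nonneg (l j)]
    have hn₂ : 1 - l j ^ 2 * ‖μ₂ j‖ ^ 2 ≠ 0 := by nlinarith [sq_nonneg (l j)]
    rw [rt_eq (l j) (μ₁ j) (x₁ j) (y₁ j) 1 le_rfl hl2 (h1 j), rt_eq (l j) (μ₂ j) (x₂ j) (y₂ j) 1 le_rfl hl2 (h2 j)]
    simp only [mul_one, pow_one, Nat.cast_one, div_one]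
    rw [alg (l j) (‖μ₁ j‖ ^ 2) (‖μ₂ j‖ ^ 2) (d j) (hd j).ne' hn₁ hn₂]
  · congr 1
    simp only [neg_zero, mul_zero, zero_mul, add_zero, sub_zero, zero_add]
    ring

theorem RRlim {S : Sq} {a : ℝ} {γ β : ℂ} (hS : Lim S a γ β) {A m : ℕ → ℂ → ℂ} {A₀ m₀ : ℂ → ℂ} (hA : LB S A A₀) (hm : LB S m m₀)
    {l : ℕ → ℝ} {l₀ : ℝ} (hl : ∀ j, |l j| ≤ 1) (hl₀ : Tendsto l atTop (𝓝 l₀)) :
    Tendsto (fun j => (S.R₁ l A m j - S.R₂ l A m j) / (S.d j : ℂ)) atTop (𝓝 (-(π * l₀ * β * A₀ 0 * m₀ 0))) := by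
  obtain ⟨C, hC⟩ := tail hS hA hm hl
  have hA1 := fcL hS hA 0
  have hm1 := fcL hS hm 0
  have hA2 := fcD hS hA 0
  have hm2 := fcD hS hm 0
  rw [co_zero hA.hol0] at hA1
  rw [co_zero hm.hol0] at hm1
  have h1 := first hS.pos hl hl₀ hS.m1 hS.m2 hS.lm1 hS.lm2 hS.lb hA1.1 hA1.2 hm1.1 hA2 hm2
  have h2 : Tendsto (fun j => ((S.R₁ l A m j - S.R₂ l A m j) - π * (rt (l j) (S.μ₁ j) (fc 0 1 (S.μ₁ j) (A j) (1 / 2) 1)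
      (fc 0 1 (S.μ₁ j) (m j) (1 / 2) 1) 1 - rt (l j) (S.μ₂ j) (fc (S.c₂ j) (S.r₂ j) (S.μ₂ j) (A j) (1 / 2) 1)
      (fc (S.c₂ j) (S.r₂ j) (S.μ₂ j) (m j) (1 / 2) 1) 1)) / (S.d j : ℂ)) atTop (𝓝 0) := by
    have hb : Tendsto (fun j => C * (‖S.μ₁ j‖ + ‖S.μ₂ j‖)) atTop (𝓝 0) := by
      have := (hS.lm1.norm.add hS.lm2.norm).const_mul C
      simpa using this
    refine squeeze_zero_norm' ?_ hb
    filter_upwards [hC] with j hj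
    have hd := hS.pos j
    rw [norm_div, Complex.norm_real, Real.norm_of_nonneg hd.le, div_le_iff₀ hd]
    exact hj
  have h3 := (h1.const_mul (π : ℂ)).add h2
  refine Tendsto.congr (fun j => ?_) (Tendsto.mono_right h3 (le_of_eq ?_))
  · have hd : (S.d j : ℂ) ≠ 0 := by exact_mod_cast (hS.pos j).ne'
    field_simp
    ring
  · congr 1
    ring

/-- uniform bound of the error form -/
theorem RRn : ∃ C : ℝ, 0 < C ∧ ∀ (c : ℂ) (r : ℝ) (μ : ℂ), 0 < r → ‖μ‖ ≤ 1 / 100 → ∀ l : ℝ, |l| ≤ 1 →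
    ∀ (A M : ℂ → ℂ) (SA SM : ℝ), (∀ z ∈ Dp c r μ (3 / 5), ‖A z‖ ≤ SA) → (∀ z ∈ Dp c r μ (3 / 5), ‖M z‖ ≤ SM) →
    ‖RR c r μ l A M (1 / 2)‖ ≤ C * ‖μ‖ * r ^ 2 * SA * SM := by
  refine ⟨π * 100, by positivity, ?_⟩
  intro c r μ hr hμ l hl A M SA SM hA hM
  have hcr : ∀ t : ℝ, c + r * (fbw (1 / 2) t + μ * (fbw (1 / 2) t)⁻¹) ∈ Dp c r μ (3 / 5) := by
    intro t
    show ‖vv c r μ _‖ < 3 / 5
    refine (crv (μ₀ := 1 / 100) (ρ := 1 / 2) (by norm_num) (by norm_num) (by norm_num) (by norm_num) hr hμ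
      (fbw_norm (by norm_num) t)).trans_lt ?_
    norm_num
  have hg : ∀ t : ℝ, ‖(r : ℂ) * (fbw (1 / 2) t - μ * (fbw (1 / 2) t)⁻¹)‖ ≤ r * (5 / 2) := by
    intro t
    refine (fb_g (R := r) (ρ := 1 / 2) (μ₀ := 1 / 100) hr.le le_rfl (by norm_num) (by norm_num) hμ t).trans ?_
    apply mul_le_mul_of_nonneg_left _ hr.le
    norm_num
  have key : ∀ (F : ℂ → ℂ) (SF : ℝ), (∀ z ∈ Dp c r μ (3 / 5), ‖F z‖ ≤ SF) → ∀ n : ℕ,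
      ‖fc c r μ F (1 / 2) n‖ ≤ (r * (5 / 2) * SF) * 2 ^ n := by
    intro F SF hF n
    have h := fb_bd (c := c) (r := r) (μ := μ) (F := F) (ρ := 1 / 2) (A := r * (5 / 2)) (S := SF) (by norm_num)
      (by positivity) n hg (fun t => hF _ (hcr t))
    have e : ((1 / 2 : ℝ)⁻¹) = 2 := by norm_num
    rwa [e] at h
  obtain ⟨-, hb⟩ := rt_sum hl hμ (fc c r μ A (1 / 2)) (fc c r μ M (1 / 2)) (key A SA hA) (key M SM hM)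
  unfold RR
  rw [norm_mul, Complex.norm_real, Real.norm_of_nonneg Real.pi_pos.le]
  calc π * ‖∑' n : ℕ, rt l μ (fc c r μ A (1 / 2) (n + 1)) (fc c r μ M (1 / 2) (n + 1)) (n + 1)‖
      ≤ π * ((8 * (r * (5 / 2) * SA) * (r * (5 / 2) * SM) * ‖μ‖) * 2) :=
        mul_le_mul_of_nonneg_left hb Real.pi_pos.le
    _ = π * 100 * ‖μ‖ * r ^ 2 * SA * SM := by ring

end ND1
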