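import Pool.Agent.H1.ND.Nc
import Pool.Agent.H1.ND.Nd
import Pool.Agent.H1.ND.Ng
import Pool.Agent.H1.EW.Gn

/-!
ROW ND/Nh. The first test. `W`, `w₀` from `Wseq`, `τ` real, `A_j = m_j (W_j + iτ)` (`LB`, limit `m₀ (w₀ + iτ)`; `E₁ σ, E₂ σ` are in `‖z‖ ≤ 2`). `Sol.idn` for `A_j`, real part: `∫_{E₁}|m|² Re W - ∫_{E₂}|m|² Re W = -Re (R₁ - R₂)` (the `iτ` part is imaginary; all functions are continuous on the closed ellipses: integrable). The left side is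
`∫_{E₁\E₂} |m|² Re W - ∫_{E₂\E₁} |m|² Re W`, `UU > 0` on `E₁ \ E₂`, `< 0` on `E₂ \ E₁` (`QQ_neg_iff`), and `|QQ 0 1 μ₁| ≤ |UU|` on both sets (the signs of `QQ₁`, `QQ₂` are opposite), so by the last claim of `Wseq` it is `(1/d) ∫_EE |UU| |m|² ‖g v‖² + O(C ∫_EE |UU| |m|²)`, and `∫_EE |UU| |m|² = NN = d²` (`Sol.nn`).
Divide by `d`: `(1/d²) ∫_EE |UU| |m|² ‖g v‖² + O(C d) = -Re (R₁ - R₂)/d → Re (π l₀ β (m₀ 0 (w₀ 0 + iτ)) m₀ 0)` (`RRlim`) `= -l₀ Re (β m₀(0)²) hint - π l₀ τ Im (β m₀(0)²)`. The left side does not depend on `τ`: `l₀ Im (β m₀(0)²) = 0` (take `τ = 0, 1`, `g = 1`).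
-/

set_option autoImplicit false

namespace ND1

open Complex Set Filter Topology MeasureTheory EW1 EX1
open scoped ComplexConjugate ContDiff Real

private theorem nh_r2 {S : Sq} {a : ℝ} {γ β : ℂ} (hS : Lim S a γ β) (j : ℕ) :
    0 < S.r₂ j ∧ S.r₂ j ≤ 101 / 100 ∧ ‖S.c₂ j‖ ≤ 1 / 100 := by
  have h := hS.small j
  unfold Sq.d dd at h
  rw [zero_sub, norm_neg] at h
  have h1 := norm_nonneg (S.c₂ j)
  have h2 := abs_nonneg (1 - S.r₂ j)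
  have h3 := norm_nonneg (S.μ₁ j - S.μ₂ j)
  have h4 : |1 - S.r₂ j| ≤ 1 / 100 := by linarith
  obtain ⟨h5, h6⟩ := abs_le.1 h4
  exact ⟨by linarith, by linarith, by linarith⟩

private theorem nh_norm {c : ℂ} {r : ℝ} (hr : 0 < r) (hr1 : r ≤ 101 / 100) (hc : ‖c‖ ≤ 1 / 100) {μ : ℂ}
    (hμ : ‖μ‖ ≤ 1 / 100) {z : ℂ} (hz : ‖vv c r μ z‖ ≤ 1) : ‖z‖ ≤ 2 := by
  have hμ1 : ‖μ‖ < 1 := by linarith
  rw [← zz_vv (c := c) hr hμ1 z]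
  generalize vv c r μ z = v at hz
  unfold zz
  have h1 : ‖v + μ * conj v‖ ≤ 101 / 100 := by
    refine (norm_add_le _ _).trans ?_
    rw [norm_mul, Complex.norm_conj]
    have := norm_nonneg v
    have := norm_nonneg μ
    nlinarith
  refine (norm_add_le _ _).trans ?_
  rw [norm_mul, Complex.norm_real, Real.norm_of_nonneg hr.le]
  have := norm_nonneg (v + μ * conj v)
  nlinarith

private theorem nh_EE {S : Sq} {a : ℝ} {γ β : ℂ} (hS : Lim S a γ β) (j : ℕ) :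
    (∀ z ∈ S.E₁ 1 j \ S.E₂ 1 j, 0 ≤ S.UU j z ∧ |QQ 0 1 (S.μ₁ j) z| ≤ S.UU j z) ∧
    (∀ z ∈ S.E₂ 1 j \ S.E₁ 1 j, S.UU j z ≤ 0 ∧ |QQ 0 1 (S.μ₁ j) z| ≤ -S.UU j z) := by
  obtain ⟨hr, -, -⟩ := nh_r2 hS j
  have h1 : ‖S.μ₁ j‖ < 1 := (hS.m1 j).trans_lt (by norm_num)
  have h2 : ‖S.μ₂ j‖ < 1 := (hS.m2 j).trans_lt (by norm_num)
  refine ⟨fun z hz => ?_, fun z hz => ?_⟩
  · have e1 : QQ 0 1 (S.μ₁ j) z < 0 := (QQ_neg_iff one_pos h1 z).2 hz.1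
    have e2 : 0 ≤ QQ (S.c₂ j) (S.r₂ j) (S.μ₂ j) z := by
      by_contra hcon
      exact hz.2 ((QQ_neg_iff hr h2 z).1 (not_le.1 hcon))
    unfold Sq.UU
    rw [abs_of_neg e1]
    exact ⟨by linarith, by linarith⟩
  · have e1 : QQ (S.c₂ j) (S.r₂ j) (S.μ₂ j) z < 0 := (QQ_neg_iff hr h2 z).2 hz.1
    have e2 : 0 ≤ QQ 0 1 (S.μ₁ j) z := by
      by_contra hcon
      exact hz.2 ((QQ_neg_iff one_pos h1 z).1 (not_le.1 hcon))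
    unfold Sq.UU
    rw [abs_of_nonneg e2]
    exact ⟨by linarith, by linarith⟩

private theorem nh_int {S : Sq} {a : ℝ} {γ β : ℂ} (hS : Lim S a γ β) (j : ℕ) {N : Set ℂ} (h1 : S.K₁ j ⊆ N) (h2 : S.K₂ j ⊆ N)
    {E : Type*} [NormedAddCommGroup E] {f : ℂ → E} (hf : ContinuousOn f N) :
    IntegrableOn f (S.E₁ 1 j) ∧ IntegrableOn f (S.E₂ 1 j) := by
  obtain ⟨hr, -, -⟩ := nh_r2 hS j
  have g1 : ‖S.μ₁ j‖ < 1 := (hS.m1 j).trans_lt (by norm_num)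
  have g2 : ‖S.μ₂ j‖ < 1 := (hS.m2 j).trans_lt (by norm_num)
  refine ⟨?_, ?_⟩
  · have e1 : IntegrableOn f (S.K₁ j) := (hf.mono h1).integrableOn_compact (cDp_compact one_pos g1 1)
    refine e1.mono_set (fun z hz => ?_)
    have h3 : ‖vv 0 1 (S.μ₁ j) z‖ < 1 := hz
    exact h3.le
  · have e1 : IntegrableOn f (S.K₂ j) := (hf.mono h2).integrableOn_compact (cDp_compact hr g2 1)
    refine e1.mono_set (fun z hz => ?_)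
    have h3 : ‖vv (S.c₂ j) (S.r₂ j) (S.μ₂ j) z‖ < 1 := hz
    exact h3.le

private theorem nh_diff {D₁ D₂ : Set ℂ} (hM1 : MeasurableSet D₁) (hM2 : MeasurableSet D₂) {f : ℂ → ℝ}
    (h1 : IntegrableOn f D₁) (h2 : IntegrableOn f D₂) :
    (∫ z in D₁, f z) - ∫ z in D₂, f z = (∫ z in D₁ \ D₂, f z) - ∫ z in D₂ \ D₁, f z := by
  have e1 := integral_inter_add_sdiff hM2 h1
  have e2 := integral_inter_add_sdiff hM1 h2
  rw [Set.inter_comm] at e2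
  linarith

private theorem nh_un {D₁ D₂ : Set ℂ} (hM1 : MeasurableSet D₁) (hM2 : MeasurableSet D₂) {f : ℂ → ℝ}
    (h1 : IntegrableOn f D₁) (h2 : IntegrableOn f D₂) :
    ∫ z in (D₁ \ D₂) ∪ (D₂ \ D₁), f z = (∫ z in D₁ \ D₂, f z) + ∫ z in D₂ \ D₁, f z := by
  refine setIntegral_union ?_ (hM2.diff hM1) (h1.mono_set Set.sdiff_subset) (h2.mono_set Set.sdiff_subset)
  exact Set.disjoint_left.2 fun z hz hz' => hz.2 hz'.1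

private theorem nh_UUc (S : Sq) (j : ℕ) : Continuous (fun z => S.UU j z) := by
  unfold Sq.UU
  exact (QQ_contDiff _ _ _).continuous.sub (QQ_contDiff _ _ _).continuous

private theorem nh_main {S : Sq} {a : ℝ} {γ β : ℂ} (hS : Lim S a γ β) {l : ℕ → ℝ} {N : ℕ → Set ℂ} {m : ℕ → ℂ → ℂ}
    (hs : Sol S l N m) {C : ℝ} (hC : 0 < C) (j : ℕ) {W : ℂ → ℂ} (hW : Differentiable ℂ W) {g : Polynomial ℂ}
    (hb : ∀ z, ‖z‖ ≤ 2 → |(W z).re - S.UU j z * ‖g.eval (vv 0 1 (S.μ₁ j) z)‖ ^ 2 / S.d j| ≤ C * |QQ 0 1 (S.μ₁ j) z|) :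
    |((∫ z in S.E₁ 1 j, ‖m j z‖ ^ 2 * (W z).re) - ∫ z in S.E₂ 1 j, ‖m j z‖ ^ 2 * (W z).re) -
      (∫ z in S.EE j, |S.UU j z| * ‖m j z‖ ^ 2 * ‖g.eval (vv 0 1 (S.μ₁ j) z)‖ ^ 2) / S.d j| ≤ C * S.d j ^ 2 := by
  obtain ⟨hr, hr1, hc⟩ := nh_r2 hS j
  have hd := hS.pos j
  have hmc : ContinuousOn (m j) (N j) := (hs.hol j).continuousOn
  have hM1 : MeasurableSet (S.E₁ 1 j) := (Dp_open _ _ _ 1).measurableSet
  have hM2 : MeasurableSet (S.E₂ 1 j) := (Dp_open _ _ _ 1).measurableSet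
  have hUc := nh_UUc S j
  have hvc : Continuous (fun z => ‖g.eval (vv 0 1 (S.μ₁ j) z)‖ ^ 2) :=
    ((g.continuous.comp (vv_cont 0 1 (S.μ₁ j))).norm).pow 2
  have hm2 : ContinuousOn (fun z => ‖m j z‖ ^ 2) (N j) := hmc.norm.pow 2
  have hf1 : ContinuousOn (fun z => ‖m j z‖ ^ 2 * (W z).re) (N j) :=
    hm2.mul (Complex.continuous_re.comp hW.continuous).continuousOn
  have hf2 : ContinuousOn (fun z => |S.UU j z| * ‖m j z‖ ^ 2 * ‖g.eval (vv 0 1 (S.μ₁ j) z)‖ ^ 2) (N j) :=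
    (hUc.abs.continuousOn.mul hm2).mul hvc.continuousOn
  have hf3 : ContinuousOn (fun z => |S.UU j z| * ‖m j z‖ ^ 2) (N j) := hUc.abs.continuousOn.mul hm2
  obtain ⟨i1, i2⟩ := nh_int hS j (hs.sub₁ j) (hs.sub₂ j) hf1
  obtain ⟨k1, k2⟩ := nh_int hS j (hs.sub₁ j) (hs.sub₂ j) hf2
  obtain ⟨n1, n2⟩ := nh_int hS j (hs.sub₁ j) (hs.sub₂ j) hf3
  have i1' := i1.mono_set (Set.sdiff_subset (t := S.E₂ 1 j))
  have i2' := i2.mono_set (Set.sdiff_subset (t := S.E₁ 1 j))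
  have k1' := k1.mono_set (Set.sdiff_subset (t := S.E₂ 1 j))
  have k2' := k2.mono_set (Set.sdiff_subset (t := S.E₁ 1 j))
  have n1' := n1.mono_set (Set.sdiff_subset (t := S.E₂ 1 j))
  have n2' := n2.mono_set (Set.sdiff_subset (t := S.E₁ 1 j))
  have hNN : (∫ z in S.E₁ 1 j \ S.E₂ 1 j, |S.UU j z| * ‖m j z‖ ^ 2) +
      (∫ z in S.E₂ 1 j \ S.E₁ 1 j, |S.UU j z| * ‖m j z‖ ^ 2) = S.d j ^ 2 := by
    rw [← hs.nn j, ← nh_un hM1 hM2 n1 n2]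
    rfl
  have hEE : ∫ z in S.EE j, |S.UU j z| * ‖m j z‖ ^ 2 * ‖g.eval (vv 0 1 (S.μ₁ j) z)‖ ^ 2 =
      (∫ z in S.E₁ 1 j \ S.E₂ 1 j, |S.UU j z| * ‖m j z‖ ^ 2 * ‖g.eval (vv 0 1 (S.μ₁ j) z)‖ ^ 2) +
      ∫ z in S.E₂ 1 j \ S.E₁ 1 j, |S.UU j z| * ‖m j z‖ ^ 2 * ‖g.eval (vv 0 1 (S.μ₁ j) z)‖ ^ 2 :=
    nh_un hM1 hM2 k1 k2
  obtain ⟨s1, s2⟩ := nh_EE hS j
  have key : ∀ z : ℂ, ‖z‖ ≤ 2 → |QQ 0 1 (S.μ₁ j) z| ≤ |S.UU j z| →
      |‖m j z‖ ^ 2 * ((W z).re - S.UU j z * ‖g.eval (vv 0 1 (S.μ₁ j) z)‖ ^ 2 / S.d j)| ≤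
        C * (|S.UU j z| * ‖m j z‖ ^ 2) := by
    intro z hz2 hq
    rw [abs_mul, abs_of_nonneg (by positivity : (0 : ℝ) ≤ ‖m j z‖ ^ 2)]
    have e1 := (hb z hz2).trans (mul_le_mul_of_nonneg_left hq hC.le)
    calc ‖m j z‖ ^ 2 * |(W z).re - S.UU j z * ‖g.eval (vv 0 1 (S.μ₁ j) z)‖ ^ 2 / S.d j| ≤
        ‖m j z‖ ^ 2 * (C * |S.UU j z|) := mul_le_mul_of_nonneg_left e1 (by positivity)
      _ = C * (|S.UU j z| * ‖m j z‖ ^ 2) := by ring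
  have b1 : |(∫ z in S.E₁ 1 j \ S.E₂ 1 j, ‖m j z‖ ^ 2 * (W z).re) -
      (∫ z in S.E₁ 1 j \ S.E₂ 1 j, |S.UU j z| * ‖m j z‖ ^ 2 * ‖g.eval (vv 0 1 (S.μ₁ j) z)‖ ^ 2) / S.d j| ≤
      C * ∫ z in S.E₁ 1 j \ S.E₂ 1 j, |S.UU j z| * ‖m j z‖ ^ 2 := by
    rw [← integral_div, ← integral_sub i1' (k1'.div_const _), ← integral_const_mul, ← Real.norm_eq_abs]
    refine norm_integral_le_of_norm_le (n1'.const_mul C) ?_
    refine (ae_restrict_iff' (hM1.diff hM2)).2 (Filter.Eventually.of_forall fun z hz => ?_)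
    obtain ⟨t1, t2⟩ := s1 z hz
    have hz2 : ‖z‖ ≤ 2 := nh_norm (c := 0) one_pos (by norm_num) (by norm_num) (hS.m1 j)
      (show ‖vv 0 1 (S.μ₁ j) z‖ ≤ 1 from (show ‖vv 0 1 (S.μ₁ j) z‖ < 1 from hz.1).le)
    have t3 := key z hz2 (by rw [abs_of_nonneg t1]; exact t2)
    rw [Real.norm_eq_abs]
    refine le_of_eq_of_le ?_ t3
    congr 1
    rw [abs_of_nonneg t1]
    ring
  have b2 : |(∫ z in S.E₂ 1 j \ S.E₁ 1 j, ‖m j z‖ ^ 2 * (W z).re) +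
      (∫ z in S.E₂ 1 j \ S.E₁ 1 j, |S.UU j z| * ‖m j z‖ ^ 2 * ‖g.eval (vv 0 1 (S.μ₁ j) z)‖ ^ 2) / S.d j| ≤
      C * ∫ z in S.E₂ 1 j \ S.E₁ 1 j, |S.UU j z| * ‖m j z‖ ^ 2 := by
    rw [← integral_div, ← integral_add i2' (k2'.div_const _), ← integral_const_mul, ← Real.norm_eq_abs]
    refine norm_integral_le_of_norm_le (n2'.const_mul C) ?_
    refine (ae_restrict_iff' (hM2.diff hM1)).2 (Filter.Eventually.of_forall fun z hz => ?_)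
    obtain ⟨t1, t2⟩ := s2 z hz
    have hz2 : ‖z‖ ≤ 2 := nh_norm hr hr1 hc (hS.m2 j)
      (show ‖vv (S.c₂ j) (S.r₂ j) (S.μ₂ j) z‖ ≤ 1 from (show ‖vv (S.c₂ j) (S.r₂ j) (S.μ₂ j) z‖ < 1 from hz.1).le)
    have t3 := key z hz2 (by rw [abs_of_nonpos t1]; exact t2)
    rw [Real.norm_eq_abs]
    refine le_of_eq_of_le ?_ t3
    congr 1
    rw [abs_of_nonpos t1]
    ring
  rw [nh_diff hM1 hM2 i1 i2, hEE]
  generalize (∫ z in S.E₁ 1 j \ S.E₂ 1 j, ‖m j z‖ ^ 2 * (W z).re) = X₁ at b1 ⊢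
  generalize (∫ z in S.E₂ 1 j \ S.E₁ 1 j, ‖m j z‖ ^ 2 * (W z).re) = X₂ at b2 ⊢
  generalize (∫ z in S.E₁ 1 j \ S.E₂ 1 j, |S.UU j z| * ‖m j z‖ ^ 2 * ‖g.eval (vv 0 1 (S.μ₁ j) z)‖ ^ 2) = Y₁ at b1 ⊢
  generalize (∫ z in S.E₂ 1 j \ S.E₁ 1 j, |S.UU j z| * ‖m j z‖ ^ 2 * ‖g.eval (vv 0 1 (S.μ₁ j) z)‖ ^ 2) = Y₂ at b2 ⊢
  have e : X₁ - X₂ - (Y₁ + Y₂) / S.d j = (X₁ - Y₁ / S.d j) - (X₂ + Y₂ / S.d j) := by ring
  rw [e, ← hNN, mul_add]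
  exact (abs_sub _ _).trans (add_le_add b1 b2)

private theorem nh_re {S : Sq} {a : ℝ} {γ β : ℂ} (hS : Lim S a γ β) {l : ℕ → ℝ} {N : ℕ → Set ℂ} {m : ℕ → ℂ → ℂ}
    (hs : Sol S l N m) (j : ℕ) {W : ℕ → ℂ → ℂ} (hW : ∀ j, Differentiable ℂ (W j)) (τ : ℝ) :
    (∫ z in S.E₁ 1 j, ‖m j z‖ ^ 2 * (W j z).re) - ∫ z in S.E₂ 1 j, ‖m j z‖ ^ 2 * (W j z).re =
      -(S.R₁ l (fun j z => m j z * (W j z + τ * I)) m j - S.R₂ l (fun j z => m j z * (W j z + τ * I)) m j).re := by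
  have hA : DifferentiableOn ℂ (fun z => m j z * (W j z + τ * I)) (N j) :=
    (hs.hol j).mul ((hW j).add_const _).differentiableOn
  have hid := hs.idn j _ hA
  unfold Idn at hid
  have hmc : ContinuousOn (m j) (N j) := (hs.hol j).continuousOn
  have hf : ContinuousOn (fun z => conj (m j z) * (m j z * (W j z + τ * I))) (N j) :=
    (Complex.continuous_conj.comp_continuousOn hmc).mul hA.continuousOn
  obtain ⟨i1, i2⟩ := nh_int hS j (hs.sub₁ j) (hs.sub₂ j) hf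
  have hpt : ∀ z, (conj (m j z) * (m j z * (W j z + τ * I))).re = ‖m j z‖ ^ 2 * (W j z).re := by
    intro z
    have e : conj (m j z) * (m j z * (W j z + τ * I)) = ((‖m j z‖ ^ 2 : ℝ) : ℂ) * (W j z + τ * I) := by
      rw [← Complex.normSq_eq_norm_sq, ← Complex.mul_conj]
      ring
    rw [e, Complex.re_ofReal_mul]
    congr 1
    simp
  have hr1 : ∫ z in S.E₁ 1 j, ‖m j z‖ ^ 2 * (W j z).re = (∫ z in S.E₁ 1 j, conj (m j z) * (m j z * (W j z + τ * I))).re := by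
    have h3 := Complex.reCLM.integral_comp_comm i1
    rw [Complex.reCLM_apply] at h3
    rw [← h3]
    refine integral_congr_ae (Filter.Eventually.of_forall fun z => ?_)
    exact (hpt z).symm
  have hr2 : ∫ z in S.E₂ 1 j, ‖m j z‖ ^ 2 * (W j z).re = (∫ z in S.E₂ 1 j, conj (m j z) * (m j z * (W j z + τ * I))).re := by
    have h3 := Complex.reCLM.integral_comp_comm i2
    rw [Complex.reCLM_apply] at h3
    rw [← h3]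
    refine integral_congr_ae (Filter.Eventually.of_forall fun z => ?_)
    exact (hpt z).symm
  have hre := congrArg Complex.re hid
  rw [Complex.add_re, Complex.add_re] at hre
  rw [hr1, hr2, Complex.sub_re]
  unfold Sq.R₁ Sq.R₂ Sq.E₁ Sq.E₂
  linarith

private theorem nh_LB {S : Sq} {a : ℝ} {γ β : ℂ} (hS : Lim S a γ β) {W : ℕ → ℂ → ℂ} {w₀ : ℂ → ℂ} {C : ℝ}
    (hW : ∀ j, Differentiable ℂ (W j)) (hw : Differentiable ℂ w₀) (hb : ∀ j z, ‖z‖ ≤ 2 → ‖W j z‖ ≤ C)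
    (hl : ∀ z, ‖z‖ ≤ 2 → Tendsto (fun j => W j z) atTop (𝓝 (w₀ z))) (τ : ℝ) :
    LB S (fun j z => W j z + τ * I) (fun z => w₀ z + τ * I) where
  hol j := ⟨Set.univ, isOpen_univ, Set.subset_univ _, Set.subset_univ _, ((hW j).add_const _).differentiableOn⟩
  bd σ hσ hσ1 := by
    refine ⟨C + ‖(τ : ℂ) * I‖, fun j z hz => ?_⟩
    obtain ⟨hr, hr1, hc⟩ := nh_r2 hS j
    have hz2 : ‖z‖ ≤ 2 := by
      rcases hz with hz | hz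
      · exact nh_norm (c := 0) one_pos (by norm_num) (by norm_num) (hS.m1 j)
          ((show ‖vv 0 1 (S.μ₁ j) z‖ < σ from hz).le.trans hσ1.le)
      · exact nh_norm hr hr1 hc (hS.m2 j)
          ((show ‖vv (S.c₂ j) (S.r₂ j) (S.μ₂ j) z‖ < σ from hz).le.trans hσ1.le)
    exact (norm_add_le _ _).trans (add_le_add (hb j z hz2) le_rfl)
  hol0 := (hw.add_const _).differentiableOn
  lim z hz := by
    refine (hl z ?_).add_const _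
    rw [mem_ball_zero_iff] at hz
    linarith

theorem T1lim {S : Sq} {a : ℝ} {γ β : ℂ} (hS : Lim S a γ β) {l : ℕ → ℝ} {l₀ : ℝ} (hl : ∀ j, |l j| ≤ 1) (hl₀ : Tendsto l atTop (𝓝 l₀))
    {N : ℕ → Set ℂ} {m : ℕ → ℂ → ℂ} {m₀ : ℂ → ℂ} (hs : Sol S l N m) (hm : LB S m m₀) :
    l₀ * (β * m₀ 0 ^ 2).im = 0 ∧ ∀ g : Polynomial ℂ,
      Tendsto (fun j => (∫ z in S.EE j, |S.UU j z| * ‖m j z‖ ^ 2 * ‖g.eval (vv 0 1 (S.μ₁ j) z)‖ ^ 2) / S.d j ^ 2) atTop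
        (𝓝 (-(l₀ * (β * m₀ 0 ^ 2).re) * hint a γ β (fun z => ‖g.eval z‖ ^ 2))) := by
  have hlim : ∀ (W : ℕ → ℂ → ℂ) (w₀ : ℂ → ℂ) (C : ℝ), (∀ j, Differentiable ℂ (W j)) → Differentiable ℂ w₀ →
      (∀ j z, ‖z‖ ≤ 2 → ‖W j z‖ ≤ C) → (∀ z, ‖z‖ ≤ 2 → Tendsto (fun j => W j z) atTop (𝓝 (w₀ z))) → ∀ τ : ℝ,
      Tendsto (fun j => ((∫ z in S.E₁ 1 j, ‖m j z‖ ^ 2 * (W j z).re) - ∫ z in S.E₂ 1 j, ‖m j z‖ ^ 2 * (W j z).re) / S.d j)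
        atTop (𝓝 (π * l₀ * β * (m₀ 0 * (w₀ 0 + τ * I)) * m₀ 0).re) := by
    intro W w₀ C hW hw hb hl' τ
    have h1 := RRlim hS (hm.mul (nh_LB hS hW hw hb hl' τ)) hm hl hl₀
    have h2 := (Complex.continuous_re.tendsto _).comp h1.neg
    rw [neg_neg] at h2
    refine h2.congr fun j => ?_
    rw [nh_re hS hs j hW τ]
    show (-((S.R₁ l (fun j z => m j z * (W j z + τ * I)) m j - S.R₂ l (fun j z => m j z * (W j z + τ * I)) m j) /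
      (S.d j : ℂ))).re = _
    rw [← neg_div, Complex.div_ofReal_re, Complex.neg_re]
  have him : l₀ * (β * m₀ 0 ^ 2).im = 0 := by
    obtain ⟨W, w₀, C, -, hW, hw, hb, hl', -, -⟩ := Wseq hS (1 : Polynomial ℂ)
    have h0 := hlim W w₀ C hW hw hb hl' 0
    have h1 := hlim W w₀ C hW hw hb hl' 1
    have h2 := tendsto_nhds_unique h0 h1
    have e0 : (π * l₀ * β * (m₀ 0 * (w₀ 0 + ((0 : ℝ) : ℂ) * I)) * m₀ 0) =
        ((π * l₀ : ℝ) : ℂ) * ((β * m₀ 0 ^ 2) * w₀ 0) := by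
      push_cast
      ring
    have e1 : (π * l₀ * β * (m₀ 0 * (w₀ 0 + ((1 : ℝ) : ℂ) * I)) * m₀ 0) =
        ((π * l₀ : ℝ) : ℂ) * ((β * m₀ 0 ^ 2) * w₀ 0) + ((π * l₀ : ℝ) : ℂ) * ((β * m₀ 0 ^ 2) * I) := by
      push_cast
      ring
    rw [e0, e1, Complex.add_re, Complex.re_ofReal_mul (π * l₀) ((β * m₀ 0 ^ 2) * I), Complex.mul_I_re] at h2
    have h3 : π * (l₀ * (β * m₀ 0 ^ 2).im) = 0 := by linarith
    exact (mul_eq_zero.1 h3).resolve_left Real.pi_pos.ne'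
  refine ⟨him, fun g => ?_⟩
  obtain ⟨W, w₀, C, hC, hW, hw, hb, hl', hw0, hq⟩ := Wseq hS g
  have h0 := hlim W w₀ C hW hw hb hl' 0
  have e0 : (π * l₀ * β * (m₀ 0 * (w₀ 0 + ((0 : ℝ) : ℂ) * I)) * m₀ 0).re =
      -(l₀ * (β * m₀ 0 ^ 2).re) * hint a γ β (fun z => ‖g.eval z‖ ^ 2) := by
    rw [hw0]
    have e : (π * l₀ * β * (m₀ 0 * (((-(hint a γ β (fun z => ‖g.eval z‖ ^ 2) / π) : ℝ) : ℂ) + ((0 : ℝ) : ℂ) * I)) * m₀ 0) =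
        ((π * l₀ * (-(hint a γ β (fun z => ‖g.eval z‖ ^ 2) / π)) : ℝ) : ℂ) * (β * m₀ 0 ^ 2) := by
      push_cast
      ring
    rw [e, Complex.re_ofReal_mul]
    have := Real.pi_pos.ne'
    field_simp
  rw [e0] at h0
  have h1 : Tendsto (fun j => C * S.d j) atTop (𝓝 0) := by
    have := hS.ld.const_mul C
    rwa [mul_zero] at this
  have h2 : Tendsto (fun j => ((∫ z in S.E₁ 1 j, ‖m j z‖ ^ 2 * (W j z).re) - ∫ z in S.E₂ 1 j, ‖m j z‖ ^ 2 * (W j z).re) / S.d j -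
      (∫ z in S.EE j, |S.UU j z| * ‖m j z‖ ^ 2 * ‖g.eval (vv 0 1 (S.μ₁ j) z)‖ ^ 2) / S.d j ^ 2) atTop (𝓝 0) := by
    refine squeeze_zero_norm (fun j => ?_) h1
    have hd := hS.pos j
    have h3 := nh_main hS hs hC j (hW j) (hq j)
    rw [Real.norm_eq_abs]
    generalize ((∫ z in S.E₁ 1 j, ‖m j z‖ ^ 2 * (W j z).re) - ∫ z in S.E₂ 1 j, ‖m j z‖ ^ 2 * (W j z).re) = X at h3 ⊢
    generalize (∫ z in S.EE j, |S.UU j z| * ‖m j z‖ ^ 2 * ‖g.eval (vv 0 1 (S.μ₁ j) z)‖ ^ 2) = Y at h3 ⊢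
    have e : X / S.d j - Y / S.d j ^ 2 = (X - Y / S.d j) / S.d j := by
      field_simp
    rw [e, abs_div, abs_of_pos hd, div_le_iff₀ hd]
    calc |X - Y / S.d j| ≤ C * S.d j ^ 2 := h3
      _ = C * S.d j * S.d j := by ring
  have h3 := h0.sub h2
  rw [sub_zero] at h3
  refine h3.congr fun j => ?_
  ring

end ND1
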