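import Pool.Agent.H1.ND.Nh

/-!
ROW ND/Nj. The main inequality. Let `v = vv 0 1 (μ₁ j) z = (z - μ₁ conj z)/(1-‖μ₁‖²)` and `φ_j z = v⁴ conj(Q v)² ‖s v‖²` (a polynomial in `z`, `conj z` with coefficients converging to those of `φ₀ = z⁴ conj(Q z)² ‖s z‖²`), `g = X² Q s`: `‖φ_j‖ = ‖g v‖²`. So `‖∫_EE |UU| m² φ_j‖ ≤ ∫_EE |UU| ‖m‖² ‖g v‖²`; divide by `d²`, limit of the right side by `T1lim`:
`-l₀ Re(β m₀(0)²) hint (‖g‖²)` (`‖g‖ = ‖Q s‖` on the unit circle). Left side: `∫_EE |UU| m² φ_j = ∫_{E₁} m² φ_j UU - ∫_{E₂} m² φ_j UU` (`UU > 0` on `E₁ \ E₂`, `< 0` on `E₂ \ E₁`); `φ_j UU/d` is a polynomial in `z`, `conj z` with convergent coefficients (`colim`); by `E1lim` for the functions `m_j² z^k` (`LB.mul`, `LB.const`) and finite sums the left side over `d²` tends to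
`-2π`-times the constant coefficient of `m₀² φ₀ (-2h) h` on the circle `‖w‖ = 1/2` with `conj w` replaced by `1/w`, i.e. `2 ∫ m₀(w)² h(w)² φ₀(w) dt`, `h(w) = Hf w/w²`, `φ₀(w) = w⁴ Q^(1/w)² s(w) s^(1/w)` (`^`: conjugate coefficients), and `m₀ Hf = Q` there: `2 ∫ Q(w)² Q^(1/w)² s(w) s^(1/w) dt`, a Laurent polynomial, so the
integral is the same on `‖w‖ = 1`: `2 ∫ ‖Q‖⁴ ‖s‖²`.
-/

set_option autoImplicit false

namespace ND1

open Complex Set Filter Topology MeasureTheory EW1 EX1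
open scoped ComplexConjugate ContDiff Real

/-- polynomials in `z`, `conj z` whose coefficients converge; `G₀` is the limit polynomial, in `z` and `w` (for `conj z`) -/
def Nj_PC (G : ℕ → ℂ → ℂ) (G₀ : ℂ → ℂ → ℂ) : Prop :=
  ∃ (ι : Type) (_ : Fintype ι) (c : ℕ → ι → ℂ) (c₀ : ι → ℂ) (k b : ι → ℕ),
    (∀ i, Tendsto (fun j => c j i) atTop (𝓝 (c₀ i))) ∧
    (∀ j z, G j z = ∑ i, c j i * (z ^ k i * conj z ^ b i)) ∧
    ∀ z w, G₀ z w = ∑ i, c₀ i * (z ^ k i * w ^ b i)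

theorem Nj_PC.const {c : ℕ → ℂ} {c₀ : ℂ} (h : Tendsto c atTop (𝓝 c₀)) : Nj_PC (fun j _ => c j) (fun _ _ => c₀) :=
  ⟨Unit, inferInstance, fun j _ => c j, fun _ => c₀, fun _ => 0, fun _ => 0, fun _ => h,
    fun j z => by simp, fun z w => by simp⟩

theorem Nj_PC.id : Nj_PC (fun _ z => z) (fun z _ => z) :=
  ⟨Unit, inferInstance, fun _ _ => 1, fun _ => 1, fun _ => 1, fun _ => 0, fun _ => tendsto_const_nhds,
    fun j z => by simp, fun z w => by simp⟩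

theorem Nj_PC.cj : Nj_PC (fun _ z => conj z) (fun _ w => w) :=
  ⟨Unit, inferInstance, fun _ _ => 1, fun _ => 1, fun _ => 0, fun _ => 1, fun _ => tendsto_const_nhds,
    fun j z => by simp, fun z w => by simp⟩

theorem Nj_PC.add {G H : ℕ → ℂ → ℂ} {G₀ H₀ : ℂ → ℂ → ℂ} (hG : Nj_PC G G₀) (hH : Nj_PC H H₀) :
    Nj_PC (fun j z => G j z + H j z) (fun z w => G₀ z w + H₀ z w) := by
  obtain ⟨ι, _, c, c₀, k, b, h1, h2, h3⟩ := hG
  obtain ⟨ι', _, c', c₀', k', b', h1', h2', h3'⟩ := hH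
  refine ⟨ι ⊕ ι', inferInstance, fun j => Sum.elim (c j) (c' j), Sum.elim c₀ c₀', Sum.elim k k', Sum.elim b b', ?_, ?_, ?_⟩
  · rintro (i | i)
    · exact h1 i
    · exact h1' i
  · intro j z
    change G j z + H j z = _
    rw [Fintype.sum_sum_type, h2, h2']
    rfl
  · intro z w
    change G₀ z w + H₀ z w = _
    rw [Fintype.sum_sum_type, h3, h3']
    rfl

theorem Nj_PC.mul {G H : ℕ → ℂ → ℂ} {G₀ H₀ : ℂ → ℂ → ℂ} (hG : Nj_PC G G₀) (hH : Nj_PC H H₀) :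
    Nj_PC (fun j z => G j z * H j z) (fun z w => G₀ z w * H₀ z w) := by
  obtain ⟨ι, _, c, c₀, k, b, h1, h2, h3⟩ := hG
  obtain ⟨ι', _, c', c₀', k', b', h1', h2', h3'⟩ := hH
  refine ⟨ι × ι', inferInstance, fun j i => c j i.1 * c' j i.2, fun i => c₀ i.1 * c₀' i.2, fun i => k i.1 + k' i.2,
    fun i => b i.1 + b' i.2, ?_, ?_, ?_⟩
  · rintro ⟨i, i'⟩
    exact (h1 i).mul (h1' i')
  · intro j z
    change G j z * H j z = _
    rw [Fintype.sum_prod_type, h2, h2', Finset.sum_mul_sum]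
    refine Finset.sum_congr rfl fun i _ => Finset.sum_congr rfl fun i' _ => ?_
    simp only [pow_add]
    ring
  · intro z w
    change G₀ z w * H₀ z w = _
    rw [Fintype.sum_prod_type, h3, h3', Finset.sum_mul_sum]
    refine Finset.sum_congr rfl fun i _ => Finset.sum_congr rfl fun i' _ => ?_
    simp only [pow_add]
    ring

theorem Nj_PC.pow {G : ℕ → ℂ → ℂ} {G₀ : ℂ → ℂ → ℂ} (hG : Nj_PC G G₀) (n : ℕ) :
    Nj_PC (fun j z => G j z ^ n) (fun z w => G₀ z w ^ n) := by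
  induction n with
  | zero => simpa using Nj_PC.const (c := fun _ => 1) (c₀ := 1) tendsto_const_nhds
  | succ n ih => simpa [pow_succ] using ih.mul hG

theorem Nj_PC.poly {G : ℕ → ℂ → ℂ} {G₀ : ℂ → ℂ → ℂ} (hG : Nj_PC G G₀) (P : Polynomial ℂ) :
    Nj_PC (fun j z => P.eval (G j z)) (fun z w => P.eval (G₀ z w)) := by
  induction P using Polynomial.induction_on' with
  | add p q hp hq => simpa using hp.add hq
  | monomial n a => simpa using (Nj_PC.const (c := fun _ => a) (c₀ := a) tendsto_const_nhds).mul (hG.pow n)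

theorem Nj_int {c : ℂ} {r : ℝ} (hr : 0 < r) {μ : ℂ} (hμ : ‖μ‖ < 1) {N : Set ℂ}
    (h : Kp c r μ ⊆ N) {f : ℂ → ℂ} (hf : ContinuousOn f N) : IntegrableOn f (Dp c r μ 1) := by
  have h1 : IntegrableOn f {z | ‖vv c r μ z‖ ≤ 1} :=
    (hf.mono h).integrableOn_compact (cDp_compact hr hμ 1)
  refine h1.mono_set (fun z hz => ?_)
  have h2 : ‖vv c r μ z‖ < 1 := hz
  exact h2.le

theorem Nj_r2 {S : Sq} {a : ℝ} {γ β : ℂ} (hS : Lim S a γ β) (j : ℕ) : 0 < S.r₂ j := by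
  have h1 := hS.small j
  unfold Sq.d dd at h1
  have h2 : |1 - S.r₂ j| ≤ 1 / 100 := by
    have := norm_nonneg (0 - S.c₂ j)
    have := norm_nonneg (S.μ₁ j - S.μ₂ j)
    linarith
  have := (abs_le.1 h2).2
  linarith

theorem Nj_int1 {S : Sq} {a : ℝ} {γ β : ℂ} (hS : Lim S a γ β) {F : ℕ → ℂ → ℂ} {F₀ : ℂ → ℂ} (hF : LB S F F₀) {g : ℂ → ℂ}
    (hg : Continuous g) (j : ℕ) : IntegrableOn (fun z => F j z * g z) (S.E₁ 1 j) := by
  obtain ⟨N, hN, h1, h2, h3⟩ := hF.hol j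
  exact Nj_int one_pos ((hS.m1 j).trans_lt (by norm_num)) h1 (h3.continuousOn.mul hg.continuousOn)

theorem Nj_int2 {S : Sq} {a : ℝ} {γ β : ℂ} (hS : Lim S a γ β) {F : ℕ → ℂ → ℂ} {F₀ : ℂ → ℂ} (hF : LB S F F₀) {g : ℂ → ℂ}
    (hg : Continuous g) (j : ℕ) : IntegrableOn (fun z => F j z * g z) (S.E₂ 1 j) := by
  obtain ⟨N, hN, h1, h2, h3⟩ := hF.hol j
  exact Nj_int (Nj_r2 hS j) ((hS.m2 j).trans_lt (by norm_num)) h2 (h3.continuousOn.mul hg.continuousOn)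

theorem Nj_pt_ne (t : ℝ) : pt t ≠ 0 := by
  unfold pt
  exact mul_ne_zero (by norm_num) (Complex.exp_ne_zero _)

theorem Nj_pt_norm (t : ℝ) : ‖pt t‖ = 1 / 2 := by
  unfold pt
  rw [norm_mul, Complex.norm_exp_ofReal_mul_I]
  norm_num

theorem Nj_pt_cont : Continuous pt := by
  unfold pt
  fun_prop

theorem Nj_pt_ball (t : ℝ) : pt t ∈ Metric.ball (0 : ℂ) 1 := by
  rw [mem_ball_zero_iff, Nj_pt_norm]
  norm_num

theorem Nj_cont_pt {F₀ : ℂ → ℂ} (h : DifferentiableOn ℂ F₀ (Metric.ball 0 1)) : Continuous fun t => F₀ (pt t) :=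
  h.continuousOn.comp_continuous Nj_pt_cont Nj_pt_ball

theorem Nj_co_eq (F : ℂ → ℂ) (n : ℤ) : 2 * π * co F n = ∫ t in (0 : ℝ)..(2 * π), F (pt t) * pt t ^ (-n) := by
  unfold co
  have h : (2 * π : ℂ) ≠ 0 := by
    have := Real.pi_ne_zero
    simp [this]
  field_simp

theorem Nj_E1k {S : Sq} {a : ℝ} {γ β : ℂ} (hS : Lim S a γ β) {F : ℕ → ℂ → ℂ} {F₀ : ℂ → ℂ} (hF : LB S F F₀) (k b : ℕ) :
    Tendsto (fun j => ((∫ z in S.E₂ 1 j, F j z * (z ^ k * conj z ^ b)) - ∫ z in S.E₁ 1 j, F j z * (z ^ k * conj z ^ b)) /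
      (S.d j : ℂ)) atTop
      (𝓝 (∫ t in (0 : ℝ)..(2 * π), F₀ (pt t) * (pt t ^ k * (pt t)⁻¹ ^ b) * (Hf a γ β (pt t) / pt t ^ 2))) := by
  have h1 := E1lim hS (hF.mul (LB.const hS (f := fun z => z ^ k) (differentiable_id.pow k))) b
  have h2 : 2 * π * (a * co (fun z => F₀ z * z ^ k) b + conj γ / 2 * co (fun z => F₀ z * z ^ k) (b - 1) +
      γ / 2 * co (fun z => F₀ z * z ^ k) (b + 1) + conj β / 2 * co (fun z => F₀ z * z ^ k) (b - 2) +
        β / 2 * co (fun z => F₀ z * z ^ k) (b + 2)) =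
      ∫ t in (0 : ℝ)..(2 * π), F₀ (pt t) * (pt t ^ k * (pt t)⁻¹ ^ b) * (Hf a γ β (pt t) / pt t ^ 2) := by
    have hc : ∀ n : ℤ, Continuous fun t => F₀ (pt t) * pt t ^ k * pt t ^ (-n) := fun n =>
      ((Nj_cont_pt hF.hol0).mul (Nj_pt_cont.pow k)).mul (Nj_pt_cont.zpow₀ (-n) fun t => Or.inl (Nj_pt_ne t))
    have hi : ∀ (c : ℂ) (n : ℤ), IntervalIntegrable (fun t => c * (F₀ (pt t) * pt t ^ k * pt t ^ (-n))) volume 0 (2 * π) :=
      fun c n => ((hc n).const_mul c).intervalIntegrable _ _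
    have h3 : ∀ (c : ℂ) (n : ℤ), 2 * π * (c * co (fun z => F₀ z * z ^ k) n) =
        ∫ t in (0 : ℝ)..(2 * π), c * (F₀ (pt t) * pt t ^ k * pt t ^ (-n)) := fun c n => by
      rw [intervalIntegral.integral_const_mul, ← Nj_co_eq (fun z => F₀ z * z ^ k) n]
      ring
    rw [mul_add, mul_add, mul_add, mul_add, h3, h3, h3, h3, h3,
      ← intervalIntegral.integral_add (hi _ _) (hi _ _),
      ← intervalIntegral.integral_add ((hi _ _).add (hi _ _)) (hi _ _),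
      ← intervalIntegral.integral_add (((hi _ _).add (hi _ _)).add (hi _ _)) (hi _ _),
      ← intervalIntegral.integral_add ((((hi _ _).add (hi _ _)).add (hi _ _)).add (hi _ _)) (hi _ _)]
    refine intervalIntegral.integral_congr fun t _ => ?_
    have hw := Nj_pt_ne t
    generalize pt t = w at hw
    have e1 : w ^ (-(b : ℤ)) = w⁻¹ ^ b := by rw [zpow_neg, zpow_natCast, inv_pow]
    have e2 : w ^ (-((b : ℤ) - 1)) = w⁻¹ ^ b * w := by
      rw [show -((b : ℤ) - 1) = -(b : ℤ) + 1 by ring, zpow_add₀ hw, e1, zpow_one]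
    have e3 : w ^ (-((b : ℤ) + 1)) = w⁻¹ ^ b * w⁻¹ := by
      rw [show -((b : ℤ) + 1) = -(b : ℤ) + (-1) by ring, zpow_add₀ hw, e1, zpow_neg_one]
    have e4 : w ^ (-((b : ℤ) - 2)) = w⁻¹ ^ b * w ^ 2 := by
      rw [show -((b : ℤ) - 2) = -(b : ℤ) + 2 by ring, zpow_add₀ hw, e1]
      rfl
    have e5 : w ^ (-((b : ℤ) + 2)) = w⁻¹ ^ b * (w⁻¹) ^ 2 := by
      rw [show -((b : ℤ) + 2) = -(b : ℤ) + (-2) by ring, zpow_add₀ hw, e1]
      congr 1
      rw [zpow_neg, inv_pow]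
      rfl
    rw [e1, e2, e3, e4, e5]
    unfold Hf
    field_simp
    ring
  rw [← h2]
  refine h1.congr fun j => ?_
  simp only [mul_assoc]

theorem Nj_Plim {S : Sq} {a : ℝ} {γ β : ℂ} (hS : Lim S a γ β) {F : ℕ → ℂ → ℂ} {F₀ : ℂ → ℂ} (hF : LB S F F₀)
    {G : ℕ → ℂ → ℂ} {G₀ : ℂ → ℂ → ℂ} (hG : Nj_PC G G₀) :
    Tendsto (fun j => ((∫ z in S.E₂ 1 j, F j z * G j z) - ∫ z in S.E₁ 1 j, F j z * G j z) / (S.d j : ℂ)) atTop
      (𝓝 (∫ t in (0 : ℝ)..(2 * π), F₀ (pt t) * G₀ (pt t) (pt t)⁻¹ * (Hf a γ β (pt t) / pt t ^ 2))) := by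
  obtain ⟨ι, _, c, c₀, k, b, h1, h2, h3⟩ := hG
  have hcg : ∀ i : ι, Continuous fun z : ℂ => z ^ k i * conj z ^ b i := fun i =>
    (continuous_id.pow _).mul (Complex.continuous_conj.pow _)
  have e1 : ∀ j, (∫ z in S.E₁ 1 j, F j z * G j z) = ∑ i, c j i * ∫ z in S.E₁ 1 j, F j z * (z ^ k i * conj z ^ b i) := by
    intro j
    have : ∀ z, F j z * G j z = ∑ i, c j i * (F j z * (z ^ k i * conj z ^ b i)) := fun z => by
      rw [h2, Finset.mul_sum]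
      exact Finset.sum_congr rfl fun i _ => by ring
    simp only [this]
    rw [integral_finsetSum _ fun i _ => (Nj_int1 hS hF (hcg i) j).const_mul (c j i)]
    exact Finset.sum_congr rfl fun i _ => integral_const_mul _ _
  have e2 : ∀ j, (∫ z in S.E₂ 1 j, F j z * G j z) = ∑ i, c j i * ∫ z in S.E₂ 1 j, F j z * (z ^ k i * conj z ^ b i) := by
    intro j
    have : ∀ z, F j z * G j z = ∑ i, c j i * (F j z * (z ^ k i * conj z ^ b i)) := fun z => by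
      rw [h2, Finset.mul_sum]
      exact Finset.sum_congr rfl fun i _ => by ring
    simp only [this]
    rw [integral_finsetSum _ fun i _ => (Nj_int2 hS hF (hcg i) j).const_mul (c j i)]
    exact Finset.sum_congr rfl fun i _ => integral_const_mul _ _
  have e3 : (∫ t in (0 : ℝ)..(2 * π), F₀ (pt t) * G₀ (pt t) (pt t)⁻¹ * (Hf a γ β (pt t) / pt t ^ 2)) =
      ∑ i, c₀ i * ∫ t in (0 : ℝ)..(2 * π), F₀ (pt t) * (pt t ^ k i * (pt t)⁻¹ ^ b i) * (Hf a γ β (pt t) / pt t ^ 2) := by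
    have hH : Continuous fun t => Hf a γ β (pt t) / pt t ^ 2 := by
      refine Continuous.div ?_ (Nj_pt_cont.pow 2) fun t => pow_ne_zero 2 (Nj_pt_ne t)
      unfold Hf
      have := Nj_pt_cont
      fun_prop
    have hci : ∀ i, Continuous fun t => c₀ i * (F₀ (pt t) * (pt t ^ k i * (pt t)⁻¹ ^ b i) * (Hf a γ β (pt t) / pt t ^ 2)) :=
      fun i => (((Nj_cont_pt hF.hol0).mul ((Nj_pt_cont.pow _).mul ((Nj_pt_cont.inv₀ Nj_pt_ne).pow _))).mul hH).const_mul _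
    have : ∀ t, F₀ (pt t) * G₀ (pt t) (pt t)⁻¹ * (Hf a γ β (pt t) / pt t ^ 2) =
        ∑ i, c₀ i * (F₀ (pt t) * (pt t ^ k i * (pt t)⁻¹ ^ b i) * (Hf a γ β (pt t) / pt t ^ 2)) := fun t => by
      rw [h3, Finset.mul_sum, Finset.sum_mul]
      exact Finset.sum_congr rfl fun i _ => by ring
    simp only [this]
    rw [intervalIntegral.integral_finsetSum fun i _ => (hci i).intervalIntegrable _ _]
    exact Finset.sum_congr rfl fun i _ => intervalIntegral.integral_const_mul _ _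
  rw [e3]
  refine (tendsto_finsetSum _ fun i _ => (h1 i).mul (Nj_E1k hS hF (k i) (b i))).congr fun j => ?_
  rw [e1, e2, ← Finset.sum_sub_distrib, Finset.sum_div]
  refine Finset.sum_congr rfl fun i _ => ?_
  ring

/-- complex polynomial in `z`, `w` which is `hf` for `w = conj z` and `Hf z/z²` for `w = 1/z` -/
noncomputable def Nj_hc (a : ℝ) (γ β z w : ℂ) : ℂ := a + (conj γ * z + γ * w) / 2 + (conj β * z ^ 2 + β * w ^ 2) / 2

theorem Nj_hc_inv (a : ℝ) (γ β : ℂ) {z : ℂ} (hz : z ≠ 0) : Nj_hc a γ β z z⁻¹ = Hf a γ β z / z ^ 2 := by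
  unfold Nj_hc Hf
  field_simp
  ring

theorem Nj_PC.UUd {S : Sq} {a : ℝ} {γ β : ℂ} (hS : Lim S a γ β) :
    Nj_PC (fun j z => ((S.UU j z / S.d j : ℝ) : ℂ)) (fun z w => -2 * Nj_hc a γ β z w) := by
  obtain ⟨h1, h2, h3⟩ := colim hS
  have h1' : Tendsto (fun j => conj ((nu (S.μ₂ j) - nu (S.μ₁ j)) / (S.d j : ℂ))) atTop (𝓝 (conj β)) :=
    (Complex.continuous_conj.tendsto β).comp h1
  have h2' : Tendsto (fun j => conj ((gg (S.c₂ j) (S.μ₂ j) - gg 0 (S.μ₁ j)) / (S.d j : ℂ))) atTop (𝓝 γ) := by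
    have := (Complex.continuous_conj.tendsto (conj γ)).comp h2
    rwa [Complex.conj_conj] at this
  have h3' : Tendsto (fun j => (((hh (S.c₂ j) (S.r₂ j) (S.μ₂ j) - hh 0 1 (S.μ₁ j)) / S.d j : ℝ) : ℂ)) atTop
      (𝓝 ((-2 * a : ℝ) : ℂ)) := (Complex.continuous_ofReal.tendsto _).comp h3
  have k2 : Tendsto (fun _ : ℕ => (-1 : ℂ)) atTop (𝓝 (-1)) := tendsto_const_nhds
  have hm : Nj_PC (fun _ _ => (-1 : ℂ)) (fun _ _ => (-1 : ℂ)) := Nj_PC.const k2
  have hp := ((((hm.mul ((Nj_PC.const h1').mul (Nj_PC.id.pow 2))).add (hm.mul ((Nj_PC.const h1).mul (Nj_PC.cj.pow 2)))).add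
    (hm.mul ((Nj_PC.const h2).mul Nj_PC.id))).add (hm.mul ((Nj_PC.const h2').mul Nj_PC.cj))).add (Nj_PC.const h3')
  obtain ⟨ι, _, c, c₀, k, b, e1, e2, e3⟩ := hp
  refine ⟨ι, inferInstance, c, c₀, k, b, e1, fun j z => ?_, fun z w => ?_⟩
  · rw [← e2]
    have hd : (S.d j : ℂ) ≠ 0 := by exact_mod_cast (hS.pos j).ne'
    have hU : (S.UU j z : ℂ) = (aa 0 1 (S.μ₁ j) (S.c₂ j) (S.r₂ j) (S.μ₂ j) z +
        conj (aa 0 1 (S.μ₁ j) (S.c₂ j) (S.r₂ j) (S.μ₂ j) z)) / 2 := by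
      unfold Sq.UU
      rw [← aa_re one_pos (Nj_r2 hS j) ((hS.m1 j).trans_lt (by norm_num)) ((hS.m2 j).trans_lt (by norm_num)), Complex.re_eq_add_conj]
    simp only
    rw [Complex.ofReal_div, hU]
    unfold aa
    simp only [map_add, map_sub, map_neg, map_mul, map_pow, map_div₀, Complex.conj_conj, Complex.conj_ofReal,
      Complex.ofReal_div, Complex.ofReal_sub, map_ofNat]
    field_simp
    ring
  · rw [← e3]
    unfold Nj_hc
    push_cast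
    ring

theorem Nj_PC.vv₁ {S : Sq} {a : ℝ} {γ β : ℂ} (hS : Lim S a γ β) :
    Nj_PC (fun j z => vv 0 1 (S.μ₁ j) z) (fun z _ => z) := by
  have k1 : Tendsto (fun j => (((1 * (1 - ‖S.μ₁ j‖ ^ 2) : ℝ) : ℂ))⁻¹) atTop (𝓝 1) := by
    have h1 : Tendsto (fun j => ((1 * (1 - ‖S.μ₁ j‖ ^ 2) : ℝ))) atTop (𝓝 (1 * (1 - ‖(0 : ℂ)‖ ^ 2))) :=
      ((hS.lm1.norm.pow 2).const_sub 1).const_mul 1
    have h2 := ((Complex.continuous_ofReal.tendsto _).comp h1).inv₀ (by norm_num)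
    simpa using h2
  have k2 : Tendsto (fun j => -S.μ₁ j) atTop (𝓝 0) := by simpa using hS.lm1.neg
  have hp := (Nj_PC.id.add ((Nj_PC.const k2).mul Nj_PC.cj)).mul (Nj_PC.const k1)
  obtain ⟨ι, _, c, c₀, k, b, e1, e2, e3⟩ := hp
  refine ⟨ι, inferInstance, c, c₀, k, b, e1, fun j z => ?_, fun z w => ?_⟩
  · rw [← e2]
    unfold vv
    simp only [sub_zero]
    rw [div_eq_mul_inv]
    ring
  · rw [← e3]
    ring

theorem Nj_PC.vc₁ {S : Sq} {a : ℝ} {γ β : ℂ} (hS : Lim S a γ β) :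
    Nj_PC (fun j z => conj (vv 0 1 (S.μ₁ j) z)) (fun _ w => w) := by
  have k1 : Tendsto (fun j => (((1 * (1 - ‖S.μ₁ j‖ ^ 2) : ℝ) : ℂ))⁻¹) atTop (𝓝 1) := by
    have h1 : Tendsto (fun j => ((1 * (1 - ‖S.μ₁ j‖ ^ 2) : ℝ))) atTop (𝓝 (1 * (1 - ‖(0 : ℂ)‖ ^ 2))) :=
      ((hS.lm1.norm.pow 2).const_sub 1).const_mul 1
    have h2 := ((Complex.continuous_ofReal.tendsto _).comp h1).inv₀ (by norm_num)
    simpa using h2
  have k2 : Tendsto (fun j => -conj (S.μ₁ j)) atTop (𝓝 0) := by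
    have := ((Complex.continuous_conj.tendsto 0).comp hS.lm1).neg
    simpa using this
  have hp := (Nj_PC.cj.add ((Nj_PC.const k2).mul Nj_PC.id)).mul (Nj_PC.const k1)
  obtain ⟨ι, _, c, c₀, k, b, e1, e2, e3⟩ := hp
  refine ⟨ι, inferInstance, c, c₀, k, b, e1, fun j z => ?_, fun z w => ?_⟩
  · rw [← e2]
    unfold vv
    simp only [sub_zero]
    rw [map_div₀, Complex.conj_ofReal, map_sub, map_mul, Complex.conj_conj, div_eq_mul_inv]
    ring
  · rw [← e3]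
    ring

theorem Nj_ev_conj (P : Polynomial ℂ) (z : ℂ) : conj (P.eval z) = (P.map (starRingEnd ℂ)).eval (conj z) := by
  rw [Polynomial.eval_map, Polynomial.eval₂_at_apply]

theorem Nj_int_pow {r : ℝ} (hr : r ≠ 0) (n m : ℕ) :
    ∫ t in (0 : ℝ)..(2 * π), ((r : ℂ) * exp (t * I)) ^ n * (((r : ℂ) * exp (t * I))⁻¹) ^ m = if n = m then 2 * (π : ℂ) else 0 := by
  have hr' : (r : ℂ) ≠ 0 := by exact_mod_cast hr
  split_ifs with h
  · subst h
    have : ∀ t : ℝ, ((r : ℂ) * exp (t * I)) ^ n * (((r : ℂ) * exp (t * I))⁻¹) ^ n = 1 := fun t => by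
      rw [← mul_pow, mul_inv_cancel₀ (mul_ne_zero hr' (Complex.exp_ne_zero _)), one_pow]
    simp only [this]
    simp
  · set c : ℂ := ((((n : ℤ) - (m : ℤ) : ℤ)) : ℂ) * I with hc
    have hc0 : c ≠ 0 := by
      rw [hc]
      refine mul_ne_zero ?_ I_ne_zero
      have : (n : ℤ) - (m : ℤ) ≠ 0 := by omega
      exact_mod_cast this
    have e : ∀ t : ℝ, ((r : ℂ) * exp (t * I)) ^ n * (((r : ℂ) * exp (t * I))⁻¹) ^ m = ((r : ℂ) ^ n * ((r : ℂ)⁻¹) ^ m) * exp (c * t) := by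
      intro t
      rw [mul_inv, mul_pow, mul_pow, ← Complex.exp_neg, ← Complex.exp_nat_mul, ← Complex.exp_nat_mul]
      rw [show c * t = n * (t * I) + m * (-(t * I)) by rw [hc]; push_cast; ring, Complex.exp_add]
      ring
    simp only [e]
    rw [intervalIntegral.integral_const_mul, integral_exp_mul_complex hc0]
    have h1 : exp (c * ((2 * π : ℝ) : ℂ)) = 1 := by
      rw [show c * ((2 * π : ℝ) : ℂ) = ((((n : ℤ) - (m : ℤ) : ℤ)) : ℂ) * (2 * π * I) by rw [hc]; push_cast; ring]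
      exact Complex.exp_int_mul_two_pi_mul_I _
    rw [h1]
    simp

theorem Nj_rad {r : ℝ} (hr : r ≠ 0) (A B : Polynomial ℂ) :
    ∫ t in (0 : ℝ)..(2 * π), A.eval ((r : ℂ) * exp (t * I)) * B.eval (((r : ℂ) * exp (t * I))⁻¹) =
      ∫ t in (0 : ℝ)..(2 * π), A.eval (exp (t * I)) * B.eval ((exp (t * I))⁻¹) := by
  have hne : ∀ {r : ℝ}, r ≠ 0 → ∀ t : ℝ, (r : ℂ) * exp (t * I) ≠ 0 := fun h t =>
    mul_ne_zero (by exact_mod_cast h) (Complex.exp_ne_zero _)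
  have hci : ∀ {r : ℝ}, r ≠ 0 → Continuous fun t : ℝ => ((r : ℂ) * exp (t * I))⁻¹ := fun {r} h =>
    (show Continuous fun t : ℝ => (r : ℂ) * exp (t * I) by fun_prop).inv₀ (hne h)
  have hcc : ∀ {r : ℝ}, r ≠ 0 → ∀ A B : Polynomial ℂ,
      IntervalIntegrable (fun t : ℝ => A.eval ((r : ℂ) * exp (t * I)) * B.eval (((r : ℂ) * exp (t * I))⁻¹)) volume 0 (2 * π) :=
    fun {r} h A B => by
      refine Continuous.intervalIntegrable (Continuous.mul ?_ ?_) _ _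
      · exact A.continuous.comp (by fun_prop)
      · exact B.continuous.comp (hci h)
  have key : ∀ {r : ℝ}, r ≠ 0 → ∫ t in (0 : ℝ)..(2 * π), A.eval ((r : ℂ) * exp (t * I)) * B.eval (((r : ℂ) * exp (t * I))⁻¹) =
      ∑ n ∈ A.support, ∑ m ∈ B.support, A.coeff n * B.coeff m * (if n = m then 2 * (π : ℂ) else 0) := by
    intro r hr
    have e : ∀ t : ℝ, A.eval ((r : ℂ) * exp (t * I)) * B.eval (((r : ℂ) * exp (t * I))⁻¹) =
        ∑ n ∈ A.support, ∑ m ∈ B.support, A.coeff n * B.coeff m *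
          (((r : ℂ) * exp (t * I)) ^ n * (((r : ℂ) * exp (t * I))⁻¹) ^ m) := by
      intro t
      rw [Polynomial.eval_eq_sum, Polynomial.eval_eq_sum, Polynomial.sum, Polynomial.sum, Finset.sum_mul_sum]
      refine Finset.sum_congr rfl fun n _ => Finset.sum_congr rfl fun m _ => ?_
      ring
    have hcc2 : ∀ n m : ℕ, Continuous fun t : ℝ => A.coeff n * B.coeff m *
          (((r : ℂ) * exp (t * I)) ^ n * (((r : ℂ) * exp (t * I))⁻¹) ^ m) := fun n m =>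
      (((show Continuous fun t : ℝ => (r : ℂ) * exp (t * I) by fun_prop).pow n).mul ((hci hr).pow m)).const_mul _
    simp only [e]
    rw [intervalIntegral.integral_finsetSum fun n _ => (continuous_finsetSum _ fun m _ => hcc2 n m).intervalIntegrable _ _]
    refine Finset.sum_congr rfl fun n _ => ?_
    rw [intervalIntegral.integral_finsetSum fun m _ => (hcc2 n m).intervalIntegrable _ _]
    refine Finset.sum_congr rfl fun m _ => ?_
    rw [intervalIntegral.integral_const_mul, Nj_int_pow hr]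
  rw [key hr]
  have := key (r := 1) one_ne_zero
  simp only [Complex.ofReal_one, one_mul] at this
  exact this.symm

theorem Nj_ndiff {A B : Set ℂ} (hA : MeasurableSet A) (hB : MeasurableSet B) {f : ℂ → ℂ} (hfA : IntegrableOn f A) (hfB : IntegrableOn f B) :
    ‖(∫ z in B, f z) - ∫ z in A, f z‖ ≤ ∫ z in (A \ B) ∪ (B \ A), ‖f z‖ := by
  have h1 := integral_inter_add_sdiff hB hfA
  have h2 := integral_inter_add_sdiff hA hfB
  rw [← h1, ← h2, Set.inter_comm B A]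
  have h3 : ∫ z in (A \ B) ∪ (B \ A), ‖f z‖ = (∫ z in A \ B, ‖f z‖) + ∫ z in B \ A, ‖f z‖ :=
    setIntegral_union (Set.disjoint_left.2 fun z hz hz' => hz.2 hz'.1) (hB.diff hA) (hfA.mono_set sdiff_subset).norm
      (hfB.mono_set sdiff_subset).norm
  rw [h3, add_sub_add_left_eq_sub]
  refine (norm_sub_le _ _).trans ?_
  rw [add_comm]
  exact add_le_add (norm_integral_le_integral_norm _) (norm_integral_le_integral_norm _)

theorem Pineq {S : Sq} {a : ℝ} {γ β : ℂ} (hS : Lim S a γ β) {l : ℕ → ℝ} {l₀ : ℝ} (hl : ∀ j, |l j| ≤ 1) (hl₀ : Tendsto l atTop (𝓝 l₀))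
    {N : ℕ → Set ℂ} {m : ℕ → ℂ → ℂ} {m₀ : ℂ → ℂ} (hs : Sol S l N m) (hm : LB S m m₀) {Q : Polynomial ℂ}
    (hQ : ∀ z ∈ Metric.ball (0 : ℂ) 1, m₀ z * Hf a γ β z = Q.eval z) (s : Polynomial ℂ) :
    2 * ∫ t in (0 : ℝ)..(2 * π), ‖Q.eval (exp (t * I))‖ ^ 4 * ‖s.eval (exp (t * I))‖ ^ 2 ≤
      -(l₀ * (β * m₀ 0 ^ 2).re) * hint a γ β (fun z => ‖Q.eval z‖ ^ 2 * ‖s.eval z‖ ^ 2) := by
  set Qc := Q.map (starRingEnd ℂ) with hQc
  set sc := s.map (starRingEnd ℂ) with hsc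
  -- the right side
  have hT := (T1lim hS hl hl₀ hs hm).2 (Polynomial.X ^ 2 * Q * s)
  have hTr : hint a γ β (fun z => ‖(Polynomial.X ^ 2 * Q * s).eval z‖ ^ 2) = hint a γ β (fun z => ‖Q.eval z‖ ^ 2 * ‖s.eval z‖ ^ 2) := by
    unfold hint
    refine intervalIntegral.integral_congr fun t _ => ?_
    simp only [Polynomial.eval_mul, Polynomial.eval_pow, Polynomial.eval_X, norm_mul, norm_pow, Complex.norm_exp_ofReal_mul_I]
    ring
  rw [hTr] at hT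
  -- the left side
  have hG := (Nj_PC.UUd hS).mul ((((Nj_PC.vv₁ hS).pow 4).mul (((Nj_PC.vc₁ hS).poly Qc).pow 2)).mul
    (((Nj_PC.vv₁ hS).poly s).mul ((Nj_PC.vc₁ hS).poly sc)))
  have hJ := (Nj_Plim hS (hm.mul hm) hG).norm
  have hL : (∫ t in (0 : ℝ)..(2 * π), m₀ (pt t) * m₀ (pt t) * (-2 * Nj_hc a γ β (pt t) (pt t)⁻¹ * (pt t ^ 4 * Qc.eval (pt t)⁻¹ ^ 2 *
      (s.eval (pt t) * sc.eval (pt t)⁻¹))) * (Hf a γ β (pt t) / pt t ^ 2)) =
      ((-(2 * ∫ t in (0 : ℝ)..(2 * π), ‖Q.eval (exp (t * I))‖ ^ 4 * ‖s.eval (exp (t * I))‖ ^ 2) : ℝ) : ℂ) := by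
    have e1 : ∀ t : ℝ, m₀ (pt t) * m₀ (pt t) * (-2 * Nj_hc a γ β (pt t) (pt t)⁻¹ * (pt t ^ 4 * Qc.eval (pt t)⁻¹ ^ 2 *
      (s.eval (pt t) * sc.eval (pt t)⁻¹))) * (Hf a γ β (pt t) / pt t ^ 2) =
        -2 * ((Q ^ 2 * s).eval (((1 / 2 : ℝ) : ℂ) * exp (t * I)) * (Qc ^ 2 * sc).eval ((((1 / 2 : ℝ) : ℂ) * exp (t * I))⁻¹)) := by
      intro t
      have hp : ((1 / 2 : ℝ) : ℂ) * exp (t * I) = pt t := by
        unfold pt
        push_cast
        ring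
      rw [hp, Nj_hc_inv a γ β (Nj_pt_ne t)]
      simp only [Polynomial.eval_mul, Polynomial.eval_pow]
      rw [← hQ (pt t) (Nj_pt_ball t)]
      have := Nj_pt_ne t
      field_simp
    simp only [e1]
    rw [intervalIntegral.integral_const_mul, Nj_rad (by norm_num)]
    have e2 : ∀ t : ℝ, (Q ^ 2 * s).eval (exp (t * I)) * (Qc ^ 2 * sc).eval ((exp (t * I))⁻¹) =
        ((‖Q.eval (exp (t * I))‖ ^ 4 * ‖s.eval (exp (t * I))‖ ^ 2 : ℝ) : ℂ) := by
      intro t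
      have h1 : (exp (t * I))⁻¹ = conj (exp (t * I)) := by
        rw [Complex.inv_def, Complex.normSq_eq_norm_sq, Complex.norm_exp_ofReal_mul_I]
        simp
      rw [h1]
      simp only [Polynomial.eval_mul, Polynomial.eval_pow]
      rw [hQc, hsc, ← Nj_ev_conj, ← Nj_ev_conj]
      have h2 : ∀ z : ℂ, z * conj z = ((‖z‖ ^ 2 : ℝ) : ℂ) := fun z => by
        rw [Complex.mul_conj, Complex.normSq_eq_norm_sq]
      calc Q.eval (exp (t * I)) ^ 2 * s.eval (exp (t * I)) * (conj (Q.eval (exp (t * I))) ^ 2 * conj (s.eval (exp (t * I))))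
          = (Q.eval (exp (t * I)) * conj (Q.eval (exp (t * I)))) ^ 2 * (s.eval (exp (t * I)) * conj (s.eval (exp (t * I)))) := by ring
        _ = _ := by
          rw [h2, h2]
          push_cast
          ring
    simp only [e2]
    rw [intervalIntegral.integral_ofReal]
    push_cast
    ring
  have hnn : 0 ≤ ∫ t in (0 : ℝ)..(2 * π), ‖Q.eval (exp (t * I))‖ ^ 4 * ‖s.eval (exp (t * I))‖ ^ 2 :=
    intervalIntegral.integral_nonneg (by positivity) fun t _ => by positivity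
  rw [hL, Complex.norm_real, Real.norm_eq_abs, abs_neg, abs_of_nonneg (by positivity)] at hJ
  refine le_of_tendsto_of_tendsto' hJ hT fun j => ?_
  have hd := hS.pos j
  have hcv : Continuous fun z => vv 0 1 (S.μ₁ j) z := vv_cont 0 1 (S.μ₁ j)
  have hcU : Continuous fun z => S.UU j z := by
    unfold Sq.UU
    exact (QQ_contDiff _ _ _).continuous.sub (QQ_contDiff _ _ _).continuous
  have hcG : Continuous fun z => ((S.UU j z / S.d j : ℝ) : ℂ) * (vv 0 1 (S.μ₁ j) z ^ 4 * Qc.eval (conj (vv 0 1 (S.μ₁ j) z)) ^ 2 *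
      (s.eval (vv 0 1 (S.μ₁ j) z) * sc.eval (conj (vv 0 1 (S.μ₁ j) z)))) := by
    have c1 := Complex.continuous_conj.comp hcv
    have c2 := Qc.continuous.comp c1
    have c3 := sc.continuous.comp c1
    have c4 := s.continuous.comp hcv
    exact (Complex.continuous_ofReal.comp (hcU.div_const _)).mul (((hcv.pow 4).mul (c2.pow 2)).mul (c4.mul c3))
  rw [norm_div, Complex.norm_real, Real.norm_eq_abs, abs_of_pos hd, div_le_div_iff₀ hd (by positivity)]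
  have h1 := Nj_ndiff (Dp_open 0 1 (S.μ₁ j) 1).measurableSet (Dp_open (S.c₂ j) (S.r₂ j) (S.μ₂ j) 1).measurableSet
    (Nj_int1 hS (hm.mul hm) hcG j) (Nj_int2 hS (hm.mul hm) hcG j)
  have h2 : (∫ z in S.EE j, ‖m j z * m j z * (((S.UU j z / S.d j : ℝ) : ℂ) * (vv 0 1 (S.μ₁ j) z ^ 4 *
      Qc.eval (conj (vv 0 1 (S.μ₁ j) z)) ^ 2 * (s.eval (vv 0 1 (S.μ₁ j) z) * sc.eval (conj (vv 0 1 (S.μ₁ j) z)))))‖) =
      (∫ z in S.EE j, |S.UU j z| * ‖m j z‖ ^ 2 * ‖(Polynomial.X ^ 2 * Q * s).eval (vv 0 1 (S.μ₁ j) z)‖ ^ 2) / S.d j := by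
    rw [← integral_div]
    congr 1
    ext z
    rw [hQc, hsc, ← Nj_ev_conj, ← Nj_ev_conj]
    simp only [Polynomial.eval_mul, Polynomial.eval_pow, Polynomial.eval_X, norm_mul, norm_pow, Complex.norm_real,
      Real.norm_eq_abs, abs_div, abs_of_pos hd, Complex.norm_conj]
    ring
  have h3 := h1.trans_eq h2
  have h4 := mul_le_mul_of_nonneg_right h3 (sq_nonneg (S.d j))
  refine h4.trans_eq ?_
  field_simp

end ND1
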