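import Pool.Agent.H1.ND.D

/-!
ROW ND/Nk. The algebra at the end. `κ = -l₀ Re ξ/2`, `ξ = β m₀(0)²`, `|κ| ≤ |l₀| ‖β‖ ‖m₀ 0‖²/2`. If `Q = 0`: `m₀ Hf = 0` on the ball and `Hf` is not the zero polynomial (`‖γ‖ + |a| + ‖β‖ = 1`), so `m₀ = 0` on the ball, done. Otherwise: `hi` says `∫ ‖Q‖² (κ h - ‖Q‖²) ‖s‖² ≥ 0` for all polynomials `s`, so the continuous function `‖Q‖² (κ h - ‖Q‖²)` is `≥ 0` on the
circle (test with `s = ((1 + conj b z)/2)^n`, concentrating at `b`; or Fejér kernels), so `‖Q‖² ≤ κ h` where `Q ≠ 0`, by continuity everywhere on the circle; `|h| = ‖Hf‖` there (`Hf z = z² hf` for `‖z‖ = 1`). So `‖Q z‖² ≤ |κ| ‖Hf z‖` for `‖z‖ = 1`.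
Claim: `‖Q 0‖² ≤ |κ| ‖Hf 0‖`. `Q²/Hf` has no poles in the closed disk: a zero of `Hf` in the open disk of multiplicity `k` is a zero of `Q = m₀ Hf` of multiplicity `≥ k`; on the circle the inequality shows that it is a zero of `Q²` of multiplicity `≥ k`. So `Q² = G H₁`, `Hf = H₂ H₁`, `H₂` without zeros in the closed disk, `‖G‖ ≤ |κ| ‖H₂‖` on the circle
(continuity), maximum principle for `G/H₂`. (Or by Jensen's formula / Mahler measure.) Now `Q 0 = m₀(0) β/2`, `Hf 0 = β/2`: `‖m₀ 0‖² ‖β‖²/4 ≤ |l₀| ‖β‖² ‖m₀ 0‖²/4`, so `β m₀(0) = 0`.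
-/

set_option autoImplicit false

namespace ND1

open Complex Set Filter Topology MeasureTheory EW1 EX1
open scoped ComplexConjugate ContDiff Real

theorem Nk_circle {F P : Polynomial ℂ} {K : ℝ} {α : ℂ} (hα : ‖α‖ = 1)
    (h : ∀ z : ℂ, ‖z‖ = 1 → z ≠ α → ‖F.eval z‖ ≤ K * ‖P.eval z‖) :
    ‖F.eval α‖ ≤ K * ‖P.eval α‖ := by
  have hc : Continuous fun t : ℝ => α * exp (t * I) := by fun_prop
  have h0 : α * exp (((0 : ℝ) : ℂ) * I) = α := by simp
  have h1 : Tendsto (fun t : ℝ => ‖F.eval (α * exp (t * I))‖) (𝓝[≠] 0) (𝓝 ‖F.eval α‖) := by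
    have h2 : Continuous fun t : ℝ => ‖F.eval (α * exp (t * I))‖ :=
      (F.continuous.comp hc).norm
    have h3 := h2.tendsto 0
    rw [h0] at h3
    exact h3.mono_left nhdsWithin_le_nhds
  have h1' : Tendsto (fun t : ℝ => K * ‖P.eval (α * exp (t * I))‖) (𝓝[≠] 0)
      (𝓝 (K * ‖P.eval α‖)) := by
    have h2 : Continuous fun t : ℝ => K * ‖P.eval (α * exp (t * I))‖ :=
      ((P.continuous.comp hc).norm).const_mul K
    have h3 := h2.tendsto 0
    rw [h0] at h3
    exact h3.mono_left nhdsWithin_le_nhds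
  refine le_of_tendsto_of_tendsto h1 h1' ?_
  have h4 : ∀ᶠ t : ℝ in 𝓝[≠] 0, t ∈ Ioo (-1 : ℝ) 1 :=
    nhdsWithin_le_nhds (Ioo_mem_nhds (by norm_num) (by norm_num))
  filter_upwards [h4, self_mem_nhdsWithin] with t ht ht0
  apply h
  · rw [norm_mul, hα, Complex.norm_exp_ofReal_mul_I, one_mul]
  · intro h5
    have hα0 : α ≠ 0 := by
      intro h6
      rw [h6, norm_zero] at hα
      exact zero_ne_one hα
    have h6 : exp (t * I) = 1 := by
      have h7 : α * exp (t * I) = α * 1 := by rw [h5, mul_one]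
      exact mul_left_cancel₀ hα0 h7
    rw [Complex.exp_eq_one_iff] at h6
    obtain ⟨n, hn⟩ := h6
    have h7 : (t : ℂ) = n * (2 * π) := by
      have h8 : (t : ℂ) * I = (n * (2 * π)) * I := by rw [hn]; ring
      exact mul_right_cancel₀ I_ne_zero h8
    have h8 : t = n * (2 * π) := by exact_mod_cast h7
    have hπ := Real.pi_gt_three
    have h9 : n = 0 := by
      by_contra hn0
      have h10 : (1 : ℝ) ≤ |(n : ℝ)| := by
        have : (1 : ℤ) ≤ |n| := Int.one_le_abs hn0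
        exact_mod_cast this
      have h11 : |t| < 1 := abs_lt.2 ht
      rw [h8, abs_mul, abs_of_pos (by positivity : (0 : ℝ) < 2 * π)] at h11
      nlinarith
    rw [h9] at h8
    apply ht0
    rw [h8]
    simp

theorem Nk_max {K : ℝ} {g : ℂ → ℂ} (hg : ContinuousOn g (Metric.ball 0 1)) (n : ℕ) :
    ∀ P F : Polynomial ℂ, P.natDegree = n → P ≠ 0 →
      (∀ z : ℂ, ‖z‖ = 1 → ‖F.eval z‖ ≤ K * ‖P.eval z‖) →
      (∀ z ∈ Metric.ball (0 : ℂ) 1, F.eval z = g z * P.eval z) →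
      ‖F.eval 0‖ ≤ K * ‖P.eval 0‖ := by
  induction n using Nat.strong_induction_on with
  | _ n ih =>
    intro P F hn hP hc hb
    by_cases hroot : ∃ α : ℂ, ‖α‖ ≤ 1 ∧ P.eval α = 0
    · obtain ⟨α, hα, hPα⟩ := hroot
      have hFα : F.eval α = 0 := by
        rcases lt_or_eq_of_le hα with h | h
        · rw [hb α (by simpa using h), hPα, mul_zero]
        · have h1 := hc α h
          rw [hPα, norm_zero, mul_zero] at h1
          exact norm_le_zero_iff.1 h1
      obtain ⟨P', hP'⟩ := Polynomial.dvd_iff_isRoot.2 hPα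
      obtain ⟨F', hF'⟩ := Polynomial.dvd_iff_isRoot.2 hFα
      have hP'0 : P' ≠ 0 := by
        rintro rfl
        exact hP (by rw [hP', mul_zero])
      have hdeg : P'.natDegree < n := by
        rw [← hn, hP', Polynomial.natDegree_mul (Polynomial.X_sub_C_ne_zero α) hP'0,
          Polynomial.natDegree_X_sub_C]
        omega
      have hPe : ∀ z, P.eval z = (z - α) * P'.eval z := by
        intro z
        rw [hP', Polynomial.eval_mul, Polynomial.eval_sub, Polynomial.eval_X, Polynomial.eval_C]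
      have hFe : ∀ z, F.eval z = (z - α) * F'.eval z := by
        intro z
        rw [hF', Polynomial.eval_mul, Polynomial.eval_sub, Polynomial.eval_X, Polynomial.eval_C]
      have hc1 : ∀ z : ℂ, ‖z‖ = 1 → z ≠ α → ‖F'.eval z‖ ≤ K * ‖P'.eval z‖ := by
        intro z hz hzα
        have h1 := hc z hz
        rw [hPe, hFe, norm_mul, norm_mul] at h1
        have h2 : 0 < ‖z - α‖ := norm_pos_iff.2 (sub_ne_zero.2 hzα)
        have h3 : ‖z - α‖ * ‖F'.eval z‖ ≤ ‖z - α‖ * (K * ‖P'.eval z‖) := by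
          calc ‖z - α‖ * ‖F'.eval z‖ ≤ K * (‖z - α‖ * ‖P'.eval z‖) := h1
            _ = _ := by ring
        exact le_of_mul_le_mul_left h3 h2
      have hc2 : ∀ z : ℂ, ‖z‖ = 1 → ‖F'.eval z‖ ≤ K * ‖P'.eval z‖ := by
        intro z hz
        by_cases hzα : z = α
        · subst hzα
          exact Nk_circle hz hc1
        · exact hc1 z hz hzα
      have hb1 : ∀ z ∈ Metric.ball (0 : ℂ) 1, z ≠ α → F'.eval z = g z * P'.eval z := by
        intro z hz hzα
        have h1 := hb z hz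
        rw [hPe, hFe] at h1
        have h2 : (z - α) * F'.eval z = (z - α) * (g z * P'.eval z) := by rw [h1]; ring
        exact mul_left_cancel₀ (sub_ne_zero.2 hzα) h2
      have hb2 : ∀ z ∈ Metric.ball (0 : ℂ) 1, F'.eval z = g z * P'.eval z := by
        intro z hz
        by_cases hzα : z = α
        · subst hzα
          have h1 : Tendsto (fun w => F'.eval w) (𝓝[≠] z) (𝓝 (F'.eval z)) :=
            (F'.continuous.tendsto z).mono_left nhdsWithin_le_nhds
          have h2 : Tendsto (fun w => g w * P'.eval w) (𝓝[≠] z) (𝓝 (g z * P'.eval z)) :=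
            (((hg.continuousAt (Metric.isOpen_ball.mem_nhds hz)).tendsto).mul
              (P'.continuous.tendsto z)).mono_left nhdsWithin_le_nhds
          refine tendsto_nhds_unique_of_eventuallyEq h1 h2 ?_
          have h3 : ∀ᶠ w in 𝓝[≠] z, w ∈ Metric.ball (0 : ℂ) 1 :=
            nhdsWithin_le_nhds (Metric.isOpen_ball.mem_nhds hz)
          filter_upwards [h3, self_mem_nhdsWithin] with w hw hwz
          exact hb1 w hw hwz
        · exact hb1 z hz hzα
      have h1 := ih _ hdeg P' F' rfl hP'0 hc2 hb2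
      rw [hPe, hFe, norm_mul, norm_mul]
      have h2 := mul_le_mul_of_nonneg_left h1 (norm_nonneg (0 - α))
      calc ‖0 - α‖ * ‖F'.eval 0‖ ≤ ‖0 - α‖ * (K * ‖P'.eval 0‖) := h2
        _ = _ := by ring
    · push Not at hroot
      have hcl : ∀ z ∈ Metric.closedBall (0 : ℂ) 1, P.eval z ≠ 0 := fun z hz =>
        hroot z (by simpa using hz)
      have hd : DiffContOnCl ℂ (fun z => F.eval z / P.eval z) (Metric.ball (0 : ℂ) 1) := by
        refine ⟨?_, ?_⟩
        · intro z hz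
          exact ((F.differentiable z).div (P.differentiable z)
            (hcl z (Metric.ball_subset_closedBall hz))).differentiableWithinAt
        · rw [closure_ball _ one_ne_zero]
          exact F.continuous.continuousOn.div P.continuous.continuousOn hcl
      have h1 := Complex.norm_le_of_forall_mem_frontier_norm_le Metric.isBounded_ball hd (C := K) (by
        intro z hz
        rw [frontier_ball _ one_ne_zero] at hz
        have hz' : ‖z‖ = 1 := by simpa using hz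
        rw [norm_div, div_le_iff₀ (norm_pos_iff.2 (hcl z (by simp [hz'])))]
        exact hc z hz') (z := 0) (subset_closure (by simp))
      rw [norm_div, div_le_iff₀ (norm_pos_iff.2 (hcl 0 (by simp)))] at h1
      exact h1

/-- the peak function at `t₀` -/
theorem Nk_peak (t₀ t : ℝ) :
    ‖(1 / 2 : ℂ) * (1 + exp (-(t₀ * I)) * exp (t * I))‖ ^ 2 = (1 + Real.cos (t - t₀)) / 2 := by
  have e : exp (-(t₀ * I)) * exp (t * I) = exp (((t - t₀ : ℝ) : ℂ) * I) := by
    rw [← Complex.exp_add]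
    congr 1
    push_cast
    ring
  rw [e, norm_mul, mul_pow, ← Complex.normSq_eq_norm_sq (1 + _), Complex.normSq_apply]
  have h1 : (exp (((t - t₀ : ℝ) : ℂ) * I)).re = Real.cos (t - t₀) :=
    Complex.exp_ofReal_mul_I_re _
  have h2 : (exp (((t - t₀ : ℝ) : ℂ) * I)).im = Real.sin (t - t₀) :=
    Complex.exp_ofReal_mul_I_im _
  rw [Complex.add_re, Complex.add_im, h1, h2, Complex.one_re, Complex.one_im]
  have h3 := Real.sin_sq_add_cos_sq (t - t₀)
  norm_num
  nlinarith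

theorem Nk_cos_lt {t₀ t : ℝ} (h0 : t₀ ∈ Ioo 0 (2 * π)) (ht : t ∈ Icc 0 (2 * π)) (hne : t ≠ t₀) :
    Real.cos (t - t₀) < 1 := by
  refine lt_of_le_of_ne (Real.cos_le_one _) fun h => ?_
  rw [Real.cos_eq_one_iff_of_lt_of_lt] at h
  · exact hne (by linarith)
  · have := ht.1
    have := h0.2
    linarith
  · have := ht.2
    have := h0.1
    linarith

theorem Nk_nonneg {w : ℝ → ℝ} (hw : Continuous w)
    (h : ∀ s : Polynomial ℂ, 0 ≤ ∫ t in (0 : ℝ)..(2 * π), w t * ‖s.eval (exp (t * I))‖ ^ 2) :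
    ∀ t ∈ Icc 0 (2 * π), 0 ≤ w t := by
  have hπ := Real.pi_pos
  have h1 : ∀ t ∈ Ioo 0 (2 * π), 0 ≤ w t := by
    intro t₀ ht₀
    have hlim := tendsto_setIntegral_pow_smul_of_unique_maximum_of_isCompact_of_continuousOn
      (μ := volume) (s := Icc 0 (2 * π)) (x₀ := t₀) (g := w) isCompact_Icc
      (c := fun t => (1 + Real.cos (t - t₀)) / 2) (by fun_prop)
      (by
        intro t ht hne
        have := Nk_cos_lt ht₀ ht hne
        simp only [sub_self, Real.cos_zero]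
        linarith)
      (by
        intro t _
        have := Real.neg_one_le_cos (t - t₀)
        show 0 ≤ (1 + Real.cos (t - t₀)) / 2
        linarith)
      (by simp) (by
        rw [interior_Icc, closure_Ioo (by positivity : (0 : ℝ) ≠ 2 * π)]
        exact Ioo_subset_Icc_self ht₀) hw.continuousOn
    refine ge_of_tendsto' hlim fun n => ?_
    have hc : ∀ t : ℝ, 0 ≤ (1 + Real.cos (t - t₀)) / 2 := by
      intro t
      have := Real.neg_one_le_cos (t - t₀)
      linarith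
    refine smul_nonneg (inv_nonneg.2 (integral_nonneg fun t => pow_nonneg (hc t) n)) ?_
    have h2 := h ((Polynomial.C (1 / 2 : ℂ) * (1 + Polynomial.C (exp (-(t₀ * I))) *
      Polynomial.X)) ^ n)
    rw [intervalIntegral.integral_of_le (by positivity), ← integral_Icc_eq_integral_Ioc] at h2
    have e : ∀ t : ℝ, ((1 + Real.cos (t - t₀)) / 2) ^ n • w t =
        w t * ‖((Polynomial.C (1 / 2 : ℂ) * (1 + Polynomial.C (exp (-(t₀ * I))) *
          Polynomial.X)) ^ n).eval (exp (t * I))‖ ^ 2 := by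
      intro t
      rw [← Nk_peak, Polynomial.eval_pow, Polynomial.eval_mul, Polynomial.eval_add,
        Polynomial.eval_mul, Polynomial.eval_C, Polynomial.eval_C, Polynomial.eval_X,
        Polynomial.eval_one, norm_pow, smul_eq_mul, ← pow_mul, ← pow_mul]
      ring
    simp only [e]
    exact h2
  intro t ht
  have h3 : IsClosed {t | 0 ≤ w t} := isClosed_le continuous_const hw
  have h4 : closure (Ioo 0 (2 * π)) ⊆ {t | 0 ≤ w t} := closure_minimal (fun t ht => h1 t ht) h3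
  rw [closure_Ioo (by positivity : (0 : ℝ) ≠ 2 * π)] at h4
  exact h4 ht

/-- the polynomial `Hf` -/
noncomputable def NkP (a : ℝ) (γ β : ℂ) : Polynomial ℂ :=
  Polynomial.C (β / 2) + Polynomial.C (γ / 2) * Polynomial.X +
    Polynomial.C (a : ℂ) * Polynomial.X ^ 2 + Polynomial.C (conj γ / 2) * Polynomial.X ^ 3 +
    Polynomial.C (conj β / 2) * Polynomial.X ^ 4

theorem NkP_eval (a : ℝ) (γ β z : ℂ) : (NkP a γ β).eval z = Hf a γ β z := by
  simp [NkP, Hf]

theorem NkP_ne {a : ℝ} {γ β : ℂ} (h1 : ‖γ‖ + |a| + ‖β‖ = 1) : NkP a γ β ≠ 0 := by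
  intro h
  have h0 : (NkP a γ β).coeff 0 = β / 2 := by
    simp [NkP, Polynomial.coeff_X]
  have h01 : (NkP a γ β).coeff 1 = γ / 2 := by
    simp [NkP, Polynomial.coeff_C]
  have h02 : (NkP a γ β).coeff 2 = a := by
    simp [NkP]
  rw [h, Polynomial.coeff_zero] at h0 h01 h02
  have hβ : β = 0 := by
    have := h0.symm
    simpa using this
  have hγ : γ = 0 := by
    have := h01.symm
    simpa using this
  have ha : a = 0 := by exact_mod_cast h02.symm
  rw [hβ, hγ, ha] at h1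
  simp at h1

theorem Nk_Hf {a : ℝ} {γ β z : ℂ} (hz : ‖z‖ = 1) : ‖Hf a γ β z‖ = |hf a γ β z| := by
  have hzz : z * conj z = 1 := by
    rw [Complex.mul_conj, Complex.normSq_eq_norm_sq, hz]
    simp
  have e : Hf a γ β z = z ^ 2 * (hf a γ β z : ℂ) := by
    unfold Hf hf
    push_cast
    rw [Complex.re_eq_add_conj, Complex.re_eq_add_conj]
    simp only [map_mul, map_pow, Complex.conj_conj]
    have e1 : z ^ 2 * (γ * conj z) = γ * z := by
      calc z ^ 2 * (γ * conj z) = γ * z * (z * conj z) := by ring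
        _ = γ * z := by rw [hzz, mul_one]
    have e2 : z ^ 2 * (β * conj z ^ 2) = β := by
      calc z ^ 2 * (β * conj z ^ 2) = β * (z * conj z) ^ 2 := by ring
        _ = β := by rw [hzz, one_pow, mul_one]
    linear_combination (-(1 : ℂ) / 2) * e1 + (-(1 : ℂ) / 2) * e2
  rw [e, norm_mul, norm_pow, hz, one_pow, one_mul, Complex.norm_real, Real.norm_eq_abs]

theorem alg {a : ℝ} {γ β : ℂ} (h1 : ‖γ‖ + |a| + ‖β‖ = 1) {m₀ : ℂ → ℂ} (hm₀ : DifferentiableOn ℂ m₀ (Metric.ball 0 1))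
    {Q : Polynomial ℂ} (hQ : ∀ z ∈ Metric.ball (0 : ℂ) 1, m₀ z * Hf a γ β z = Q.eval z) {l₀ : ℝ} (hl₀ : |l₀| < 1)
    (hi : ∀ s : Polynomial ℂ, 2 * ∫ t in (0 : ℝ)..(2 * π), ‖Q.eval (exp (t * I))‖ ^ 4 * ‖s.eval (exp (t * I))‖ ^ 2 ≤
      -(l₀ * (β * m₀ 0 ^ 2).re) * hint a γ β (fun z => ‖Q.eval z‖ ^ 2 * ‖s.eval z‖ ^ 2)) :
    β * m₀ 0 ^ 2 = 0 := by
  have hπ := Real.pi_pos
  obtain ⟨κ, hκ⟩ : ∃ κ : ℝ, κ = -(l₀ * (β * m₀ 0 ^ 2).re) / 2 := ⟨_, rfl⟩
  have hexp : Continuous fun t : ℝ => exp (t * I) := by fun_prop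
  have hcQ : ∀ s : Polynomial ℂ, Continuous fun t : ℝ => ‖s.eval (exp (t * I))‖ := fun s =>
    (s.continuous.comp hexp).norm
  have hch : Continuous fun t : ℝ => hf a γ β (exp (t * I)) := by
    unfold hf
    fun_prop
  have hw : Continuous fun t : ℝ => ‖Q.eval (exp (t * I))‖ ^ 2 *
      (κ * hf a γ β (exp (t * I)) - ‖Q.eval (exp (t * I))‖ ^ 2) :=
    ((hcQ Q).pow 2).mul ((continuous_const.mul hch).sub ((hcQ Q).pow 2))
  have hpt := Nk_nonneg hw (by
    intro s
    have h2 := hi s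
    have e1 : (fun t : ℝ => ‖Q.eval (exp (t * I))‖ ^ 2 *
        (κ * hf a γ β (exp (t * I)) - ‖Q.eval (exp (t * I))‖ ^ 2) * ‖s.eval (exp (t * I))‖ ^ 2) =
        fun t : ℝ => κ * (hf a γ β (exp (t * I)) *
          (‖Q.eval (exp (t * I))‖ ^ 2 * ‖s.eval (exp (t * I))‖ ^ 2)) -
          ‖Q.eval (exp (t * I))‖ ^ 4 * ‖s.eval (exp (t * I))‖ ^ 2 := by
      funext t
      ring
    have i1 : Continuous fun t : ℝ => hf a γ β (exp (t * I)) *
        (‖Q.eval (exp (t * I))‖ ^ 2 * ‖s.eval (exp (t * I))‖ ^ 2) :=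
      hch.mul (((hcQ Q).pow 2).mul ((hcQ s).pow 2))
    have i2 : Continuous fun t : ℝ => ‖Q.eval (exp (t * I))‖ ^ 4 * ‖s.eval (exp (t * I))‖ ^ 2 :=
      ((hcQ Q).pow 4).mul ((hcQ s).pow 2)
    rw [e1, intervalIntegral.integral_sub ((i1.const_mul κ).intervalIntegrable _ _)
      (i2.intervalIntegrable _ _), intervalIntegral.integral_const_mul]
    unfold hint at h2
    have e2 : -(l₀ * (β * m₀ 0 ^ 2).re) = 2 * κ := by rw [hκ]; ring
    rw [e2] at h2
    linarith)
  have hcirc : ∀ z : ℂ, ‖z‖ = 1 → ‖(Q ^ 2).eval z‖ ≤ |κ| * ‖(NkP a γ β).eval z‖ := by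
    intro z hz
    obtain ⟨t, ht, rfl⟩ : ∃ t ∈ Icc 0 (2 * π), exp (t * I) = z := by
      have harg : exp (arg z * I) = z := by
        have := Complex.norm_mul_exp_arg_mul_I z
        rwa [hz, Complex.ofReal_one, one_mul] at this
      by_cases h0 : 0 ≤ arg z
      · exact ⟨arg z, ⟨h0, by linarith [Complex.arg_le_pi z]⟩, harg⟩
      · push Not at h0
        refine ⟨arg z + 2 * π, ⟨by linarith [Complex.neg_pi_lt_arg z], by linarith⟩, ?_⟩
        push_cast
        rw [add_mul, Complex.exp_add, Complex.exp_two_pi_mul_I, mul_one]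
        exact harg
    have h2 : 0 ≤ ‖Q.eval (exp (t * I))‖ ^ 2 *
      (κ * hf a γ β (exp (t * I)) - ‖Q.eval (exp (t * I))‖ ^ 2) := hpt t ht
    rw [NkP_eval, Nk_Hf hz, Polynomial.eval_pow, norm_pow, ← abs_mul]
    by_cases hQ0 : ‖Q.eval (exp (t * I))‖ = 0
    · rw [hQ0, abs_mul, zero_pow two_ne_zero]
      positivity
    · have h3 : 0 < ‖Q.eval (exp (t * I))‖ ^ 2 := by positivity
      have h4 := nonneg_of_mul_nonneg_right h2 h3
      have h5 := le_abs_self (κ * hf a γ β (exp (t * I)))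
      linarith
  have hmain := Nk_max (K := |κ|) (g := fun z => m₀ z * Q.eval z)
    (hm₀.continuousOn.mul Q.continuous.continuousOn) _ (NkP a γ β) (Q ^ 2) rfl (NkP_ne h1) hcirc (by
      intro z hz
      rw [NkP_eval, Polynomial.eval_pow, pow_two]
      have := hQ z hz
      show _ = m₀ z * Q.eval z * Hf a γ β z
      rw [← this]
      ring)
  have hQ0 := hQ 0 (by simp)
  have hH0 : Hf a γ β 0 = β / 2 := by simp [Hf]
  rw [hH0] at hQ0
  rw [NkP_eval, hH0, Polynomial.eval_pow, ← hQ0, norm_pow, norm_mul, norm_div] at hmain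
  have h2n : ‖(2 : ℂ)‖ = 2 := by simp
  rw [h2n] at hmain
  have hκb : |κ| ≤ |l₀| * (‖β‖ * ‖m₀ 0‖ ^ 2) / 2 := by
    rw [hκ, abs_div, abs_neg, abs_mul, abs_two]
    have h3 : |(β * m₀ 0 ^ 2).re| ≤ ‖β‖ * ‖m₀ 0‖ ^ 2 := by
      have := Complex.abs_re_le_norm (β * m₀ 0 ^ 2)
      rwa [norm_mul, norm_pow] at this
    have h4 := mul_le_mul_of_nonneg_left h3 (abs_nonneg l₀)
    linarith
  have hβ := norm_nonneg β
  have hm := norm_nonneg (m₀ 0)
  have h5 : |κ| * (‖β‖ / 2) ≤ |l₀| * (‖β‖ * ‖m₀ 0‖ ^ 2) / 2 * (‖β‖ / 2) :=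
    mul_le_mul_of_nonneg_right hκb (by positivity)
  have h6 : (1 - |l₀|) * (‖β‖ * ‖m₀ 0‖) ^ 2 ≤ 0 := by nlinarith
  have h7 : (‖β‖ * ‖m₀ 0‖) ^ 2 ≤ 0 := by
    by_contra hcon
    push Not at hcon
    have : 0 < (1 - |l₀|) * (‖β‖ * ‖m₀ 0‖) ^ 2 := mul_pos (by linarith) hcon
    linarith
  have h8 : ‖β‖ * ‖m₀ 0‖ = 0 := by
    have := pow_eq_zero_iff (two_ne_zero) |>.1 (le_antisymm h7 (sq_nonneg _))
    exact this
  rcases mul_eq_zero.1 h8 with h9 | h9
  · rw [norm_eq_zero.1 h9, zero_mul]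
  · rw [norm_eq_zero.1 h9]
    simp

end ND1
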