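import Pool.Agent.H1.ND.Nc
import Pool.Agent.H1.ND.Nd

/-!
ROW ND/Ni. The limit field times `H` is a polynomial of degree at most 2. For `k ≥ 1` take `A = z^k` in `Sol.idn`: `∫_{E₁} conj m z^k - ∫_{E₂} conj m z^k + R₁ - R₂ = 0`. Divide by `d`: the first difference tends to `-conj (2π y_k)`, `y_k = a co m₀ k + conj γ/2 co m₀ (k-1) + γ/2 co m₀ (k+1) + conj β/2 co m₀ (k-2) + β/2 co m₀ (k+2)`
(`E1lim` for `F = m`, conjugated), the second to `-π l₀ β 0^k m₀(0) = 0` (`RRlim`). So `y_k = 0` for `k ≥ 1`. `y_k` is the Taylor coefficient of order `k + 2` of `m₀ Hf` (circle integral on the radius `1/2`, `co` of a product with a polynomial shifts the index), so all Taylor coefficients of `m₀ Hf` of order `≥ 3` are zero.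
-/

set_option autoImplicit false

namespace ND1

open Complex Set Filter Topology MeasureTheory EW1 EX1
open scoped ComplexConjugate ContDiff Real

theorem pt_ne' (t : ℝ) : pt t ≠ 0 := by
  unfold pt
  exact mul_ne_zero (by norm_num) (exp_ne_zero _)

theorem pt_cont' : Continuous pt := by
  unfold pt
  fun_prop

theorem pt_norm' (t : ℝ) : ‖pt t‖ = 1 / 2 := by
  unfold pt
  rw [norm_mul, Complex.norm_exp_ofReal_mul_I]
  norm_num

theorem pt_mem' (t : ℝ) : pt t ∈ Metric.ball (0 : ℂ) 1 := by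
  rw [mem_ball_zero_iff, pt_norm']
  norm_num

theorem co_H {m₀ : ℂ → ℂ} (hm : ContinuousOn m₀ (Metric.ball 0 1)) (a : ℝ) (γ β : ℂ) (k : ℤ) :
    co (fun z => m₀ z * Hf a γ β z) (k + 2) = a * co m₀ k + conj γ / 2 * co m₀ (k - 1) + γ / 2 * co m₀ (k + 1) +
      conj β / 2 * co m₀ (k - 2) + β / 2 * co m₀ (k + 2) := by
  have hmc : Continuous fun t : ℝ => m₀ (pt t) := hm.comp_continuous pt_cont' pt_mem'
  have hc : ∀ (n : ℤ) (x : ℂ), Continuous fun t : ℝ => x * (m₀ (pt t) * pt t ^ (-n)) := fun n x =>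
    continuous_const.mul (hmc.mul (pt_cont'.zpow₀ _ fun t => Or.inl (pt_ne' t)))
  have hi : ∀ (n : ℤ) (x : ℂ), IntervalIntegrable (fun t : ℝ => x * (m₀ (pt t) * pt t ^ (-n))) volume 0 (2 * π) := fun n x =>
    (hc n x).intervalIntegrable _ _
  have h1 : (fun t : ℝ => m₀ (pt t) * Hf a γ β (pt t) * pt t ^ (-(k + 2))) = fun t : ℝ =>
      (a : ℂ) * (m₀ (pt t) * pt t ^ (-k)) + conj γ / 2 * (m₀ (pt t) * pt t ^ (-(k - 1))) + γ / 2 * (m₀ (pt t) * pt t ^ (-(k + 1))) +
        conj β / 2 * (m₀ (pt t) * pt t ^ (-(k - 2))) + β / 2 * (m₀ (pt t) * pt t ^ (-(k + 2))) := by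
    funext t
    have hw := pt_ne' t
    set w := pt t
    have e1 : w ^ (-(k - 1)) = w ^ (-k) * w := by
      rw [show -(k - 1) = -k + 1 by ring, zpow_add₀ hw, zpow_one]
    have e2 : w ^ (-(k + 1)) = w ^ (-k) * w⁻¹ := by
      rw [show -(k + 1) = -k + -1 by ring, zpow_add₀ hw, zpow_neg_one]
    have e3 : w ^ (-(k - 2)) = w ^ (-k) * w ^ 2 := by
      rw [show -(k - 2) = -k + 2 by ring, zpow_add₀ hw]
      norm_cast
    have e4 : w ^ (-(k + 2)) = w ^ (-k) * (w ^ 2)⁻¹ := by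
      rw [show -(k + 2) = -k + -2 by ring, zpow_add₀ hw]
      norm_cast
    rw [e1, e2, e3, e4]
    unfold Hf
    field_simp
    ring
  unfold co
  rw [h1, intervalIntegral.integral_add (((hi _ _).add (hi _ _)).add (hi _ _) |>.add (hi _ _)) (hi _ _),
    intervalIntegral.integral_add (((hi _ _).add (hi _ _)).add (hi _ _)) (hi _ _),
    intervalIntegral.integral_add ((hi _ _).add (hi _ _)) (hi _ _),
    intervalIntegral.integral_add (hi _ _) (hi _ _),
    intervalIntegral.integral_const_mul, intervalIntegral.integral_const_mul, intervalIntegral.integral_const_mul,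
    intervalIntegral.integral_const_mul, intervalIntegral.integral_const_mul]
  ring

theorem Ni_co_pow {G : ℂ → ℂ} (hG : DifferentiableOn ℂ G (Metric.ball 0 1)) {y : ℂ} (hy : ‖y‖ < 1 / 2) :
    HasSum (fun n : ℕ => co G n * y ^ n) (G y) := by
  have h1 : DifferentiableOn ℂ G (Metric.closedBall 0 (((1 / 2 : NNReal)) : ℝ)) :=
    hG.mono (Metric.closedBall_subset_ball (by norm_num))
  have h2 := h1.hasFPowerSeriesOnBall (by norm_num)
  have h3 := h2.hasSum (y := y) (by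
    rw [Metric.mem_eball, edist_zero_right, enorm_eq_nnnorm]
    rw [ENNReal.coe_lt_coe, ← NNReal.coe_lt_coe]
    simpa using hy)
  rw [zero_add] at h3
  have h4 : (fun n : ℕ => cauchyPowerSeries G 0 (((1 / 2 : NNReal)) : ℝ) n fun _ => y) = fun n : ℕ => co G n * y ^ n := by
    funext n
    rw [cauchyPowerSeries_apply]
    unfold circleIntegral co
    have h5 : (fun θ : ℝ => deriv (circleMap 0 (((1 / 2 : NNReal)) : ℝ)) θ • ((y / (circleMap 0 (((1 / 2 : NNReal)) : ℝ) θ - 0)) ^ n •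
        (circleMap 0 (((1 / 2 : NNReal)) : ℝ) θ - 0)⁻¹ • G (circleMap 0 (((1 / 2 : NNReal)) : ℝ) θ))) =
        fun θ : ℝ => (I * y ^ n) * (G (pt θ) * pt θ ^ (-(n : ℤ))) := by
      funext θ
      have e : circleMap 0 (((1 / 2 : NNReal)) : ℝ) θ = pt θ := by
        unfold circleMap pt
        push_cast
        ring
      rw [deriv_circleMap, e, sub_zero, smul_eq_mul, smul_eq_mul, smul_eq_mul, zpow_neg, zpow_natCast, div_pow]
      have hw := pt_ne' θ
      field_simp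
    rw [h5, intervalIntegral.integral_const_mul, smul_eq_mul]
    have hI : (2 * π * I : ℂ) ≠ 0 := two_pi_I_ne_zero
    have hπ : (π : ℂ) ≠ 0 := by exact_mod_cast Real.pi_ne_zero
    field_simp
  rw [h4] at h3
  exact h3

theorem poly_of_co {G : ℂ → ℂ} (hG : DifferentiableOn ℂ G (Metric.ball 0 1)) (h : ∀ n : ℕ, 3 ≤ n → co G n = 0) :
    ∃ Q : Polynomial ℂ, ∀ z ∈ Metric.ball (0 : ℂ) 1, G z = Q.eval z := by
  refine ⟨∑ n ∈ Finset.range 3, Polynomial.C (co G n) * Polynomial.X ^ n, ?_⟩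
  set Q : Polynomial ℂ := ∑ n ∈ Finset.range 3, Polynomial.C (co G n) * Polynomial.X ^ n with hQ
  have h1 : ∀ z : ℂ, ‖z‖ < 1 / 2 → G z = Q.eval z := by
    intro z hz
    have h2 := Ni_co_pow hG hz
    have h3 : HasSum (fun n : ℕ => co G n * z ^ n) (∑ n ∈ Finset.range 3, co G n * z ^ n) := by
      apply hasSum_sum_of_ne_finset_zero
      intro n hn
      rw [h n (by simpa using hn), zero_mul]
    rw [h2.unique h3, hQ, Polynomial.eval_finsetSum]
    exact Finset.sum_congr rfl fun n _ => by simp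
  have h4 : AnalyticOnNhd ℂ G (Metric.ball 0 1) := hG.analyticOnNhd Metric.isOpen_ball
  have h5 : AnalyticOnNhd ℂ (fun z => Q.eval z) (Metric.ball 0 1) :=
    (Polynomial.differentiable Q).differentiableOn.analyticOnNhd Metric.isOpen_ball
  have h6 : EqOn G (fun z => Q.eval z) (Metric.ball 0 1) := by
    apply h4.eqOn_of_preconnected_of_eventuallyEq h5 (convex_ball _ _).isPreconnected (Metric.mem_ball_self one_pos)
    filter_upwards [Metric.ball_mem_nhds (0 : ℂ) (show (0 : ℝ) < 1 / 2 by norm_num)] with z hz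
    exact h1 z (by simpa using hz)
  exact h6

theorem Qpoly {S : Sq} {a : ℝ} {γ β : ℂ} (hS : Lim S a γ β) {l : ℕ → ℝ} {l₀ : ℝ} (hl : ∀ j, |l j| ≤ 1) (hl₀ : Tendsto l atTop (𝓝 l₀))
    {N : ℕ → Set ℂ} {m : ℕ → ℂ → ℂ} {m₀ : ℂ → ℂ} (hs : Sol S l N m) (hm : LB S m m₀) :
    ∃ Q : Polynomial ℂ, ∀ z ∈ Metric.ball (0 : ℂ) 1, m₀ z * Hf a γ β z = Q.eval z := by
  have hH : Differentiable ℂ fun z => Hf a γ β z := by
    unfold Hf
    fun_prop
  apply poly_of_co (G := fun z => m₀ z * Hf a γ β z) (hm.hol0.mul hH.differentiableOn)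
  intro n hn
  obtain ⟨k, rfl⟩ : ∃ k : ℕ, n = k + 2 := ⟨n - 2, by omega⟩
  have hk : 1 ≤ k := by omega
  have h0 := co_H hm.hol0.continuousOn a γ β k
  push_cast
  rw [h0]
  have h1 := E1lim hS hm k
  have h2 := (Complex.continuous_conj.tendsto _).comp h1
  have h3 := RRlim hS (LB.const hS (f := fun z => z ^ k) (by fun_prop)) hm hl hl₀
  have h4 : ∀ j, (conj : ℂ → ℂ) (((∫ z in S.E₂ 1 j, m j z * conj z ^ k) - ∫ z in S.E₁ 1 j, m j z * conj z ^ k) / (S.d j : ℂ)) =
      (S.R₁ l (fun _ z => z ^ k) m j - S.R₂ l (fun _ z => z ^ k) m j) / (S.d j : ℂ) := by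
    intro j
    have h5 := hs.idn j (fun z => z ^ k) (by fun_prop)
    unfold Idn at h5
    have e : ∀ E : Set ℂ, (conj : ℂ → ℂ) (∫ z in E, m j z * conj z ^ k) = ∫ z in E, conj (m j z) * z ^ k := by
      intro E
      rw [← integral_conj]
      congr 1
      funext z
      simp
    rw [map_div₀, map_sub, e, e, conj_ofReal]
    congr 1
    unfold Sq.R₁ Sq.R₂ Sq.E₁ Sq.E₂
    linear_combination -h5
  have h6 : Tendsto (fun j => (S.R₁ l (fun _ z => z ^ k) m j - S.R₂ l (fun _ z => z ^ k) m j) / (S.d j : ℂ)) atTop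
      (𝓝 (conj (2 * π * (a * co m₀ k + conj γ / 2 * co m₀ (k - 1) + γ / 2 * co m₀ (k + 1) + conj β / 2 * co m₀ (k - 2) +
        β / 2 * co m₀ (k + 2))))) := by
    refine h2.congr fun j => ?_
    exact h4 j
  have h7 := tendsto_nhds_unique h6 h3
  have h8 : -(π * l₀ * β * (0 : ℂ) ^ k * m₀ 0) = 0 := by
    rw [zero_pow (by omega)]
    ring
  rw [h8, map_eq_zero] at h7
  have h9 : (2 * π : ℂ) ≠ 0 := by
    have : (π : ℂ) ≠ 0 := by exact_mod_cast Real.pi_ne_zero
    exact mul_ne_zero two_ne_zero this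
  exact (mul_eq_zero.1 h7).resolve_left h9

end ND1
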