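import Pool.Agent.H1.ND.Nh
import Pool.Agent.H1.ND.Ni
import Pool.Agent.H1.ND.Nj
import Pool.Agent.H1.ND.Nk
import Pool.Agent.H1.EX.Xh

/-!
ROW ND/Nl. Compactness. Suppose the statement is false: for every `j` there are data with `δ = 1/(100 (j+2))` and `m z ≠ 0` for some `z` of the first ellipse. `NN > 0` (otherwise `m = 0` on all `Dp 0 1 μ₁ τ`, `τ < 1`, by `F3n` (`EX/Xh.lean`) with `r₀ = 1/2`, `R = 2`, `μ₀ = 1/100`); multiply `m` by the positive number `d/√NN`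
(`Idn` is linear over the reals in `m`: `RR`, `fc`, `rt` are): `NN = d²`. `F3n` for both orders (`NN_symm`, `dd_symm`): `‖m_j‖ ≤ C_σ` on `E₁ σ ∪ E₂ σ` (`dd ‖m‖ ≤ C √NN = C dd`). Subsequence (`IsCompact.tendsto_subseq` in a countable product of compact sets): `l_j`, `c₂/d`, `(r₂-1)/d`, `(μ₂-μ₁)/d` converge
(they are bounded by 1; the limits have `‖γ‖ + |a| + ‖β‖ = 1` since `d/d = 1`), and all Taylor coefficients at `0` of `m_j` (Cauchy estimates: bounded by `C_s s^(-n)`, the ball `ball 0 s` is in `E₁ σ j` for `s < σ/(1+‖μ₁‖)`, at least for large `j`; drop finitely many `j`); `m₀` = the sum of the limit series, pointwise convergence on the unit disk by dominated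
convergence. So `Lim`, `LB`, `Sol` hold for the subsequence. `Qpoly`, `T1lim`, `Pineq`, `alg` (`|l₀| ≤ L < 1`) give `β m₀(0)² = 0`, but `T1lim` with `g = 1`: the sequence is constant `1` (`Sol.nn`; `NN` is the integral) and the limit is `0`: contradiction.
-/

set_option autoImplicit false

namespace ND1

open Complex Set Filter Topology MeasureTheory EW1 EX1
open scoped ComplexConjugate ContDiff Real

theorem nl_cauchy {f : ℂ → ℂ} {s ρ C : ℝ} (hρ : 0 < ρ) (hs : ρ < s) (hd : DifferentiableOn ℂ f (Metric.ball 0 s))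
    (hC : ∀ z ∈ Metric.ball (0 : ℂ) s, ‖f z‖ ≤ C) (n : ℕ) :
    ‖((n.factorial : ℂ))⁻¹ * iteratedDeriv n f 0‖ ≤ C / ρ ^ n := by
  have h1 : ‖iteratedDeriv n f 0‖ ≤ n.factorial * C / ρ ^ n := by
    refine Complex.norm_iteratedDeriv_le_of_forall_mem_sphere_norm_le n hρ ?_ ?_
    · refine DifferentiableOn.diffContOnCl ?_
      rw [closure_ball _ hρ.ne']
      exact hd.mono (Metric.closedBall_subset_ball hs)
    · intro z hz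
      exact hC z (Metric.sphere_subset_closedBall.trans (Metric.closedBall_subset_ball hs) hz)
  have h2 : (0 : ℝ) < n.factorial := by exact_mod_cast Nat.factorial_pos n
  rw [norm_mul, norm_inv, Complex.norm_natCast, inv_mul_le_iff₀ h2]
  calc ‖iteratedDeriv n f 0‖ ≤ n.factorial * C / ρ ^ n := h1
    _ = n.factorial * (C / ρ ^ n) := by ring

theorem nl_tsum {f : ℂ → ℂ} {s : ℝ} (hd : DifferentiableOn ℂ f (Metric.ball 0 s)) {z : ℂ} (hz : z ∈ Metric.ball (0 : ℂ) s) :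
    ∑' n : ℕ, (((n.factorial : ℂ))⁻¹ * iteratedDeriv n f 0) * z ^ n = f z := by
  simpa using Complex.taylorSeries_eq_on_ball' hz hd

theorem nl_montel {F : ℕ → ℂ → ℂ} (h : ∀ s : ℝ, 0 < s → s < 1 → ∃ (J : ℕ) (C : ℝ), ∀ j ≥ J,
    DifferentiableOn ℂ (F j) (Metric.ball 0 s) ∧ ∀ z ∈ Metric.ball (0 : ℂ) s, ‖F j z‖ ≤ C) :
    ∃ φ : ℕ → ℕ, StrictMono φ ∧ ∃ F₀ : ℂ → ℂ, DifferentiableOn ℂ F₀ (Metric.ball 0 1) ∧
      ∀ z ∈ Metric.ball (0 : ℂ) 1, Tendsto (fun j => F (φ j) z) atTop (𝓝 (F₀ z)) := by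
  set a : ℕ → ℕ → ℂ := fun j n => ((n.factorial : ℂ))⁻¹ * iteratedDeriv n (F j) 0 with ha
  obtain ⟨J₀, C₀, h0⟩ := h (1 / 2) (by norm_num) (by norm_num)
  have hb : ∀ j, (fun n => a (j + J₀) n) ∈ Set.pi Set.univ (fun n : ℕ => Metric.closedBall (0 : ℂ) (C₀ / (1 / 4) ^ n)) := by
    intro j n _
    rw [mem_closedBall_zero_iff]
    obtain ⟨h1, h2⟩ := h0 (j + J₀) (by omega)
    exact nl_cauchy (by norm_num) (by norm_num) h1 h2 n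
  obtain ⟨b, -, φ, hφ, hlim⟩ := (isCompact_univ_pi fun n : ℕ => isCompact_closedBall (0 : ℂ) (C₀ / (1 / 4) ^ n)).tendsto_subseq hb
  have hlim' : ∀ n, Tendsto (fun j => a (φ j + J₀) n) atTop (𝓝 (b n)) := fun n => (tendsto_pi_nhds.1 hlim) n
  have hψ : StrictMono fun j => φ j + J₀ := fun i j hij => by
    have := hφ hij
    show φ i + J₀ < φ j + J₀
    omega
  have hbd : ∀ s ρ : ℝ, 0 < ρ → ρ < s → s < 1 → ∃ C : ℝ, (∀ n, ‖b n‖ ≤ C / ρ ^ n) ∧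
      ∀ᶠ j in atTop, DifferentiableOn ℂ (F (φ j + J₀)) (Metric.ball 0 s) ∧ ∀ n, ‖a (φ j + J₀) n‖ ≤ C / ρ ^ n := by
    intro s ρ hρ hρs hs
    obtain ⟨J, C, hJ⟩ := h s (hρ.trans hρs) hs
    have hev : ∀ᶠ j in atTop, DifferentiableOn ℂ (F (φ j + J₀)) (Metric.ball 0 s) ∧ ∀ n, ‖a (φ j + J₀) n‖ ≤ C / ρ ^ n := by
      filter_upwards [eventually_ge_atTop J] with j hj
      obtain ⟨h1, h2⟩ := hJ (φ j + J₀) (by have := hφ.id_le j; simp only [id] at this; omega)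
      exact ⟨h1, fun n => nl_cauchy hρ hρs h1 h2 n⟩
    refine ⟨C, fun n => ?_, hev⟩
    exact le_of_tendsto (hlim' n).norm (hev.mono fun j hj => hj.2 n)
  refine ⟨fun j => φ j + J₀, hψ, fun z => ∑' n : ℕ, b n * z ^ n, ?_, ?_⟩
  · intro z hz
    rw [mem_ball_zero_iff] at hz
    obtain ⟨s, hs1, hs2⟩ := exists_between hz
    obtain ⟨ρ, hρ1, hρ2⟩ := exists_between hs1
    obtain ⟨ρ', hρ'1, hρ'2⟩ := exists_between hρ1
    have hρ' : 0 < ρ' := (norm_nonneg z).trans_lt hρ'1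
    have hρ : 0 < ρ := hρ'.trans hρ'2
    obtain ⟨C, hC, -⟩ := hbd s ρ hρ hρ2 hs2
    have h1 : DifferentiableOn ℂ (fun z : ℂ => ∑' n : ℕ, b n * z ^ n) (Metric.ball 0 ρ') := by
      refine differentiableOn_tsum_of_summable_norm (u := fun n => C * (ρ' / ρ) ^ n) ?_ ?_ Metric.isOpen_ball ?_
      · exact (summable_geometric_of_lt_one (by positivity) ((div_lt_one hρ).2 hρ'2)).mul_left _
      · intro n
        fun_prop
      · intro n w hw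
        rw [mem_ball_zero_iff] at hw
        rw [norm_mul, norm_pow, div_pow]
        have hw' : ‖w‖ ^ n ≤ ρ' ^ n := pow_le_pow_left₀ (norm_nonneg _) hw.le n
        calc ‖b n‖ * ‖w‖ ^ n ≤ C / ρ ^ n * ρ' ^ n := mul_le_mul (hC n) hw' (by positivity) ((norm_nonneg _).trans (hC n))
          _ = C * (ρ' ^ n / ρ ^ n) := by ring
    exact (h1.differentiableAt (Metric.isOpen_ball.mem_nhds (mem_ball_zero_iff.2 hρ'1))).differentiableWithinAt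
  · intro z hz
    rw [mem_ball_zero_iff] at hz
    obtain ⟨s, hs1, hs2⟩ := exists_between hz
    obtain ⟨ρ, hρ1, hρ2⟩ := exists_between hs1
    have hρ : 0 < ρ := (norm_nonneg z).trans_lt hρ1
    obtain ⟨C, hC, hev⟩ := hbd s ρ hρ hρ2 hs2
    have h1 : Tendsto (fun j => ∑' n : ℕ, a (φ j + J₀) n * z ^ n) atTop (𝓝 (∑' n : ℕ, b n * z ^ n)) := by
      refine tendsto_tsum_of_dominated_convergence (bound := fun n => C * (‖z‖ / ρ) ^ n) ?_ ?_ ?_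
      · exact (summable_geometric_of_lt_one (by positivity) ((div_lt_one hρ).2 hρ1)).mul_left _
      · intro n
        exact (hlim' n).mul_const _
      · filter_upwards [hev] with j hj n
        rw [norm_mul, norm_pow, div_pow]
        calc ‖a (φ j + J₀) n‖ * ‖z‖ ^ n ≤ C / ρ ^ n * ‖z‖ ^ n := mul_le_mul_of_nonneg_right (hj.2 n) (by positivity)
          _ = C * (‖z‖ ^ n / ρ ^ n) := by ring
    refine h1.congr' ?_
    filter_upwards [hev] with j hj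
    exact nl_tsum hj.1 (mem_ball_zero_iff.2 hs1)

theorem nl_vv {μ : ℂ} (hμ : ‖μ‖ < 1) (z : ℂ) : ‖vv 0 1 μ z‖ ≤ ‖z‖ / (1 - ‖μ‖) := by
  have h1 : 0 < 1 - ‖μ‖ := by linarith
  have h2 : 0 < 1 + ‖μ‖ := by linarith [norm_nonneg μ]
  have h3 : (1 : ℝ) - ‖μ‖ ^ 2 = (1 - ‖μ‖) * (1 + ‖μ‖) := by ring
  unfold vv
  rw [sub_zero, norm_div, Complex.norm_real, one_mul, h3, Real.norm_of_nonneg (by positivity), div_le_div_iff₀ (by positivity) h1]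
  have h4 : ‖z - μ * conj z‖ ≤ ‖z‖ * (1 + ‖μ‖) := by
    calc ‖z - μ * conj z‖ ≤ ‖z‖ + ‖μ * conj z‖ := norm_sub_le _ _
      _ = ‖z‖ * (1 + ‖μ‖) := by rw [norm_mul, RCLike.norm_conj]; ring
  calc ‖z - μ * conj z‖ * (1 - ‖μ‖) ≤ ‖z‖ * (1 + ‖μ‖) * (1 - ‖μ‖) := mul_le_mul_of_nonneg_right h4 h1.le
    _ = ‖z‖ * ((1 - ‖μ‖) * (1 + ‖μ‖)) := by ring

theorem nl_fc (c : ℂ) (r : ℝ) (μ : ℂ) (F : ℂ → ℂ) (ρ : ℝ) (n : ℕ) (t : ℝ) :
    fc c r μ (fun z => (t : ℂ) * F z) ρ n = t * fc c r μ F ρ n := by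
  unfold fc
  rw [← mul_div_assoc, ← intervalIntegral.integral_const_mul]
  congr 1
  refine intervalIntegral.integral_congr fun x _ => ?_
  simp only
  ring

theorem nl_RR (c : ℂ) (r : ℝ) (μ : ℂ) (l : ℝ) (A M : ℂ → ℂ) (ρ t : ℝ) :
    RR c r μ l A (fun z => (t : ℂ) * M z) ρ = t * RR c r μ l A M ρ := by
  unfold RR
  have e : ∀ n : ℕ, rt l μ (fc c r μ A ρ (n + 1)) (fc c r μ (fun z => (t : ℂ) * M z) ρ (n + 1)) (n + 1) =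
      t * rt l μ (fc c r μ A ρ (n + 1)) (fc c r μ M ρ (n + 1)) (n + 1) := by
    intro n
    rw [nl_fc]
    unfold rt
    rw [map_mul, Complex.conj_ofReal]
    ring
  rw [tsum_congr e, tsum_mul_left]
  ring

theorem nl_NN (c₁ : ℂ) (r₁ : ℝ) (μ₁ c₂ : ℂ) (r₂ : ℝ) (μ₂ : ℂ) (m : ℂ → ℂ) (t : ℝ) :
    NN c₁ r₁ μ₁ c₂ r₂ μ₂ (fun z => (t : ℂ) * m z) = t ^ 2 * NN c₁ r₁ μ₁ c₂ r₂ μ₂ m := by
  unfold NN
  rw [← integral_const_mul]
  congr 1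
  funext z
  rw [norm_mul, Complex.norm_real, mul_pow, Real.norm_eq_abs, sq_abs]
  ring

theorem nl_Idn {c₁ : ℂ} {r₁ : ℝ} {μ₁ c₂ : ℂ} {r₂ : ℝ} {μ₂ : ℂ} {l ρ : ℝ} {A m : ℂ → ℂ} (t : ℝ)
    (h : Idn c₁ r₁ μ₁ c₂ r₂ μ₂ l ρ A m) : Idn c₁ r₁ μ₁ c₂ r₂ μ₂ l ρ A (fun z => (t : ℂ) * m z) := by
  unfold Idn at h ⊢
  have e : ∀ D : Set ℂ, (∫ z in D, conj ((t : ℂ) * m z) * A z) = t * ∫ z in D, conj (m z) * A z := by
    intro D
    rw [← integral_const_mul]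
    congr 1
    funext z
    rw [map_mul, Complex.conj_ofReal]
    ring
  rw [e, e, nl_RR, nl_RR]
  linear_combination (t : ℂ) * h

theorem near_thm {L : ℝ} (hL : L < 1) : ∃ δ : ℝ, 0 < δ ∧ ∀ (μ₁ c₂ : ℂ) (r₂ : ℝ) (μ₂ : ℂ), ‖μ₁‖ ≤ δ → ‖μ₂‖ ≤ δ →
    0 < dd 0 1 μ₁ c₂ r₂ μ₂ → dd 0 1 μ₁ c₂ r₂ μ₂ ≤ δ → ∀ l : ℝ, |l| ≤ L →
    ∀ (N : Set ℂ) (m : ℂ → ℂ), IsOpen N → Kp 0 1 μ₁ ⊆ N → Kp c₂ r₂ μ₂ ⊆ N → DifferentiableOn ℂ m N →
    (∀ A : ℂ → ℂ, DifferentiableOn ℂ A N → Idn 0 1 μ₁ c₂ r₂ μ₂ l (1 / 2) A m) → ∀ z ∈ Dp 0 1 μ₁ 1, m z = 0 := by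
  by_contra hcon
  push Not at hcon
  -- the uniform bounds
  have hF3 : ∀ σ : ℝ, 0 < σ → σ < 1 → ∃ C : ℝ, 0 < C ∧ ∀ (c₁ : ℂ) (r₁ : ℝ) (μ₁ c₂ : ℂ) (r₂ : ℝ) (μ₂ : ℂ),
      PS (1 / 2) 2 (1 / 100) c₁ r₁ μ₁ → PS (1 / 2) 2 (1 / 100) c₂ r₂ μ₂ → 0 < dd c₁ r₁ μ₁ c₂ r₂ μ₂ →
      ∀ (N : Set ℂ) (m : ℂ → ℂ), IsOpen N → {z | ‖vv c₁ r₁ μ₁ z‖ ≤ 1} ⊆ N → {z | ‖vv c₂ r₂ μ₂ z‖ ≤ 1} ⊆ N →
      DifferentiableOn ℂ m N → ∀ z ∈ Dp c₁ r₁ μ₁ σ,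
        dd c₁ r₁ μ₁ c₂ r₂ μ₂ * ‖m z‖ ≤ C * Real.sqrt (NN c₁ r₁ μ₁ c₂ r₂ μ₂ m) := fun σ h1 h2 =>
    F3n (by norm_num) (by norm_num) (by norm_num) (by norm_num) h1 h2
  -- the normalized sequence
  have key : ∀ j : ℕ, ∃ (μ₁ c₂ : ℂ) (r₂ : ℝ) (μ₂ : ℂ) (l : ℝ) (N : Set ℂ) (m : ℂ → ℂ),
      ‖μ₁‖ ≤ 1 / (100 * ((j : ℝ) + 2)) ∧ ‖μ₂‖ ≤ 1 / (100 * ((j : ℝ) + 2)) ∧ 0 < dd 0 1 μ₁ c₂ r₂ μ₂ ∧
      dd 0 1 μ₁ c₂ r₂ μ₂ ≤ 1 / (100 * ((j : ℝ) + 2)) ∧ |l| ≤ L ∧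
      PS (1 / 2) 2 (1 / 100) 0 1 μ₁ ∧ PS (1 / 2) 2 (1 / 100) c₂ r₂ μ₂ ∧ IsOpen N ∧ Kp 0 1 μ₁ ⊆ N ∧ Kp c₂ r₂ μ₂ ⊆ N ∧
      DifferentiableOn ℂ m N ∧ (∀ A : ℂ → ℂ, DifferentiableOn ℂ A N → Idn 0 1 μ₁ c₂ r₂ μ₂ l (1 / 2) A m) ∧
      NN 0 1 μ₁ c₂ r₂ μ₂ m = dd 0 1 μ₁ c₂ r₂ μ₂ ^ 2 := by
    intro j
    have hδ : 0 < 1 / (100 * ((j : ℝ) + 2)) := by positivity
    have hδ2 : 1 / (100 * ((j : ℝ) + 2)) ≤ 1 / 200 := by
      apply one_div_le_one_div_of_le (by norm_num)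
      have : (0 : ℝ) ≤ j := Nat.cast_nonneg j
      linarith
    obtain ⟨μ₁, c₂, r₂, μ₂, h1, h2, h3, h4, l, hl, N, m, hN, hN1, hN2, hm, hid, z, hz, hmz⟩ := hcon _ hδ
    have hdef : dd 0 1 μ₁ c₂ r₂ μ₂ = ‖(0 : ℂ) - c₂‖ + |1 - r₂| + ‖μ₁ - μ₂‖ := rfl
    have hc : ‖c₂‖ ≤ 1 / 200 := by
      rw [zero_sub, norm_neg] at hdef
      have := abs_nonneg (1 - r₂)
      have := norm_nonneg (μ₁ - μ₂)
      linarith
    have hr : |1 - r₂| ≤ 1 / 200 := by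
      have := norm_nonneg ((0 : ℂ) - c₂)
      have := norm_nonneg (μ₁ - μ₂)
      linarith
    rw [abs_le] at hr
    have p1 : PS (1 / 2) 2 (1 / 100) 0 1 μ₁ := ⟨by simp, by norm_num, by norm_num, by linarith⟩
    have p2 : PS (1 / 2) 2 (1 / 100) c₂ r₂ μ₂ := ⟨by linarith, by linarith, by linarith, by linarith⟩
    have hNN0 := NN_nonneg 0 1 μ₁ c₂ r₂ μ₂ m
    have hNNp : 0 < NN 0 1 μ₁ c₂ r₂ μ₂ m := by
      refine lt_of_le_of_ne hNN0 fun h0 => hmz ?_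
      have hz' : ‖vv 0 1 μ₁ z‖ < 1 := hz
      obtain ⟨C, hC, hF⟩ := hF3 ((‖vv 0 1 μ₁ z‖ + 1) / 2) (by linarith [norm_nonneg (vv 0 1 μ₁ z)]) (by linarith)
      have h5 := hF 0 1 μ₁ c₂ r₂ μ₂ p1 p2 h3 N m hN hN1 hN2 hm z (show ‖vv 0 1 μ₁ z‖ < (‖vv 0 1 μ₁ z‖ + 1) / 2 by linarith)
      rw [← h0, Real.sqrt_zero, mul_zero] at h5
      have h6 : ‖m z‖ ≤ 0 := by
        by_contra h7
        push Not at h7
        have := mul_pos h3 h7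
        linarith
      exact norm_le_zero_iff.1 h6
    set t : ℝ := dd 0 1 μ₁ c₂ r₂ μ₂ / Real.sqrt (NN 0 1 μ₁ c₂ r₂ μ₂ m) with ht
    refine ⟨μ₁, c₂, r₂, μ₂, l, N, fun z => (t : ℂ) * m z, h1, h2, h3, h4, hl, p1, p2, hN, hN1, hN2, hm.const_mul _,
      fun A hA => nl_Idn t (hid A hA), ?_⟩
    rw [nl_NN, ht, div_pow, Real.sq_sqrt hNN0, div_mul_cancel₀ _ hNNp.ne']
  choose μ₁ c₂ r₂ μ₂ l N m k1 k2 k3 k4 k5 p1 p2 kN kN1 kN2 km kid kNN using key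
  set d : ℕ → ℝ := fun j => dd 0 1 (μ₁ j) (c₂ j) (r₂ j) (μ₂ j) with hd
  have hlim0 : Tendsto (fun j : ℕ => 1 / (100 * ((j : ℝ) + 2))) atTop (𝓝 0) := by
    have h1 : Tendsto (fun j : ℕ => 100 * ((j : ℝ) + 2)) atTop atTop := by
      refine Tendsto.const_mul_atTop (by norm_num) ?_
      exact tendsto_atTop_add_const_right _ _ tendsto_natCast_atTop_atTop
    have h2 := h1.inv_tendsto_atTop
    refine h2.congr fun j => ?_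
    rw [Pi.inv_apply, one_div]
  have hμ1 : Tendsto μ₁ atTop (𝓝 0) := squeeze_zero_norm k1 hlim0
  have hμ2 : Tendsto μ₂ atTop (𝓝 0) := squeeze_zero_norm k2 hlim0
  have hd0 : Tendsto d atTop (𝓝 0) := squeeze_zero (fun j => (k3 j).le) k4 hlim0
  have hδ2 : ∀ j : ℕ, 1 / (100 * ((j : ℝ) + 2)) ≤ 1 / 200 := by
    intro j
    apply one_div_le_one_div_of_le (by norm_num)
    have : (0 : ℝ) ≤ j := Nat.cast_nonneg j
    linarith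
  -- bounds of `m`
  have hbd : ∀ σ : ℝ, 0 < σ → σ < 1 → ∃ C : ℝ, ∀ j z, z ∈ Dp 0 1 (μ₁ j) σ ∪ Dp (c₂ j) (r₂ j) (μ₂ j) σ → ‖m j z‖ ≤ C := by
    intro σ h1 h2
    obtain ⟨C, hC, hF⟩ := hF3 σ h1 h2
    refine ⟨C, fun j z hz => ?_⟩
    have hdj : 0 < d j := k3 j
    have hsq : Real.sqrt (NN 0 1 (μ₁ j) (c₂ j) (r₂ j) (μ₂ j) (m j)) = d j := by
      rw [kNN, Real.sqrt_sq hdj.le]
    rcases hz with hz | hz
    · have h5 := hF 0 1 (μ₁ j) (c₂ j) (r₂ j) (μ₂ j) (p1 j) (p2 j) (k3 j) (N j) (m j) (kN j) (kN1 j) (kN2 j) (km j) z hz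
      rw [hsq, mul_comm] at h5
      exact le_of_mul_le_mul_right h5 hdj
    · have h6 : 0 < dd (c₂ j) (r₂ j) (μ₂ j) 0 1 (μ₁ j) := by rw [dd_symm]; exact k3 j
      have h5 := hF (c₂ j) (r₂ j) (μ₂ j) 0 1 (μ₁ j) (p2 j) (p1 j) h6 (N j) (m j) (kN j) (kN2 j) (kN1 j) (km j) z hz
      rw [dd_symm, NN_symm, hsq, mul_comm] at h5
      exact le_of_mul_le_mul_right h5 hdj
  -- the parameters
  have hsum : ∀ j, ‖c₂ j / (d j : ℂ)‖ + |(r₂ j - 1) / d j| + ‖(μ₂ j - μ₁ j) / (d j : ℂ)‖ = 1 := by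
    intro j
    have hdj : 0 < d j := k3 j
    have e : d j = ‖c₂ j‖ + |r₂ j - 1| + ‖μ₂ j - μ₁ j‖ := by
      show ‖(0 : ℂ) - c₂ j‖ + |1 - r₂ j| + ‖μ₁ j - μ₂ j‖ = _
      rw [zero_sub, norm_neg, abs_sub_comm, norm_sub_rev]
    rw [norm_div, norm_div, abs_div, Complex.norm_real, Real.norm_of_nonneg hdj.le, abs_of_pos hdj, ← add_div, ← add_div,
      ← e, div_self hdj.ne']
  have hmem : ∀ j, ((c₂ j / (d j : ℂ), (r₂ j - 1) / d j, (μ₂ j - μ₁ j) / (d j : ℂ), l j) : ℂ × ℝ × ℂ × ℝ) ∈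
      Metric.closedBall (0 : ℂ × ℝ × ℂ × ℝ) 1 := by
    intro j
    have h1 := hsum j
    have n1 := norm_nonneg (c₂ j / (d j : ℂ))
    have n2 := abs_nonneg ((r₂ j - 1) / d j)
    have n3 := norm_nonneg ((μ₂ j - μ₁ j) / (d j : ℂ))
    have n4 := k5 j
    rw [mem_closedBall_zero_iff, Prod.norm_def, Prod.norm_def, Prod.norm_def]
    simp only [max_le_iff, Real.norm_eq_abs]
    exact ⟨by linarith, by linarith, by linarith, by linarith⟩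
  obtain ⟨⟨γ, a, β, l₀⟩, -, φ₁, hφ₁, hlim⟩ := (isCompact_closedBall (0 : ℂ × ℝ × ℂ × ℝ) 1).tendsto_subseq hmem
  rw [Prod.tendsto_iff, Prod.tendsto_iff, Prod.tendsto_iff] at hlim
  obtain ⟨lγ, la, lβ, ll⟩ := hlim
  -- the fields
  obtain ⟨φ₂, hφ₂, m₀, hm₀, hm₀l⟩ := nl_montel (F := fun j => m (φ₁ j)) (by
    intro s hs0 hs1
    obtain ⟨C, hC⟩ := hbd ((s + 1) / 2) (by linarith) (by linarith)
    have hev : ∀ᶠ j in atTop, s < (s + 1) / 2 * (1 - ‖μ₁ (φ₁ j)‖) := by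
      have h1 : Tendsto (fun j => (s + 1) / 2 * (1 - ‖μ₁ (φ₁ j)‖)) atTop (𝓝 ((s + 1) / 2 * (1 - ‖(0 : ℂ)‖))) :=
        ((hμ1.comp hφ₁.tendsto_atTop).norm.const_sub 1).const_mul _
      rw [norm_zero, sub_zero, mul_one] at h1
      exact h1.eventually_const_lt (by linarith)
    obtain ⟨J, hJ⟩ := eventually_atTop.1 hev
    refine ⟨J, C, fun j hj => ?_⟩
    have hsub : Metric.ball (0 : ℂ) s ⊆ Dp 0 1 (μ₁ (φ₁ j)) ((s + 1) / 2) := by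
      intro z hz
      rw [mem_ball_zero_iff] at hz
      have h1 : ‖μ₁ (φ₁ j)‖ < 1 := by
        have := (k1 (φ₁ j)).trans (hδ2 _)
        linarith
      have h2 := nl_vv h1 z
      show ‖vv 0 1 (μ₁ (φ₁ j)) z‖ < (s + 1) / 2
      refine h2.trans_lt ?_
      rw [div_lt_iff₀ (by linarith)]
      exact hz.trans (hJ j hj)
    refine ⟨(km (φ₁ j)).mono (hsub.trans fun z hz => kN1 (φ₁ j) ?_), fun z hz => hC (φ₁ j) z (Or.inl (hsub hz))⟩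
    have h3 : ‖vv 0 1 (μ₁ (φ₁ j)) z‖ < (s + 1) / 2 := hz
    show ‖vv 0 1 (μ₁ (φ₁ j)) z‖ ≤ 1
    linarith)
  set φ : ℕ → ℕ := fun j => φ₁ (φ₂ j) with hφ
  have hφt : Tendsto φ atTop atTop := hφ₁.tendsto_atTop.comp hφ₂.tendsto_atTop
  set S : Sq := ⟨fun j => μ₁ (φ j), fun j => c₂ (φ j), fun j => r₂ (φ j), fun j => μ₂ (φ j)⟩ with hS
  have hSd : ∀ j, S.d j = d (φ j) := fun j => rfl
  have hLim : Lim S a γ β := by
    refine ⟨fun j => k3 (φ j), fun j => ?_, fun j => ?_, fun j => ?_, hμ1.comp hφt, hμ2.comp hφt, hd0.comp hφt, ?_, ?_, ?_⟩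
    · have := (k4 (φ j)).trans (hδ2 _)
      show dd 0 1 (μ₁ (φ j)) (c₂ (φ j)) (r₂ (φ j)) (μ₂ (φ j)) ≤ 1 / 100
      linarith
    · have := (k1 (φ j)).trans (hδ2 _)
      show ‖μ₁ (φ j)‖ ≤ 1 / 100
      linarith
    · have := (k2 (φ j)).trans (hδ2 _)
      show ‖μ₂ (φ j)‖ ≤ 1 / 100
      linarith
    · exact lγ.comp hφ₂.tendsto_atTop
    · exact la.comp hφ₂.tendsto_atTop
    · exact lβ.comp hφ₂.tendsto_atTop
  have hLB : LB S (fun j => m (φ j)) m₀ := by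
    refine ⟨fun j => ⟨N (φ j), kN _, kN1 _, kN2 _, km _⟩, fun σ h1 h2 => ?_, hm₀, hm₀l⟩
    obtain ⟨C, hC⟩ := hbd σ h1 h2
    exact ⟨C, fun j z hz => hC (φ j) z hz⟩
  have hSol : Sol S (fun j => l (φ j)) (fun j => N (φ j)) (fun j => m (φ j)) :=
    ⟨fun j => kN _, fun j => kN1 _, fun j => kN2 _, fun j => km _, fun j A hA => kid (φ j) A hA, fun j => kNN (φ j)⟩
  have hl1 : ∀ j, |l (φ j)| ≤ 1 := fun j => (k5 (φ j)).trans hL.le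
  have hll : Tendsto (fun j => l (φ j)) atTop (𝓝 l₀) := ll.comp hφ₂.tendsto_atTop
  have hl0 : |l₀| < 1 := (le_of_tendsto hll.abs (Eventually.of_forall fun j => k5 (φ j))).trans_lt hL
  have hone : ‖γ‖ + |a| + ‖β‖ = 1 := by
    have h1 := (lγ.norm.add la.abs).add lβ.norm
    refine tendsto_nhds_unique h1 ?_
    refine tendsto_const_nhds.congr fun j => ?_
    exact (hsum (φ₁ j)).symm
  obtain ⟨Q, hQ⟩ := Qpoly hLim hl1 hll hSol hLB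
  obtain ⟨-, hT⟩ := T1lim hLim hl1 hll hSol hLB
  have hz := alg hone hm₀ hQ hl0 (Pineq hLim hl1 hll hSol hLB hQ)
  have h1 := hT 1
  rw [hz] at h1
  simp only [Complex.zero_re, mul_zero, neg_zero, zero_mul, Polynomial.eval_one, norm_one, one_pow, mul_one] at h1
  have h2 : Tendsto (fun _ : ℕ => (1 : ℝ)) atTop (𝓝 0) := by
    refine h1.congr fun j => ?_
    have h3 : (∫ z in S.EE j, |S.UU j z| * ‖m (φ j) z‖ ^ 2) = S.d j ^ 2 := kNN (φ j)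
    have h4 : S.d j ≠ 0 := (k3 (φ j)).ne'
    rw [h3, div_self (pow_ne_zero _ h4)]
  exact one_ne_zero (tendsto_nhds_unique tendsto_const_nhds h2)

end ND1
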