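import Pool.Agent.H1.EX.T6
import Pool.Agent.H1.ND.Nd
import Pool.Agent.H1.ND.Nl

/-!
# ND: nearly circular ellipses, every conductivity: assembly
-/

set_option autoImplicit false

namespace ND1

open Complex Set Filter Topology MeasureTheory MD12 ED1 EW1 EX1 EY1
open scoped ComplexConjugate ContDiff Real

theorem RRe : ∃ C : ℝ, 0 < C ∧ ∀ (c : ℂ) (r : ℝ) (μ : ℂ), 0 < r → ‖μ‖ ≤ 1 / 100 → ∀ l : ℝ, |l| ≤ 1 → ∀ e : ℝ, ‖μ‖ ≤ e →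
    ∀ (A M : ℂ → ℂ) (SA SM : ℝ), (∀ z ∈ Dp c r μ (3 / 5), ‖A z‖ ≤ SA) → (∀ z ∈ Dp c r μ (3 / 5), ‖M z‖ ≤ SM) →
    ‖RR c r μ l A M (1 / 2)‖ ≤ C * e * r ^ 2 * SA * SM := by
  obtain ⟨C, hC, h⟩ := RRn
  refine ⟨C, hC, fun c r μ hr hμ l hl e he A M SA SM hA hM => ?_⟩
  have hc : c ∈ Dp c r μ (3 / 5) := by
    show ‖vv c r μ c‖ < 3 / 5
    have : vv c r μ c = 0 := by unfold vv; simp
    rw [this, norm_zero]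
    norm_num
  have hSA : 0 ≤ SA := (norm_nonneg _).trans (hA c hc)
  have hSM : 0 ≤ SM := (norm_nonneg _).trans (hM c hc)
  refine (h c r μ hr hμ l hl A M SA SM hA hM).trans ?_
  gcongr

/-- the second ellipse is much smaller -/
theorem small2 : ∃ η ε : ℝ, 0 < η ∧ η ≤ 1 ∧ 0 < ε ∧ ∀ (c₁ : ℂ) (r₁ : ℝ) (μ₁ c₂ : ℂ) (r₂ : ℝ) (μ₂ : ℂ), ‖μ₁‖ ≤ ε → ‖μ₂‖ ≤ ε → 0 < r₂ →
      r₂ ≤ η * r₁ → ¬ Disjoint (Kp c₁ r₁ μ₁) (Kp c₂ r₂ μ₂) → ∀ l : ℝ, |l| ≤ 1 →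
      ∀ (N : Set ℂ) (m : ℂ → ℂ), IsOpen N → Kp c₁ r₁ μ₁ ⊆ N → Kp c₂ r₂ μ₂ ⊆ N → DifferentiableOn ℂ m N →
      (∀ A : ℂ → ℂ, DifferentiableOn ℂ A N → Idn c₁ r₁ μ₁ c₂ r₂ μ₂ l (1 / 2) A m) →
      ∀ z ∈ Dp c₁ r₁ μ₁ 1, m z = 0 := by
  have h0 : (0 : ℝ) ≤ 1 / 100 := by norm_num
  have hμ1 : (1 / 100 : ℝ) < 1 := by norm_num
  obtain ⟨σ, hσe⟩ : ∃ σ : ℝ, σ = 3 / 5 := ⟨_, rfl⟩
  have hσ1 : σ < 1 := by rw [hσe]; norm_num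
  have hσ0 : 0 < σ := by rw [hσe]; norm_num
  obtain ⟨η₁, C₁, hη₁, hC₁, hL1⟩ := L1 h0 hμ1 hσ0 hσ1
  obtain ⟨Ka, Ca, hKa, hCa, hLa⟩ := L2a h0 hμ1
  obtain ⟨CL, hCL, hLip⟩ := Lip h0 hμ1
  obtain ⟨Ct, hCt, haat⟩ := aat h0 hμ1
  obtain ⟨CR, hCR, hRR⟩ := RRe
  rw [← hσe] at hRR
  set K : ℝ := Ka + 2 * CL with hK
  have hKp : 0 < K := by rw [hK]; positivity
  obtain ⟨η₂, Cb, hη₂, hCb, hLb⟩ := L2b h0 hμ1 hKp hσ0 hσ1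
  set T : ℝ := CR * Ct * C₁ + CR * (1 + Ct / Ka) * Ca + CR * (K + Ct) * Cb with hT
  have hTp : 0 < T := by rw [hT]; positivity
  refine ⟨min 1 (min η₁ η₂), min (1 / 100) (1 / (2 * T)), by positivity, min_le_left _ _, by positivity, ?_⟩
  intro c₁ r₁ μ₁ c₂ r₂ μ₂ hμ₁' hμ₂' hr₂ hr21 hnd l hl1 N m hN hN₁ hN₂ hm hid
  have hμ₁ : ‖μ₁‖ ≤ 1 / 100 := hμ₁'.trans (min_le_left _ _)
  have hμ₂ : ‖μ₂‖ ≤ 1 / 100 := hμ₂'.trans (min_le_left _ _)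
  obtain ⟨e, he⟩ : ∃ e : ℝ, e = max ‖μ₁‖ ‖μ₂‖ := ⟨_, rfl⟩
  have he₁ : ‖μ₁‖ ≤ e := by rw [he]; exact le_max_left _ _
  have he₂ : ‖μ₂‖ ≤ e := by rw [he]; exact le_max_right _ _
  have he0 : 0 ≤ e := (norm_nonneg _).trans he₁
  have heε : e ≤ min (1 / 100) (1 / (2 * T)) := by rw [he]; exact max_le hμ₁' hμ₂'
  have hr₁ : 0 < r₁ := by
    by_contra hcon
    have h5 : min 1 (min η₁ η₂) * r₁ ≤ 0 := mul_nonpos_of_nonneg_of_nonpos (by positivity) (not_lt.1 hcon)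
    linarith
  have hr2a : r₂ ≤ η₁ * r₁ := hr21.trans (mul_le_mul_of_nonneg_right ((min_le_right _ _).trans (min_le_left _ _)) hr₁.le)
  have hr2b : r₂ ≤ η₂ * r₁ := hr21.trans (mul_le_mul_of_nonneg_right ((min_le_right _ _).trans (min_le_right _ _)) hr₁.le)
  have hr2c : r₂ ≤ r₁ := by
    have := hr21.trans (mul_le_mul_of_nonneg_right (min_le_left 1 (min η₁ η₂)) hr₁.le)
    linarith
  have hn₁ : ‖μ₁‖ < 1 := hμ₁.trans_lt hμ1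
  have hn₂ : ‖μ₂‖ < 1 := hμ₂.trans_lt hμ1
  have heT : e * T < 1 := by
    have : e ≤ 1 / (2 * T) := heε.trans (min_le_right _ _)
    rw [le_div_iff₀ (by positivity)] at this
    linarith
  -- a common point
  obtain ⟨z₀, hz₁, hz₂⟩ := Set.not_disjoint_iff.1 hnd
  have d1 := K_sub hr₁ hn₁ hz₁
  have d2 := K_sub hr₂ hn₂ hz₂
  have hcc : ‖c₂ - c₁‖ ≤ 4 * r₁ := by
    have : c₂ - c₁ = (z₀ - c₁) - (z₀ - c₂) := by ring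
    rw [this]
    refine (norm_sub_le _ _).trans ?_
    linarith
  have hQ : QQ c₁ r₁ μ₁ c₂ ≤ 2 * CL * r₁ * r₂ := by
    have h5 := hLip c₁ r₁ μ₁ hr₁ hμ₁ c₂ z₀ hcc (by linarith)
    have h6 := QQ_c_le hr₁ hn₁ hz₁
    have h7 := (le_abs_self _).trans h5
    have h8 : ‖c₂ - z₀‖ ≤ 2 * r₂ := by rw [norm_sub_rev]; exact d2
    have h9 : CL * r₁ * ‖c₂ - z₀‖ ≤ CL * r₁ * (2 * r₂) := by gcongr
    linarith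
  obtain ⟨τ, hτ₂, hτ₁⟩ := haat c₁ r₁ μ₁ c₂ r₂ μ₂ hμ₁ hμ₂ hr₂ hr2c hcc
  set NNv := NN c₁ r₁ μ₁ c₂ r₂ μ₂ m with hNN
  have hNN0 : 0 ≤ NNv := NN_nonneg _ _ _ _ _ _ _
  obtain ⟨A, hA⟩ : ∃ A : ℂ → ℂ, A = fun z => (aa c₁ r₁ μ₁ c₂ r₂ μ₂ z + τ * I) * m z := ⟨_, rfl⟩
  have hAd : DifferentiableOn ℂ A N := by
    rw [hA]
    refine DifferentiableOn.mul ?_ hm
    unfold aa
    fun_prop
  have hNNle : NNv ≤ ‖RR c₁ r₁ μ₁ l A m (1 / 2)‖ + ‖RR c₂ r₂ μ₂ l A m (1 / 2)‖ := by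
    have h5 := NN_tau hr₁ hr₂ hn₁ hn₂ hN hN₁ hN₂ hm τ
    have h7 : (∫ z in Dp c₁ r₁ μ₁ 1, conj (m z) * A z) + RR c₁ r₁ μ₁ l A m (1 / 2) =
      (∫ z in Dp c₂ r₂ μ₂ 1, conj (m z) * A z) + RR c₂ r₂ μ₂ l A m (1 / 2) := hid A hAd
    have h6 : (∫ z in Dp c₁ r₁ μ₁ 1, conj (m z) * ((aa c₁ r₁ μ₁ c₂ r₂ μ₂ z + τ * I) * m z)) -
        (∫ z in Dp c₂ r₂ μ₂ 1, conj (m z) * ((aa c₁ r₁ μ₁ c₂ r₂ μ₂ z + τ * I) * m z)) =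
        -(RR c₁ r₁ μ₁ l A m (1 / 2) - RR c₂ r₂ μ₂ l A m (1 / 2)) := by
      simp only [hA] at h7 ⊢
      linear_combination h7
    rw [hNN, h5, h6]
    exact (le_abs_self _).trans ((abs_re_le_norm _).trans (by rw [norm_neg]; exact norm_sub_le _ _))
  -- the first error term
  have hsub₁ : Dp c₁ r₁ μ₁ σ ⊆ Dp c₁ r₁ μ₁ 1 := Dp_mono _ _ _ hσ1.le
  have hsub₂ : Dp c₂ r₂ μ₂ σ ⊆ Dp c₂ r₂ μ₂ 1 := Dp_mono _ _ _ hσ1.le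
  have hR₁ : ‖RR c₁ r₁ μ₁ l A m (1 / 2)‖ ≤ e * (CR * Ct * C₁) * NNv := by
    set S := Real.sqrt (C₁ * NNv) / r₁ ^ 2 with hS
    have hSS : r₁ ^ 4 * S ^ 2 = C₁ * NNv := by
      rw [hS, div_pow, Real.sq_sqrt (by positivity)]
      field_simp
    have hS0 : 0 ≤ S := by positivity
    have hM : ∀ z ∈ Dp c₁ r₁ μ₁ σ, ‖m z‖ ≤ S := by
      intro z hz
      have h5 := hL1 c₁ r₁ μ₁ c₂ r₂ μ₂ hμ₁ hμ₂ hr₂ hr2a N m hN hN₁ hN₂ hm z hz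
      rw [← hNN, ← hSS] at h5
      have h6 : ‖m z‖ ^ 2 ≤ S ^ 2 := le_of_mul_le_mul_left h5 (by positivity)
      exact abs_le_of_sq_le_sq' h6 hS0 |>.2
    have hAS : ∀ z ∈ Dp c₁ r₁ μ₁ σ, ‖A z‖ ≤ Ct * r₁ ^ 2 * S := by
      intro z hz
      rw [hA]
      simp only [norm_mul]
      exact mul_le_mul (hτ₁ z (hsub₁ hz)) (hM z hz) (norm_nonneg _) (by positivity)
    refine (hRR c₁ r₁ μ₁ hr₁ hμ₁ l hl1 e he₁ A m _ _ hAS hM).trans (le_of_eq ?_)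
    calc CR * e * r₁ ^ 2 * (Ct * r₁ ^ 2 * S) * S = e * (CR * Ct) * (r₁ ^ 4 * S ^ 2) := by ring
      _ = e * (CR * Ct * C₁) * NNv := by rw [hSS]; ring
  -- the second one
  have hR₂ : ‖RR c₂ r₂ μ₂ l A m (1 / 2)‖ ≤ e * (CR * (1 + Ct / Ka) * Ca + CR * (K + Ct) * Cb) * NNv := by
    rcases le_or_gt (Ka * r₁ * r₂) (-QQ c₁ r₁ μ₁ c₂) with hcase | hcase
    · set X := |QQ c₁ r₁ μ₁ c₂| with hX
      have hXe : X = -QQ c₁ r₁ μ₁ c₂ := abs_of_neg (by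
        have : 0 < Ka * r₁ * r₂ := by positivity
        linarith)
      have hXp : Ka * r₁ * r₂ ≤ X := by rw [hXe]; exact hcase
      have hX0 : 0 < X := lt_of_lt_of_le (by positivity) hXp
      set S := Real.sqrt (Ca * NNv / (r₂ ^ 2 * X)) with hS
      have hSS : r₂ ^ 2 * X * S ^ 2 = Ca * NNv := by
        rw [hS, Real.sq_sqrt (by positivity)]
        field_simp
      have hS0 : 0 ≤ S := Real.sqrt_nonneg _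
      have hM : ∀ z ∈ Dp c₂ r₂ μ₂ σ, ‖m z‖ ≤ S := by
        intro z hz
        have h5 := hLa c₁ r₁ μ₁ c₂ r₂ μ₂ hμ₁ hμ₂ hr₂ hr2c hcase N m hN hN₁ hN₂ hm z (hsub₂ hz)
        rw [← hNN, ← hSS] at h5
        have h6 : ‖m z‖ ^ 2 ≤ S ^ 2 := le_of_mul_le_mul_left h5 (by positivity)
        exact abs_le_of_sq_le_sq' h6 hS0 |>.2
      have hAS : ∀ z ∈ Dp c₂ r₂ μ₂ σ, ‖A z‖ ≤ (1 + Ct / Ka) * X * S := by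
        intro z hz
        rw [hA]
        simp only [norm_mul]
        refine mul_le_mul ((hτ₂ z (hsub₂ hz)).trans ?_) (hM z hz) (norm_nonneg _) (by positivity)
        have h5 : Ct * r₁ * r₂ ≤ Ct / Ka * X := by
          rw [div_mul_eq_mul_div, le_div_iff₀ hKa]
          nlinarith
        linarith
      refine (hRR c₂ r₂ μ₂ hr₂ hμ₂ l hl1 e he₂ A m _ _ hAS hM).trans ?_
      have h8 : CR * e * r₂ ^ 2 * ((1 + Ct / Ka) * X * S) * S = e * (CR * (1 + Ct / Ka) * Ca) * NNv := by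
        calc CR * e * r₂ ^ 2 * ((1 + Ct / Ka) * X * S) * S = e * (CR * (1 + Ct / Ka)) * (r₂ ^ 2 * X * S ^ 2) := by ring
          _ = e * (CR * (1 + Ct / Ka) * Ca) * NNv := by rw [hSS]; ring
      rw [h8]
      have h9 : 0 ≤ CR * (K + Ct) * Cb := by positivity
      gcongr
      linarith
    · have hX : |QQ c₁ r₁ μ₁ c₂| ≤ K * r₁ * r₂ := by
        rw [abs_le]
        have e1 : K * r₁ * r₂ = Ka * r₁ * r₂ + 2 * CL * r₁ * r₂ := by rw [hK]; ring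
        have e2 : 0 < 2 * CL * r₁ * r₂ := by positivity
        have e3 : 0 < Ka * r₁ * r₂ := by positivity
        constructor
        · linarith
        · linarith
      set S := Real.sqrt (Cb * NNv / (r₁ * r₂ ^ 3)) with hS
      have hSS : r₁ * r₂ ^ 3 * S ^ 2 = Cb * NNv := by
        rw [hS, Real.sq_sqrt (by positivity)]
        field_simp
      have hS0 : 0 ≤ S := Real.sqrt_nonneg _
      have hM : ∀ z ∈ Dp c₂ r₂ μ₂ σ, ‖m z‖ ≤ S := by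
        intro z hz
        have h5 := hLb c₁ r₁ μ₁ c₂ r₂ μ₂ hμ₁ hμ₂ hr₂ hr2b hX N m hN hN₁ hN₂ hm z hz
        rw [← hNN, ← hSS] at h5
        have h6 : ‖m z‖ ^ 2 ≤ S ^ 2 := le_of_mul_le_mul_left h5 (by positivity)
        exact abs_le_of_sq_le_sq' h6 hS0 |>.2
      have hAS : ∀ z ∈ Dp c₂ r₂ μ₂ σ, ‖A z‖ ≤ (K + Ct) * (r₁ * r₂) * S := by
        intro z hz
        rw [hA]
        simp only [norm_mul]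
        refine mul_le_mul ((hτ₂ z (hsub₂ hz)).trans ?_) (hM z hz) (norm_nonneg _) (by positivity)
        linarith
      refine (hRR c₂ r₂ μ₂ hr₂ hμ₂ l hl1 e he₂ A m _ _ hAS hM).trans ?_
      have h8 : CR * e * r₂ ^ 2 * ((K + Ct) * (r₁ * r₂) * S) * S = e * (CR * (K + Ct) * Cb) * NNv := by
        calc CR * e * r₂ ^ 2 * ((K + Ct) * (r₁ * r₂) * S) * S = e * (CR * (K + Ct)) * (r₁ * r₂ ^ 3 * S ^ 2) := by ring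
          _ = e * (CR * (K + Ct) * Cb) * NNv := by rw [hSS]; ring
      rw [h8]
      have h9 : 0 ≤ CR * (1 + Ct / Ka) * Ca := by positivity
      gcongr
      linarith
  have hz : NNv = 0 := by
    have h5 : NNv ≤ e * T * NNv := by
      refine hNNle.trans ((add_le_add hR₁ hR₂).trans (le_of_eq ?_))
      rw [hT]
      ring
    by_contra hne
    have hpos : 0 < NNv := lt_of_le_of_ne hNN0 (Ne.symm hne)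
    nlinarith
  -- zero near the center
  have hz1 : ∀ z ∈ Dp c₁ r₁ μ₁ σ, m z = 0 := by
    intro z hzσ
    have h5 := hL1 c₁ r₁ μ₁ c₂ r₂ μ₂ hμ₁ hμ₂ hr₂ hr2a N m hN hN₁ hN₂ hm z hzσ
    rw [← hNN, hz, mul_zero] at h5
    have h6 : ‖m z‖ ^ 2 ≤ 0 := by
      by_contra hcon
      push Not at hcon
      have : 0 < r₁ ^ 4 * ‖m z‖ ^ 2 := by positivity
      linarith
    have h7 : ‖m z‖ = 0 := by nlinarith [norm_nonneg (m z)]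
    exact norm_eq_zero.1 h7
  have hcσ : c₁ ∈ Dp c₁ r₁ μ₁ σ := by
    show ‖vv c₁ r₁ μ₁ c₁‖ < σ
    have : vv c₁ r₁ μ₁ c₁ = 0 := by unfold vv; simp
    rw [this, norm_zero]
    exact hσ0
  have han : AnalyticOnNhd ℂ m (Dp c₁ r₁ μ₁ 1) :=
    (hm.mono ((Dp_Kp c₁ r₁ μ₁).trans hN₁)).analyticOnNhd (Dp_open _ _ _ _)
  have hev : m =ᶠ[𝓝 c₁] 0 := by
    filter_upwards [(Dp_open c₁ r₁ μ₁ σ).mem_nhds hcσ] with z hzz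
    exact hz1 z hzz
  have hall := han.eqOn_zero_of_preconnected_of_eventuallyEq_zero (Dp_convex c₁ r₁ μ₁ 1).isPreconnected (hsub₁ hcσ) hev
  intro z hzz
  exact hall hzz

/-- two ellipses of comparable size, not close to each other -/
theorem far_thm {η δ : ℝ} (hη : 0 < η) (hη1 : η ≤ 1) (hδ : 0 < δ) : ∃ ε : ℝ, 0 < ε ∧ ∀ (μ₁ c₂ : ℂ) (r₂ : ℝ) (μ₂ : ℂ), ‖μ₁‖ ≤ ε → ‖μ₂‖ ≤ ε →
      η ≤ r₂ → r₂ ≤ 1 → ‖c₂‖ ≤ 4 → δ ≤ dd 0 1 μ₁ c₂ r₂ μ₂ → ∀ l : ℝ, |l| ≤ 1 →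
      ∀ (N : Set ℂ) (m : ℂ → ℂ), IsOpen N → Kp 0 1 μ₁ ⊆ N → Kp c₂ r₂ μ₂ ⊆ N → DifferentiableOn ℂ m N →
      (∀ A : ℂ → ℂ, DifferentiableOn ℂ A N → Idn 0 1 μ₁ c₂ r₂ μ₂ l (1 / 2) A m) → ∀ z ∈ Dp 0 1 μ₁ 1, m z = 0 := by
  have h0 : (0 : ℝ) ≤ 1 / 100 := by norm_num
  have hμ1 : (1 / 100 : ℝ) < 1 := by norm_num
  have hR : η ≤ 4 := by linarith
  obtain ⟨σ, hσe⟩ : ∃ σ : ℝ, σ = 3 / 5 := ⟨_, rfl⟩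
  have hσ1 : σ < 1 := by rw [hσe]; norm_num
  have hσ0 : 0 < σ := by rw [hσe]; norm_num
  obtain ⟨Ca, hCa, haa⟩ := aa_le hη hR h0 hμ1
  obtain ⟨C3, hC3, h3⟩ := F3n hη hR h0 hμ1 hσ0 hσ1
  obtain ⟨Cr, hCr, hr⟩ := RRe
  rw [← hσe] at hr
  set K : ℝ := 2 * (Cr * Ca * C3 ^ 2) / δ with hK
  have hKp : 0 < K := by rw [hK]; positivity
  refine ⟨min (1 / 100) (1 / (2 * K)), by positivity, ?_⟩
  intro μ₁ c₂ r₂ μ₂ hμ₁' hμ₂' hr₂η hr₂1 hc₂ hdδ l hl1 N m hN hN₁ hN₂ hm hid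
  have hμ₁ : ‖μ₁‖ ≤ 1 / 100 := hμ₁'.trans (min_le_left _ _)
  have hμ₂ : ‖μ₂‖ ≤ 1 / 100 := hμ₂'.trans (min_le_left _ _)
  obtain ⟨e, he⟩ : ∃ e : ℝ, e = max ‖μ₁‖ ‖μ₂‖ := ⟨_, rfl⟩
  have he₁ : ‖μ₁‖ ≤ e := by rw [he]; exact le_max_left _ _
  have he₂ : ‖μ₂‖ ≤ e := by rw [he]; exact le_max_right _ _
  have he0 : 0 ≤ e := (norm_nonneg _).trans he₁
  have heε : e ≤ min (1 / 100) (1 / (2 * K)) := by rw [he]; exact max_le hμ₁' hμ₂'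
  have heK : e * K < 1 := by
    have : e ≤ 1 / (2 * K) := heε.trans (min_le_right _ _)
    rw [le_div_iff₀ (by positivity)] at this
    linarith
  have hp₁ : PS η 4 (1 / 100) 0 1 μ₁ := ⟨by simp, hη1, by norm_num, hμ₁⟩
  have hp₂ : PS η 4 (1 / 100) c₂ r₂ μ₂ := ⟨hc₂, hr₂η, by linarith, hμ₂⟩
  have hr₂ : 0 < r₂ := hη.trans_le hr₂η
  have hn₁ : ‖μ₁‖ < 1 := hμ₁.trans_lt hμ1
  have hn₂ : ‖μ₂‖ < 1 := hμ₂.trans_lt hμ1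
  set d := dd 0 1 μ₁ c₂ r₂ μ₂ with hdd
  have hd : 0 < d := hδ.trans_le hdδ
  set A : ℂ → ℂ := fun z => aa 0 1 μ₁ c₂ r₂ μ₂ z * m z with hA
  set NNv := NN 0 1 μ₁ c₂ r₂ μ₂ m with hNN
  have hNN0 : 0 ≤ NNv := NN_nonneg _ _ _ _ _ _ _
  have hAd : DifferentiableOn ℂ A N := by
    rw [hA]
    refine DifferentiableOn.mul ?_ hm
    unfold aa
    fun_prop
  have hm₁ : ∀ z ∈ Dp 0 1 μ₁ σ, ‖m z‖ ≤ C3 * Real.sqrt NNv / d := fun z hz => by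
    rw [le_div_iff₀ hd]
    have := h3 0 1 μ₁ c₂ r₂ μ₂ hp₁ hp₂ hd N m hN hN₁ hN₂ hm z hz
    rw [mul_comm]
    exact this
  have hm₂ : ∀ z ∈ Dp c₂ r₂ μ₂ σ, ‖m z‖ ≤ C3 * Real.sqrt NNv / d := fun z hz => by
    rw [le_div_iff₀ hd]
    have h5 : 0 < dd c₂ r₂ μ₂ 0 1 μ₁ := by rw [dd_symm]; exact hd
    have := h3 c₂ r₂ μ₂ 0 1 μ₁ hp₂ hp₁ h5 N m hN hN₂ hN₁ hm z hz
    rw [dd_symm c₂, NN_symm c₂] at this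
    rw [mul_comm]
    exact this
  have hball₁ : ∀ z ∈ Dp 0 1 μ₁ σ, ‖z‖ ≤ 3 * 4 := fun z hz => by
    have h5 : ‖vv 0 1 μ₁ z‖ < σ := hz
    exact Dp_sub hη hμ1 hp₁ (by linarith)
  have hball₂ : ∀ z ∈ Dp c₂ r₂ μ₂ σ, ‖z‖ ≤ 3 * 4 := fun z hz => by
    have h5 : ‖vv c₂ r₂ μ₂ z‖ < σ := hz
    exact Dp_sub hη hμ1 hp₂ (by linarith)
  have hA₁ : ∀ z ∈ Dp 0 1 μ₁ σ, ‖A z‖ ≤ Ca * (C3 * Real.sqrt NNv) := fun z hz => by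
    have h5 := haa 0 1 μ₁ c₂ r₂ μ₂ hp₁ hp₂ z (hball₁ z hz)
    have h6 := hm₁ z hz
    calc ‖A z‖ = ‖aa 0 1 μ₁ c₂ r₂ μ₂ z‖ * ‖m z‖ := norm_mul _ _
      _ ≤ (Ca * d) * (C3 * Real.sqrt NNv / d) := mul_le_mul h5 h6 (norm_nonneg _) (by positivity)
      _ = Ca * (C3 * Real.sqrt NNv) := by field_simp
  have hA₂ : ∀ z ∈ Dp c₂ r₂ μ₂ σ, ‖A z‖ ≤ Ca * (C3 * Real.sqrt NNv) := fun z hz => by
    have h5 := haa 0 1 μ₁ c₂ r₂ μ₂ hp₁ hp₂ z (hball₂ z hz)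
    have h6 := hm₂ z hz
    calc ‖A z‖ = ‖aa 0 1 μ₁ c₂ r₂ μ₂ z‖ * ‖m z‖ := norm_mul _ _
      _ ≤ (Ca * d) * (C3 * Real.sqrt NNv / d) := mul_le_mul h5 h6 (norm_nonneg _) (by positivity)
      _ = Ca * (C3 * Real.sqrt NNv) := by field_simp
  have hNNle : NNv ≤ ‖RR 0 1 μ₁ l A m (1 / 2)‖ + ‖RR c₂ r₂ μ₂ l A m (1 / 2)‖ := by
    have h5 := NN_id one_pos hr₂ hn₁ hn₂ hN hN₁ hN₂ hm
    have h7 : (∫ z in Dp 0 1 μ₁ 1, conj (m z) * A z) + RR 0 1 μ₁ l A m (1 / 2) =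
      (∫ z in Dp c₂ r₂ μ₂ 1, conj (m z) * A z) + RR c₂ r₂ μ₂ l A m (1 / 2) := hid A hAd
    have h6 : (∫ z in Dp 0 1 μ₁ 1, conj (m z) * (aa 0 1 μ₁ c₂ r₂ μ₂ z * m z)) -
        (∫ z in Dp c₂ r₂ μ₂ 1, conj (m z) * (aa 0 1 μ₁ c₂ r₂ μ₂ z * m z)) =
        -(RR 0 1 μ₁ l A m (1 / 2) - RR c₂ r₂ μ₂ l A m (1 / 2)) := by
      simp only [hA] at h7 ⊢
      linear_combination h7
    rw [hNN, h5, h6]
    exact (le_abs_self _).trans ((abs_re_le_norm _).trans (by rw [norm_neg]; exact norm_sub_le _ _))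
  have hsq : Real.sqrt NNv * Real.sqrt NNv = NNv := Real.mul_self_sqrt hNN0
  have hle : NNv ≤ e * K * NNv := by
    have h7 := hr 0 1 μ₁ one_pos hμ₁ l hl1 e he₁ A m (Ca * (C3 * Real.sqrt NNv)) (C3 * Real.sqrt NNv / d) hA₁ hm₁
    have h8 := hr c₂ r₂ μ₂ hr₂ hμ₂ l hl1 e he₂ A m (Ca * (C3 * Real.sqrt NNv)) (C3 * Real.sqrt NNv / d) hA₂ hm₂
    have h9 : ∀ x : ℝ, Cr * e * x ^ 2 * (Ca * (C3 * Real.sqrt NNv)) * (C3 * Real.sqrt NNv / d) =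
        x ^ 2 * (e * (Cr * Ca * C3 ^ 2 / d) * NNv) := fun x => by
      calc Cr * e * x ^ 2 * (Ca * (C3 * Real.sqrt NNv)) * (C3 * Real.sqrt NNv / d)
          = x ^ 2 * (e * (Cr * Ca * C3 ^ 2 / d) * (Real.sqrt NNv * Real.sqrt NNv)) := by ring
        _ = x ^ 2 * (e * (Cr * Ca * C3 ^ 2 / d) * NNv) := by rw [hsq]
    rw [h9] at h7 h8
    have h10 : Cr * Ca * C3 ^ 2 / d ≤ K / 2 := by
      have : Cr * Ca * C3 ^ 2 / d ≤ Cr * Ca * C3 ^ 2 / δ := by gcongr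
      have h12 : K / 2 = Cr * Ca * C3 ^ 2 / δ := by rw [hK]; ring
      rw [h12]
      exact this
    have hX0 : 0 ≤ e * (Cr * Ca * C3 ^ 2 / d) * NNv := by positivity
    have h11 : r₂ ^ 2 * (e * (Cr * Ca * C3 ^ 2 / d) * NNv) ≤ 1 * (e * (Cr * Ca * C3 ^ 2 / d) * NNv) := by
      refine mul_le_mul_of_nonneg_right ?_ hX0
      nlinarith
    have h13 : e * (Cr * Ca * C3 ^ 2 / d) * NNv ≤ e * (K / 2) * NNv := by gcongr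
    have h16 : e * (K / 2) * NNv = e * K * NNv / 2 := by ring
    rw [h16] at h13
    linarith
  have hz : NNv = 0 := by
    by_contra hne
    have hpos : 0 < NNv := lt_of_le_of_ne hNN0 (Ne.symm hne)
    nlinarith
  intro z hz1
  have hz2 : ‖vv 0 1 μ₁ z‖ < 1 := hz1
  obtain ⟨τ, hτ1, hτ2⟩ := exists_between hz2
  obtain ⟨C4, hC4, h4⟩ := F3n hη hR h0 hμ1 ((norm_nonneg _).trans_lt hτ1) hτ2
  have h5 := h4 0 1 μ₁ c₂ r₂ μ₂ hp₁ hp₂ hd N m hN hN₁ hN₂ hm z hτ1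
  rw [← hNN, hz, Real.sqrt_zero, mul_zero] at h5
  have h6 : ‖m z‖ ≤ 0 := by
    by_contra hcon
    push Not at hcon
    have : 0 < d * ‖m z‖ := mul_pos hd hcon
    linarith
  exact norm_le_zero_iff.1 h6

/-- comparable sizes -/
theorem cmp2 {η L : ℝ} (hη : 0 < η) (hη1 : η ≤ 1) (hL : L < 1) :
    ∃ ε : ℝ, 0 < ε ∧ ∀ (c₁ : ℂ) (r₁ : ℝ) (μ₁ c₂ : ℂ) (r₂ : ℝ) (μ₂ : ℂ), ‖μ₁‖ ≤ ε → ‖μ₂‖ ≤ ε → 0 < r₁ → r₂ ≤ r₁ → η * r₁ ≤ r₂ →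
      ‖c₂ - c₁‖ ≤ 4 * r₁ → 0 < dd c₁ r₁ μ₁ c₂ r₂ μ₂ → ∀ l : ℝ, |l| ≤ L →
      ∀ (N : Set ℂ) (m : ℂ → ℂ), IsOpen N → Kp c₁ r₁ μ₁ ⊆ N → Kp c₂ r₂ μ₂ ⊆ N → DifferentiableOn ℂ m N →
      (∀ A : ℂ → ℂ, DifferentiableOn ℂ A N → Idn c₁ r₁ μ₁ c₂ r₂ μ₂ l (1 / 2) A m) →
      ∀ z ∈ Dp c₁ r₁ μ₁ 1, m z = 0 := by
  obtain ⟨δ, hδ, hnear⟩ := near_thm hL
  obtain ⟨ε, hε, hfar⟩ := far_thm hη hη1 hδ
  refine ⟨min ε δ, lt_min hε hδ, ?_⟩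
  intro c₁ r₁ μ₁ c₂ r₂ μ₂ hμ₁ hμ₂ hr₁ hr21 hηr hcc hd l hl N m hN hN₁ hN₂ hm hid z hz
  have hrc : (r₁ : ℂ) ≠ 0 := by exact_mod_cast hr₁.ne'
  have hr₂ : 0 < r₂ := (mul_pos hη hr₁).trans_le hηr
  have e1 : (c₁ - c₁) / (r₁ : ℂ) = 0 := by simp
  have e2 : r₁ / r₁ = 1 := div_self hr₁.ne'
  -- the transported data
  obtain ⟨c', hc'⟩ : ∃ c' : ℂ, c' = (c₂ - c₁) / r₁ := ⟨_, rfl⟩
  obtain ⟨r', hr'⟩ : ∃ r' : ℝ, r' = r₂ / r₁ := ⟨_, rfl⟩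
  have q1 : ‖c'‖ ≤ 4 := by
    rw [hc', norm_div, Complex.norm_real, Real.norm_eq_abs, abs_of_pos hr₁, div_le_iff₀ hr₁]
    exact hcc
  have q2 : η ≤ r' := by
    rw [hr', le_div_iff₀ hr₁]
    exact hηr
  have q3 : r' ≤ 1 := by
    rw [hr', div_le_iff₀ hr₁]
    linarith
  have hd' : 0 < dd 0 1 μ₁ c' r' μ₂ := by
    by_contra hcon
    have h5 : dd 0 1 μ₁ c' r' μ₂ ≤ 0 := not_lt.1 hcon
    unfold dd at h5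
    have a1 := norm_nonneg (0 - c')
    have a2 := abs_nonneg (1 - r')
    have a3 := norm_nonneg (μ₁ - μ₂)
    have b1 : ‖0 - c'‖ = 0 := by linarith
    have b2 : |1 - r'| = 0 := by linarith
    have b3 : ‖μ₁ - μ₂‖ = 0 := by linarith
    have f1 : c₂ = c₁ := by
      have h6 : c' = 0 := (sub_eq_zero.1 (norm_eq_zero.1 b1)).symm
      rw [hc', div_eq_zero_iff] at h6
      rcases h6 with h6 | h6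
      · exact sub_eq_zero.1 h6
      · exact absurd h6 hrc
    have f2 : r₂ = r₁ := by
      have h6 : r' = 1 := (sub_eq_zero.1 (abs_eq_zero.1 b2)).symm
      rw [hr', div_eq_one_iff_eq hr₁.ne'] at h6
      exact h6
    have f3 : μ₁ = μ₂ := sub_eq_zero.1 (norm_eq_zero.1 b3)
    rw [f1, f2, f3] at hd
    unfold dd at hd
    simp at hd
  have hcont : Continuous fun w : ℂ => c₁ + r₁ * w := by fun_prop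
  have hdiff : Differentiable ℂ fun w : ℂ => c₁ + r₁ * w := by fun_prop
  have hv1 : ∀ w, vv c₁ r₁ μ₁ (c₁ + r₁ * w) = vv 0 1 μ₁ w := fun w => by rw [vv_aff c₁ c₁ r₁ μ₁ hr₁, e1, e2]
  have hv2 : ∀ w, vv c₂ r₂ μ₂ (c₁ + r₁ * w) = vv c' r' μ₂ w := fun w => by rw [vv_aff c₁ c₂ r₂ μ₂ hr₁, hc', hr']
  have hN' : IsOpen ((fun w : ℂ => c₁ + r₁ * w) ⁻¹' N) := hN.preimage hcont
  have hN₁' : {w | ‖vv 0 1 μ₁ w‖ ≤ 1} ⊆ (fun w : ℂ => c₁ + r₁ * w) ⁻¹' N := by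
    intro w hw
    apply hN₁
    show ‖vv c₁ r₁ μ₁ (c₁ + r₁ * w)‖ ≤ 1
    rw [hv1]
    exact hw
  have hN₂' : {w | ‖vv c' r' μ₂ w‖ ≤ 1} ⊆ (fun w : ℂ => c₁ + r₁ * w) ⁻¹' N := by
    intro w hw
    apply hN₂
    show ‖vv c₂ r₂ μ₂ (c₁ + r₁ * w)‖ ≤ 1
    rw [hv2]
    exact hw
  have hm' : DifferentiableOn ℂ (fun w : ℂ => m (c₁ + r₁ * w)) ((fun w : ℂ => c₁ + r₁ * w) ⁻¹' N) :=
    hm.comp hdiff.differentiableOn (fun w hw => hw)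
  have hid' : ∀ B : ℂ → ℂ, DifferentiableOn ℂ B ((fun w : ℂ => c₁ + r₁ * w) ⁻¹' N) →
      Idn 0 1 μ₁ c' r' μ₂ l (1 / 2) B (fun w => m (c₁ + r₁ * w)) := by
    intro B hB
    have e3 : ∀ w : ℂ, (c₁ + r₁ * w - c₁) / r₁ = w := fun w => by
      rw [add_sub_cancel_left, mul_div_cancel_left₀ _ hrc]
    have hA : DifferentiableOn ℂ (fun z => B ((z - c₁) / r₁)) N := by
      refine hB.comp (f := fun z : ℂ => (z - c₁) / r₁) (by fun_prop) fun z hz => ?_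
      show c₁ + r₁ * ((z - c₁) / r₁) ∈ N
      rw [mul_div_cancel₀ _ hrc, add_sub_cancel]
      exact hz
    have h5 := hid _ hA
    unfold Idn at h5 ⊢
    rw [int_aff c₁ c₁ r₁ μ₁ hr₁, int_aff c₁ c₂ r₂ μ₂ hr₁, RR_aff c₁ c₁ r₁ μ₁ hr₁, RR_aff c₁ c₂ r₂ μ₂ hr₁, e1, e2, ← hc', ← hr',
      ← mul_add, ← mul_add] at h5
    have h6 := mul_left_cancel₀ (pow_ne_zero 2 hrc) h5
    simp only [e3] at h6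
    exact h6
  have hmem : (z - c₁) / r₁ ∈ Dp 0 1 μ₁ 1 := by
    show ‖vv 0 1 μ₁ ((z - c₁) / r₁)‖ < 1
    rw [← hv1, mul_div_cancel₀ _ hrc, add_sub_cancel]
    exact hz
  have h7 : m (c₁ + r₁ * ((z - c₁) / r₁)) = 0 := by
    rcases le_or_gt (dd 0 1 μ₁ c' r' μ₂) δ with hdδ | hdδ
    · exact hnear μ₁ c' r' μ₂ (hμ₁.trans (min_le_right _ _)) (hμ₂.trans (min_le_right _ _)) hd' hdδ l hl _
        (fun w => m (c₁ + r₁ * w)) hN' hN₁' hN₂' hm' hid' _ hmem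
    · exact hfar μ₁ c' r' μ₂ (hμ₁.trans (min_le_left _ _)) (hμ₂.trans (min_le_left _ _)) q2 q3 q1 hdδ.le l (hl.trans hL.le) _
        (fun w => m (c₁ + r₁ * w)) hN' hN₁' hN₂' hm' hid' _ hmem
  rw [mul_div_cancel₀ _ hrc, add_sub_cancel] at h7
  exact h7

theorem main6a {L : ℝ} (hL : L < 1) : ∃ ε : ℝ, 0 < ε ∧ ε ≤ 1 / 100 ∧ ∀ k : ℝ, 0 < k → k ≠ 1 → |(k - 1) / (k + 1)| ≤ L →
    ∀ Ω : Set ℂ, IsOpen Ω → Bornology.IsBounded Ω → IsPreconnected Ω → μH[1] (frontier Ω) < ⊤ →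
    ∀ (c₁ : ℂ) (r₁ : ℝ) (μ₁ c₂ : ℂ) (r₂ : ℝ) (μ₂ : ℂ), 0 < r₂ → r₂ ≤ r₁ → ‖μ₁‖ ≤ ε → ‖μ₂‖ ≤ ε →
    Kp c₁ r₁ μ₁ ⊆ Ω → Kp c₂ r₂ μ₂ ⊆ Ω →
    ∀ (g u₁ u₂ : ℂ → ℝ) (G₁ G₂ : ℂ → ℂ), MemLp g 2 (μH[1].restrict (frontier Ω)) →
    ¬ g =ᵐ[μH[1].restrict (frontier Ω)] 0 →
    SolvesC Ω (MD12.cond k (Dp c₁ r₁ μ₁ 1)) g u₁ G₁ → SolvesC Ω (MD12.cond k (Dp c₂ r₂ μ₂ 1)) g u₂ G₂ →
    SameTrace Ω u₁ u₂ G₁ G₂ → c₁ = c₂ ∧ r₁ = r₂ ∧ μ₁ = μ₂ := by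
  have h0 : (0 : ℝ) ≤ 1 / 100 := by norm_num
  have h1 : (1 / 100 : ℝ) < 1 := by norm_num
  obtain ⟨ρ, hρe⟩ : ∃ ρ : ℝ, ρ = 1 / 2 := ⟨_, rfl⟩
  have hρ0 : 0 < ρ := by rw [hρe]; norm_num
  have hρ1 : ρ < 1 := by rw [hρe]; norm_num
  have hμρ : (1 / 100 : ℝ) < ρ ^ 2 := by rw [hρe]; norm_num
  obtain ⟨η, ε₁, hη, hη1, hε₁, hsm⟩ := small2
  obtain ⟨ε₂, hε₂, hcm⟩ := cmp2 hη hη1 hL
  rw [← hρe] at hsm hcm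
  refine ⟨min (1 / 100) (min ε₁ ε₂), by positivity, min_le_left _ _, ?_⟩
  intro k hk hk1 hkL Ω hΩo hΩb hΩc hσ c₁ r₁ μ₁ c₂ r₂ μ₂ hr₂ hr21 hμ₁' hμ₂' hK₁ hK₂ g u₁ u₂ G₁ G₂ hg hg0 h₁ h₂ ht
  have hμ₁ : ‖μ₁‖ ≤ 1 / 100 := hμ₁'.trans (min_le_left _ _)
  have hμ₂ : ‖μ₂‖ ≤ 1 / 100 := hμ₂'.trans (min_le_left _ _)
  have s₁ : ‖μ₁‖ ≤ ε₁ := hμ₁'.trans ((min_le_right _ _).trans (min_le_left _ _))
  have s₂ : ‖μ₂‖ ≤ ε₁ := hμ₂'.trans ((min_le_right _ _).trans (min_le_left _ _))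
  have t₁ : ‖μ₁‖ ≤ ε₂ := hμ₁'.trans ((min_le_right _ _).trans (min_le_right _ _))
  have t₂ : ‖μ₂‖ ≤ ε₂ := hμ₂'.trans ((min_le_right _ _).trans (min_le_right _ _))
  have hr₁ : 0 < r₁ := hr₂.trans_le hr21
  have hn₁ : ‖μ₁‖ < 1 := hμ₁.trans_lt h1
  have hn₂ : ‖μ₂‖ < 1 := hμ₂.trans_lt h1
  have hDn : (Dp c₁ r₁ μ₁ 1).Nonempty := ⟨c₁, by
    show ‖vv c₁ r₁ μ₁ c₁‖ < 1
    have : vv c₁ r₁ μ₁ c₁ = 0 := by unfold vv; simp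
    rw [this, norm_zero]
    exact one_pos⟩
  have hfin : ¬ ∀ᵐ z ∂volume.restrict (Dp c₁ r₁ μ₁ 1), G₁ z = 0 := fun h =>
    hg0 (Fg hΩo hΩb hΩc hσ (Dp_open _ _ _ _) hDn ((Dp_Kp _ _ _).trans hK₁) hg h₁ h)
  by_cases hd : Disjoint (Kp c₁ r₁ μ₁) (Kp c₂ r₂ μ₂)
  · exfalso
    obtain ⟨M₁, hF₁⟩ := fld_any hΩo hk hk1 hr₁ hn₁ hρ0 (hμ₁.trans_lt hμρ) hρ1 hK₁ h₁
    exact hfin (hF₁.mom fun N A hN hN₁ hA => disj hΩo hΩb hk1 hr₁ hr₂ hn₁ hn₂ hK₁ hK₂ hd h₁ h₂ ht hN hN₁ hA)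
  obtain ⟨M, hM, hid, hz⟩ := pde2 hΩo hΩb hΩc hk hk1 h0 hμρ hρ0 hρ1 hr₁ hr₂ hμ₁ hμ₂ hK₁ hK₂ h₁ h₂ ht
  rcases le_or_gt r₂ (η * r₁) with hcase | hcase
  · exact absurd (hz (hsm c₁ r₁ μ₁ c₂ r₂ μ₂ s₁ s₂ hr₂ hcase hd _ (hkL.trans hL.le) Ω M hΩo hK₁ hK₂ hM hid)) hfin
  · obtain ⟨z₀, hz₁, hz₂⟩ := Set.not_disjoint_iff.1 hd
    have d1 := K_sub hr₁ hn₁ hz₁
    have d2 := K_sub hr₂ hn₂ hz₂
    have hcc : ‖c₂ - c₁‖ ≤ 4 * r₁ := by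
      have : c₂ - c₁ = (z₀ - c₁) - (z₀ - c₂) := by ring
      rw [this]
      refine (norm_sub_le _ _).trans ?_
      linarith
    have hdd : ¬ 0 < dd c₁ r₁ μ₁ c₂ r₂ μ₂ := fun hd0 =>
      hfin (hz (hcm c₁ r₁ μ₁ c₂ r₂ μ₂ t₁ t₂ hr₁ hr21 hcase.le hcc hd0 _ hkL Ω M hΩo hK₁ hK₂ hM hid))
    have h5 : dd c₁ r₁ μ₁ c₂ r₂ μ₂ ≤ 0 := not_lt.1 hdd
    unfold dd at h5
    have a1 := norm_nonneg (c₁ - c₂)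
    have a2 := abs_nonneg (r₁ - r₂)
    have a3 := norm_nonneg (μ₁ - μ₂)
    have h6 : ‖c₁ - c₂‖ = 0 := by linarith
    have h7 : |r₁ - r₂| = 0 := by linarith
    have h8 : ‖μ₁ - μ₂‖ = 0 := by linarith
    exact ⟨sub_eq_zero.1 (norm_eq_zero.1 h6), sub_eq_zero.1 (abs_eq_zero.1 h7), sub_eq_zero.1 (norm_eq_zero.1 h8)⟩

theorem main6 {L : ℝ} (hL : L < 1) : ∃ ε : ℝ, 0 < ε ∧ ε ≤ 1 / 100 ∧ ∀ k : ℝ, 0 < k → k ≠ 1 → |(k - 1) / (k + 1)| ≤ L →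
    ∀ Ω : Set ℂ, IsOpen Ω → Bornology.IsBounded Ω → IsPreconnected Ω → μH[1] (frontier Ω) < ⊤ →
    ∀ (c₁ : ℂ) (r₁ : ℝ) (μ₁ c₂ : ℂ) (r₂ : ℝ) (μ₂ : ℂ), 0 < r₁ → 0 < r₂ → ‖μ₁‖ ≤ ε → ‖μ₂‖ ≤ ε →
    Kp c₁ r₁ μ₁ ⊆ Ω → Kp c₂ r₂ μ₂ ⊆ Ω →
    ∀ (g u₁ u₂ : ℂ → ℝ) (G₁ G₂ : ℂ → ℂ), MemLp g 2 (μH[1].restrict (frontier Ω)) →
    ¬ g =ᵐ[μH[1].restrict (frontier Ω)] 0 →
    SolvesC Ω (MD12.cond k (Dp c₁ r₁ μ₁ 1)) g u₁ G₁ → SolvesC Ω (MD12.cond k (Dp c₂ r₂ μ₂ 1)) g u₂ G₂ →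
    SameTrace Ω u₁ u₂ G₁ G₂ → c₁ = c₂ ∧ r₁ = r₂ ∧ μ₁ = μ₂ := by
  obtain ⟨ε, hε, hε1, h⟩ := main6a hL
  refine ⟨ε, hε, hε1, ?_⟩
  intro k hk hk1 hkε Ω hΩo hΩb hΩc hσ c₁ r₁ μ₁ c₂ r₂ μ₂ hr₁ hr₂ hμ₁ hμ₂ hK₁ hK₂ g u₁ u₂ G₁ G₂ hg hg0 h₁ h₂ ht
  rcases le_total r₂ r₁ with hle | hle
  · exact h k hk hk1 hkε Ω hΩo hΩb hΩc hσ c₁ r₁ μ₁ c₂ r₂ μ₂ hr₂ hle hμ₁ hμ₂ hK₁ hK₂ g u₁ u₂ G₁ G₂ hg hg0 h₁ h₂ ht
  · obtain ⟨e1, e2, e3⟩ := h k hk hk1 hkε Ω hΩo hΩb hΩc hσ c₂ r₂ μ₂ c₁ r₁ μ₁ hr₁ hle hμ₂ hμ₁ hK₂ hK₁ g u₂ u₁ G₂ G₁ hg hg0 h₂ h₁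
      (trace_symm ht)
    exact ⟨e1.symm, e2.symm, e3.symm⟩


end ND1
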