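import Pool.Agent.H1.EW.T
import Pool.Agent.H1.EX.D

/-!
# ND: nearly circular ellipses, every conductivity: definitions

Sequences of pairs of ellipses `(0, 1, μ₁ j)`, `(c₂ j, r₂ j, μ₂ j)` with `μ₁ j, μ₂ j → 0` and distance `d j → 0`.
-/

set_option autoImplicit false

namespace ND1

open Complex Set Filter Topology MeasureTheory EW1 EX1
open scoped ComplexConjugate ContDiff Real

/-- a sequence of pairs of ellipses, the first one is `(0, 1, μ₁ j)`, the second one `(c₂ j, r₂ j, μ₂ j)` -/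
structure Sq where
  μ₁ : ℕ → ℂ
  c₂ : ℕ → ℂ
  r₂ : ℕ → ℝ
  μ₂ : ℕ → ℂ

/-- distance of the parameters -/
noncomputable def Sq.d (S : Sq) (j : ℕ) : ℝ := dd 0 1 (S.μ₁ j) (S.c₂ j) (S.r₂ j) (S.μ₂ j)

/-- the first ellipse, scaled by `σ` -/
def Sq.E₁ (S : Sq) (σ : ℝ) (j : ℕ) : Set ℂ := Dp 0 1 (S.μ₁ j) σ

def Sq.E₂ (S : Sq) (σ : ℝ) (j : ℕ) : Set ℂ := Dp (S.c₂ j) (S.r₂ j) (S.μ₂ j) σ

/-- the closed ellipses -/
def Sq.K₁ (S : Sq) (j : ℕ) : Set ℂ := Kp 0 1 (S.μ₁ j)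

def Sq.K₂ (S : Sq) (j : ℕ) : Set ℂ := Kp (S.c₂ j) (S.r₂ j) (S.μ₂ j)

/-- the difference of the quadratic polynomials -/
noncomputable def Sq.UU (S : Sq) (j : ℕ) (z : ℂ) : ℝ := QQ (S.c₂ j) (S.r₂ j) (S.μ₂ j) z - QQ 0 1 (S.μ₁ j) z

/-- the symmetric difference of the two open ellipses -/
def Sq.EE (S : Sq) (j : ℕ) : Set ℂ := (S.E₁ 1 j \ S.E₂ 1 j) ∪ (S.E₂ 1 j \ S.E₁ 1 j)

/-- the error form of the first ellipse (radius of integration `1/2`) -/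
noncomputable def Sq.R₁ (S : Sq) (l : ℕ → ℝ) (A m : ℕ → ℂ → ℂ) (j : ℕ) : ℂ := RR 0 1 (S.μ₁ j) (l j) (A j) (m j) (1 / 2)

noncomputable def Sq.R₂ (S : Sq) (l : ℕ → ℝ) (A m : ℕ → ℂ → ℂ) (j : ℕ) : ℂ :=
  RR (S.c₂ j) (S.r₂ j) (S.μ₂ j) (l j) (A j) (m j) (1 / 2)

/-- limits: `c₂/d → γ`, `(r₂ - 1)/d → a`, `(μ₂ - μ₁)/d → β` -/
structure Lim (S : Sq) (a : ℝ) (γ β : ℂ) : Prop where
  pos : ∀ j, 0 < S.d j
  small : ∀ j, S.d j ≤ 1 / 100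
  m1 : ∀ j, ‖S.μ₁ j‖ ≤ 1 / 100
  m2 : ∀ j, ‖S.μ₂ j‖ ≤ 1 / 100
  lm1 : Tendsto S.μ₁ atTop (𝓝 0)
  lm2 : Tendsto S.μ₂ atTop (𝓝 0)
  ld : Tendsto S.d atTop (𝓝 0)
  lc : Tendsto (fun j => S.c₂ j / (S.d j : ℂ)) atTop (𝓝 γ)
  lr : Tendsto (fun j => (S.r₂ j - 1) / S.d j) atTop (𝓝 a)
  lb : Tendsto (fun j => (S.μ₂ j - S.μ₁ j) / (S.d j : ℂ)) atTop (𝓝 β)

/-- a locally bounded sequence of functions, holomorphic near the closed ellipses, with a limit on the unit disk -/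
structure LB (S : Sq) (F : ℕ → ℂ → ℂ) (F₀ : ℂ → ℂ) : Prop where
  hol : ∀ j, ∃ N : Set ℂ, IsOpen N ∧ S.K₁ j ⊆ N ∧ S.K₂ j ⊆ N ∧ DifferentiableOn ℂ (F j) N
  bd : ∀ σ : ℝ, 0 < σ → σ < 1 → ∃ C : ℝ, ∀ j z, z ∈ S.E₁ σ j ∪ S.E₂ σ j → ‖F j z‖ ≤ C
  hol0 : DifferentiableOn ℂ F₀ (Metric.ball 0 1)
  lim : ∀ z ∈ Metric.ball (0 : ℂ) 1, Tendsto (fun j => F j z) atTop (𝓝 (F₀ z))

/-- the background fields of solutions: the identity holds, normalized -/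
structure Sol (S : Sq) (l : ℕ → ℝ) (N : ℕ → Set ℂ) (m : ℕ → ℂ → ℂ) : Prop where
  opn : ∀ j, IsOpen (N j)
  sub₁ : ∀ j, S.K₁ j ⊆ N j
  sub₂ : ∀ j, S.K₂ j ⊆ N j
  hol : ∀ j, DifferentiableOn ℂ (m j) (N j)
  idn : ∀ j (A : ℂ → ℂ), DifferentiableOn ℂ A (N j) →
    Idn 0 1 (S.μ₁ j) (S.c₂ j) (S.r₂ j) (S.μ₂ j) (l j) (1 / 2) A (m j)
  nn : ∀ j, NN 0 1 (S.μ₁ j) (S.c₂ j) (S.r₂ j) (S.μ₂ j) (m j) = S.d j ^ 2

/-- the point `e^(it)/2` -/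
noncomputable def pt (t : ℝ) : ℂ := (1 / 2 : ℂ) * exp (t * I)

/-- Laurent coefficient, on the circle of radius `1/2` -/
noncomputable def co (F : ℂ → ℂ) (n : ℤ) : ℂ := (∫ t in (0 : ℝ)..(2 * π), F (pt t) * pt t ^ (-n)) / (2 * π)

/-- the normal displacement `h` on the unit circle (and its extension as a real polynomial) -/
noncomputable def hf (a : ℝ) (γ β z : ℂ) : ℝ := a + (conj γ * z).re + (conj β * z ^ 2).re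

/-- the polynomial `z² h` -/
noncomputable def Hf (a : ℝ) (γ β z : ℂ) : ℂ := β / 2 + γ / 2 * z + a * z ^ 2 + conj γ / 2 * z ^ 3 + conj β / 2 * z ^ 4

/-- integral over the unit circle with weight `h` -/
noncomputable def hint (a : ℝ) (γ β : ℂ) (f : ℂ → ℝ) : ℝ := ∫ t in (0 : ℝ)..(2 * π), hf a γ β (exp (t * I)) * f (exp (t * I))

end ND1
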