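import Pool.Agent.H1.ND.Na
import Pool.Agent.H1.ND.Nb

/-!
ROW ND/Nc. First variation of the moments: `PM` (`ND/Na.lean`) for both ellipses, `fcL`, `fcD` (`ND/Nb.lean`) for `F` and for the constant sequence `z^b` (`LB` for it; `co (z^b) n = 1` if `n = b`, else `0`), `(1 - ‖μ‖^(2n)) → 1` and `(‖μ₂‖^(2n) - ‖μ₁‖^(2n))/d → 0`. Product rule for the difference quotients (finite sum):
limit `π [ (γ co (b+1) + a co b + β co (b+2)) + ∑_{n=0}^{b} co F₀ n conj (γ δ_{n+1,b} + a δ_{n,b} + β δ_{n+2,b}) ]`, which is the right side (`co F₀ n = 0` for `n < 0`: Cauchy).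
`LB.mul`, `LB.poly`: products; entire functions.
-/

set_option autoImplicit false

namespace ND1

open Complex Set Filter Topology MeasureTheory EW1 EX1
open scoped ComplexConjugate ContDiff Real

theorem LB.mul {S : Sq} {F G : ℕ → ℂ → ℂ} {F₀ G₀ : ℂ → ℂ} (hF : LB S F F₀) (hG : LB S G G₀) :
    LB S (fun j z => F j z * G j z) (fun z => F₀ z * G₀ z) := by
  refine ⟨fun j => ?_, fun σ hσ hσ1 => ?_, hF.hol0.mul hG.hol0, fun z hz => (hF.lim z hz).mul (hG.lim z hz)⟩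
  · obtain ⟨N, hN, h1, h2, h3⟩ := hF.hol j
    obtain ⟨N', hN', h1', h2', h3'⟩ := hG.hol j
    exact ⟨N ∩ N', hN.inter hN', subset_inter h1 h1', subset_inter h2 h2',
      (h3.mono inter_subset_left).mul (h3'.mono inter_subset_right)⟩
  · obtain ⟨C, hC⟩ := hF.bd σ hσ hσ1
    obtain ⟨C', hC'⟩ := hG.bd σ hσ hσ1
    refine ⟨|C| * |C'|, fun j z hz => ?_⟩
    rw [norm_mul]
    exact mul_le_mul ((hC j z hz).trans (le_abs_self C)) ((hC' j z hz).trans (le_abs_self C')) (norm_nonneg _)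
      (abs_nonneg _)

theorem Lim.facts {S : Sq} {a : ℝ} {γ β : ℂ} (hS : Lim S a γ β) (j : ℕ) :
    99 / 100 ≤ S.r₂ j ∧ S.r₂ j ≤ 101 / 100 ∧ ‖S.c₂ j‖ ≤ 1 / 100 ∧ ‖S.μ₁ j - S.μ₂ j‖ ≤ S.d j := by
  have h1 := hS.small j
  have h2 : S.d j = ‖(0 : ℂ) - S.c₂ j‖ + |1 - S.r₂ j| + ‖S.μ₁ j - S.μ₂ j‖ := rfl
  have h3 := norm_nonneg ((0 : ℂ) - S.c₂ j)
  have h4 := abs_nonneg (1 - S.r₂ j)
  have h5 := norm_nonneg (S.μ₁ j - S.μ₂ j)
  have h6 : |1 - S.r₂ j| ≤ 1 / 100 := by linarith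
  rw [abs_le] at h6
  refine ⟨by linarith [h6.2], by linarith [h6.1], ?_, by linarith⟩
  have h7 : ‖S.c₂ j‖ = ‖(0 : ℂ) - S.c₂ j‖ := by rw [zero_sub, norm_neg]
  rw [h7]
  linarith

theorem LB.const {S : Sq} {a : ℝ} {γ β : ℂ} (hS : Lim S a γ β) {f : ℂ → ℂ} (hf : Differentiable ℂ f) : LB S (fun _ => f) f := by
  refine ⟨fun j => ⟨univ, isOpen_univ, subset_univ _, subset_univ _, hf.differentiableOn⟩, fun σ hσ hσ1 => ?_,
    hf.differentiableOn, fun z _ => tendsto_const_nhds⟩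
  obtain ⟨C, hC⟩ := (isCompact_closedBall (0 : ℂ) 3).exists_bound_of_continuousOn hf.continuous.continuousOn
  refine ⟨C, fun j z hz => hC z ?_⟩
  obtain ⟨f1, f2, f3, -⟩ := hS.facts j
  rcases hz with hz | hz
  · have h1 := Dp_ball (c := 0) (r := 1) one_pos (μ := S.μ₁ j) (by linarith [hS.m1 j]) (σ := σ) hz
    rw [Metric.mem_ball, dist_zero_right] at h1
    rw [Metric.mem_closedBall, dist_zero_right]
    linarith
  · have h1 := Dp_ball (c := S.c₂ j) (r := S.r₂ j) (by linarith) (μ := S.μ₂ j) (by linarith [hS.m2 j]) (σ := σ) hz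
    rw [Metric.mem_ball, dist_eq_norm] at h1
    rw [Metric.mem_closedBall, dist_zero_right]
    have h2 : ‖z‖ ≤ ‖z - S.c₂ j‖ + ‖S.c₂ j‖ := by
      have := norm_add_le (z - S.c₂ j) (S.c₂ j)
      rwa [sub_add_cancel] at this
    nlinarith

theorem pt_ne (t : ℝ) : pt t ≠ 0 := mul_ne_zero (by norm_num) (Complex.exp_ne_zero _)

theorem pt_zpow (t : ℝ) (m : ℤ) : pt t ^ m = (1 / 2 : ℂ) ^ m * exp (((m : ℂ) * I) * t) := by
  unfold pt
  rw [mul_zpow, ← Complex.exp_int_mul]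
  congr 2
  ring

theorem int_pt (m : ℤ) : ∫ t in (0 : ℝ)..(2 * π), pt t ^ m = if m = 0 then (2 * π : ℂ) else 0 := by
  by_cases hm : m = 0
  · rw [if_pos hm, hm]
    simp
  · rw [if_neg hm]
    have h1 : ∫ t in (0 : ℝ)..(2 * π), pt t ^ m = ∫ t in (0 : ℝ)..(2 * π), (1 / 2 : ℂ) ^ m * exp (((m : ℂ) * I) * t) :=
      intervalIntegral.integral_congr fun t _ => pt_zpow t m
    have h2 : ((m : ℂ) * I) ≠ 0 := mul_ne_zero (Int.cast_ne_zero.2 hm) I_ne_zero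
    rw [h1, intervalIntegral.integral_const_mul, integral_exp_mul_complex h2]
    have h3 : exp ((m : ℂ) * I * ((2 * π : ℝ) : ℂ)) = 1 := by
      have h4 : (m : ℂ) * I * ((2 * π : ℝ) : ℂ) = (m : ℂ) * (2 * π * I) := by push_cast; ring
      rw [h4]
      exact Complex.exp_int_mul_two_pi_mul_I m
    rw [h3]
    simp

theorem co_pow (b : ℕ) (m : ℤ) : co (fun z => z ^ b) m = if m = (b : ℤ) then 1 else 0 := by
  unfold co
  have h1 : ∫ t in (0 : ℝ)..(2 * π), pt t ^ b * pt t ^ (-m) = ∫ t in (0 : ℝ)..(2 * π), pt t ^ ((b : ℤ) - m) := by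
    refine intervalIntegral.integral_congr fun t _ => ?_
    show pt t ^ b * pt t ^ (-m) = pt t ^ ((b : ℤ) - m)
    rw [sub_eq_add_neg, zpow_add₀ (pt_ne t), zpow_natCast]
  rw [h1, int_pt]
  have hpi : (2 * π : ℂ) ≠ 0 := by
    have := Real.pi_pos.ne'
    have h2 : (π : ℂ) ≠ 0 := Complex.ofReal_ne_zero.2 this
    exact mul_ne_zero two_ne_zero h2
  by_cases hm : m = (b : ℤ)
  · rw [if_pos hm, if_pos (by omega), div_self hpi]
  · rw [if_neg hm, if_neg (by omega), zero_div]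

theorem co_neg {F₀ : ℂ → ℂ} (h : DifferentiableOn ℂ F₀ (Metric.ball 0 1)) {m : ℤ} (hm : m < 0) : co F₀ m = 0 := by
  unfold co
  obtain ⟨k, hk⟩ : ∃ k : ℕ, -m = (k : ℤ) + 1 := ⟨(-m - 1).toNat, by omega⟩
  have h1 : DifferentiableOn ℂ (fun z => F₀ z * z ^ k) (Metric.closedBall 0 (1 / 2)) :=
    (h.mono (Metric.closedBall_subset_ball (by norm_num))).mul (differentiable_id.pow k).differentiableOn
  have h2 : (∮ z in C(0, 1 / 2), F₀ z * z ^ k) = 0 := by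
    refine Complex.circleIntegral_eq_zero_of_differentiable_on_off_countable (by norm_num) Set.countable_empty
      h1.continuousOn fun z hz => ?_
    exact (h1.mono Metric.ball_subset_closedBall).differentiableAt (Metric.isOpen_ball.mem_nhds hz.1)
  have h3 : (∮ z in C(0, 1 / 2), F₀ z * z ^ k) = I * ∫ t in (0 : ℝ)..(2 * π), F₀ (pt t) * pt t ^ (-m) := by
    rw [circleIntegral, ← intervalIntegral.integral_const_mul]
    refine intervalIntegral.integral_congr fun t _ => ?_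
    have h4 : circleMap 0 (1 / 2) t = pt t := by
      unfold circleMap pt
      push_cast
      ring
    show deriv (circleMap 0 (1 / 2)) t • (F₀ (circleMap 0 (1 / 2) t) * circleMap 0 (1 / 2) t ^ k) = _
    rw [deriv_circleMap, h4, hk, zpow_add_one₀ (pt_ne t), zpow_natCast, smul_eq_mul]
    ring
  rw [h3] at h2
  rw [(mul_eq_zero.1 h2).resolve_left I_ne_zero, zero_div]

theorem wlim {S : Sq} {a : ℝ} {γ β : ℂ} (hS : Lim S a γ β) (n : ℕ) :
    Tendsto (fun j => (((1 - ‖S.μ₂ j‖ ^ (2 * (n + 1)) : ℝ) : ℂ) - ((1 - ‖S.μ₁ j‖ ^ (2 * (n + 1)) : ℝ) : ℂ)) / (S.d j : ℂ))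
      atTop (𝓝 0) := by
  have hx : Tendsto (fun j => ‖S.μ₁ j‖) atTop (𝓝 0) := by
    have := hS.lm1.norm
    rwa [norm_zero] at this
  have hy : Tendsto (fun j => ‖S.μ₂ j‖) atTop (𝓝 0) := by
    have := hS.lm2.norm
    rwa [norm_zero] at this
  have hg : Tendsto (fun j => ∑ i ∈ Finset.range (2 * (n + 1)), ‖S.μ₁ j‖ ^ i * ‖S.μ₂ j‖ ^ (2 * (n + 1) - 1 - i))
      atTop (𝓝 0) := by
    have h1 : Tendsto (fun j => ∑ i ∈ Finset.range (2 * (n + 1)), ‖S.μ₁ j‖ ^ i * ‖S.μ₂ j‖ ^ (2 * (n + 1) - 1 - i))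
        atTop (𝓝 (∑ i ∈ Finset.range (2 * (n + 1)), (0 : ℝ) ^ i * (0 : ℝ) ^ (2 * (n + 1) - 1 - i))) :=
      tendsto_finsetSum _ fun i _ => (hx.pow i).mul (hy.pow _)
    have h2 : ∑ i ∈ Finset.range (2 * (n + 1)), (0 : ℝ) ^ i * (0 : ℝ) ^ (2 * (n + 1) - 1 - i) = 0 := by
      refine Finset.sum_eq_zero fun i _ => ?_
      rcases Nat.eq_zero_or_pos i with h | h
      · rw [h, pow_zero, one_mul, zero_pow (by omega)]
      · rw [zero_pow (by omega), zero_mul]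
    rwa [h2] at h1
  refine squeeze_zero_norm (fun j => ?_) hg
  have hd := hS.pos j
  have h1 := geom_sum₂_mul ‖S.μ₁ j‖ ‖S.μ₂ j‖ (2 * (n + 1))
  have h2 : (((1 - ‖S.μ₂ j‖ ^ (2 * (n + 1)) : ℝ) : ℂ) - ((1 - ‖S.μ₁ j‖ ^ (2 * (n + 1)) : ℝ) : ℂ)) / (S.d j : ℂ)
      = (((∑ i ∈ Finset.range (2 * (n + 1)), ‖S.μ₁ j‖ ^ i * ‖S.μ₂ j‖ ^ (2 * (n + 1) - 1 - i)) *
        (‖S.μ₁ j‖ - ‖S.μ₂ j‖) / S.d j : ℝ) : ℂ) := by
    rw [h1]
    push_cast
    ring
  have hg0 : 0 ≤ ∑ i ∈ Finset.range (2 * (n + 1)), ‖S.μ₁ j‖ ^ i * ‖S.μ₂ j‖ ^ (2 * (n + 1) - 1 - i) :=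
    Finset.sum_nonneg fun i _ => by positivity
  rw [h2, Complex.norm_real, Real.norm_eq_abs, mul_div_assoc, abs_mul, abs_of_nonneg hg0]
  refine mul_le_of_le_one_right hg0 ?_
  rw [abs_div, abs_of_pos hd, div_le_one hd]
  exact (abs_norm_sub_norm_le _ _).trans (hS.facts j).2.2.2

theorem wone {S : Sq} {a : ℝ} {γ β : ℂ} (hS : Lim S a γ β) (n : ℕ) :
    Tendsto (fun j => ((1 - ‖S.μ₁ j‖ ^ (2 * (n + 1)) : ℝ) : ℂ)) atTop (𝓝 1) := by
  have hx : Tendsto (fun j => ‖S.μ₁ j‖) atTop (𝓝 0) := by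
    have := hS.lm1.norm
    rwa [norm_zero] at this
  have h1 : Tendsto (fun j => (1 - ‖S.μ₁ j‖ ^ (2 * (n + 1)) : ℝ)) atTop (𝓝 (1 - 0 ^ (2 * (n + 1)))) :=
    tendsto_const_nhds.sub (hx.pow _)
  rw [zero_pow (by omega), sub_zero] at h1
  have h2 := (Complex.continuous_ofReal.tendsto (1 : ℝ)).comp h1
  simpa [Function.comp_def] using h2

theorem E1lim {S : Sq} {a : ℝ} {γ β : ℂ} (hS : Lim S a γ β) {F : ℕ → ℂ → ℂ} {F₀ : ℂ → ℂ} (hF : LB S F F₀) (b : ℕ) :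
    Tendsto (fun j => ((∫ z in S.E₂ 1 j, F j z * conj z ^ b) - ∫ z in S.E₁ 1 j, F j z * conj z ^ b) / (S.d j : ℂ)) atTop
      (𝓝 (2 * π * (a * co F₀ b + conj γ / 2 * co F₀ (b - 1) + γ / 2 * co F₀ (b + 1) + conj β / 2 * co F₀ (b - 2) +
        β / 2 * co F₀ (b + 2)))) := by
  have hG : LB S (fun _ z => z ^ b) (fun z => z ^ b) := LB.const hS (differentiable_id.pow b)
  obtain ⟨A1, hA1⟩ : ∃ A1 : ℕ → ℕ → ℂ, ∀ n j, A1 n j = fc 0 1 (S.μ₁ j) (F j) (1 / 2) (n + 1) := ⟨_, fun _ _ => rfl⟩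
  obtain ⟨A2, hA2⟩ : ∃ A2 : ℕ → ℕ → ℂ, ∀ n j, A2 n j = fc (S.c₂ j) (S.r₂ j) (S.μ₂ j) (F j) (1 / 2) (n + 1) :=
    ⟨_, fun _ _ => rfl⟩
  obtain ⟨B1, hB1⟩ : ∃ B1 : ℕ → ℕ → ℂ, ∀ n j, B1 n j = fc 0 1 (S.μ₁ j) (fun z => z ^ b) (1 / 2) (n + 1) :=
    ⟨_, fun _ _ => rfl⟩
  obtain ⟨B2, hB2⟩ : ∃ B2 : ℕ → ℕ → ℂ, ∀ n j, B2 n j = fc (S.c₂ j) (S.r₂ j) (S.μ₂ j) (fun z => z ^ b) (1 / 2) (n + 1) :=
    ⟨_, fun _ _ => rfl⟩
  have e : ∀ j, ((∫ z in S.E₂ 1 j, F j z * conj z ^ b) - ∫ z in S.E₁ 1 j, F j z * conj z ^ b) / (S.d j : ℂ)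
      = π * ∑ n ∈ Finset.range (b + 1), (1 / ((n : ℂ) + 1)) *
        ((((1 - ‖S.μ₂ j‖ ^ (2 * (n + 1)) : ℝ) : ℂ) - ((1 - ‖S.μ₁ j‖ ^ (2 * (n + 1)) : ℝ) : ℂ)) / (S.d j : ℂ) *
            (A2 n j * conj (B2 n j)) +
          ((1 - ‖S.μ₁ j‖ ^ (2 * (n + 1)) : ℝ) : ℂ) * (((A2 n j - A1 n j) / (S.d j : ℂ)) * conj (B2 n j)) +
          ((1 - ‖S.μ₁ j‖ ^ (2 * (n + 1)) : ℝ) : ℂ) * (A1 n j * conj ((B2 n j - B1 n j) / (S.d j : ℂ)))) := by
    intro j
    obtain ⟨N, hN, hK1, hK2, hD⟩ := hF.hol j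
    obtain ⟨f1, f2, f3, -⟩ := hS.facts j
    have p1 := PM (c := 0) (r := 1) one_pos (μ := S.μ₁ j) (ρ := 1 / 2) (by norm_num) (by norm_num; linarith [hS.m1 j])
      (by norm_num) hN hK1 hD b
    have p2 := PM (c := S.c₂ j) (r := S.r₂ j) (by linarith) (μ := S.μ₂ j) (ρ := 1 / 2) (by norm_num)
      (by norm_num; linarith [hS.m2 j]) (by norm_num) hN hK2 hD b
    have hd : (S.d j : ℂ) ≠ 0 := Complex.ofReal_ne_zero.2 (hS.pos j).ne'
    change ((∫ z in Dp (S.c₂ j) (S.r₂ j) (S.μ₂ j) 1, F j z * conj z ^ b) - ∫ z in Dp 0 1 (S.μ₁ j) 1, F j z * conj z ^ b)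
      / (S.d j : ℂ) = _
    rw [p1, p2, ← mul_sub, ← Finset.sum_sub_distrib, mul_div_assoc, Finset.sum_div]
    congr 1
    refine Finset.sum_congr rfl fun n _ => ?_
    rw [← hA1, ← hA2, ← hB1, ← hB2, map_div₀, map_sub, Complex.conj_ofReal]
    have hn : (n : ℂ) + 1 ≠ 0 := Nat.cast_add_one_ne_zero n
    field_simp
    ring
  have hlim : ∀ n : ℕ, Tendsto (fun j => (1 / ((n : ℂ) + 1)) *
        ((((1 - ‖S.μ₂ j‖ ^ (2 * (n + 1)) : ℝ) : ℂ) - ((1 - ‖S.μ₁ j‖ ^ (2 * (n + 1)) : ℝ) : ℂ)) / (S.d j : ℂ) *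
            (A2 n j * conj (B2 n j)) +
          ((1 - ‖S.μ₁ j‖ ^ (2 * (n + 1)) : ℝ) : ℂ) * (((A2 n j - A1 n j) / (S.d j : ℂ)) * conj (B2 n j)) +
          ((1 - ‖S.μ₁ j‖ ^ (2 * (n + 1)) : ℝ) : ℂ) * (A1 n j * conj ((B2 n j - B1 n j) / (S.d j : ℂ))))) atTop
      (𝓝 ((γ * co F₀ (n + 1) + a * co F₀ n + β * co F₀ (n + 2)) * (if n = b then 1 else 0) +
        co F₀ n * (conj γ * (if n + 1 = b then 1 else 0) + a * (if n = b then 1 else 0) +
          conj β * (if n + 2 = b then 1 else 0)))) := by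
    intro n
    obtain ⟨LA1, LA2⟩ := fcL hS hF n
    obtain ⟨LB1, LB2⟩ := fcL hS hG n
    have DA := fcD hS hF n
    have DB := fcD hS hG n
    simp only [← hA1, ← hA2, ← hB1, ← hB2] at LA1 LA2 LB1 LB2 DA DB
    have c0 : co (fun z => z ^ b) (n : ℤ) = if n = b then 1 else 0 := by
      rw [co_pow]
      by_cases h : n = b
      · rw [if_pos h, if_pos (by exact_mod_cast h)]
      · rw [if_neg h, if_neg (by exact_mod_cast h)]
    have c1 : co (fun z => z ^ b) ((n : ℤ) + 1) = if n + 1 = b then 1 else 0 := by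
      rw [co_pow]
      by_cases h : n + 1 = b
      · rw [if_pos h, if_pos (by exact_mod_cast h)]
      · rw [if_neg h, if_neg (by exact_mod_cast h)]
    have c2 : co (fun z => z ^ b) ((n : ℤ) + 2) = if n + 2 = b then 1 else 0 := by
      rw [co_pow]
      by_cases h : n + 2 = b
      · rw [if_pos h, if_pos (by exact_mod_cast h)]
      · rw [if_neg h, if_neg (by exact_mod_cast h)]
    rw [c0] at LB1 LB2
    rw [c0, c1, c2] at DB
    have hconj : ∀ {u : ℕ → ℂ} {v : ℂ}, Tendsto u atTop (𝓝 v) → Tendsto (fun j => conj (u j)) atTop (𝓝 (conj v)) :=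
      fun {u v} h => (Complex.continuous_conj.tendsto v).comp h
    have T := ((((wlim hS n).mul (LA2.mul (hconj LB2))).add ((wone hS n).mul (DA.mul (hconj LB2)))).add
      ((wone hS n).mul (LA1.mul (hconj DB)))).const_mul (1 / ((n : ℂ) + 1))
    refine T.congr' ?_ |>.trans ?_
    · exact Filter.Eventually.of_forall fun j => rfl
    · apply le_of_eq
      congr 1
      have hn : (n : ℂ) + 1 ≠ 0 := Nat.cast_add_one_ne_zero n
      have i0 : ∀ (p : Prop) [Decidable p], conj (if p then (1 : ℂ) else 0) = if p then 1 else 0 := by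
        intro p _
        split_ifs
        · exact map_one _
        · exact map_zero _
      simp only [map_mul, map_add, Complex.conj_ofReal, map_natCast, map_one, i0]
      field_simp
      ring
  have hsum := (tendsto_finsetSum (Finset.range (b + 1)) fun n _ => hlim n).const_mul (π : ℂ)
  refine (hsum.congr fun j => (e j).symm).trans (le_of_eq ?_)
  congr 1
  have s0 : ∑ n ∈ Finset.range (b + 1), (γ * co F₀ (n + 1) + a * co F₀ n + β * co F₀ (n + 2)) * (if n = b then (1 : ℂ) else 0)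
      = γ * co F₀ (b + 1) + a * co F₀ b + β * co F₀ (b + 2) := by
    rw [Finset.sum_eq_single b]
    · rw [if_pos rfl, mul_one]
    · intro n _ hn
      rw [if_neg hn, mul_zero]
    · intro h
      exact absurd (Finset.mem_range.2 (Nat.lt_succ_self b)) h
  have s1 : ∑ n ∈ Finset.range (b + 1), co F₀ n * (if n = b then (1 : ℂ) else 0) = co F₀ b := by
    rw [Finset.sum_eq_single b]
    · rw [if_pos rfl, mul_one]
    · intro n _ hn
      rw [if_neg hn, mul_zero]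
    · intro h
      exact absurd (Finset.mem_range.2 (Nat.lt_succ_self b)) h
  have s2 : ∑ n ∈ Finset.range (b + 1), co F₀ n * (if n + 1 = b then (1 : ℂ) else 0) = co F₀ (b - 1) := by
    rcases b with _ | b
    · rw [co_neg hF.hol0 (by norm_num)]
      refine Finset.sum_eq_zero fun n _ => ?_
      rw [if_neg (by omega), mul_zero]
    · rw [Finset.sum_eq_single b]
      · rw [if_pos rfl, mul_one]
        congr 1
        push_cast
        ring
      · intro n _ hn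
        rw [if_neg (by omega), mul_zero]
      · intro h
        exact absurd (Finset.mem_range.2 (by omega)) h
  have s3 : ∑ n ∈ Finset.range (b + 1), co F₀ n * (if n + 2 = b then (1 : ℂ) else 0) = co F₀ (b - 2) := by
    rcases b with _ | _ | b
    · rw [co_neg hF.hol0 (by norm_num)]
      refine Finset.sum_eq_zero fun n _ => ?_
      rw [if_neg (by omega), mul_zero]
    · rw [co_neg hF.hol0 (by norm_num)]
      refine Finset.sum_eq_zero fun n _ => ?_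
      rw [if_neg (by omega), mul_zero]
    · rw [Finset.sum_eq_single b]
      · rw [if_pos rfl, mul_one]
        congr 1
        push_cast
        ring
      · intro n _ hn
        rw [if_neg (by omega), mul_zero]
      · intro h
        exact absurd (Finset.mem_range.2 (by omega)) h
  have stot : ∑ n ∈ Finset.range (b + 1), ((γ * co F₀ (n + 1) + a * co F₀ n + β * co F₀ (n + 2)) * (if n = b then (1 : ℂ) else 0) +
        co F₀ n * (conj γ * (if n + 1 = b then 1 else 0) + a * (if n = b then 1 else 0) +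
          conj β * (if n + 2 = b then 1 else 0)))
      = (γ * co F₀ (b + 1) + a * co F₀ b + β * co F₀ (b + 2)) + (conj γ * co F₀ (b - 1) + a * co F₀ b + conj β * co F₀ (b - 2)) := by
    rw [Finset.sum_add_distrib, s0]
    congr 1
    rw [← s1, ← s2, ← s3, Finset.mul_sum, Finset.mul_sum, Finset.mul_sum, ← Finset.sum_add_distrib, ← Finset.sum_add_distrib]
    refine Finset.sum_congr rfl fun n _ => ?_
    ring
  rw [stot]
  ring

end ND1
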